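import Pool.Agent.Lib.MP_1a91b9_ntT.DG.ZA1
import Pool.Agent.Lib.MP_1a91b9_ntT.Rg.Vm

/-!
# DG (7.3): continuation and value of the residual L-series over `K`
-/

set_option autoImplicit false
set_option linter.unusedSectionVars false

namespace Pool.Agent.Lib.MP_1a91b9_ntT.DG

open NumberField IsDedekindDomain WeierstrassCurve DB S3

noncomputable section

theorem za_embK_ne {a : 𝓞 K} (ha : a ≠ 0) : embK (a : K) ≠ 0 := by
  rw [map_ne_zero]
  intro h
  exact ha (RingOfIntegers.ext h)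

theorem summable_all {s : ℂ} (hs : 2 < s.re) : Summable fun a : 𝓞 K =>
    (starRingEnd ℂ) (embK (a : K)) * ((‖embK (a : K)‖ : ℝ) : ℂ) ^ (-2 * s) := by
  have h1 : Summable fun l : PP.lattice => ‖(l : ℂ)‖ ^ (1 - 2 * s.re) := by
    refine ZLattice.summable_norm_rpow PP.lattice _ ?_
    rw [ZLattice.rank ℝ PP.lattice, Complex.finrank_real_complex]
    push_cast
    linarith
  have h2 : Summable fun a : 𝓞 K => ‖embK (a : K)‖ ^ (1 - 2 * s.re) :=
    S3.latE.summable_iff.2 h1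
  refine Summable.of_norm_bounded h2 fun a => ?_
  rw [norm_mul, RCLike.norm_conj]
  by_cases ha : a = 0
  · subst ha
    simp only [map_zero, norm_zero, zero_mul]
    positivity
  · have hn : 0 < ‖embK (a : K)‖ := norm_pos_iff.2 (za_embK_ne ha)
    rw [Complex.norm_cpow_eq_rpow_re_of_pos hn]
    have e : (-2 * s).re = -2 * s.re := by simp
    rw [e]
    nth_rewrite 1 [← Real.rpow_one ‖embK (a : K)‖]
    rw [← Real.rpow_add hn]
    apply le_of_eq
    congr 1
    ring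

theorem summable_Z (c x : 𝓞 K) {s : ℂ} (hs : 2 < s.re) : Summable fun a : 𝓞 K =>
    haveI := Classical.dec (c ∣ a - x)
    if c ∣ a - x then (starRingEnd ℂ) (embK (a : K)) * ((‖embK (a : K)‖ : ℝ) : ℂ) ^ (-2 * s)
      else (0 : ℂ) := by
  refine Summable.of_norm_bounded (summable_all hs).norm fun a => ?_
  split_ifs
  · exact le_rfl
  · rw [norm_zero]
    exact norm_nonneg _

theorem za_cls {c x : 𝓞 K} (z : K) : z ∈ cls (F := K) ⊤ (Ideal.span {c}) x ↔
    ∃ w : 𝓞 K, (w : K) = z ∧ c ∣ w - x := by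
  unfold cls
  simp only [Set.mem_ofPred_eq, Ideal.mul_top, Ideal.mem_span_singleton]

theorem za_mulI {b : 𝓞 K} (z : 𝓞 K) : (z : K) ∈ mulI (F := K) ⊤ b ↔ b ∣ z := by
  constructor
  · rintro ⟨w, -, hw⟩
    exact ⟨w, RingOfIntegers.ext (by rw [hw]; rfl)⟩
  · rintro ⟨w, hw⟩
    exact ⟨w, trivial, by rw [hw]; rfl⟩

theorem za_reps {c x : 𝓞 K} (h3 : (3 : 𝓞 K) ∣ c) : IsRepsU (F := K) (Ideal.span {c})
    (cls ⊤ (Ideal.span {c}) x) (cls ⊤ (Ideal.span {c}) x) := by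
  refine ⟨le_rfl, fun z hz => ⟨1, ⟨?_, ?_⟩, ?_⟩⟩
  · simp
  · rw [Units.val_one, RingOfIntegers.coe_eq_algebraMap, map_one, one_mul]
    exact hz
  · rintro v ⟨hv, -⟩
    apply Units.ext
    exact kf_unit _ v.isUnit (dvd_trans h3 (Ideal.mem_span_singleton.1 hv))

/-- The equivalence of the two index sets. -/
def za_eqv (c x : 𝓞 K) : {a : 𝓞 K // c ∣ a - x} ≃ cls (F := K) ⊤ (Ideal.span {c}) x :=
  Equiv.ofBijective (fun a => ⟨(a.1 : K), (za_cls _).2 ⟨a.1, rfl, a.2⟩⟩) ⟨by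
    rintro ⟨a, ha⟩ ⟨b, hb⟩ h
    have h1 : (a : K) = (b : K) := Subtype.mk.inj h
    exact Subtype.ext (RingOfIntegers.ext h1), by
    rintro ⟨z, hz⟩
    obtain ⟨w, hw, hd⟩ := (za_cls _).1 hz
    exact ⟨⟨w, hd⟩, Subtype.ext hw⟩⟩

theorem za_term (s : ℂ) (a : 𝓞 K) : term (F := K) s (a : K) =
    (starRingEnd ℂ) (embK (a : K)) * ((‖embK (a : K)‖ : ℝ) : ℂ) ^ (-2 * s) := by
  rw [term, NF, Algebra.norm_self]
  rfl

theorem za_sum {c x : 𝓞 K} {s T : ℂ}
    (h : HasSum (fun z : cls (F := K) ⊤ (Ideal.span {c}) x => term s (z : K)) T) : T = ZS c x s := by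
  have h1 := (za_eqv c x).hasSum_iff.2 h
  have e1 : ((fun z : cls (F := K) ⊤ (Ideal.span {c}) x => term s (z : K)) ∘ (za_eqv c x)) =
      (fun a : 𝓞 K => (starRingEnd ℂ) (embK (a : K)) * ((‖embK (a : K)‖ : ℝ) : ℂ) ^ (-2 * s)) ∘
        ((↑) : {a : 𝓞 K // c ∣ a - x} → 𝓞 K) := by
    funext a
    exact za_term s a.1
  rw [e1] at h1
  have h3 := (hasSum_subtype_iff_indicator (s := {a : 𝓞 K | c ∣ a - x})).1 h1
  rw [ZS, ← h3.tsum_eq]
  congr 1

open Classical in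
/-- The value of the smoothed indicator function. -/
theorem za_del1 {c x b a : 𝓞 K} : del1 (F := K) ⊤ (Ideal.span {c}) x b b (a : K) =
    (if c ∣ a - x then 1 - ((‖embK (b : K)‖ ^ 2 : ℝ) : ℂ) * (if b ∣ a then 1 else 0) else 0 : ℂ) := by
  have h1 : (a : K) ∈ cls (F := K) ⊤ (Ideal.span {c}) x ↔ c ∣ a - x := by
    rw [za_cls]
    constructor
    · rintro ⟨w, hw, hd⟩
      rwa [RingOfIntegers.ext hw] at hd
    · intro hd
      exact ⟨a, rfl, hd⟩
  have h2 := za_mulI (b := b) a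
  unfold del1
  by_cases c1 : c ∣ a - x
  · rw [if_pos (h1.2 c1), if_pos c1]
    by_cases c2 : b ∣ a
    · rw [if_pos (h2.2 c2), if_pos c2]
    · rw [if_neg (fun q => c2 (h2.1 q)), if_neg c2]
  · rw [if_neg (fun q => c1 (h1.1 q)), if_neg c1]

theorem za_supp {c x b : 𝓞 K} {z : K}
    (hz : del1 (F := K) ⊤ (Ideal.span {c}) x b b z ≠ 0) : ∃ a : 𝓞 K, z = (a : K) := by
  unfold del1 at hz
  have h1 : z ∈ cls (F := K) ⊤ (Ideal.span {c}) x := by
    by_contra hc
    rw [if_neg hc] at hz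
    exact hz rfl
  obtain ⟨w, hw, -⟩ := h1
  exact ⟨w, hw.symm⟩

/-- From the empty set to the set `{1}`. -/
theorem za_adm (δ : K → ℂ) (hA : Adm2 δ (∅ : Set K)) : Adm2 δ ({1} : Set K) where
  bdd := hA.bdd
  lat := hA.lat
  zero := hA.zero
  ne := by
    intro v hv
    rw [Set.mem_singleton_iff] at hv
    subst hv
    refine ⟨one_ne_zero, fun z hz h0 => hz ?_⟩
    rw [one_mul, Algebra.trace_self_apply] at h0
    rw [h0]
    exact hA.zero
  mean := by
    intro B hB α hα hBα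
    have hB' : ∀ v ∈ B, False := by
      intro v hv
      have h1 := hB hv
      rw [Set.mem_singleton_iff] at h1
      have h2 := hBα v hv
      rw [h1, one_mul, Algebra.trace_self_apply] at h2
      exact hα h2
    obtain ⟨r, a, hr, -, ha⟩ := hA.mean ∅ (Set.empty_subset _) α hα
      (fun v hv => absurd hv (Set.notMem_empty v))
    exact ⟨r, a, hr, fun j v hv => (hB' v hv).elim, ha⟩

/-- Reindexing of a sum over functions from `Fin 1`. -/
theorem za_reindex (G : ℕ → ℕ → ℂ) (N N' : ℕ) (hN : N = N') :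
    ∑ x : Fin (0 + 1) → Fin N × Fin N, G (x 0).1 (x 0).2 =
      ∑ x : Fin N' × Fin N', G x.1 x.2 := by
  subst hN
  exact Fintype.sum_equiv (Equiv.funUnique (Fin 1) (Fin N × Fin N)) _ _ fun x => rfl

theorem exists_Z {c x : 𝓞 K} (hc : c ≠ 0) (hx : ¬ c ∣ x) (h3 : (3 : 𝓞 K) ∣ c) :
    ∃ A : ℂ → ℂ, Differentiable ℂ A ∧ (∀ s : ℂ, 2 < s.re → A s = ZS c x s) ∧
    A 1 = (embK (c : K))⁻¹ * E1 (embK (x : K) / embK (c : K)) := by
  classical
  have hfin : Module.finrank K K = 1 := Module.finrank_self K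
  obtain ⟨σ, hσ⟩ : ∃ σ : Fin (0 + 1) → (K →ₐ[K] ℂ), Function.Bijective σ := by
    have := nf_exists (F := K)
    rw [hfin] at this
    exact this
  obtain ⟨q, hq, hq3, h2q, h2q', hcq⟩ := Rg.exists_q c hc 1 one_pos
  have h2q'' : IsCoprime ((2 : 𝓞 K) ^ Module.finrank K K - 1) (q : 𝓞 K) := by
    rw [hfin]
    exact h2q'
  have h3q : Nat.Coprime 3 q := (Nat.coprime_primes Nat.prime_three hq).2 (Ne.symm hq3)
  have hm : (Ideal.span {c} : Ideal (𝓞 K)) ≠ ⊥ := by
    rw [Ne, Ideal.span_singleton_eq_bot]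
    exact hc
  have hb : (⊤ : Ideal (𝓞 K)) ≠ ⊥ := top_ne_bot
  have hm3 : (Ideal.span {c} : Ideal (𝓞 K)) ≤ Ideal.span {3} :=
    Ideal.span_singleton_le_span_singleton.2 h3
  have hm2 : IsCoprime (Ideal.span {c} : Ideal (𝓞 K)) (Ideal.span {(q : 𝓞 K)}) :=
    (Ideal.isCoprime_span_singleton_iff _ _).2 hcq
  have hx' : x ∉ (Ideal.span {c} : Ideal (𝓞 K)) * ⊤ := by
    rw [Ideal.mul_top, Ideal.mem_span_singleton]
    exact hx
  have hu : ∀ v ∈ unV (Ideal.span {c} : Ideal (𝓞 K)), Algebra.norm K ((v : 𝓞 K) : K) = 1 :=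
    fun v hv => un_norm _ hm3 v hv
  have htor : ∀ v ∈ unV (Ideal.span {c} : Ideal (𝓞 K)), ∀ k : ℕ, 0 < k → v ^ k = 1 → v = 1 :=
    fun v hv k hk h => un_tors _ hm3 v hv k hk h
  obtain ⟨g, hg, hgs⟩ := Ell.co_entire hq 3 le_rfl h3q 2 h2q h2q'' σ hσ ⊤ (Ideal.span {c}) hb hm hm2
    hu htor x trivial hx'
  refine ⟨g, hg, fun s hs => za_sum (hgs _ (za_reps h3) s hs), ?_⟩
  -- the smoothing element
  obtain ⟨R₀, hR₀, hadm⟩ := Ell.de_adm1 hq (⊤ : Ideal (𝓞 K)) (Ideal.span {c}) hb hm x trivial hx'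
  have hN := Ell.absNorm_cop hq (Ideal.span {c} : Ideal (𝓞 K)) hm2
  obtain ⟨N, hNdef⟩ : ∃ N : ℕ, N = Ideal.absNorm (Ideal.span {c}) := ⟨_, rfl⟩
  rw [← hNdef] at hN
  have hcN : c ∣ (N : 𝓞 K) := by
    rw [← Ideal.mem_span_singleton, hNdef]
    exact Ideal.absNorm_mem _
  have hN0 : 0 < N := by
    rw [hNdef, Nat.pos_iff_ne_zero, Ne, Ideal.absNorm_eq_zero_iff]
    exact hm
  obtain ⟨β, b, hS⟩ := Ell.sm_exists (F := K) hq 2 h2q h2q'' (3 * R₀ * N)
    (Nat.Coprime.mul_left (Nat.Coprime.mul_left h3q hR₀) hN)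
  have hβ : β = b := by
    have h := hS.nrm
    rw [Algebra.norm_self] at h
    exact RingOfIntegers.ext h
  subst hβ
  obtain ⟨k, hk, hbk⟩ := kf_normInt β
  have hb0 : β ≠ 0 := fun h0 => Ell.kq_zero hq.one_lt.ne' (h0 ▸ hS.c0)
  have hk0 : 0 < k := by
    rw [Nat.pos_iff_ne_zero]
    intro h0
    rw [h0, Nat.cast_zero] at hk
    exact za_embK_ne hb0 (norm_eq_zero.1 (pow_eq_zero_iff two_ne_zero |>.1 hk.symm))
  have hA : Adm2 (del1 (⊤ : Ideal (𝓞 K)) (Ideal.span {c}) x β β) ({1} : Set K) :=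
    za_adm _ (hadm (3 * R₀ * N) β β ⟨3 * N, by ring⟩ hS)
  have hcb : c ∣ β - 1 := by
    refine dvd_trans ?_ hS.one
    push_cast
    exact Dvd.dvd.mul_left hcN _
  -- the main theorem of S2
  obtain ⟨I, -, -, hframe, hunits⟩ := s2_main σ hσ (del1 (⊤ : Ideal (𝓞 K)) (Ideal.span {c}) x β β)
    ({1} : Set K) (Set.finite_singleton _) hA
  obtain ⟨ε, hε, hεb⟩ := Ell.un_free σ hσ (Ideal.span {c} : Ideal (𝓞 K)) hm htor
  have hdet := Ell.un_det σ hσ (Ideal.span {c} : Ideal (𝓞 K)) hm ε hεb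
  obtain ⟨g₁, hg₁, hg₁s, hval⟩ := hunits (fun i => ((ε i : 𝓞 K) : K)) (fun i => i.elim0)
    (fun i => i.elim0) (fun i => i.elim0) hdet
  have hI : g₁ 1 = I (fun _ => 1) := by
    rw [hval 1 one_ne_zero (fun T => by
      rw [Finset.eq_empty_of_isEmpty T]
      simp)]
    have hd : (regM σ (fun i => ((ε i : 𝓞 K) : K))).det = 1 := by
      rw [Matrix.det_fin_one]
      rfl
    rw [hd]
    have hp : ∀ s : Equiv.Perm (Fin 0), path (fun i => ((ε i : 𝓞 K) : K)) s 1 = fun _ => 1 := by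
      intro s
      funext j
      simp [path]
    simp [hp]
  have hC : 0 < k * N := Nat.mul_pos hk0 hN0
  have hbcC : β * c ∣ ((k * N : ℕ) : 𝓞 K) := by
    push_cast
    exact mul_dvd_mul hbk hcN
  have hIv : I (fun _ => 1) = (1 - (starRingEnd ℂ) (embK (β : K))) *
      ((embK (c : K))⁻¹ * E1 (embK (x : K) / embK (c : K))) := by
    have : Subsingleton (Fin (0 + 1)) := inferInstanceAs (Subsingleton (Fin 1))
    have hli : LinearIndependent K (fun _ : Fin (0 + 1) => (1 : K)) :=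
      LinearIndependent.of_subsingleton 0 one_ne_zero
    have hper : ∀ (a : 𝓞 K) (z : K), del1 (⊤ : Ideal (𝓞 K)) (Ideal.span {c}) x β β
        (z + ((((k * N : ℕ) : 𝓞 K) * a : 𝓞 K) : K)) =
          del1 (⊤ : Ideal (𝓞 K)) (Ideal.span {c}) x β β z := by
      intro a z
      by_cases hz : ∃ a' : 𝓞 K, z = (a' : K)
      · obtain ⟨a', rfl⟩ := hz
        have e : (a' : K) + ((((k * N : ℕ) : 𝓞 K) * a : 𝓞 K) : K) =
            ((a' + ((k * N : ℕ) : 𝓞 K) * a : 𝓞 K) : K) := rfl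
        rw [e, za_del1, za_del1]
        have hcC : c ∣ ((k * N : ℕ) : 𝓞 K) := dvd_trans (dvd_mul_left _ _) hbcC
        have hbC : β ∣ ((k * N : ℕ) : 𝓞 K) := dvd_trans (dvd_mul_right _ _) hbcC
        have c1 : c ∣ a' + ((k * N : ℕ) : 𝓞 K) * a - x ↔ c ∣ a' - x := by
          have e1 : a' + ((k * N : ℕ) : 𝓞 K) * a - x = (a' - x) + ((k * N : ℕ) : 𝓞 K) * a := by ring
          rw [e1]
          exact dvd_add_left (Dvd.dvd.mul_right hcC a)
        have c2 : β ∣ a' + ((k * N : ℕ) : 𝓞 K) * a ↔ β ∣ a' :=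
          dvd_add_left (Dvd.dvd.mul_right hbC a)
        exact if_congr c1 (congrArg _ (congrArg _ (if_congr c2 rfl rfl))) rfl
      · have hz' : ¬ ∃ a' : 𝓞 K, z + ((((k * N : ℕ) : 𝓞 K) * a : 𝓞 K) : K) = (a' : K) := by
          rintro ⟨a', ha'⟩
          refine hz ⟨a' - ((k * N : ℕ) : 𝓞 K) * a, ?_⟩
          have : ((a' - ((k * N : ℕ) : 𝓞 K) * a : 𝓞 K) : K) =
            (a' : K) - ((((k * N : ℕ) : 𝓞 K) * a : 𝓞 K) : K) := rfl
          rw [this, ← ha']
          ring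
        rw [show del1 (⊤ : Ideal (𝓞 K)) (Ideal.span {c}) x β β z = 0 from by
            by_contra hc
            exact hz (za_supp hc)]
        by_contra hc
        exact hz' (za_supp hc)
    have hfr := hframe (fun _ => 1) (fun i => Set.mem_singleton _) hli 1 (k * N) one_pos hC
      (fun i z hz => by
        obtain ⟨a, rfl⟩ := za_supp hz
        exact ⟨a, by rw [one_mul, Algebra.trace_self_apply, Nat.cast_one, one_mul]⟩)
      (fun μ hμ z => by
        obtain ⟨a, ha⟩ := hμ 0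
        rw [one_mul, Algebra.trace_self_apply] at ha
        rw [ha]
        exact hper a z)
      (fun a => a 0)
      (fun a i => by
        rw [one_mul, Algebra.trace_self_apply]
        congr 1
        exact Subsingleton.elim _ _)
    have hdet1 : (Matrix.of fun i j : Fin (0 + 1) => σ j ((fun _ : Fin (0 + 1) => (1 : K)) i)).det =
        1 := by
      rw [Matrix.det_fin_one]
      simp
    rw [hfr, hdet1, one_mul, ← fin_sum2 hC hbcC hcb]
    refine Eq.trans ?_ (za_reindex (fun p q =>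
      del1 (⊤ : Ideal (𝓞 K)) (Ideal.span {c}) x β β
        (((p : K) + (q : K) * om) / ((1 : ℕ) : K)) *
        (((k * N : ℕ) : ℂ)⁻¹ * E1 (((p : ℂ) + (q : ℂ) * zt) / ((1 : ℕ) : ℂ) / ((k * N : ℕ) : ℂ))))
      (k * N * 1) (k * N) (mul_one _)) |>.trans ?_
    · refine Finset.sum_congr rfl fun x _ => ?_
      congr 1
      rw [Fin.prod_univ_one]
      rfl
    · refine Finset.sum_congr rfl fun y _ => ?_
      have e : (((y.1 : ℕ) : K) + ((y.2 : ℕ) : K) * om) / ((1 : ℕ) : K) =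
          ((aX (k * N) y : 𝓞 K) : K) := by
        rw [Nat.cast_one, div_one]
        rfl
      simp only [e]
      rw [za_del1, Nat.cast_one, div_one, aX_emb]
  have hgg : g₁ = fun s => g s * facQ β s := by
    refine AnalyticOnNhd.eq_of_eventuallyEq (𝕜 := ℂ) (z₀ := 3)
      (fun z _ => hg₁.analyticAt z) (fun z _ => (hg.mul (facQ_diff β hb0)).analyticAt z) ?_
    have hopen : IsOpen {s : ℂ | 2 < s.re} := isOpen_lt continuous_const Complex.continuous_re
    filter_upwards [hopen.mem_nhds (show (3 : ℂ) ∈ {s : ℂ | 2 < s.re} by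
      show (2 : ℝ) < (3 : ℂ).re
      norm_num)] with s hs
    have hX := za_reps (c := c) (x := x) h3
    have h1 := hgs _ hX s hs
    have hR : ((3 * R₀ * N : ℕ) : 𝓞 K) ∈ (Ideal.span {c} : Ideal (𝓞 K)) := by
      rw [Ideal.mem_span_singleton]
      push_cast
      exact Dvd.dvd.mul_left hcN _
    have h2 := Ell.co_smooth1 hq.one_lt.ne' (⊤ : Ideal (𝓞 K)) (Ideal.span {c}) x trivial hx' hu hR hS
      _ hX s (g s) h1
    have hX' := (co_reps (Ideal.span {c} : Ideal (𝓞 K)) ε hε hεb _ _).1 hX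
    have hsup := Ell.co_sup1 hq.one_lt.ne' (⊤ : Ideal (𝓞 K)) (Ideal.span {c}) x 3 le_rfl
      ⟨R₀ * N, by ring⟩ hS
    have hX'' : IsReps (fun i => ((ε i : 𝓞 K) : K))
        (Function.support (del1 (⊤ : Ideal (𝓞 K)) (Ideal.span {c}) x β β))
        (cls (F := K) ⊤ (Ideal.span {c}) x) := by
      rw [hsup]
      exact hX'
    have h3 := hg₁s _ hX'' s hs
    refine h3.unique ?_
    have e : (fun z : cls (F := K) ⊤ (Ideal.span {c}) x =>
        del1 (⊤ : Ideal (𝓞 K)) (Ideal.span {c}) x β β z *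
        (starRingEnd ℂ) (NF (z : K)) * (‖NF (z : K)‖ : ℂ) ^ (-2 * s)) =
        fun z : cls (F := K) ⊤ (Ideal.span {c}) x =>
          del1 (⊤ : Ideal (𝓞 K)) (Ideal.span {c}) x β β z * term s (z : K) := by
      funext z
      rw [term, mul_assoc]
    rw [e]
    exact h2
  have hn0 : ‖embK (β : K)‖ ≠ 0 := norm_ne_zero_iff.2 (za_embK_ne hb0)
  have hfac : facQ β 1 = 1 - (starRingEnd ℂ) (embK (β : K)) := by
    have e : (-2 * 1 : ℂ) = ((-2 : ℤ) : ℂ) := by norm_num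
    have hn1 : (‖embK (β : K)‖ : ℂ) ≠ 0 := by exact_mod_cast hn0
    rw [facQ, e, Complex.cpow_intCast]
    push_cast
    field_simp
  have hne : 1 - (starRingEnd ℂ) (embK (β : K)) ≠ 0 := by
    intro h0
    have h1 : (starRingEnd ℂ) (embK (β : K)) = 1 := (sub_eq_zero.1 h0).symm
    have h2 : embK (β : K) = 1 := by
      have := congrArg (starRingEnd ℂ) h1
      rwa [Complex.conj_conj, map_one] at this
    have h3 : (β : K) = 1 := by
      apply embK.toRingHom.injective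
      simpa using h2
    have h4 : β = 1 := RingOfIntegers.ext h3
    refine Ell.kq_zero hq.one_lt.ne' ?_
    have h5 := hS.c1
    rwa [h4, sub_self] at h5
  have hfinal : g 1 * (1 - (starRingEnd ℂ) (embK (β : K))) =
      (1 - (starRingEnd ℂ) (embK (β : K))) *
        ((embK (c : K))⁻¹ * E1 (embK (x : K) / embK (c : K))) := by
    rw [← hIv, ← hI, hgg, ← hfac]
  apply mul_right_cancel₀ hne
  rw [hfinal]
  ring

end

end Pool.Agent.Lib.MP_1a91b9_ntT.DG
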