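import Pool.Agent.Lib.MP_1a91b9_ntT.DG.XQa

/-!
# DG: local expansion of the units `xQ`

JOB ADDK. PROOF (complete; helper30). Files to imitate: DB/ValC.lean (`add_ker`, `S_add_ker`) and the local
part of DB/Xi.lean (`tc_add_S`, `xib_*`, `xi_loc`).

`add_ker2`. If `R = 0` trivial. Let `P = (x1, y1)`, `v x1, v y1 ≤ 1` (`not_ker`; `P ≠ 0`), `R = (x2, y2)`,
`t = tc R`, `w = -1/y2`; `ker_w`: `w = t^3 + w^2`, `v w = v t ^ 3`, `x2 = t / w`; `y2 = -1/w`. `x1 ≠ x2`. By `mk_add`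
with slope `m = (y1 - y2)/(x1 - x2)`: `P + R = (x3, y3)`, `x3 = m^2 - x1 - x2`, `y3 = -(m (x3 - x1) + y1) - 1`.
`m = (y1 + 1/w)/(x1 - t/w) = -(1 + y1 w)/(t - x1 w) = -(1/t) (1 + y1 w)/(1 - x1 w/t)`. Put `s = x1 w / t` (`v s ≤ v t ^ 2`)
and `e = (1 + y1 w)/(1 - s)`: `m = -e/t`, `e = 1 + s + (y1 w + s^2 + ..)`: more exactly
`e - 1 - s = (y1 w + s^2)/(1 - s)`, so `v (e - 1 - s) ≤ v t ^ 3`, and `e - 1 - s - y1 w` has value `≤ v t ^ 4`.
`m^2 = e^2/t^2`, `x2 = t/w`, and `t/w = 1/t^2 - t + O(t^4)`: from `w = t^3 + w^2`: `t^3/w = 1 - w`, so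
`t/w = (1 - w)/t^2`. So `x3 - x1 = e^2/t^2 - (1 - w)/t^2 - 2 x1 = (e^2 - 1 + w)/t^2 - 2 x1`.
With `x1 = s t/w`, `s = x1 w/t`: `e^2 - 1 = (e - 1)(e + 1)`. Modulo `t^5` (values): `e - 1 = s + y1 w + s^2`
(`v (e - 1 - s - y1 w - s^2) ≤ v t ^ 5`, from `(1 - s)(e - 1 - s - y1 w - s^2) = s (y1 w + s^2)`), so
`e^2 - 1 = 2 s + 2 y1 w + 3 s^2` modulo `t^5`, and `w = t^3` modulo `t^6`, `s = x1 t^2` modulo `t^5`. Hence
`x3 - x1 = (2 x1 t^2 + 2 y1 t^3 + 3 x1^2 t^4 + t^3)/t^2 - 2 x1 = (2 y1 + 1) t + 3 x1^2 t^2` modulo `t^3`.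
Finally `y3 - y1 = -m (x3 - x1) - 2 y1 - 1 = (e/t)(x3 - x1) - (2 y1 + 1)`, `e = 1` modulo `t^2`, `v (x3 - x1) ≤ v t`:
`= (x3 - x1)/t - (2 y1 + 1)` modulo `t^2` `= 3 x1^2 t` modulo `t^2`. `v 3 ≤ 1` and all integers have value `≤ 1`
(`v_nat_le`). (The case where the valuation of `t` is not discrete does not matter, all is multiplicative.)

`lamQ_val`: `v (yc (S + Q)) = 1` (`yQ_val0`); `v (xc (S + Q)) ≤ 1`: `y^2 + y = x^3` with `v y = 1` gives `v x ^ 3 ≤ 1`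
(if `S + Q = 0` then `yc = 0` has value `0`, impossible); `v 3 ≤ 1`.

`xQ_loc`: `P` is in the kernel (`ker_of_val`), for `a ∈ T`: `v (tc (sm a P) - a t) ≤ v t ^ 4` (`ker_sm_t`),
`v (tc (sm a P)) ≤ v t`. `S + Q` is not in the kernel (`yQ_val0`: `v y = 1`, and `ker_iff_y`; `S + Q ≠ 0` because
`yc ≠ 0`). So by `add_ker2`: `v (y(S + Q + a P) - y(S + Q)(1 + lamQ Q * a * t)) ≤ v t ^ 2`
(`3 x^2 = lamQ * y`). Put `f_a = y(S + Q + a P)/y(S + Q)`: `f_a = 1 + lamQ a t` modulo `t^2`, a unit. The product over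
`a ∈ T` of `f_a ^ n(c iv a)`: use the copied private lemmas `xib_mul`, `xib_inv`, `xib_pow`, `xib_zpow`, `xib_prod` of
DB/Xi.lean: it is `1 + lamQ t Σ n(c iv a) a` modulo `t^2`; `Π y(S + Q)^(n(c iv a)) = 1` (`TrD.sum_zero`), and
`Σ n(c iv a) a = -c` modulo `ϖ` (`TrD.orth`), `v ϖ ≤ v t` (`v_tc`), exactly as at the end of `xi_loc`.
-/

set_option autoImplicit false

namespace Pool.Agent.Lib.MP_1a91b9_ntT.DG

open NumberField IsDedekindDomain WeierstrassCurve DB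

noncomputable section

theorem add_ker2 {F : Type*} [Field F] [Algebra K F] [DecidableEq F] {Γ : Type*}
    [LinearOrderedCommGroupWithZero Γ] (v : Valuation F Γ) {P R : Pt F} (hP : ¬ Ker v P)
    (hR : Ker v R) :
    v (yc (P + R) - yc P - 3 * xc P ^ 2 * tc R) ≤ v (tc R) ^ 2 := by
  obtain ⟨hne, hx, hy⟩ := not_ker v hP
  rcases eq_or_ne R 0 with rfl | hR0
  · rw [add_zero, tc_zero]
    simp
  obtain ⟨-, hDle, -⟩ := add_ker v hP hR
  obtain ⟨hw1, hw2, hw3⟩ := ker_w v hR hR0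
  obtain ⟨ht1, ht2, ht3, ht4⟩ := ker_tc v hR hR0
  have hxR : 1 < v (xc R) := hR.resolve_left hR0
  obtain ⟨eP, hPe⟩ := exists_mk hne
  obtain ⟨eR, hRe⟩ := exists_mk hR0
  have hxne : xc P ≠ xc R := by
    intro h
    rw [h] at hx
    exact absurd hxR (not_lt.2 hx)
  obtain ⟨h', hadd⟩ := mk_add (xc P) (yc P) (xc R) (yc R) eP eR hxne
  rw [← hPe, ← hRe] at hadd
  rw [hadd, xc_mk] at hDle
  rw [hadd, yc_mk]
  have hyR : yc R ≠ 0 := by
    intro h
    rw [h, map_zero, zero_mul] at ht4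
    exact zero_ne_one ht4
  obtain ⟨x, hxd⟩ : ∃ x, x = xc P := ⟨_, rfl⟩
  obtain ⟨y, hyd⟩ : ∃ y, y = yc P := ⟨_, rfl⟩
  obtain ⟨X, hXd⟩ : ∃ X, X = xc R := ⟨_, rfl⟩
  obtain ⟨Y, hYd⟩ : ∃ Y, Y = yc R := ⟨_, rfl⟩
  obtain ⟨t, htd⟩ : ∃ t, t = tc R := ⟨_, rfl⟩
  obtain ⟨m, hmd⟩ : ∃ m, m = (yc P - yc R) / (xc P - xc R) := ⟨_, rfl⟩
  rw [← hmd] at hDle ⊢
  obtain ⟨x3, hx3⟩ : ∃ x3, x3 = m ^ 2 - xc P - xc R := ⟨_, rfl⟩
  rw [← hx3] at hDle ⊢
  have hm : m * (x - X) = y - Y := by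
    rw [hmd, hxd, hyd, hXd, hYd]
    exact div_mul_cancel₀ _ (sub_ne_zero.2 hxne)
  rw [← hxd, ← hXd] at hx3
  rw [← hxd] at hx
  rw [← hyd] at hy
  rw [← htd, ← hYd] at hw1 hw2
  rw [← htd, ← hYd, ← hXd] at hw3
  rw [← htd] at ht1 ht2
  rw [← hYd] at hyR
  rw [← hxd, ← hyd, ← htd] at hDle
  rw [← hxd, ← hyd, ← htd]
  have ht0 : t ≠ 0 := fun h => ht2 (by rw [h, map_zero])
  obtain ⟨w, hwd⟩ : ∃ w, w = -1 / Y := ⟨_, rfl⟩
  rw [← hwd] at hw1 hw2 hw3
  have hwY : w * Y = -1 := by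
    rw [hwd]
    exact div_mul_cancel₀ _ hyR
  have hw0 : w ≠ 0 := by
    intro h
    rw [h, zero_mul] at hwY
    exact (neg_ne_zero.2 one_ne_zero) hwY.symm
  obtain ⟨q, hqd⟩ : ∃ q, q = w / t := ⟨_, rfl⟩
  have hwq : w = t * q := by
    rw [hqd, mul_div_cancel₀ _ ht0]
  have hvq : v q = v t ^ 2 := by
    have h1 : v t * v q = v t * v t ^ 2 := by
      rw [← map_mul, ← hwq, hw2, pow_succ' (v t) 2]
    exact mul_left_cancel₀ ht2 h1
  have hrel : q - t ^ 2 - t * q ^ 2 = 0 := by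
    have h1 : t * (q - t ^ 2 - t * q ^ 2) = 0 := by
      rw [hwq] at hw1
      linear_combination hw1
    exact (mul_eq_zero.1 h1).resolve_left ht0
  have hq0 : q ≠ 0 := by
    rw [hqd]
    exact div_ne_zero hw0 ht0
  have hXq : X * q = 1 := by
    rw [hw3, hwq]
    field_simp
  have hYq : Y * (t * q) = -1 := by
    rw [← hwq, mul_comm]
    exact hwY
  have hXt : t ^ 2 * X = 1 - t * q := by
    linear_combination (1 - t * q) * hXq - X * hrel
  have H1 : m * t * (1 - x * q) + (1 + y * (t * q)) = 0 := by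
    linear_combination (-(t * q)) * hm + (-(m * t)) * hXq + hYq
  have key : (x3 - x - (2 * y + 1) * t) * (1 - x * q) ^ 2
      = (2 * y + 1) * (q ^ 2 + 2 * x * q * t - x ^ 2 * q ^ 2 * t) + y ^ 2 * q ^ 2
        + 3 * x ^ 2 * q - 2 * x ^ 3 * q ^ 2 := by
    have h1 : t ^ 2 * ((x3 - x - (2 * y + 1) * t) * (1 - x * q) ^ 2)
      = t ^ 2 * ((2 * y + 1) * (q ^ 2 + 2 * x * q * t - x ^ 2 * q ^ 2 * t) + y ^ 2 * q ^ 2
        + 3 * x ^ 2 * q - 2 * x ^ 3 * q ^ 2) := by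
      rw [hx3]
      linear_combination (m * t * (1 - x * q) - (1 + y * (t * q))) * H1
        - (1 - x * q) ^ 2 * hXt + ((2 * y + 1) * t + 2 * x - x ^ 2 * q) * hrel
    exact mul_left_cancel₀ (pow_ne_zero 2 ht0) h1
  obtain ⟨s, hs⟩ : ∃ s, s = t + q * q := ⟨_, rfl⟩
  have ident : t * (1 - x * q) * (-(m * (x3 - x) + y) - 1 - y - 3 * x ^ 2 * t)
      = (3 * (x * x) * q + 3 * (x * x) * y * q
          + ((2 * y + 1) * (s + 2 * x - x * x * q) + y * y * s - 2 * (x * (x * x)) * s)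
            * (1 + y * (t * q))
          + (2 * y + 1) * (y * t + x) + 3 * (x * (x * x)) * t) * (t * q)
        + ((2 * x - x * x * q) * (1 + y * (t * q))) * ((x3 - x - (2 * y + 1) * t) * q) := by
    rw [hs]
    linear_combination (-(x3 - x)) * H1 + (1 + y * (t * q)) * key
      + ((1 + y * (t * q)) * q * (2 * y + 1 + y ^ 2 - 2 * x ^ 3) + 3 * x ^ 2) * hrel
  -- valuations
  have ht2le : v t ^ 2 ≤ v t := by
    rw [pow_two]
    exact mul_le_of_le_one_right zero_le ht1.le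
  have ht2lt : v t ^ 2 < 1 := lt_of_le_of_lt ht2le ht1
  have hq1 : v q ≤ 1 := by rw [hvq]; exact ht2lt.le
  have one1 : v (1 : F) ≤ 1 := by rw [map_one]
  have hM : ∀ {a b : F}, v a ≤ 1 → v b ≤ 1 → v (a * b) ≤ 1 := by
    intro a b ha hb
    rw [map_mul]
    exact mul_le_one' ha hb
  have hA : ∀ {a b : F}, v a ≤ 1 → v b ≤ 1 → v (a + b) ≤ 1 :=
    fun ha hb => (Valuation.map_add v _ _).trans (max_le ha hb)
  have hS : ∀ {a b : F}, v a ≤ 1 → v b ≤ 1 → v (a - b) ≤ 1 :=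
    fun ha hb => (Valuation.map_sub v _ _).trans (max_le ha hb)
  have v2 : v (2 : F) ≤ 1 := by simpa using v_nat_le v (F := F) 2
  have v3 : v (3 : F) ≤ 1 := by simpa using v_nat_le v (F := F) 3
  have vs : v s ≤ 1 := by
    rw [hs]
    exact hA ht1.le (hM hq1 hq1)
  have h2y : v (2 * y + 1) ≤ 1 := hA (hM v2 hy) one1
  have hxx := hM hx hx
  have hxxx := hM hx hxx
  have hone : v (1 + y * (t * q)) ≤ 1 := hA one1 (hM hy (hM ht1.le hq1))
  have hD : v (1 - x * q) = 1 := by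
    have h1 : v (x * q) < v (1 : F) := by
      rw [map_one, map_mul, hvq]
      exact lt_of_le_of_lt (mul_le_of_le_one_left zero_le hx) ht2lt
    rw [Valuation.map_sub_eq_of_lt_left v h1, map_one]
  have hvtq : v (t * q) = v t ^ 3 := by
    rw [map_mul, hvq, pow_succ' (v t) 2]
  have hvDq : v ((x3 - x - (2 * y + 1) * t) * q) ≤ v t ^ 3 := by
    rw [map_mul, hvq, pow_succ' (v t) 2]
    exact mul_le_mul' (hDle.trans ht2le) le_rfl
  have hle : v (t * (1 - x * q) * (-(m * (x3 - x) + y) - 1 - y - 3 * x ^ 2 * t)) ≤ v t ^ 3 := by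
    rw [ident]
    refine (Valuation.map_add v _ _).trans (max_le ?_ ?_)
    · rw [map_mul, hvtq]
      refine mul_le_of_le_one_left zero_le ?_
      refine hA (hA (hA (hA ?_ ?_) (hM ?_ hone)) ?_) ?_
      · exact hM (hM v3 hxx) hq1
      · exact hM (hM (hM v3 hxx) hy) hq1
      · refine hS (hA (hM h2y ?_) (hM (hM hy hy) vs)) (hM (hM v2 hxxx) vs)
        exact hS (hA vs (hM v2 hx)) (hM hxx hq1)
      · exact hM h2y (hA (hM hy ht1.le) hx)
      · exact hM (hM v3 hxxx) ht1.le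
    · rw [map_mul]
      refine le_trans (mul_le_mul' ?_ hvDq) (by rw [one_mul])
      exact hM (hS (hM v2 hx) (hM hxx hq1)) hone
  rw [map_mul, map_mul, hD, mul_one, pow_succ' (v t) 2] at hle
  exact le_of_mul_le_mul_left hle (zero_lt_iff.2 ht2)

private theorem addk_mul {F : Type*} [Field F] {Γ : Type*} [LinearOrderedCommGroupWithZero Γ]
    (v : Valuation F Γ)
    {g : Γ} (hg : g ≤ 1) {x x' α α' : F} (h1 : v α ≤ g) (h2 : v (x - 1 - α) ≤ g ^ 2)
    (h1' : v α' ≤ g) (h2' : v (x' - 1 - α') ≤ g ^ 2) :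
    v (α + α') ≤ g ∧ v (x * x' - 1 - (α + α')) ≤ g ^ 2 := by
  refine ⟨Valuation.map_add_le v h1 h1', ?_⟩
  have hx' : v x' ≤ 1 := by
    have e1 : x' = (x' - 1 - α') + (1 + α') := by ring
    rw [e1]
    refine Valuation.map_add_le v (h2'.trans (pow_le_one' hg 2)) ?_
    exact Valuation.map_add_le v (by rw [map_one]) (h1'.trans hg)
  have e2 : x * x' - 1 - (α + α') = (x - 1 - α) * x' + ((1 + α) * (x' - 1 - α') + α * α') := by
    ring
  rw [e2]
  refine Valuation.map_add_le v ?_ (Valuation.map_add_le v ?_ ?_)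
  · rw [map_mul]
    exact (mul_le_mul' h2 hx').trans (by rw [mul_one])
  · rw [map_mul]
    have h3 : v (1 + α) ≤ 1 := Valuation.map_add_le v (by rw [map_one]) (h1.trans hg)
    exact (mul_le_mul' h3 h2').trans (by rw [one_mul])
  · rw [map_mul, sq]
    exact mul_le_mul' h1 h1'

private theorem addk_inv {F : Type*} [Field F] {Γ : Type*} [LinearOrderedCommGroupWithZero Γ]
    (v : Valuation F Γ)
    {g : Γ} (hg : g ≤ 1) {x α : F} (hx : v x = 1) (h1 : v α ≤ g) (h2 : v (x - 1 - α) ≤ g ^ 2) :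
    v (-α) ≤ g ∧ v (x⁻¹ - 1 - -α) ≤ g ^ 2 := by
  refine ⟨by rwa [Valuation.map_neg], ?_⟩
  have hx0 : x ≠ 0 := by
    rintro rfl
    rw [map_zero] at hx
    exact zero_ne_one hx
  have e1 : x⁻¹ - 1 - -α = x⁻¹ * (α * (x - 1 - α) + α * α - (x - 1 - α)) := by
    field_simp
    ring
  rw [e1, map_mul, map_inv₀, hx, inv_one, one_mul]
  refine Valuation.map_sub_le v (Valuation.map_add_le v ?_ ?_) h2
  · rw [map_mul]
    exact (mul_le_mul' (h1.trans hg) h2).trans (by rw [one_mul])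
  · rw [map_mul, sq]
    exact mul_le_mul' h1 h1

private theorem addk_pow {F : Type*} [Field F] {Γ : Type*} [LinearOrderedCommGroupWithZero Γ]
    (v : Valuation F Γ)
    {g : Γ} (hg : g ≤ 1) {x α : F} (h1 : v α ≤ g) (h2 : v (x - 1 - α) ≤ g ^ 2) (m : ℕ) :
    v ((m : F) * α) ≤ g ∧ v (x ^ m - 1 - (m : F) * α) ≤ g ^ 2 := by
  induction m with
  | zero => simp
  | succ m ih =>
    have h3 := addk_mul v hg ih.1 ih.2 h1 h2
    have e1 : ((m + 1 : ℕ) : F) * α = (m : F) * α + α := by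
      push_cast
      ring
    rw [e1, pow_succ]
    exact h3

private theorem addk_zpow {F : Type*} [Field F] {Γ : Type*} [LinearOrderedCommGroupWithZero Γ]
    (v : Valuation F Γ)
    {g : Γ} (hg : g ≤ 1) {x α : F} (hx : v x = 1) (h1 : v α ≤ g) (h2 : v (x - 1 - α) ≤ g ^ 2)
    (m : ℤ) : v ((m : F) * α) ≤ g ∧ v (x ^ m - 1 - (m : F) * α) ≤ g ^ 2 := by
  obtain ⟨k, rfl | rfl⟩ := m.eq_nat_or_neg
  · rw [zpow_natCast, Int.cast_natCast]
    exact addk_pow v hg h1 h2 k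
  · have h3 := addk_pow v hg h1 h2 k
    have h4 : v (x ^ k) = 1 := by rw [map_pow, hx, one_pow]
    have h5 := addk_inv v hg h4 h3.1 h3.2
    have e1 : (((-(k : ℤ) : ℤ)) : F) * α = -((k : F) * α) := by
      push_cast
      ring
    rw [e1, zpow_neg, zpow_natCast]
    exact h5

private theorem addk_prod {F : Type*} [Field F] {Γ : Type*} [LinearOrderedCommGroupWithZero Γ]
    (v : Valuation F Γ)
    {g : Γ} (hg : g ≤ 1) {ι : Type*} (s : Finset ι) (x α : ι → F)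
    (h1 : ∀ i ∈ s, v (α i) ≤ g ∧ v (x i - 1 - α i) ≤ g ^ 2) :
    v (∑ i ∈ s, α i) ≤ g ∧ v (∏ i ∈ s, x i - 1 - ∑ i ∈ s, α i) ≤ g ^ 2 := by
  classical
  induction s using Finset.induction_on with
  | empty => simp
  | insert a s ha ih =>
    have h2 := ih fun i hi => h1 i (Finset.mem_insert_of_mem hi)
    have h3 := h1 a (Finset.mem_insert_self a s)
    rw [Finset.sum_insert ha, Finset.prod_insert ha]
    exact addk_mul v hg h3.1 h3.2 h2.1 h2.2

private theorem addk_prod_zpow {F : Type*} [Field F] {x : F} (hx : x ≠ 0) {ι : Type*}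
    (s : Finset ι) (f : ι → ℤ) :
    ∏ i ∈ s, x ^ f i = x ^ (∑ i ∈ s, f i) := by
  classical
  induction s using Finset.induction_on with
  | empty => simp
  | insert a s ha ih =>
    rw [Finset.sum_insert ha, Finset.prod_insert ha, ih, zpow_add₀ hx]

section
variable {N : Type} [Field N] [NumberField N] [Algebra K N] [DecidableEq N]
  {ϖ : 𝓞 K} {ℓ q : ℕ} (h : PD ϖ ℓ q) {T : Finset (𝓞 K)} {iv : 𝓞 K → 𝓞 K} {n : 𝓞 K → ℤ}
  (hT : TrD ϖ ℓ T iv n) {P : Pt N} (hP : Ord ϖ P) {μ : 𝓞 K} (hμ : IsCoprime μ 3)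
  (hμϖ : ¬ ϖ ∣ μ) {Q : Pt N} (hQ : sm N μ Q = 0)

include hμ hQ in
private theorem addk_nk {Γ : Type*} [LinearOrderedCommGroupWithZero Γ] (v : Valuation N Γ) :
    ¬ Ker v (ptS N + Q) := by
  have h1 := yQ_val0 hμ hQ v
  have hne : ptS N + Q ≠ 0 := by
    intro h0
    rw [h0, yc_zero, map_zero] at h1
    exact zero_ne_one h1
  rintro (h0 | h0)
  · exact hne h0
  · have h2 := (ker_iff_y v hne).1 h0
    rw [h1] at h2
    exact lt_irrefl _ h2

include hμ hQ in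
theorem lamQ_val {Γ : Type*} [LinearOrderedCommGroupWithZero Γ] (v : Valuation N Γ) :
    v (lamQ Q) ≤ 1 := by
  obtain ⟨-, hx, -⟩ := not_ker v (addk_nk hμ hQ v)
  have h3 : v (3 : N) ≤ 1 := by simpa using v_nat_le v (F := N) 3
  unfold lamQ
  rw [map_div₀, yQ_val0 hμ hQ v, div_one, map_mul, map_pow]
  exact mul_le_one' h3 (pow_le_one' hx 2)

include h hT hP hμ hμϖ hQ

theorem xQ_loc {Γ : Type*} [LinearOrderedCommGroupWithZero Γ] (v : Valuation N Γ)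
    (hv : v (algebraMap K N (ϖ : K)) < 1) (c : 𝓞 K) :
    v (xQ T iv n P Q c - 1 + algebraMap K N (c : K) * lamQ Q * tc P) ≤ v (tc P) ^ 2 := by
  have hK : Ker v P := ker_of_val v h.prime h.one hP hv
  have ht := (ker_tc_lt v hK).le
  have hlam := lamQ_val hμ hQ v
  have hnk := addk_nk hμ hQ v
  obtain ⟨-, hX, -⟩ := not_ker v hnk
  have h3 : v (3 : N) ≤ 1 := by simpa using v_nat_le v (F := N) 3
  have hY := yQ_val0 hμ hQ v
  obtain ⟨Y, hYd⟩ : ∃ Y, Y = yc (ptS N + Q) := ⟨_, rfl⟩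
  have hlY : lamQ Q * Y = 3 * xc (ptS N + Q) ^ 2 := by
    have hY0 : Y ≠ 0 := by
      rintro h0
      rw [← hYd, h0, map_zero] at hY
      exact zero_ne_one hY
    unfold lamQ
    rw [hYd] at hY0 ⊢
    exact div_mul_cancel₀ _ hY0
  rw [← hYd] at hY
  have hY0 : Y ≠ 0 := by
    rintro h0
    rw [h0, map_zero] at hY
    exact zero_ne_one hY
  have hvYi : v (Y⁻¹) = 1 := by rw [map_inv₀, hY, inv_one]
  -- each factor
  have hα : ∀ a : 𝓞 K, v (lamQ Q * algebraMap K N (a : K) * tc P) ≤ v (tc P) := by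
    intro a
    rw [map_mul, map_mul]
    exact (mul_le_mul' (mul_le_one' hlam (v_alg_le v a)) le_rfl).trans (by rw [one_mul])
  have hx : ∀ a ∈ T, v (Y⁻¹ * yc (ptS N + Q + sm N a P)) = 1 := by
    intro a ha
    rw [map_mul, hvYi, one_mul]
    exact yQ_val h hP hμ hμϖ hQ v (hT.res.nz a ha)
  have hx1 : ∀ a ∈ T, v (Y⁻¹ * yc (ptS N + Q + sm N a P) - 1 -
      lamQ Q * algebraMap K N (a : K) * tc P) ≤ v (tc P) ^ 2 := by
    intro a ha
    have h1 := add_ker2 v hnk (ker_sm v hK a)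
    have h2 := ker_sm_t v hK a
    have h4 := ker_sm_le v hK a
    rw [← hYd] at h1
    have e1 : Y⁻¹ * yc (ptS N + Q + sm N a P) - 1 - lamQ Q * algebraMap K N (a : K) * tc P =
        Y⁻¹ * ((yc (ptS N + Q + sm N a P) - Y - 3 * xc (ptS N + Q) ^ 2 * tc (sm N a P)) +
          3 * xc (ptS N + Q) ^ 2 * (tc (sm N a P) - algebraMap K N (a : K) * tc P)) := by
      rw [← hlY]
      field_simp
      ring
    rw [e1, map_mul, hvYi, one_mul]
    refine Valuation.map_add_le v (h1.trans (pow_le_pow_left' h4 2)) ?_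
    rw [map_mul, map_mul, map_pow]
    refine (mul_le_mul' (mul_le_one' h3 (pow_le_one' hX 2)) h2).trans ?_
    rw [one_mul]
    exact pow_le_pow_right_of_le_one' ht (by norm_num)
  have hprod := (addk_prod v ht T
    (fun a => (Y⁻¹ * yc (ptS N + Q + sm N a P)) ^ n (c * iv a))
    (fun a => ((n (c * iv a) : ℤ) : N) * (lamQ Q * algebraMap K N (a : K) * tc P))
    (fun a ha => addk_zpow v ht (hx a ha) (hα a) (hx1 a ha) _)).2
  have e2 : ∏ a ∈ T, (Y⁻¹ * yc (ptS N + Q + sm N a P)) ^ n (c * iv a) = xQ T iv n P Q c := by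
    have e3 : ∀ a ∈ T, (Y⁻¹ * yc (ptS N + Q + sm N a P)) ^ n (c * iv a) =
        (Y⁻¹) ^ n (c * iv a) * yc (ptS N + Q + sm N a P) ^ n (c * iv a) :=
      fun a _ => mul_zpow _ _ _
    rw [Finset.prod_congr rfl e3, Finset.prod_mul_distrib,
      addk_prod_zpow (inv_ne_zero hY0) T (fun a => n (c * iv a)),
      TrD.sum_zero h hT c, zpow_zero, one_mul]
    rfl
  have e4 : ∑ a ∈ T, ((n (c * iv a) : ℤ) : N) * (lamQ Q * algebraMap K N (a : K) * tc P) =
      lamQ Q * tc P * algebraMap K N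
        ((∑ a ∈ T, (n (c * iv a) : 𝓞 K) * a : 𝓞 K) : K) := by
    have e5 : ((∑ a ∈ T, (n (c * iv a) : 𝓞 K) * a : 𝓞 K) : K) =
        ∑ a ∈ T, ((n (c * iv a) : ℤ) : K) * (a : K) := by
      change algebraMap (𝓞 K) K _ = _
      rw [map_sum]
      refine Finset.sum_congr rfl fun a _ => ?_
      rw [map_mul, map_intCast]
    rw [e5, map_sum, Finset.mul_sum]
    refine Finset.sum_congr rfl fun a _ => ?_
    rw [map_mul, map_intCast]
    ring
  obtain ⟨b, hb⟩ := hT.orth c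
  have e6 : algebraMap K N ((∑ a ∈ T, (n (c * iv a) : 𝓞 K) * a : 𝓞 K) : K) =
      algebraMap K N (ϖ : K) * algebraMap K N (b : K) - algebraMap K N (c : K) := by
    have e7 : (∑ a ∈ T, (n (c * iv a) : 𝓞 K) * a : 𝓞 K) = ϖ * b - c := by
      rw [← hb]
      ring
    rw [e7]
    have e8 : ((ϖ * b - c : 𝓞 K) : K) = (ϖ : K) * (b : K) - (c : K) := by
      change algebraMap (𝓞 K) K (ϖ * b - c) = _
      rw [map_sub, map_mul]
    rw [e8, map_sub, map_mul]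
  rw [e2, e4, e6] at hprod
  have hϖ : v (algebraMap K N (ϖ : K)) ≤ v (tc P) := by
    rw [← v_tc v h.prime h.one hP hv]
    have h5 : 5 ≤ q := PD.q_five h
    rw [h.norm]
    calc v (tc P) ^ (q - 1) ≤ v (tc P) ^ 1 := pow_le_pow_right_of_le_one' ht (by omega)
      _ = v (tc P) := pow_one _
  have e9 : xQ T iv n P Q c - 1 + algebraMap K N (c : K) * lamQ Q * tc P =
      (xQ T iv n P Q c - 1 - lamQ Q * tc P *
        (algebraMap K N (ϖ : K) * algebraMap K N (b : K) - algebraMap K N (c : K))) +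
      lamQ Q * tc P * (algebraMap K N (ϖ : K) * algebraMap K N (b : K)) := by
    ring
  rw [e9]
  refine Valuation.map_add_le v hprod ?_
  rw [map_mul, map_mul, map_mul, sq]
  refine mul_le_mul' ((mul_le_mul' hlam le_rfl).trans (by rw [one_mul])) ?_
  exact (mul_le_mul' hϖ (v_alg_le v b)).trans (by rw [mul_one])

end

end

end Pool.Agent.Lib.MP_1a91b9_ntT.DG
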