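import Pool.Agent.Lib.MP_1a91b9_ntT.DG.Dual

/-!
# DG: the element `r` of the group algebra

JOB ALG. PROOF (complete; helper30). Let `k = 𝓞 K ⧸ Ideal.span {ϖ}` (a finite field, `h.prime`;
`Ideal.Quotient.field`, local instance), `G = U μ`, `A = MonoidAlgebra k G`, a commutative ring, finite. For
`f : G → 𝓞 K` let `f' ∈ A` be the element with coefficients `Ideal.Quotient.mk _ (f g)` (`Finsupp.equivFunOnFinite`).
Then `(f1 * f2)' coefficient at w = mk (conv f1 f2 w)`: `conv f1 f2 w = Σ_g f1 (g⁻¹ * w) * f2 g`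
(`MonoidAlgebra.mul_apply`, `MonoidAlgebra.mul_apply_right` or a direct computation), and `f' = 0` iff `ϖ ∣ f g` for all
`g`. Every element of `A` is `f'` for some `f` (lift the coefficients, `Ideal.Quotient.mk_surjective`).

`A` is reduced: `A` is semisimple by Maschke (`ℓ ∤ #G`: `MonoidAlgebra.Submodule.complementedLattice` or
`IsSemisimpleRing`; the cardinality of `G` is a unit in `k`, of characteristic `ℓ`), a commutative semisimple ring is
reduced. (Alternatively directly: if `x^2 = 0`, `x ≠ 0`; Maschke gives an idempotent `e` with `A x = A e`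
(`x` generates a direct summand), `e = a x`, `e = e^2 = a^2 x^2 = 0`, contradiction.)

STEP 1: there are `e ∈ A` and a maximal ideal `m` with `η1' ∉ m`, `e ∉ m`, `e * y = 0` for all `y ∈ m`: the direct way:
among the nonzero ideals contained in `A η1'` choose a minimal one `I` (`A` is Artinian, or finite: choose one of
minimal cardinality). `I ≠ 0`, `A` is reduced so `I^2 ≠ 0`, so there are `x ∈ I`, `I x ≠ 0`, `I x = I` by minimality; let
`m = {y | y x = 0}` be the annihilator of `x`: `A/m = A x = I` is a simple module, so `m` is maximal; put `e = x`: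
`e m = 0`; `e ∉ m` because `x^2 ≠ 0` (reduced). `η1' ∉ m`: `x = b η1'` for some `b`, if `η1' x = 0` then `x^2 = b η1' x = 0`,
contradiction. [Alternatively use `IsArtinianRing.equivPi` or any other argument.]
STEP 2: `z = η1' * e * η1'` is not in `m`, so it is not `0`: there is `u0 ∈ G` with coefficient `z u0 ≠ 0`. The map
`x ↦ ((n x : ℤ) : ZMod ℓ)` is not zero on the multiples of a lift of `z u0`: by `n_nondeg` there is `κ ∈ 𝓞 K` with
`[lift (z u0) * κ] ≠ 0`. Let `s = κ [u0⁻¹] ∈ A` (`MonoidAlgebra.single u0⁻¹ κ`) and `t' = s e`, `r' = s e η1'`: `t`, `r` are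
lifts. The coefficient of `η1' * r' = s z` at `1` is `κ * z u0`. So `[conv η1 r 1] ≠ 0` (`n_dvd`).
STEP 3: let `α' * η' = 0`; `0 ∈ m`, so `α' ∈ m` or `η' ∈ m` (`m` is prime), so `α' e = 0` or `η' e = 0`, so
`α' * r' = 0` or `η' * r' = 0`.
-/

set_option autoImplicit false

namespace Pool.Agent.Lib.MP_1a91b9_ntT.DG

open NumberField IsDedekindDomain WeierstrassCurve DB

private theorem alg_min {A : Type*} [CommRing A] [IsReduced A] [IsArtinianRing A] {η : A} (hη : η ≠ 0) :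
    ∃ x : A, η * x * η ≠ 0 ∧ ∀ y z : A, y * z * x = 0 → y * x = 0 ∨ z * x = 0 := by
  classical
  let S : Set (Ideal A) := {I | ∃ x : A, (∃ b, x = b * η) ∧ x ≠ 0 ∧ I = Ideal.span {x}}
  have hS : S.Nonempty := ⟨Ideal.span {η}, η, ⟨1, (one_mul η).symm⟩, hη, rfl⟩
  have hwf : WellFounded ((· < ·) : Ideal A → Ideal A → Prop) := IsWellFounded.wf
  obtain ⟨I, ⟨x, ⟨b, hb⟩, hx0, hI⟩, hmin⟩ := hwf.has_min S hS
  have hgen : ∀ y : A, y * x ≠ 0 → ∃ c, x = c * (y * x) := by
    intro y hy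
    have h1 : Ideal.span {y * x} ∈ S := ⟨y * x, ⟨y * b, by rw [hb]; ring⟩, hy, rfl⟩
    have h2 := hmin _ h1
    have h3 : Ideal.span {y * x} ≤ I := by
      rw [hI, Ideal.span_singleton_le_span_singleton]
      exact dvd_mul_left x y
    have h4 : Ideal.span {y * x} = I := by
      by_contra hne
      exact h2 (lt_of_le_of_ne h3 hne)
    have h5 : x ∈ Ideal.span {y * x} := by
      rw [h4, hI]
      exact Ideal.mem_span_singleton_self x
    obtain ⟨c, hc⟩ := Ideal.mem_span_singleton.1 h5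
    exact ⟨c, hc.trans (mul_comm _ _)⟩
  have hprime : ∀ y z : A, y * z * x = 0 → y * x = 0 ∨ z * x = 0 := by
    intro y z hyz
    by_cases hz : z * x = 0
    · exact Or.inr hz
    · obtain ⟨c, hc⟩ := hgen z hz
      left
      calc y * x = y * (c * (z * x)) := by rw [← hc]
        _ = c * (y * z * x) := by ring
        _ = 0 := by rw [hyz, mul_zero]
  have hxx : x * x ≠ 0 := by
    intro h
    exact hx0 (IsReduced.eq_zero x ⟨2, by rw [pow_two]; exact h⟩)
  have hηx : η * x ≠ 0 := by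
    intro h
    apply hxx
    calc x * x = b * (η * x) := by
          conv_lhs => rw [hb]
          rw [hb]; ring
      _ = 0 := by rw [h, mul_zero]
  refine ⟨x, ?_, hprime⟩
  intro h
  rcases hprime η η (by rw [← h]; ring) with h1 | h1 <;> exact hηx h1

/-- the element of the group algebra with given coefficients -/
private noncomputable def algE {k G : Type*} [Field k] [Fintype G] (f : G → k) : MonoidAlgebra k G :=
  MonoidAlgebra.ofCoeff (Finsupp.equivFunOnFinite.symm f)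

private theorem algE_coeff {k G : Type*} [Field k] [Fintype G] (f : G → k) (g : G) :
    (algE f).coeff g = f g := rfl

private theorem algE_ext {k G : Type*} [Field k] [Fintype G] {x y : MonoidAlgebra k G}
    (h : ∀ g, x.coeff g = y.coeff g) : x = y :=
  MonoidAlgebra.coeff_injective (Finsupp.ext h)

private theorem algE_mul {k G : Type*} [Field k] [Fintype G] [CommGroup G] (x y : MonoidAlgebra k G)
    (w : G) : (x * y).coeff w = ∑ g : G, x.coeff (g⁻¹ * w) * y.coeff g := by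
  rw [MonoidAlgebra.coeff_mul_apply_right, Finsupp.sum_fintype]
  · refine Finset.sum_congr rfl fun g _ => ?_
    rw [mul_comm w]
  · intro g
    rw [mul_zero]

theorem exists_r {ϖ : 𝓞 K} {ℓ q : ℕ} (h : PD ϖ ℓ q) {T : Finset (𝓞 K)} {iv : 𝓞 K → 𝓞 K}
    {n : 𝓞 K → ℤ} (hT : TrD ϖ ℓ T iv n) {μ : 𝓞 K} [Fintype (U μ)] (hcu : ¬ ℓ ∣ Nat.card (U μ))
    {η1 : U μ → 𝓞 K} (hη : ∃ u, ¬ ϖ ∣ η1 u) :
    ∃ t r : U μ → 𝓞 K, (∀ w, ϖ ∣ r w - conv t η1 w) ∧
      ((n (conv η1 r 1) : ℤ) : ZMod ℓ) ≠ 0 ∧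
      ∀ α η : U μ → 𝓞 K, (∀ w, ϖ ∣ conv α η w) →
        (∀ w, ϖ ∣ conv α r w) ∨ (∀ w, ϖ ∣ conv η r w) := by
  have hp : (Ideal.span {ϖ}).IsPrime := (Ideal.span_singleton_prime h.prime.ne_zero).2 h.prime
  have hm : (Ideal.span {ϖ}).IsMaximal := hp.isMaximal (by
    rw [Ne, Ideal.span_singleton_eq_bot]
    exact h.prime.ne_zero)
  let _ : Field (𝓞 K ⧸ Ideal.span {ϖ}) := Ideal.Quotient.field _
  have hz : ∀ x : 𝓞 K, Ideal.Quotient.mk (Ideal.span {ϖ}) x = 0 ↔ ϖ ∣ x := by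
    intro x
    rw [Ideal.Quotient.eq_zero_iff_mem, Ideal.mem_span_singleton]
  have hne : ((Nat.card (U μ) : ℕ) : 𝓞 K ⧸ Ideal.span {ϖ}) ≠ 0 := by
    intro h0
    apply hcu
    have h1 : Ideal.Quotient.mk (Ideal.span {ϖ}) ((Nat.card (U μ) : ℕ) : 𝓞 K) = 0 := by
      rw [map_natCast]; exact h0
    rw [hz] at h1
    have h2 := (h.dvd_int_iff ((Nat.card (U μ) : ℕ) : ℤ)).1 (by rw [Int.cast_natCast]; exact h1)
    exact Int.natCast_dvd_natCast.1 h2
  have : NeZero ((Nat.card (U μ) : ℕ) : 𝓞 K ⧸ Ideal.span {ϖ}) := ⟨hne⟩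
  have hss : IsSemisimpleRing (MonoidAlgebra (𝓞 K ⧸ Ideal.span {ϖ}) (U μ)) := inferInstance
  set E : (U μ → 𝓞 K) → MonoidAlgebra (𝓞 K ⧸ Ideal.span {ϖ}) (U μ) :=
    fun f => algE (fun g => Ideal.Quotient.mk (Ideal.span {ϖ}) (f g)) with hE
  have hEc : ∀ f g, (E f).coeff g = Ideal.Quotient.mk (Ideal.span {ϖ}) (f g) := fun f g => rfl
  have hEmul : ∀ f1 f2, E (conv f1 f2) = E f1 * E f2 := by
    intro f1 f2
    apply algE_ext
    intro w
    rw [algE_mul, hEc]
    unfold conv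
    rw [map_sum]
    refine Finset.sum_congr rfl fun g _ => ?_
    rw [map_mul]
    rfl
  have hE0 : ∀ f, E f = 0 ↔ ∀ w, ϖ ∣ f w := by
    intro f
    constructor
    · intro h0 w
      rw [← hz, ← hEc, h0]
      rfl
    · intro h0
      apply algE_ext
      intro w
      rw [hEc, (hz _).2 (h0 w)]
      rfl
  have hη0 : E η1 ≠ 0 := by
    intro h0
    obtain ⟨u, hu⟩ := hη
    exact hu ((hE0 η1).1 h0 u)
  obtain ⟨x, hx1, hx2⟩ := alg_min hη0
  -- lift of x
  have hlift : ∀ g : U μ, ∃ a : 𝓞 K, Ideal.Quotient.mk (Ideal.span {ϖ}) a = x.coeff g :=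
    fun g => Ideal.Quotient.mk_surjective _
  choose f0 hf0 using hlift
  have hEx : E f0 = x := by
    apply algE_ext
    intro g
    rw [hEc, hf0]
  obtain ⟨u0, hu0⟩ : ∃ u0, (E η1 * x * E η1).coeff u0 ≠ 0 := by
    by_contra hcon
    push Not at hcon
    apply hx1
    apply algE_ext
    intro g
    rw [hcon g]
    rfl
  obtain ⟨ζ, hζ⟩ := Ideal.Quotient.mk_surjective ((E η1 * x * E η1).coeff u0)
  have hζ0 : ¬ ϖ ∣ ζ := by
    rw [← hz, hζ]; exact hu0
  obtain ⟨κ, hκ⟩ : ∃ κ, ((n (ζ * κ) : ℤ) : ZMod ℓ) ≠ 0 := by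
    by_contra hcon
    push Not at hcon
    exact hζ0 (n_nondeg h hT hcon)
  set t : U μ → 𝓞 K := fun w => κ * f0 (u0 * w) with ht
  have hEt : E t = MonoidAlgebra.single u0⁻¹ (Ideal.Quotient.mk (Ideal.span {ϖ}) κ) * x := by
    apply algE_ext
    intro w
    rw [hEc, MonoidAlgebra.coeff_single_mul_apply, inv_inv, ht]
    show Ideal.Quotient.mk (Ideal.span {ϖ}) (κ * f0 (u0 * w)) = _
    rw [map_mul, hf0]
  refine ⟨t, conv t η1, fun w => by rw [sub_self]; exact dvd_zero _, ?_, ?_⟩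
  · have h1 : ϖ ∣ conv η1 (conv t η1) 1 - ζ * κ := by
      rw [← hz, map_sub, sub_eq_zero, ← hEc, hEmul, hEmul, hEt]
      have e : E η1 * (MonoidAlgebra.single u0⁻¹ (Ideal.Quotient.mk (Ideal.span {ϖ}) κ) * x * E η1)
          = MonoidAlgebra.single u0⁻¹ (Ideal.Quotient.mk (Ideal.span {ϖ}) κ) * (E η1 * x * E η1) := by
        ring
      rw [e, MonoidAlgebra.coeff_single_mul_apply, inv_inv, mul_one, ← hζ, map_mul, mul_comm]
    rw [n_dvd h hT h1]
    exact hκ
  · intro α η hαη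
    have h0 : E α * E η = 0 := by
      rw [← hEmul]; exact (hE0 _).2 hαη
    have h1 : E α * E η * x = 0 := by rw [h0, zero_mul]
    have h2 : ∀ β : U μ → 𝓞 K, E β * x = 0 → ∀ w, ϖ ∣ conv β (conv t η1) w := by
      intro β hβ
      rw [← hE0, hEmul, hEmul, hEt]
      have e : E β * (MonoidAlgebra.single u0⁻¹ (Ideal.Quotient.mk (Ideal.span {ϖ}) κ) * x * E η1)
          = MonoidAlgebra.single u0⁻¹ (Ideal.Quotient.mk (Ideal.span {ϖ}) κ) * E η1 * (E β * x) := by
        ring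
      rw [e, hβ, mul_zero]
    rcases hx2 _ _ h1 with h3 | h3
    · exact Or.inl (h2 α h3)
    · exact Or.inr (h2 η h3)

end Pool.Agent.Lib.MP_1a91b9_ntT.DG
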