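import Pool.Agent.Lib.MP_1a91b9_ntT.DG.Defs

/-!
# DG: the units `xQ` (algebraic properties)

JOB XQA. PROOF (complete; adaptation of DB/Xi.lean, where `Q = 0`; helper30).

`exists_nat`: `m = Ideal.absNorm (Ideal.span {μ})`, `μ ∣ m` by `Ideal.absNorm_mem`. `m` is prime to `3`: from
`a * μ + b * 3 = 1` take norms: `Algebra.norm ℤ (a * μ) = Algebra.norm ℤ (1 - 3 b)` is `1` modulo `3`
(`Algebra.norm ℤ (1 - 3 b) = 1 - 3 tr b + 9 nm b`; or use `rab_coprime` of DB/Ram.lean, a private theorem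
to be copied, which says that the norm of an element `≡ 1` modulo `3` is prime to `3`; the absolute norm
is multiplicative, and a divisor of a number prime to `3` is prime to `3`).

`yQ_val`: the point `X = Q + sm a P` (`ϖ ∤ c`, `a = c`) is killed by `m q` (`m` from `exists_nat`, `sm μ Q = 0` gives
`m • Q = 0` by `sm_nat`; `q • sm c P = 0` is `yya_q`), which is prime to `3` (`yya_q3`), and `X ≠ 0`: if
`Q + sm c P = 0` apply `sm μ`: `sm (μ c) P = 0`, so `ϖ ∣ μ c` (`Ord`), contradiction with `hμϖ`, `hc`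
(`h.prime`). So `y_unit` (`add_assoc`).
`yQ_val0`: if `Q = 0`: `yc (ptS) = om`, `v om = 1` (`v_om`); otherwise `y_unit`.
The other statements: copy the proofs of DB/Xi.lean (`xi_val`, `xi_ne_zero`, `xi_zero`, `xi_cong`, `xi_neg`,
`xi_add`, `xi_ga`), with `ptS N + Q + sm N a P` in place of `ptS N + sm N a P`. In `xQ_ga`:
`σ (yc (S + Q + sm a P)) = yc (ga σ S + ga σ Q + sm a (ga σ P)) = yc (S + ga σ Q + sm (a d) P)`.
-/

set_option autoImplicit false

namespace Pool.Agent.Lib.MP_1a91b9_ntT.DG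

open NumberField IsDedekindDomain WeierstrassCurve DB

noncomputable section

private theorem xqa_coprime {β : 𝓞 K} (hβ1 : (3 : 𝓞 K) ∣ β - 1) :
    (Ideal.absNorm (Ideal.span {β})).Coprime 3 := by
  obtain ⟨d, hd⟩ := hβ1
  obtain ⟨m, n, hmn⟩ := S3.exists_coords d
  have h1 : (β : K) = ((1 + 3 * m : ℤ) : K) + ((3 * n : ℤ) : K) * om := by
    have h2 : (β : K) - 1 = 3 * (d : K) := by
      have h3 := congrArg (algebraMap (𝓞 K) K) hd
      rw [map_sub, map_one, map_mul, map_ofNat] at h3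
      exact h3
    rw [hmn] at h2
    push_cast
    linear_combination h2
  have h2 : embK (β : K) = ((1 + 3 * m : ℤ) : ℂ) + ((3 * n : ℤ) : ℂ) * zt := by
    rw [h1, map_add, map_mul, map_intCast, map_intCast, embK_om]
  have h3 := S3.card_quot β h2
  have h4 : Ideal.absNorm (Ideal.span {β}) = Nat.card (𝓞 K ⧸ Ideal.span {β}) := rfl
  rw [← h4] at h3
  rw [Nat.coprime_comm, Nat.Prime.coprime_iff_not_dvd Nat.prime_three]
  intro h5
  have h6 : (3 : ℤ) ∣ ((Ideal.absNorm (Ideal.span {β}) : ℕ) : ℤ) := by exact_mod_cast h5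
  rw [h3] at h6
  have h7 : (1 + 3 * m) ^ 2 - (1 + 3 * m) * (3 * n) + (3 * n) ^ 2 =
      3 * (2 * m + 3 * m ^ 2 - n - 3 * m * n + 3 * n ^ 2) + 1 := by ring
  rw [h7] at h6
  omega

theorem exists_nat {μ : 𝓞 K} (hμ : IsCoprime μ 3) : ∃ m : ℕ, m.Coprime 3 ∧ μ ∣ (m : 𝓞 K) := by
  refine ⟨Ideal.absNorm (Ideal.span {μ}), ?_, Ideal.mem_span_singleton.1 (Ideal.absNorm_mem _)⟩
  obtain ⟨a, b, hab⟩ := hμ
  have h1 : (3 : 𝓞 K) ∣ a * μ - 1 := ⟨-b, by linear_combination hab⟩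
  have h2 := xqa_coprime h1
  rw [← Ideal.span_singleton_mul_span_singleton, map_mul] at h2
  exact h2.coprime_dvd_left (dvd_mul_left _ _)

theorem xqa_kill {N : Type} [Field N] [Algebra K N] [DecidableEq N] {μ : 𝓞 K}
    {m : ℕ} (hm : μ ∣ (m : 𝓞 K)) {Q : Pt N} (hQ : sm N μ Q = 0) : m • Q = 0 := by
  obtain ⟨e, he⟩ := hm
  rw [← sm_nat, he, mul_comm, map_mul]
  change sm N e (sm N μ Q) = 0
  rw [hQ, map_zero]

section
variable {N : Type} [Field N] [NumberField N] [Algebra K N] [DecidableEq N]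
  {ϖ : 𝓞 K} {ℓ q : ℕ} (h : PD ϖ ℓ q) {T : Finset (𝓞 K)} {iv : 𝓞 K → 𝓞 K} {n : 𝓞 K → ℤ}
  (hT : TrD ϖ ℓ T iv n) {P : Pt N} (hP : Ord ϖ P) {μ : 𝓞 K} (hμ : IsCoprime μ 3)
  (hμϖ : ¬ ϖ ∣ μ) {Q : Pt N} (hQ : sm N μ Q = 0)

include h hP hμ hμϖ hQ in
theorem yQ_val {Γ : Type*} [LinearOrderedCommGroupWithZero Γ] (v : Valuation N Γ) {c : 𝓞 K}
    (hc : ¬ ϖ ∣ c) : v (yc (ptS N + Q + sm N c P)) = 1 := by
  obtain ⟨m, hm3, hmμ⟩ := exists_nat hμ
  have hQm := xqa_kill hmμ hQ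
  rw [add_assoc]
  refine y_unit (n := m * q) v (Nat.Coprime.mul_left hm3 (yya_q3 h)) ?_ ?_
  · have h1 : (m * q) • Q = 0 := by rw [mul_comm, mul_smul, hQm, smul_zero]
    have h2 : (m * q) • sm N c P = 0 := by rw [mul_smul, yya_q h hP, smul_zero]
    rw [smul_add, h1, h2, add_zero]
  · intro h0
    have h1 : sm N μ (Q + sm N c P) = 0 := by rw [h0, map_zero]
    rw [map_add, hQ, zero_add, sm_sm] at h1
    exact (h.prime.dvd_or_dvd ((hP _).1 h1)).elim hμϖ hc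

include hμ hQ in
theorem yQ_val0 {Γ : Type*} [LinearOrderedCommGroupWithZero Γ] (v : Valuation N Γ) :
    v (yc (ptS N + Q)) = 1 := by
  by_cases hQ0 : Q = 0
  · rw [hQ0, add_zero]
    exact v_om v
  · obtain ⟨m, hm3, hmμ⟩ := exists_nat hμ
    exact y_unit v hm3 (xqa_kill hmμ hQ) hQ0

include h hT hP hμ hμϖ hQ

omit hT in
private theorem xqa_y_ne {c : 𝓞 K} (hc : ¬ ϖ ∣ c) : yc (ptS N + Q + sm N c P) ≠ 0 := by
  intro h0
  have h1 := yQ_val h hP hμ hμϖ hQ (1 : Valuation N (WithZero (Multiplicative ℤ))) hc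
  rw [h0, map_zero] at h1
  exact zero_ne_one h1

theorem xQ_val {Γ : Type*} [LinearOrderedCommGroupWithZero Γ] (v : Valuation N Γ) (c : 𝓞 K) :
    v (xQ T iv n P Q c) = 1 := by
  rw [xQ, map_prod]
  refine Finset.prod_eq_one fun a ha => ?_
  rw [map_zpow₀, yQ_val h hP hμ hμϖ hQ v (hT.res.nz a ha), one_zpow]

theorem xQ_ne_zero (c : 𝓞 K) : xQ T iv n P Q c ≠ 0 := by
  exact Finset.prod_ne_zero_iff.2 fun a ha =>
    zpow_ne_zero _ (xqa_y_ne h hP hμ hμϖ hQ (hT.res.nz a ha))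

theorem xQ_zero {c : 𝓞 K} (hc : ϖ ∣ c) : xQ T iv n P Q c = 1 := by
  rw [xQ]
  refine Finset.prod_eq_one fun a _ => ?_
  rw [TrD.zero h hT (hc.mul_right _), zpow_zero]

theorem xQ_cong {c d : 𝓞 K} (hc : ϖ ∣ c - d) : xQ T iv n P Q c = xQ T iv n P Q d := by
  rw [xQ, xQ]
  refine Finset.prod_congr rfl fun a _ => ?_
  rw [hT.cong (c * iv a) (d * iv a) (by rw [← sub_mul]; exact hc.mul_right _)]

theorem xQ_neg (c : 𝓞 K) : xQ T iv n P Q (-c) = (xQ T iv n P Q c)⁻¹ := by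
  rw [xQ, xQ, ← Finset.prod_inv_distrib]
  refine Finset.prod_congr rfl fun a _ => ?_
  rw [neg_mul, hT.odd, zpow_neg]

theorem xQ_add (c d : 𝓞 K) : ∃ z : N, z ≠ 0 ∧ (∀ w : HeightOneSpectrum (𝓞 N), od w z = 0) ∧
    xQ T iv n P Q (c + d) = xQ T iv n P Q c * xQ T iv n P Q d * z ^ ℓ := by
  have hm : ∀ a : 𝓞 K, ∃ m : ℤ, n ((c + d) * iv a) - n (c * iv a) - n (d * iv a) = ℓ * m := by
    intro a
    have h1 := hT.add (c * iv a) (d * iv a)
    rw [← add_mul] at h1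
    exact h1
  choose m hm using hm
  have hz0 : ∏ a ∈ T, yc (ptS N + Q + sm N a P) ^ m a ≠ 0 :=
    Finset.prod_ne_zero_iff.2 fun a ha =>
      zpow_ne_zero _ (xqa_y_ne h hP hμ hμϖ hQ (hT.res.nz a ha))
  refine ⟨∏ a ∈ T, yc (ptS N + Q + sm N a P) ^ m a, hz0, fun w => ?_, ?_⟩
  · rw [← val_eq_one_iff w hz0, map_prod]
    refine Finset.prod_eq_one fun a ha => ?_
    rw [map_zpow₀, yQ_val h hP hμ hμϖ hQ _ (hT.res.nz a ha), one_zpow]
  · rw [xQ, xQ, xQ, ← Finset.prod_mul_distrib, ← Finset.prod_pow, ← Finset.prod_mul_distrib]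
    refine Finset.prod_congr rfl fun a ha => ?_
    have hy := xqa_y_ne h hP hμ hμϖ hQ (hT.res.nz a ha)
    have h1 : n ((c + d) * iv a) = n (c * iv a) + n (d * iv a) + m a * (ℓ : ℤ) := by
      linear_combination hm a
    rw [h1, zpow_add₀ hy, zpow_add₀ hy, zpow_mul, zpow_natCast]

theorem xQ_ga {k : Type} [Field k] [Algebra K k] [Algebra k N] [IsScalarTower K k N]
    {σ : Gal(N/k)} {d : 𝓞 K} (hd : ¬ ϖ ∣ d) (hσ : ga σ P = sm N d P) (c : 𝓞 K) :
    σ (xQ T iv n P Q c) = xQ T iv n P (ga σ Q) (c * d) := by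
  classical
  have key : ∀ a b : 𝓞 K, ¬ ϖ ∣ a → ¬ ϖ ∣ b → ϖ ∣ a - b → ϖ ∣ iv a - iv b := by
    intro a b ha hb hab
    have e1 := hT.inv a ha
    have e2 := hT.inv b hb
    have e3 : ϖ ∣ a * (iv a - iv b) := by
      have e4 : a * (iv a - iv b) = (a * iv a - 1) - (b * iv b - 1) - (a - b) * iv b := by ring
      rw [e4]
      exact dvd_sub (dvd_sub e1 e2) (hab.mul_right _)
    exact (h.prime.dvd_or_dvd e3).resolve_left ha
  set f : 𝓞 K → N := fun b => if ϖ ∣ b then 1 else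
    yc (ptS N + ga σ Q + sm N b P) ^ n (c * d * iv b) with hf
  have hf1 : ∀ a b : 𝓞 K, ϖ ∣ a - b → f a = f b := by
    intro a b hab
    have hiff : ϖ ∣ a ↔ ϖ ∣ b := by
      constructor
      · intro ha
        have := dvd_sub ha hab
        rwa [sub_sub_cancel] at this
      · intro hb
        have := dvd_add hab hb
        rwa [sub_add_cancel] at this
    simp only [hf]
    by_cases ha : ϖ ∣ a
    · rw [if_pos ha, if_pos (hiff.1 ha)]
    · have hb : ¬ ϖ ∣ b := fun hb => ha (hiff.2 hb)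
      rw [if_neg ha, if_neg hb, (hP.sm_eq_iff a b).2 hab,
        hT.cong (c * d * iv a) (c * d * iv b)
          (by rw [← mul_sub]; exact (key a b ha hb hab).mul_left _)]
  have hre := TrD.reindex h hT f hf1 hd
  have h2 : xQ T iv n P (ga σ Q) (c * d) = ∏ a ∈ T, f a := by
    rw [xQ]
    refine Finset.prod_congr rfl fun a ha => ?_
    simp only [hf]
    rw [if_neg (hT.res.nz a ha)]
  rw [h2, ← hre, xQ, map_prod]
  refine Finset.prod_congr rfl fun a ha => ?_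
  have hna := hT.res.nz a ha
  have hnad : ¬ ϖ ∣ a * d := fun h3 => (h.prime.dvd_or_dvd h3).elim hna hd
  simp only [hf]
  rw [if_neg hnad, map_zpow₀, ← yc_ga σ, map_add, map_add, ga_S, ga_sm, hσ]
  have h4 : sm N a (sm N d P) = sm N (a * d) P := by
    rw [map_mul]
    rfl
  rw [h4]
  congr 1
  refine hT.cong _ _ ?_
  have e1 := hT.inv a hna
  have e2 := hT.inv (a * d) hnad
  have e3 : ϖ ∣ a * (iv a - d * iv (a * d)) := by
    have e4 : a * (iv a - d * iv (a * d)) = (a * iv a - 1) - (a * d * iv (a * d) - 1) := by ring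
    rw [e4]
    exact dvd_sub e1 e2
  have e5 := (h.prime.dvd_or_dvd e3).resolve_left hna
  have e6 : c * iv a - c * d * iv (a * d) = c * (iv a - d * iv (a * d)) := by ring
  rw [e6]
  exact e5.mul_left _

end

end

end Pool.Agent.Lib.MP_1a91b9_ntT.DG
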