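import Pool.Agent.Lib.MP_1a91b9_ntT.DG.Defs
import Pool.Agent.Lib.MP_1a91b9_ntT.DG.XQa
import Pool.Agent.Lib.MP_1a91b9_ntT.DB.FrobG
import Pool.Agent.Lib.MP_1a91b9_ntT.DS.Frob
import Pool.Agent.Lib.MP_1a91b9_ntT.CF.Frob

/-!
# DG: the Galois action on torsion is onto

JOB SURJ. PROOF (complete; helper30).

`frob_all`: `β` is prime, `3 ∣ β - 1`, `¬ β ∣ γ`, `W β < 1`, `σ` a Frobenius element: `σ • x - x^q ∈ W`, `q = Ideal.absNorm (Ideal.span {β})`; `sm γ Q = 0`.
Let `m` be prime to `3` with `γ ∣ m` (`exists_nat`), so `m • Q = 0` (`sm_nat`). `W γ = 1` (otherwise `W` contains `γ` and `β`, which are coprime).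
Case `q` prime: `Deg1 β q`, `frob_smG` (DB/FrobG.lean). Case `q` not prime: `β` is an inert prime: the prime number `p` in the ideal `(β)`
satisfies `(p) = (β)`: `q = p^2`, `absNorm (p) = p^2 = absNorm (β)` and `(p) ⊆ (β)`. Take `m = Ideal.absNorm (Ideal.span {γ})` (prime to `3`,
divisible by `γ`: see the proof of `exists_nat`): `W m = 1`, otherwise `p ∣ m` (`W` contains only the prime number `p`), so
`p ∣ m`, and `m = ± γ * conj γ` or: the ideal `(γ)` has absolute norm divisible by `p`, so `(γ)` is divisible by a prime ideal above `p`, which is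
`(β)` (a finite ring `𝓞 K/(γ)` of order divisible by `p` is not killed by an element prime to `p`: if `β ∤ γ` then `β`, hence `p`, is a
unit modulo `γ`, multiplication by `p` is bijective on `𝓞 K/(γ)`, so by Cauchy `p ∤ m`). `frob_psi` of DS/Frob.lean with `k = K`,
`w = W`: the place `W.under (𝓞 K)` is `(β)`, `S4.psi K (W.under (𝓞 K)).asIdeal = β` (the generator congruent to `1` modulo `3`; S4/PsiDef.lean,
`S4/BaseCase.lean` for `k = K`), so `ga σ Q = sm β Q`.
`surj_prime`: there is a place `W` of `L` with `W β < 1` (going up), and a Frobenius element: `CF/Frob.lean` or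
`IsArithFrobAt.exists_of_isInvariant (𝓞 K) Gal(L/K) W.asIdeal`; the cardinality of `𝓞 K / (W.under).asIdeal` is `absNorm (span {β})`.
`surj_gen`: `S` = set of the `c : 𝓞 K` such that there is `σ` with `ga σ Q = sm c Q` for all `Q` killed by `γ`: closed under products
(`ga_mul`, `ga_sm`; `sm c Q` is killed by `γ`), under congruence modulo `γ` (`sm (c + γ x) Q = sm c Q`), contains `1`. Choose `c'` with
`γ ∣ c' - c`, `3 ∣ c' - 1` (`hγ : IsCoprime γ 3`); `c'` is prime to `γ` and to `3`, not zero. `𝓞 K` is a principal ideal domain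
(`IsCyclotomicExtension.Rat.three_pid K`): `c'` is a unit times a product of primes `π_i`, each prime to `3` and `γ`; by `S4.exists_gen` for
`(π_i)` each `π_i` has an associate `β_i = 1` modulo `3`; `c' = ε Π β_i` with a unit `ε = 1` modulo `3`, so `ε = 1` (the units are `±om^i`; there is
`unit_eq_one` in S4/BaseCase.lean or near it). [Formally: strong induction on the number of prime factors, or `UniqueFactorizationMonoid.induction_on_prime`
for the statement: for every `c` prime to `3 γ` there is a unit `ε` with `ε c ∈ S` and `3 ∣ ε c - 1`.]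
-/

set_option autoImplicit false

namespace Pool.Agent.Lib.MP_1a91b9_ntT.DG

open NumberField IsDedekindDomain WeierstrassCurve DB

noncomputable section

/-- the ideal generated by a prime element is maximal -/
private theorem sgj_max {β : 𝓞 K} (hβ : Prime β) : (Ideal.span {β} : Ideal (𝓞 K)).IsMaximal := by
  have h1 : (Ideal.span {β} : Ideal (𝓞 K)).IsPrime :=
    (Ideal.span_singleton_prime hβ.ne_zero).2 hβ
  exact h1.isMaximal (by rw [Ne, Ideal.span_singleton_eq_bot]; exact hβ.ne_zero)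

/-- a prime element which does not divide `γ` is coprime to `γ` -/
private theorem sgj_cop {β γ : 𝓞 K} (hβ : Prime β) (h : ¬ β ∣ γ) : IsCoprime β γ := by
  have hm := sgj_max hβ
  rw [← Ideal.isCoprime_span_singleton_iff, Ideal.isCoprime_iff_sup_eq]
  have h2 : Ideal.span {β} < Ideal.span {β} ⊔ Ideal.span {γ} := by
    refine lt_of_le_of_ne le_sup_left fun e => h ?_
    have h3 : Ideal.span {γ} ≤ Ideal.span {β} := by
      rw [e]
      exact le_sup_right
    exact Ideal.span_singleton_le_span_singleton.1 h3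
  exact hm.1.2 _ h2

/-- a natural prime number which is coprime to `γ` does not divide the norm of `γ` -/
private theorem sgj_norm {γ : 𝓞 K} (hγ0 : γ ≠ 0) {p : ℕ} (hp : p.Prime)
    (h : IsCoprime (p : 𝓞 K) γ) : ¬ p ∣ Ideal.absNorm (Ideal.span {γ}) := by
  intro hd
  have hne : (Ideal.span {γ} : Ideal (𝓞 K)) ≠ ⊥ := by
    rw [Ne, Ideal.span_singleton_eq_bot]
    exact hγ0
  have hfin : Finite (𝓞 K ⧸ Ideal.span {γ}) := Ideal.finiteQuotientOfFreeOfNeBot _ hne
  have hcard : Ideal.absNorm (Ideal.span {γ}) = Nat.card (𝓞 K ⧸ Ideal.span {γ}) := rfl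
  rw [hcard] at hd
  have : Fact p.Prime := ⟨hp⟩
  obtain ⟨x, hx⟩ := exists_prime_addOrderOf_dvd_card' (G := 𝓞 K ⧸ Ideal.span {γ}) p hd
  have h1 : (p : ℕ) • x = 0 := by
    rw [← hx]
    exact addOrderOf_nsmul_eq_zero x
  obtain ⟨a, b, hab⟩ := h
  have h2 : Ideal.Quotient.mk (Ideal.span {γ}) a * (p : 𝓞 K ⧸ Ideal.span {γ}) = 1 := by
    have e1 : Ideal.Quotient.mk (Ideal.span {γ}) (a * (p : 𝓞 K)) =
        Ideal.Quotient.mk (Ideal.span {γ}) 1 := by
      rw [mk_eq]
      exact ⟨-b, by linear_combination hab⟩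
    rw [map_mul, map_natCast, map_one] at e1
    exact e1
  have h3 : x = 0 := by
    rw [nsmul_eq_mul] at h1
    calc x = (Ideal.Quotient.mk (Ideal.span {γ}) a * (p : 𝓞 K ⧸ Ideal.span {γ})) * x := by
          rw [h2, one_mul]
      _ = 0 := by rw [mul_assoc, h1, mul_zero]
  rw [h3, addOrderOf_zero] at hx
  exact hp.one_lt.ne hx

/-- the prime number below a prime element -/
private theorem sgj_below {β : 𝓞 K} (hβ : Prime β) : ∃ p : ℕ, p.Prime ∧ β ∣ (p : 𝓞 K) ∧
    Ideal.absNorm (Ideal.span {β}) ∣ p ^ 2 := by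
  have hne : (Ideal.span {β} : Ideal (𝓞 K)) ≠ ⊥ := by
    rw [Ne, Ideal.span_singleton_eq_bot]
    exact hβ.ne_zero
  have h0 : Ideal.absNorm (Ideal.span {β}) ≠ 0 := by
    rw [Ne, Ideal.absNorm_eq_zero_iff]
    exact hne
  have hq : β ∣ ((Ideal.absNorm (Ideal.span {β}) : ℕ) : 𝓞 K) :=
    Ideal.mem_span_singleton.1 (Ideal.absNorm_mem _)
  have key : ∀ n : ℕ, n ≠ 0 → β ∣ (n : 𝓞 K) → ∃ p : ℕ, p.Prime ∧ β ∣ (p : 𝓞 K) := by
    intro n
    induction n using Nat.recOnMul with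
    | zero => intro h1; exact absurd rfl h1
    | one =>
      intro _ h1
      rw [Nat.cast_one] at h1
      exact absurd (isUnit_of_dvd_one h1) hβ.not_isUnit
    | prime p hp => intro _ h1; exact ⟨p, hp, h1⟩
    | mul a b iha ihb =>
      intro h1 h2
      rw [Nat.cast_mul] at h2
      rcases hβ.dvd_or_dvd h2 with h3 | h3
      · exact iha (left_ne_zero_of_mul h1) h3
      · exact ihb (right_ne_zero_of_mul h1) h3
  obtain ⟨p, hp, hpd⟩ := key _ h0 hq
  refine ⟨p, hp, hpd, ?_⟩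
  have h5 := Ideal.absNorm_dvd_absNorm_of_le
    ((Ideal.span_singleton_le_span_singleton).mpr hpd)
  rwa [S4.u4_absNorm_p (K := K) p] at h5

/-- the value of `psi` at a place of degree one -/
private theorem sgj_psi {k : Type} [Field k] [NumberField k] [Algebra K k]
    (v : HeightOneSpectrum (𝓞 k)) {β : 𝓞 K} (hβ1 : (3 : 𝓞 K) ∣ β - 1)
    (hu : (v.under (𝓞 K)).asIdeal = Ideal.span {β})
    (hn : Ideal.absNorm v.asIdeal = Ideal.absNorm (Ideal.span {β})) :
    S4.psi k v.asIdeal = β := by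
  obtain ⟨u, hu'⟩ : ∃ u, u = v.under (𝓞 K) := ⟨_, rfl⟩
  have hum : u.asIdeal.IsMaximal := u.isMaximal
  have hvm : v.asIdeal.IsMaximal := v.isMaximal
  have hlo : v.asIdeal.LiesOver u.asIdeal := ⟨by rw [hu']; rfl⟩
  have hrel : Ideal.relNorm (𝓞 K) v.asIdeal = u.asIdeal ^ v.asIdeal.inertiaDeg (𝓞 K) :=
    Ideal.relNorm_eq_pow_of_isMaximal v.asIdeal u.asIdeal
  have hnrm := Ideal.absNorm_pow_inertiaDeg u.asIdeal v.asIdeal
  rw [← hu'] at hu
  have h2 : 2 ≤ Ideal.absNorm u.asIdeal := by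
    have h0 : Ideal.absNorm u.asIdeal ≠ 0 := by
      rw [Ne, Ideal.absNorm_eq_zero_iff]
      exact u.ne_bot
    have h1 : Ideal.absNorm u.asIdeal ≠ 1 := by
      rw [Ne, Ideal.absNorm_eq_one_iff]
      exact u.isPrime.ne_top
    omega
  have h1 : v.asIdeal.inertiaDeg (𝓞 K) = 1 := by
    refine Nat.pow_right_injective h2 ?_
    change Ideal.absNorm u.asIdeal ^ v.asIdeal.inertiaDeg (𝓞 K) = Ideal.absNorm u.asIdeal ^ 1
    rw [pow_one, hnrm, hn, hu]
  rw [S4.psi, hrel, h1, pow_one, hu, S4.psiK_span _ hβ1]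

section
variable {L : Type} [Field L] [NumberField L] [Algebra K L] [DecidableEq L] [IsGalois K L]

theorem frob_all {γ β : 𝓞 K} (hγ : IsCoprime γ 3) (hβ : Prime β) (hβ1 : (3 : 𝓞 K) ∣ β - 1)
    (hβγ : ¬ β ∣ γ) (W : HeightOneSpectrum (𝓞 L))
    (hW : W.valuation L (algebraMap K L (β : K)) < 1) (σ : Gal(L/K))
    (hσ : ∀ x : 𝓞 L, σ • x - x ^ Ideal.absNorm (Ideal.span {β}) ∈ W.asIdeal) {Q : Pt L}
    (hQ : sm L γ Q = 0) : ga σ Q = sm L β Q := by
  classical
  have hnot : ∀ a : 𝓞 K, ¬ β ∣ a → W.valuation L (algebraMap K L (a : K)) = 1 := by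
    intro a ha
    refine le_antisymm (v_alg_le (W.valuation L) a) (not_lt.1 fun h1 => ?_)
    obtain ⟨c, d, hcd⟩ := sgj_cop hβ ha
    have h2 : W.valuation L (1 : L) < 1 := by
      have e : (1 : L) = algebraMap K L (c : K) * algebraMap K L (β : K) +
          algebraMap K L (d : K) * algebraMap K L (a : K) := by
        have e2 := congrArg (fun z : 𝓞 K => algebraMap K L (z : K)) hcd
        simp only [map_add, map_mul, map_one] at e2
        exact e2.symm
      conv_lhs => rw [e]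
      refine Valuation.map_add_lt _ ?_ ?_
      · rw [map_mul]
        exact (mul_le_of_le_one_left' (v_alg_le _ c)).trans_lt hW
      · rw [map_mul]
        exact (mul_le_of_le_one_left' (v_alg_le _ d)).trans_lt h1
    rw [map_one] at h2
    exact lt_irrefl _ h2
  have hcast : ∀ n : ℕ, algebraMap K L (((n : 𝓞 K)) : K) = (n : L) := by
    intro n
    have e1 : (((n : ℕ) : 𝓞 K) : K) = (n : K) := map_natCast (algebraMap (𝓞 K) K) n
    rw [e1, map_natCast]
  obtain ⟨p, hp, hpd, hpn⟩ := sgj_below hβ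
  by_cases hq : (Ideal.absNorm (Ideal.span {β})).Prime
  · obtain ⟨m, hm3, hmγ⟩ := exists_nat hγ
    exact frob_smG (k := K) (p := Ideal.absNorm (Ideal.span {β})) ⟨hq, rfl, hβ1⟩ W hW σ hσ hm3
      (hnot γ hβγ) (xqa_kill hmγ hQ) hQ
  · -- the prime number `p` is inert
    have hq2 : Ideal.absNorm (Ideal.span {β}) = p ^ 2 := by
      obtain ⟨i, hi, hi2⟩ := (Nat.dvd_prime_pow hp).1 hpn
      interval_cases i
      · exfalso
        rw [pow_zero, Ideal.absNorm_eq_one_iff] at hi2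
        exact (sgj_max hβ).ne_top hi2
      · exfalso
        rw [pow_one] at hi2
        rw [hi2] at hq
        exact hq hp
      · exact hi2
    have hass : ∃ u : (𝓞 K)ˣ, β * u = (p : 𝓞 K) := by
      obtain ⟨c, hc⟩ := hpd
      have h1 : Ideal.absNorm (Ideal.span {(p : 𝓞 K)}) = p ^ 2 := S4.u4_absNorm_p (K := K) p
      rw [hc, ← Ideal.span_singleton_mul_span_singleton, map_mul, hq2] at h1
      have hp0 : 0 < p ^ 2 := pow_pos hp.pos 2
      have h2 : Ideal.absNorm (Ideal.span {c}) = 1 := by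
        have h3 : p ^ 2 * Ideal.absNorm (Ideal.span {c}) = p ^ 2 * 1 := by rw [h1, mul_one]
        exact Nat.eq_of_mul_eq_mul_left hp0 h3
      rw [Ideal.absNorm_eq_one_iff, Ideal.span_singleton_eq_top] at h2
      obtain ⟨u, hu⟩ := h2
      exact ⟨u, by rw [hu, ← hc]⟩
    obtain ⟨u, hu⟩ := hass
    have hpγ : IsCoprime (p : 𝓞 K) γ := by
      obtain ⟨c, d, hcd⟩ := sgj_cop hβ hβγ
      refine ⟨c * ((u⁻¹ : (𝓞 K)ˣ) : 𝓞 K), d, ?_⟩
      rw [← hu]
      have h1 : ((u⁻¹ : (𝓞 K)ˣ) : 𝓞 K) * (u : 𝓞 K) = 1 := u.inv_mul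
      linear_combination hcd + c * β * h1
    have hγ0 : γ ≠ 0 := by
      rintro rfl
      exact hβγ (dvd_zero β)
    have hmp := sgj_norm hγ0 hp hpγ
    have hm3 : (Ideal.absNorm (Ideal.span {γ})).Coprime 3 := by
      rw [Nat.coprime_comm, Nat.Prime.coprime_iff_not_dvd Nat.prime_three]
      refine sgj_norm hγ0 Nat.prime_three ?_
      exact_mod_cast hγ.symm
    have hmγ : γ ∣ ((Ideal.absNorm (Ideal.span {γ}) : ℕ) : 𝓞 K) :=
      Ideal.mem_span_singleton.1 (Ideal.absNorm_mem _)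
    have hWm : W.valuation L ((Ideal.absNorm (Ideal.span {γ}) : ℕ) : L) = 1 := by
      rw [← hcast]
      refine hnot _ fun h1 => ?_
      have h2 : ((p : ℕ) : 𝓞 K) ∣ ((Ideal.absNorm (Ideal.span {γ}) : ℕ) : 𝓞 K) := by
        obtain ⟨d, hd⟩ := h1
        refine ⟨((u⁻¹ : (𝓞 K)ˣ) : 𝓞 K) * d, ?_⟩
        rw [← hu, hd]
        have h1 : (u : 𝓞 K) * ((u⁻¹ : (𝓞 K)ˣ) : 𝓞 K) = 1 := u.mul_inv
        linear_combination (-β * d) * h1
      have h3 := Ideal.absNorm_dvd_absNorm_of_le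
        ((Ideal.span_singleton_le_span_singleton).mpr h2)
      rw [S4.u4_absNorm_p (K := K), S4.u4_absNorm_p (K := K)] at h3
      exact hmp (Nat.pow_dvd_pow_iff (two_ne_zero) |>.1 h3)
    have hW3 : W.valuation L (3 : L) = 1 := by
      have h1 : ((3 : ℕ) : L) = 3 := by norm_num
      rw [← h1, ← hcast]
      refine hnot _ fun h2 => hβ.not_isUnit (isUnit_of_dvd_one ?_)
      rw [Nat.cast_ofNat] at h2
      obtain ⟨d, hd⟩ := hβ1
      have h3 : (1 : 𝓞 K) = β - 3 * d := by linear_combination -hd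
      rw [h3]
      exact dvd_sub dvd_rfl (h2.mul_right d)
    have hund : (W.under (𝓞 K)).asIdeal = Ideal.span {β} := by
      have hmem : β ∈ (W.under (𝓞 K)).asIdeal := by
        change algebraMap (𝓞 K) (𝓞 L) β ∈ W.asIdeal
        rw [← W.valuation_lt_one_iff_mem (K := L)]
        exact hW
      refine ((sgj_max hβ).eq_of_le (W.under (𝓞 K)).isPrime.ne_top ?_).symm
      rw [Ideal.span_singleton_le_iff_mem]
      exact hmem
    have hpsi : S4.psi K (W.under (𝓞 K)).asIdeal = β := by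
      refine sgj_psi (k := K) (W.under (𝓞 K)) hβ1 ?_ (by rw [hund])
      rw [← hund]
      ext x
      exact Iff.rfl
    have h1 := DS.frob_psi (k := K) W hW3 σ (by rw [hund]; exact hσ) hm3 hWm (xqa_kill hmγ hQ)
    rw [hpsi] at h1
    exact h1

theorem surj_prime {γ β : 𝓞 K} (hγ : IsCoprime γ 3) (hβ : Prime β) (hβ1 : (3 : 𝓞 K) ∣ β - 1)
    (hβγ : ¬ β ∣ γ) : ∃ σ : Gal(L/K), ∀ Q : Pt L, sm L γ Q = 0 → ga σ Q = sm L β Q := by
  classical
  let v : HeightOneSpectrum (𝓞 K) := ⟨Ideal.span {β}, (sgj_max hβ).isPrime, by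
    rw [Ne, Ideal.span_singleton_eq_bot]; exact hβ.ne_zero⟩
  obtain ⟨W, hW⟩ := CF.exists_over (N := L) v
  obtain ⟨φ, hφ⟩ := CF.exists_fr (k := K) W
  have hund : (W.under (𝓞 K)).asIdeal = Ideal.span {β} := by rw [hW]
  refine ⟨φ, fun Q hQ => frob_all hγ hβ hβ1 hβγ W ?_ φ ?_ hQ⟩
  · have hmem : β ∈ (W.under (𝓞 K)).asIdeal := by
      rw [hund]
      exact Ideal.mem_span_singleton_self β
    have h1 : algebraMap (𝓞 K) (𝓞 L) β ∈ W.asIdeal := hmem
    rw [← W.valuation_lt_one_iff_mem (K := L)] at h1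
    exact h1
  · intro x
    have h1 := hφ x
    rw [Pool.Agent.Lib.MP_1a91b9_nt.nrm_eq, hund] at h1
    exact h1

theorem surj_gen {γ : 𝓞 K} (hγ : IsCoprime γ 3) {c : 𝓞 K} (hc : IsCoprime c γ) :
    ∃ σ : Gal(L/K), ∀ Q : Pt L, sm L γ Q = 0 → ga σ Q = sm L c Q := by
  classical
  have hpid : IsPrincipalIdealRing (𝓞 K) := IsCyclotomicExtension.Rat.three_pid K
  -- the induction
  have key : ∀ d : 𝓞 K, IsCoprime d γ → IsCoprime d 3 → ∃ ε : (𝓞 K)ˣ, (3 : 𝓞 K) ∣ ε * d - 1 ∧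
      ∃ σ : Gal(L/K), ∀ Q : Pt L, sm L γ Q = 0 → ga σ Q = sm L (ε * d) Q := by
    intro d
    induction d using UniqueFactorizationMonoid.induction_on_prime with
    | h₁ =>
      intro h1 h2
      rw [isCoprime_zero_left] at h1 h2
      refine ⟨1, h2.dvd, 1, fun Q hQ => ?_⟩
      obtain ⟨u, hu⟩ := h1
      have h3 : sm L (((u⁻¹ : (𝓞 K)ˣ) : 𝓞 K) * γ) Q = Q := by
        rw [← hu, u.inv_mul, map_one]
        rfl
      rw [← sm_sm, hQ, map_zero] at h3
      rw [← h3, map_zero, map_zero]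
    | h₂ x hx =>
      intro h1 h2
      obtain ⟨u, rfl⟩ := hx
      refine ⟨u⁻¹, ?_, 1, fun Q hQ => ?_⟩
      · rw [u.inv_mul, sub_self]
        exact dvd_zero _
      · rw [u.inv_mul, map_one, ga_one]
        rfl
    | h₃ a π ha hπ ih =>
      intro h1 h2
      obtain ⟨ε, hε, τ, hτ⟩ := ih (IsCoprime.of_mul_left_right h1) (IsCoprime.of_mul_left_right h2)
      have hπγ := IsCoprime.of_mul_left_left h1
      have hπ3 := IsCoprime.of_mul_left_left h2
      obtain ⟨β, hβ1, hβs⟩ := S4.exists_gen (Ideal.span {π}) ((Ideal.isCoprime_span_singleton_iff _ _).2 hπ3)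
      rw [Ideal.span_singleton_eq_span_singleton] at hβs
      obtain ⟨u, hu⟩ := hβs.symm
      have hβ : Prime β := hβs.symm.prime hπ
      have hβγ : ¬ β ∣ γ := by
        intro h3
        have h4 : π ∣ γ := (hβs.symm.dvd).trans h3
        exact hπ.not_isUnit (hπγ.isUnit_of_dvd' dvd_rfl h4)
      obtain ⟨σ, hσ⟩ := surj_prime (L := L) hγ hβ hβ1 hβγ
      have e : ((u * ε : (𝓞 K)ˣ) : 𝓞 K) * (π * a) = β * (ε * a) := by
        rw [← hu, Units.val_mul]
        ring
      refine ⟨u * ε, ?_, σ * τ, fun Q hQ => ?_⟩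
      · rw [e]
        have e2 : β * (ε * a) - 1 = (β - 1) * (ε * a) + (ε * a - 1) := by ring
        rw [e2]
        exact dvd_add (hβ1.mul_right _) hε
      · rw [e, ga_mul, hτ Q hQ, ga_sm, hσ Q hQ, sm_sm, mul_comm β]
  obtain ⟨a, b, hab⟩ := id hγ
  obtain ⟨d, hd⟩ : ∃ d, d = c * (b * 3) + a * γ := ⟨_, rfl⟩
  have hdc : d = c + γ * (a * (1 - c)) := by
    rw [hd]
    linear_combination c * hab
  have hd1 : (3 : 𝓞 K) ∣ d - 1 := ⟨b * (c - 1), by rw [hd]; linear_combination hab⟩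
  have hdγ : IsCoprime d γ := by
    rw [hdc]
    exact IsCoprime.add_mul_left_left hc _
  have hd3 : IsCoprime d 3 := by
    obtain ⟨e, he⟩ := hd1
    exact ⟨1, -e, by linear_combination he⟩
  obtain ⟨ε, hε, σ, hσ⟩ := key d hdγ hd3
  have h1 : ε = 1 := by
    apply S4.unit_eq_one
    have e : (ε : 𝓞 K) - 1 = (ε * d - 1) - ε * (d - 1) := by ring
    rw [e]
    exact dvd_sub hε (hd1.mul_left _)
  refine ⟨σ, fun Q hQ => ?_⟩
  rw [hσ Q hQ, h1, Units.val_one, one_mul, hdc, map_add, mul_comm γ]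
  change sm L c Q + sm L (a * (1 - c) * γ) Q = sm L c Q
  rw [← sm_sm, hQ, map_zero, add_zero]

end

end

end Pool.Agent.Lib.MP_1a91b9_ntT.DG
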