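import Pool.Agent.Lib.MP_1a91b9_ntT.DG.Res
import Pool.Agent.Lib.MP_1a91b9_ntT.DB.FrobG

/-!
# DG: unramified places

JOB UNR. PROOF (complete; helper30). Files to imitate: `nos`, `unram`, `ram` in DB/Ram.lean, `ker_sm_tors`, `frob_smG` in
DB/FrobG.lean, the private lemmas of DB/ThA.lean.

`fix_tors`: `Q' = ga σ Q - Q` is killed by `γ` (`ga_sm`). `W (σ x - x) < 1` for all `x` with `W x ≤ 1` (`raD_val`). If `Q = 0` trivial.
`Q` is not in the kernel of reduction (if it is, `ker_sm_tors` gives `Q = 0`), the same for `ga σ Q`; the coordinates of `ga σ Q`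
are congruent to those of `Q` modulo `W` (`xc_ga`, `yc_ga`, `not_ker`), so `red_inj` (`h3`): `Q'` is in the kernel, `ker_sm_tors`:
`Q' = 0`.
`unram_gen`: the inertia group of `W` is trivial; as at the end of `unram` in DB/Ram.lean (the ramification index is the
cardinality of the inertia group).
`nosG`: `σ` fixes `J` (`fix_tors` with `γ = μ`) and `up L P` (`fix_tors` with `γ = ϖ`, `IsCoprime ϖ 3` from `h.one`: `ϖ = 1 + 3 x`), so
`σ = 1` (`hG.gen`). `unramG`: `unram_gen`.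
`unramA`: the same for `L'/K`: `σ` in the inertia group fixes `J'`, `hAB.gen`.
`od_prime_K`: a prime element `β` of `𝓞 K` and a place `v` of `K` with `v β < 1`: `v.asIdeal = Ideal.span {β}` (maximal ideals),
`od v β = 1` (see `od_beta` in DB/ThA.lean, `intValuation_singleton`).
`unrF`: let `v` be a place of `F` with `v ℓ < 1`, `W` a place of `L'` above `v`. `W 3 = 1` (`ℓ ≠ 3`: `a 3 + b ℓ = 1` in `ℤ`), `W μ = 1`
(`IsCoprime ℓ μ`). `unramA`: `W` is unramified over `K`, so `v` is unramified over `K` (the ramification index of `W` over `K` is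
`e(W/F) e(v/K)`; by `od_map` for `K → F → L'`: for `x ∈ K` with `od (w) x = 1`, `w = W.under (𝓞 K)`: `1 = od W x = e(W/F) * od v x`, and
`od v x = e(v/K)`; all positive, `ramIdx_pos`, so `e(v/K) = 1`). `od w ℓ = 1` in `K` (`ℓ ≥ 5` is unramified in `K`: `unr_base` of
DS/Tower.lean for `k = K`, or write `ℓ = ϖ ϖ'`; import DS.Tower if needed). So `od v ℓ = e(v/K) od w ℓ = 1`.
-/

set_option autoImplicit false

namespace Pool.Agent.Lib.MP_1a91b9_ntT.DG

open NumberField IsDedekindDomain WeierstrassCurve DB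

noncomputable section

section
variable {k L : Type} [Field k] [NumberField k] [Algebra K k] [Field L] [NumberField L]
  [Algebra K L] [Algebra k L] [IsScalarTower K k L] [DecidableEq L] [IsGalois k L]

theorem fix_tors (W : HeightOneSpectrum (𝓞 L)) (h3 : W.valuation L (3 : L) = 1) {γ : 𝓞 K}
    (hWγ : W.valuation L (algebraMap K L (γ : K)) = 1) {Q : Pt L} (hQ : sm L γ Q = 0)
    (σ : Gal(L/k)) (hσ : ∀ x : 𝓞 L, σ • x - x ∈ W.asIdeal) : ga σ Q = Q := by
  rcases eq_or_ne Q 0 with rfl | hQ0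
  · rw [map_zero]
  have hQ' : sm L γ (ga σ Q) = 0 := by rw [← ga_sm, hQ, map_zero]
  have hGQ0 : ga σ Q ≠ 0 := fun e => hQ0 (pm_inj _ (by rw [e, map_zero]))
  have hk1 : ¬ Ker (W.valuation L) Q := fun h => hQ0 (ker_sm_tors _ h hWγ hQ)
  have hk2 : ¬ Ker (W.valuation L) (ga σ Q) := fun h => hGQ0 (ker_sm_tors _ h hWγ hQ')
  obtain ⟨_, hx, hy⟩ := not_ker (W.valuation L) hk1
  have hker : Ker (W.valuation L) (Q - ga σ Q) := by
    apply red_inj (W.valuation L) h3 hk1 hk2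
    · rw [xc_ga]
      exact raD_val W σ hσ hx
    · rw [yc_ga]
      exact raD_val W σ hσ hy
  have h0 : sm L γ (Q - ga σ Q) = 0 := by rw [map_sub, hQ, hQ', sub_zero]
  exact (sub_eq_zero.1 (ker_sm_tors _ hker hWγ h0)).symm

omit [Algebra K k] [Algebra K L] [IsScalarTower K k L] [DecidableEq L] in
theorem unram_gen (W : HeightOneSpectrum (𝓞 L))
    (hI : ∀ σ : Gal(L/k), (∀ x : 𝓞 L, σ • x - x ∈ W.asIdeal) → σ = 1) :
    W.asIdeal.ramificationIdx (𝓞 k) = 1 := by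
  have h1 : W.asIdeal.inertia Gal(L/k) = ⊥ := by
    rw [eq_bot_iff]
    intro σ hσ
    rw [Subgroup.mem_bot]
    exact hI σ (fun x => hσ x)
  have hp0 : W.asIdeal.under (𝓞 k) ≠ ⊥ := (W.under (𝓞 k)).ne_bot
  have hfin : Finite (𝓞 k ⧸ W.asIdeal.under (𝓞 k)) :=
    Ring.HasFiniteQuotients.finiteQuotient hp0
  have h2 := Ideal.card_inertia_eq_ramificationIdxIn (G := Gal(L/k)) (W.asIdeal.under (𝓞 k))
    W.asIdeal
  rw [Ideal.ramificationIdxIn_eq_ramificationIdx _ W.asIdeal Gal(L/k)] at h2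
  rw [← h2, h1]
  exact Nat.card_unique

end

theorem od_prime_K {β : 𝓞 K} (hβ : Prime β) (v : HeightOneSpectrum (𝓞 K))
    (hv : v.valuation K (β : K) < 1) : od v (β : K) = 1 := by
  have hbu : β ∈ v.asIdeal := (v.valuation_lt_one_iff_mem (K := K) β).1 hv
  have hsp : (Ideal.span {β} : Ideal (𝓞 K)).IsPrime := (Ideal.span_singleton_prime hβ.ne_zero).2 hβ
  have hsm : (Ideal.span {β} : Ideal (𝓞 K)).IsMaximal := hsp.isMaximal (by
    rw [Ne, Ideal.span_singleton_eq_bot]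
    exact hβ.ne_zero)
  have hu : v.asIdeal = Ideal.span {β} :=
    (hsm.eq_of_le v.isPrime.ne_top ((Ideal.span_singleton_le_iff_mem _).2 hbu)).symm
  have h4 : v.valuation K ((β : 𝓞 K) : K) = WithZero.exp (-1 : ℤ) := by
    rw [HeightOneSpectrum.valuation_of_algebraMap]
    exact v.intValuation_singleton hβ.ne_zero hu
  unfold od
  rw [h4, WithZero.log_exp, neg_neg]

private theorem unr_ind {a b : ℤ} (h : (a : K) + b * om = 0) : a = 0 ∧ b = 0 := by
  have h1 : ((a ^ 2 - a * b + b ^ 2 : ℤ) : K) = 0 := by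
    push_cast
    linear_combination ((a : K) - b - b * om) * h + (b : K) ^ 2 * S3.om_quad
  have h2 : a ^ 2 - a * b + b ^ 2 = 0 := by exact_mod_cast h1
  have hb : b = 0 := by nlinarith [sq_nonneg (2 * a - b), sq_nonneg b]
  subst hb
  refine ⟨?_, rfl⟩
  nlinarith [sq_nonneg a]

private theorem unr_sq {ℓ : ℕ} (hℓ : ℓ.Prime) (h5 : 5 ≤ ℓ) {y z : 𝓞 K}
    (h : y ^ 2 = (ℓ : 𝓞 K) * z) : ∃ t : 𝓞 K, y = (ℓ : 𝓞 K) * t := by
  obtain ⟨m, n, hy⟩ := S3.exists_coords y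
  obtain ⟨m', n', hz⟩ := S3.exists_coords z
  have h1 : (y : K) ^ 2 = (ℓ : K) * z := by
    have h2 := congrArg (algebraMap (𝓞 K) K) h
    rw [map_pow, map_mul, map_natCast] at h2
    exact h2
  rw [hy, hz] at h1
  have h3 : ((m ^ 2 - n ^ 2 - ℓ * m' : ℤ) : K) + ((2 * m * n - n ^ 2 - ℓ * n' : ℤ) : K) * om = 0 := by
    have hq : om ^ 2 + om + 1 = 0 := S3.om_quad
    push_cast
    linear_combination h1 - (n : K) ^ 2 * hq
  obtain ⟨h4, h6⟩ := unr_ind h3
  have hp : Prime (ℓ : ℤ) := Nat.prime_iff_prime_int.1 hℓ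
  have hn : (ℓ : ℤ) ∣ n * (2 * m - n) := ⟨n', by linear_combination h6⟩
  have hm : (ℓ : ℤ) ∣ m ^ 2 - n ^ 2 := ⟨m', by linear_combination h4⟩
  have key : (ℓ : ℤ) ∣ m ∧ (ℓ : ℤ) ∣ n := by
    rcases hp.dvd_or_dvd hn with hn1 | hn1
    · refine ⟨?_, hn1⟩
      apply hp.dvd_of_dvd_pow (n := 2)
      have h7 : (ℓ : ℤ) ∣ n ^ 2 := Dvd.dvd.pow hn1 (by norm_num)
      have h8 := dvd_add hm h7
      rwa [sub_add_cancel] at h8
    · have h7 : (ℓ : ℤ) ∣ 3 * m ^ 2 := by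
        obtain ⟨c, hc⟩ := hn1
        obtain ⟨d, hd⟩ := hm
        refine ⟨-d + c * (2 * m + n), ?_⟩
        linear_combination -hd + (2 * m + n) * hc
      have h8 : (ℓ : ℤ) ∣ m := by
        rcases hp.dvd_or_dvd h7 with h9 | h9
        · exfalso
          have h10 : (ℓ : ℤ) ≤ 3 := Int.le_of_dvd (by norm_num) h9
          omega
        · exact hp.dvd_of_dvd_pow h9
      refine ⟨h8, ?_⟩
      have h9 := dvd_sub (Dvd.dvd.mul_left h8 2) hn1
      rwa [sub_sub_cancel] at h9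
  obtain ⟨⟨m1, hm1⟩, ⟨n1, hn1⟩⟩ := key
  obtain ⟨o, ho⟩ : ∃ o : 𝓞 K, algebraMap (𝓞 K) K o = om := ⟨⟨om, S3.om_integral⟩, rfl⟩
  refine ⟨(m1 : 𝓞 K) + n1 * o, ?_⟩
  apply RingOfIntegers.ext
  have e : (((ℓ : 𝓞 K) * ((m1 : 𝓞 K) + n1 * o) : 𝓞 K) : K) =
      (ℓ : K) * ((m1 : K) + n1 * om) := by
    change algebraMap (𝓞 K) K _ = _
    rw [map_mul, map_natCast, map_add, map_intCast, map_mul, map_intCast, ho]
  rw [e, hy, hm1, hn1]
  push_cast
  ring

private theorem unr_K {ℓ : ℕ} (hℓ : ℓ.Prime) (h5 : 5 ≤ ℓ) : DS.UnrL ℓ K := by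
  intro v hv
  have hl0 : (ℓ : K) ≠ 0 := Nat.cast_ne_zero.2 hℓ.ne_zero
  have hl0' : (ℓ : 𝓞 K) ≠ 0 := Nat.cast_ne_zero.2 hℓ.ne_zero
  have h1 : 0 < od v (ℓ : K) := (val_lt_one_iff v hl0).1 hv
  by_contra hne
  have h2 : 2 ≤ od v (ℓ : K) := by omega
  have e0 : algebraMap (𝓞 K) K (ℓ : 𝓞 K) = (ℓ : K) := map_natCast (algebraMap (𝓞 K) K) ℓ
  have h3 : (ℓ : 𝓞 K) ∈ v.asIdeal ^ 2 := by
    rw [← v.intValuation_le_pow_iff_mem, ← v.valuation_of_algebraMap (K := K)]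
    change v.valuation K (algebraMap (𝓞 K) K (ℓ : 𝓞 K)) ≤ _
    rw [e0, val_eq v hl0, WithZero.exp_le_exp]
    push_cast
    omega
  have h4 : v.asIdeal ^ 2 ∣ Ideal.span {(ℓ : 𝓞 K)} := by
    rw [Ideal.dvd_span_singleton]
    exact h3
  obtain ⟨J, hJ⟩ := h4
  have hJ0 : J ≠ 0 := by
    rintro rfl
    rw [mul_zero, Ideal.zero_eq_bot, Ideal.span_singleton_eq_bot] at hJ
    exact hl0' hJ
  have hle : ¬ v.asIdeal * J ≤ Ideal.span {(ℓ : 𝓞 K)} := by
    intro h6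
    have h7 : Ideal.span {(ℓ : 𝓞 K)} ∣ v.asIdeal * J := Ideal.dvd_iff_le.2 h6
    rw [hJ, pow_two, mul_assoc] at h7
    have h8 : v.asIdeal * (v.asIdeal * J) ∣ 1 * (v.asIdeal * J) := by rwa [one_mul]
    have h9 : v.asIdeal ∣ 1 :=
      (mul_dvd_mul_iff_right (mul_ne_zero v.ne_bot hJ0)).1 h8
    have h10 : v.asIdeal = ⊤ := by
      rw [← Ideal.one_eq_top]
      exact le_antisymm (by rw [Ideal.one_eq_top]; exact le_top) (Ideal.dvd_iff_le.1 h9)
    exact v.isPrime.ne_top h10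
  obtain ⟨y, hy1, hy2⟩ := SetLike.not_le_iff_exists.1 hle
  have h6 : y ^ 2 ∈ Ideal.span {(ℓ : 𝓞 K)} := by
    have h7 : y * y ∈ (v.asIdeal * J) * (v.asIdeal * J) := Ideal.mul_mem_mul hy1 hy1
    have e : (v.asIdeal * J) * (v.asIdeal * J) = Ideal.span {(ℓ : 𝓞 K)} * J := by
      rw [hJ, pow_two, mul_mul_mul_comm, mul_assoc (v.asIdeal * v.asIdeal) J J]
    have h8 : Ideal.span {(ℓ : 𝓞 K)} * J ≤ Ideal.span {(ℓ : 𝓞 K)} := Ideal.mul_le_left
    rw [pow_two]
    rw [e] at h7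
    exact h8 h7
  obtain ⟨z, hz⟩ := Ideal.mem_span_singleton.1 h6
  obtain ⟨t, ht⟩ := unr_sq hℓ h5 hz
  exact hy2 (Ideal.mem_span_singleton.2 ⟨t, ht⟩)

/-- a place above `v` -/
private theorem unr_over {N L : Type} [Field N] [NumberField N] [Field L] [NumberField L]
    [Algebra N L] (W : HeightOneSpectrum (𝓞 N)) :
    ∃ W' : HeightOneSpectrum (𝓞 L), W'.under (𝓞 N) = W := by
  have i3 : W.asIdeal.IsPrime := W.isPrime
  obtain ⟨Q, hQ1, hQ2⟩ := (inferInstance : Nonempty (W.asIdeal.primesOver (𝓞 L)))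
  have hb : Q ≠ ⊥ := Ideal.ne_bot_of_mem_primesOver W.ne_bot ⟨hQ1, hQ2⟩
  refine ⟨⟨Q, hQ1, hb⟩, ?_⟩
  apply HeightOneSpectrum.ext
  exact hQ2.over.symm

/-- a coprime element is a unit at a place which divides the other one -/
private theorem unr_cop {F : Type} [Field F] [Algebra K F] [DecidableEq F] {Γ : Type*}
    [LinearOrderedCommGroupWithZero Γ] (v : Valuation F Γ) {a b : 𝓞 K} (h : IsCoprime a b)
    (ha : v (algebraMap K F (a : K)) < 1) : v (algebraMap K F (b : K)) = 1 := by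
  obtain ⟨c, d, hcd⟩ := h
  refine le_antisymm (v_alg_le v b) (not_lt.1 fun hb => ?_)
  have e1 : ((c * a + d * b : 𝓞 K) : K) = (c : K) * (a : K) + (d : K) * (b : K) := by
    rw [← map_mul (algebraMap (𝓞 K) K), ← map_mul (algebraMap (𝓞 K) K),
      ← map_add (algebraMap (𝓞 K) K)]
  have e2 : algebraMap K F (((c * a + d * b : 𝓞 K)) : K) = 1 := by
    have e3 : (((1 : 𝓞 K)) : K) = 1 := map_one (algebraMap (𝓞 K) K)
    rw [hcd, e3, map_one]
  rw [e1, map_add, map_mul, map_mul] at e2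
  have h1 : v (1 : F) < 1 := by
    rw [← e2]
    refine Valuation.map_add_lt _ ?_ ?_
    · rw [map_mul]
      exact (mul_le_of_le_one_left' (v_alg_le v c)).trans_lt ha
    · rw [map_mul]
      exact (mul_le_of_le_one_left' (v_alg_le v d)).trans_lt hb
  rw [map_one] at h1
  exact lt_irrefl _ h1

section
variable {μ ϖ : 𝓞 K} {ℓ q : ℕ} {F N L : Type} [Field F] [NumberField F] [Algebra K F]
  [Field N] [NumberField N] [Algebra K N] [Algebra F N] [IsScalarTower K F N] [IsGalois F N]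
  [DecidableEq N] [Field L] [NumberField L] [Algebra K L] [Algebra F L] [Algebra N L]
  [IsScalarTower K F L] [IsScalarTower K N L] [IsScalarTower F N L] [DecidableEq L]
  {P : Pt N} {J : Pt L} (hG : TopG μ ϖ ℓ q F N L P J)
include hG

theorem TopG.nosG (W : HeightOneSpectrum (𝓞 L)) (h3 : W.valuation L (3 : L) = 1)
    (hμ : W.valuation L (algebraMap K L (μ : K)) = 1)
    (hϖ : W.valuation L (algebraMap K L (ϖ : K)) = 1) (σ : Gal(L/K))
    (hσ : ∀ x : 𝓞 L, σ • x - x ∈ W.asIdeal) : σ = 1 := by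
  have := hG.gal
  apply hG.gen σ
  · exact fix_tors (k := K) W h3 hμ ((hG.ord μ).2 dvd_rfl) σ hσ
  · refine fix_tors (k := K) W h3 hϖ ?_ σ hσ
    unfold up
    rw [← pm_sm, (hG.full.ord ϖ).2 dvd_rfl, map_zero]

theorem TopG.unramG (W : HeightOneSpectrum (𝓞 L)) (h3 : W.valuation L (3 : L) = 1)
    (hμ : W.valuation L (algebraMap K L (μ : K)) = 1)
    (hϖ : W.valuation L (algebraMap K L (ϖ : K)) = 1) :
    W.asIdeal.ramificationIdx (𝓞 K) = 1 := by
  have := hG.gal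
  exact unram_gen (k := K) W (fun σ hσ => hG.nosG W h3 hμ hϖ σ hσ)

end

section
variable {μ : 𝓞 K} {F L' : Type} [Field F] [NumberField F] [Algebra K F] [Field L']
  [NumberField L'] [Algebra K L'] [Algebra F L'] [IsScalarTower K F L'] [DecidableEq L']
  {J' : Pt L'} (hAB : AB μ F L' J')
include hAB

theorem unramA (W : HeightOneSpectrum (𝓞 L')) (h3 : W.valuation L' (3 : L') = 1)
    (hμ : W.valuation L' (algebraMap K L' (μ : K)) = 1) :
    W.asIdeal.ramificationIdx (𝓞 K) = 1 := by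
  have := hAB.gal
  refine unram_gen (k := K) W (fun σ hσ => hAB.gen σ ?_)
  exact fix_tors (k := K) W h3 hμ ((hAB.ord μ).2 dvd_rfl) σ hσ

theorem unrF {ℓ : ℕ} (hℓ : ℓ.Prime) (h5 : 5 ≤ ℓ) (hμ : IsCoprime (ℓ : 𝓞 K) μ) :
    DS.UnrL ℓ F := by
  intro v hv
  obtain ⟨W, rfl⟩ := unr_over (L := L') v
  have hWl : W.valuation L' (ℓ : L') < 1 := by
    rw [← val_map_lt, map_natCast] at hv
    exact hv
  have hcl : algebraMap K L' (((ℓ : 𝓞 K)) : K) = (ℓ : L') := by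
    have e : (((ℓ : 𝓞 K)) : K) = (ℓ : K) := map_natCast (algebraMap (𝓞 K) K) ℓ
    rw [e, map_natCast]
  have hWl' : W.valuation L' (algebraMap K L' (((ℓ : 𝓞 K)) : K)) < 1 := by rw [hcl]; exact hWl
  have hWμ : W.valuation L' (algebraMap K L' (μ : K)) = 1 := unr_cop _ hμ hWl'
  have h3c : IsCoprime (ℓ : 𝓞 K) (3 : 𝓞 K) := by
    have h4 : Nat.Coprime ℓ 3 := by
      rw [Nat.coprime_primes hℓ Nat.prime_three]
      omega
    have h5 := Nat.isCoprime_iff_coprime.2 h4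
    have h6 := h5.map (Int.castRingHom (𝓞 K))
    simpa using h6
  have hW3 : W.valuation L' (3 : L') = 1 := by
    have h4 := unr_cop (W.valuation L') h3c hWl'
    have e : (((3 : 𝓞 K)) : K) = 3 := map_ofNat (algebraMap (𝓞 K) K) 3
    rw [e, map_ofNat] at h4
    exact h4
  have hram := unramA hAB W hW3 hWμ
  have h1 := od_map (k := K) W (ℓ : K)
  rw [map_natCast, hram, Nat.cast_one, one_mul] at h1
  have hwl : (W.under (𝓞 K)).valuation K (ℓ : K) < 1 := by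
    rw [← val_map_lt, map_natCast]
    exact hWl
  rw [unr_K hℓ h5 _ hwl] at h1
  have h2 := od_map (k := F) W (ℓ : F)
  rw [map_natCast, h1] at h2
  have h0 : (0 : ℤ) ≤ (W.asIdeal.ramificationIdx (𝓞 F) : ℤ) := Int.natCast_nonneg _
  rcases Int.mul_eq_one_iff_eq_one_or_neg_one.1 h2.symm with h4 | h4
  · exact h4.2
  · omega

end

end

end Pool.Agent.Lib.MP_1a91b9_ntT.DG
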