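import Pool.Agent.Lib.MP_1a91b9_ntT.DG.Emb
import Pool.Agent.Lib.MP_1a91b9_ntT.DG.Surj
import Pool.Agent.Lib.MP_1a91b9_ntT.DG.Unr

/-!
# DG: the field `L`

JOB COMP. PROOF (complete; helper30). `hAB.gal : IsGalois K L'`. `exists_ext K L'` (DB/Ext.lean, `k0 := K`, `k := L'`, `β := ϖ`, `h.prime`, `h.one`)
gives a number field `L` with algebra structures `iK : Algebra K L`, `i0 : Algebra K L` (as `k0`), `Algebra L' L`, towers, `IsGalois K L` (for `i0`),
`IsGalois L' L`, and `R : Pt L` with `Ord ϖ R`, and `ga σ R = R → σ = 1` for `σ ∈ Gal(L/L')`. The two structures `iK`, `i0` are equal: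
`IsScalarTower K K L` says so: `Algebra.algebra_ext`, then `subst`. (Alternatively use `exists_ext` with `k0` a copy of `K`; the final object
must have one `Algebra K L`.) Let `Algebra F L` be `((algebraMap L' L).comp (algebraMap F L')).toAlgebra` (the towers `F → L' → L`, `K → F → L`).
`exists_embN` (`N`, `L` over `F`, `R`) gives `g : N →ₐ[F] L`; `Algebra N L := g.toRingHom.toAlgebra`; towers `F → N → L`, `K → N → L`.
`J = up L J'`, `Ord μ J` (`Ord.map`), `P1 = up L P`, `Ord ϖ P1`.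
`key`: if `σ ∈ Gal(L/K)` and `ga σ J = J` then `σ` fixes `L'`: `L'/K` is normal; `σ' = σ.restrictNormal L'` satisfies `up L (ga σ' J') = ga σ J = J`,
so `ga σ' J' = J'` (`pm_inj`), `σ' = 1` (`hAB.gen`), and `σ (algebraMap L' L x) = algebraMap L' L (σ' x)`.
`fixF`: from `key` and the tower `F → L' → L`.
`gen`: `σ ∈ Gal(L/K)` fixes `J` and `P1`. By `key` it gives `σ1 ∈ Gal(L/L')`. `ord_cases` (with an embedding `L →ₐ[K] ℂ`, `exists_emb`) for `P1`, `R`:
`R = sm c P1`, so `ga σ1 R = R`, `σ1 = 1`, `σ = 1`. The same argument shows: `σ ∈ Gal(L/L')`, `ga σ P1 = P1` implies `σ = 1` (`gen'`).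
`surj`: `surj_gen` with `γ = μ * ϖ` (`IsCoprime (μ ϖ) 3`: `hAB.cop`, `h.one`; `c` prime to `μ ϖ`: `IsCoprime.mul_right`, `h.prime.irreducible.coprime_iff_not_dvd`
in the principal ideal domain `𝓞 K`), `J` and `P1` are killed by `μ ϖ`.
`odP`: let `W ϖ < 1`, `v = W.under (𝓞 L')`. `v ϖ < 1` (`val_map_lt`), `v 3 = 1` (`3 ∣ ϖ - 1`), `v μ = 1` (`¬ ϖ ∣ μ`, so `IsCoprime ϖ μ`). `unramA hAB v`: the
ramification index over `K` is `1`, `od v ϖ = 1 * od (v.under (𝓞 K)) ϖ = 1` (`od_map`, `od_prime_K`). `ram h.prime h.one hP1 gen' v` (with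
`k := L'`, `F := L`, `R := P1`; it needs `Algebra K L'`, towers): `(·.2.1 W rfl)` contains `od W (tc P1) = 1`.
-/

set_option autoImplicit false

namespace Pool.Agent.Lib.MP_1a91b9_ntT.DG

open NumberField IsDedekindDomain WeierstrassCurve DB

noncomputable section

open scoped Classical in
private theorem comp_ext (L' : Type) [Field L'] [NumberField L'] [Algebra K L'] [IsGalois K L']
    {ϖ : 𝓞 K} (hϖ : Prime ϖ) (h1 : (3 : 𝓞 K) ∣ ϖ - 1) :
    ∃ (L : Type) (_ : Field L) (_ : NumberField L) (_ : Algebra K L) (_ : Algebra L' L)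
      (_ : IsScalarTower K L' L), IsGalois K L ∧ IsGalois L' L ∧
      ∃ R : Pt L, Ord ϖ R ∧ ∀ σ : Gal(L/L'), ga σ R = R → σ = 1 := by
  obtain ⟨L, iF, iN, iK, i0, iL, t1, t2, t3, g1, g2, R, hR, hgen⟩ := exists_ext K L' hϖ h1
  have e : i0 = iK := by
    refine Algebra.algebra_ext _ _ fun r => ?_
    have h2 := @IsScalarTower.algebraMap_apply K K L _ _ _ _ i0 iK t1 r
    exact h2.symm
  subst e
  exact ⟨L, iF, iN, i0, iL, t2, g1, g2, R, hR, hgen⟩

private theorem comp_pid : IsPrincipalIdealRing (𝓞 K) := IsCyclotomicExtension.Rat.three_pid K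

private theorem comp_val {L : Type} [Field L] [NumberField L] [Algebra K L]
    (W : HeightOneSpectrum (𝓞 L)) {a b : 𝓞 K} (hab : IsCoprime a b)
    (ha : W.valuation L (algebraMap K L (a : K)) < 1) :
    W.valuation L (algebraMap K L (b : K)) = 1 := by
  have hle : ∀ x : 𝓞 K, W.valuation L (algebraMap K L (x : K)) ≤ 1 := by
    intro x
    have h1 : algebraMap K L (x : K) = ((algebraMap (𝓞 K) (𝓞 L) x : 𝓞 L) : L) :=
      IsScalarTower.algebraMap_apply K K L (x : K)
    rw [h1]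
    exact W.valuation_le_one _
  obtain ⟨u, v, huv⟩ := hab
  refine le_antisymm (hle b) (not_lt.1 fun hb => ?_)
  have h3 : (u : K) * (a : K) + (v : K) * (b : K) = 1 := by
    have h4 := congrArg (algebraMap (𝓞 K) K) huv
    rw [map_add, map_mul, map_mul, map_one] at h4
    exact h4
  have h2 := congrArg (algebraMap K L) h3
  rw [map_add, map_mul, map_mul, map_one] at h2
  have h5 : W.valuation L 1 < 1 := by
    rw [← h2]
    refine lt_of_le_of_lt (Valuation.map_add _ _ _) (max_lt ?_ ?_)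
    · rw [map_mul]
      exact mul_lt_one_of_nonneg_of_lt_one_right (hle u) zero_le ha
    · rw [map_mul]
      exact mul_lt_one_of_nonneg_of_lt_one_right (hle v) zero_le hb
  rw [map_one] at h5
  exact lt_irrefl _ h5

section
variable {μ ϖ : 𝓞 K} {ℓ q : ℕ} {F L' L : Type} [Field F] [NumberField F] [Algebra K F]
  [Field L'] [NumberField L'] [Algebra K L'] [Algebra F L'] [IsScalarTower K F L']
  [DecidableEq L'] [Field L] [NumberField L] [Algebra K L] [Algebra L' L]
  [IsScalarTower K L' L] [DecidableEq L] {J' : Pt L'} (hAB : AB μ F L' J')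

omit [NumberField L] in
include hAB in
private theorem comp_key (σ : Gal(L/K)) (hσ : ga σ (up L J') = up L J') (x : L') :
    σ (algebraMap L' L x) = algebraMap L' L x := by
  have hg : IsGalois K L' := hAB.gal
  have e : (IsScalarTower.toAlgHom K L' L).comp
      (((σ.restrictNormal L' : L' ≃ₐ[K] L') : L' →ₐ[K] L').restrictScalars K) =
      ((σ : L →ₐ[K] L).restrictScalars K).comp (IsScalarTower.toAlgHom K L' L) := by
    ext x
    exact σ.restrictNormal_commutes L' x
  have h1 : up L (ga (σ.restrictNormal L') J') = ga σ (up L J') := by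
    unfold up
    rw [Affine.Point.map_map, Affine.Point.map_map, e]
  rw [hσ] at h1
  have h2 : ga (σ.restrictNormal L') J' = J' := pm_inj _ h1
  have h3 := hAB.gen _ h2
  have h4 := σ.restrictNormal_commutes L' x
  rw [h3] at h4
  exact h4.symm

omit [DecidableEq L'] [NumberField L'] in
private theorem comp_gen' {R P1 : Pt L} (hϖ : ϖ ≠ 0) (hR : Ord ϖ R)
    (hgen : ∀ σ : Gal(L/L'), ga σ R = R → σ = 1) (hP : Ord ϖ P1) (τ : Gal(L/L'))
    (hτ : ga τ P1 = P1) : τ = 1 := by
  obtain ⟨f⟩ := exists_emb L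
  obtain ⟨c, hc⟩ := ord_cases f hϖ hP ((hR ϖ).2 dvd_rfl)
  apply hgen
  rw [hc, ga_sm, hτ]

omit [NumberField L] in
include hAB in
private theorem comp_gen {P1 : Pt L} (hg : ∀ τ : Gal(L/L'), ga τ P1 = P1 → τ = 1)
    (σ : Gal(L/K)) (h1 : ga σ (up L J') = up L J') (h2 : ga σ P1 = P1) : σ = 1 := by
  obtain ⟨τ, hτ⟩ : ∃ τ : Gal(L/L'), ∀ x, τ x = σ x :=
    ⟨AlgEquiv.ofRingEquiv (f := (σ : L ≃+* L)) (comp_key hAB σ h1), fun _ => rfl⟩
  have e : ((τ : L →ₐ[L'] L).restrictScalars K) = ((σ : L →ₐ[K] L).restrictScalars K) := by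
    ext x
    exact hτ x
  have e2 : ga τ P1 = ga σ P1 := by
    unfold ga
    rw [e]
  have h3 := hg τ (e2.trans h2)
  ext x
  rw [← hτ x, h3]
  rfl

variable {N : Type} [Field N] [NumberField N] [Algebra K N]
  [Algebra F N] [IsScalarTower K F N] [IsGalois F N] [DecidableEq N] [Algebra F L] [Algebra N L]
  [IsScalarTower K F L] [IsScalarTower K N L] [IsScalarTower F N L] [IsScalarTower F L' L]

include hAB in
private theorem comp_main (h : PD ϖ ℓ q) (hμϖ : ¬ ϖ ∣ μ)
    (hcu : ¬ ℓ ∣ Nat.card (U μ)) {P : Pt N} (hF : Full F ϖ P) (g1 : IsGalois K L)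
    (g2 : IsGalois L' L) {R : Pt L} (hR : Ord ϖ R)
    (hgen : ∀ σ : Gal(L/L'), ga σ R = R → σ = 1) : TopG μ ϖ ℓ q F N L P (up L J') := by
  have hpid := comp_pid
  have hϖ0 : ϖ ≠ 0 := h.prime.ne_zero
  have hJ : Ord μ (up L J') := by
    unfold up
    exact (Ord.map _).2 hAB.ord
  have hP : Ord ϖ (up L P) := by
    unfold up
    exact (Ord.map _).2 hF.ord
  have hg' := comp_gen' (L' := L') hϖ0 hR hgen hP
  have h3 : IsCoprime ϖ 3 := by
    obtain ⟨d, hd⟩ := h.one
    exact ⟨1, -d, by linear_combination hd⟩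
  have hcμ : IsCoprime ϖ μ := h.prime.irreducible.coprime_iff_not_dvd.2 hμϖ
  refine ⟨h, g1, hF, hAB.ne, hJ, hAB.cop, hμϖ, hcu, comp_gen hAB hg', ?_, ?_, ?_⟩
  · intro c hc1 hc2
    have hcϖ : IsCoprime c ϖ := (h.prime.irreducible.coprime_iff_not_dvd.2 hc2).symm
    obtain ⟨σ, hσ⟩ := surj_gen (L := L) (γ := μ * ϖ) (hAB.cop.mul_left h3) (hc1.mul_right hcϖ)
    exact ⟨σ, hσ _ ((hJ _).2 (dvd_mul_right _ _)), hσ _ ((hP _).2 (dvd_mul_left _ _))⟩
  · intro σ hσ x
    rw [IsScalarTower.algebraMap_apply F L' L x]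
    exact comp_key hAB σ hσ _
  · intro W hW
    obtain ⟨v, hv⟩ : ∃ v : HeightOneSpectrum (𝓞 L'), v = W.under (𝓞 L') := ⟨_, rfl⟩
    have hv1 : v.valuation L' (algebraMap K L' (ϖ : K)) < 1 := by
      rw [hv, ← val_map_lt (k := L') W, ← IsScalarTower.algebraMap_apply K L' L]
      exact hW
    have hv3 : v.valuation L' (3 : L') = 1 := by
      have h4 := comp_val v h3 hv1
      have h5 : algebraMap K L' (((3 : 𝓞 K) : K)) = 3 := by
        have h6 : ((3 : 𝓞 K) : K) = 3 := map_ofNat (algebraMap (𝓞 K) K) 3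
        rw [h6, map_ofNat]
      rw [h5] at h4
      exact h4
    have hvμ := comp_val v hcμ hv1
    have hr := unramA hAB v hv3 hvμ
    have ho : od v (algebraMap K L' (ϖ : K)) = 1 := by
      rw [od_map (k := K), hr, Nat.cast_one, one_mul]
      exact od_prime_K h.prime _ ((val_map_lt (k := K) v _).1 hv1)
    exact ((ram (k := L') (F := L) h.prime h.one hP hg' v ho).2.1 W hv.symm).2.2.1

end

theorem exists_top {μ ϖ : 𝓞 K} {ℓ q : ℕ} {F L' : Type} [Field F] [NumberField F] [Algebra K F]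
    [Field L'] [NumberField L'] [Algebra K L'] [Algebra F L'] [IsScalarTower K F L']
    [DecidableEq L'] {J' : Pt L'} (hAB : AB μ F L' J') (h : PD ϖ ℓ q) (hμϖ : ¬ ϖ ∣ μ)
    (hcu : ¬ ℓ ∣ Nat.card (U μ)) (N : Type) [Field N] [NumberField N] [Algebra K N]
    [Algebra F N] [IsScalarTower K F N] [IsGalois F N] [DecidableEq N] {P : Pt N}
    (hF : Full F ϖ P) :
    ∃ (L : Type) (_ : Field L) (_ : NumberField L) (_ : Algebra K L) (_ : Algebra F L)
      (_ : Algebra N L) (_ : Algebra L' L) (_ : IsScalarTower K F L) (_ : IsScalarTower K N L)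
      (_ : IsScalarTower F N L) (_ : IsScalarTower K L' L) (_ : IsScalarTower F L' L)
      (_ : DecidableEq L), TopG μ ϖ ℓ q F N L P (up L J') := by
  classical
  have hg : IsGalois K L' := hAB.gal
  obtain ⟨L, iL, iNL, iK, iL', t1, g1, g2, R, hR, hgen⟩ := comp_ext L' h.prime h.one
  let iFL : Algebra F L := ((algebraMap L' L).comp (algebraMap F L')).toAlgebra
  have tFL' : IsScalarTower F L' L := IsScalarTower.of_algebraMap_eq fun _ => rfl
  have tKF : IsScalarTower K F L := by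
    refine IsScalarTower.of_algebraMap_eq fun x => ?_
    rw [IsScalarTower.algebraMap_apply K L' L, IsScalarTower.algebraMap_apply K F L',
      IsScalarTower.algebraMap_apply F L' L]
  obtain ⟨g⟩ := exists_embN h.prime hF hR
  let iNL2 : Algebra N L := g.toRingHom.toAlgebra
  have tFN : IsScalarTower F N L := by
    refine IsScalarTower.of_algebraMap_eq fun x => ?_
    exact (g.commutes x).symm
  have tKN : IsScalarTower K N L := by
    refine IsScalarTower.of_algebraMap_eq fun x => ?_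
    rw [IsScalarTower.algebraMap_apply K F L, IsScalarTower.algebraMap_apply K F N,
      IsScalarTower.algebraMap_apply F N L]
  exact ⟨L, iL, iNL, iK, iFL, iNL2, iL', tKF, tKN, tFN, t1, tFL', _,
    comp_main hAB h hμϖ hcu hF g1 g2 hR hgen⟩

end

end Pool.Agent.Lib.MP_1a91b9_ntT.DG
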