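import Pool.Agent.Lib.MP_1a91b9_ntT.DG.Defs
import Pool.Agent.Lib.MP_1a91b9_ntT.DB.UnMin

/-!
# DG: a Minkowski unit for a Galois extension of `K`

JOB MINK. PROOF (complete; helper30): adaptation of `minkowski` of DB/UnMin.lean (copy its private lemmas `um_*`), with `k = K`
(`hk := Function.bijective_id`; `algebraMap K K = RingHom.id K`) and the full group `G = Gal(N/K)` in place of a cyclic one. Let `w0` be an
infinite place; `inf_places`: `σ ↦ σ • w0` is a bijection onto the infinite places. As in `minkowski` there is a unit `u` with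
`w u < 1` for all infinite places `w ≠ w0`; `a σ = Real.log (w0 (σ u))` is negative for `σ ≠ 1` (`w0 ∘ σ` is the place `σ⁻¹ • w0 ≠ w0`),
`Σ_σ a σ = 0` (`um_logs`). Suppose `(Π_σ (sg σ u)^(c σ))^m = 1`, `m ≠ 0`. Apply `Real.log (w0 (ρ ·))` for `ρ ∈ G`: `Σ_σ c σ * a (ρ σ) = 0`.
Choose `σ0` with `c σ0` maximal (`Finite.exists_max`) and `ρ = σ0⁻¹`: `Σ_σ (c σ - c σ0) a (σ0⁻¹ σ) = 0` (using `Σ_σ a (σ0⁻¹ σ) = Σ a = 0`, `Equiv.sum_comp`).
All terms are `≥ 0` (for `σ = σ0` the term is `0`; for `σ ≠ σ0`, `c σ - c σ0 ≤ 0` and `a (σ0⁻¹ σ) < 0`), so all are `0`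
(`Finset.sum_eq_zero_iff_of_nonneg`), and `c σ = c σ0` for all `σ`.
-/

set_option autoImplicit false

namespace Pool.Agent.Lib.MP_1a91b9_ntT.DG

open NumberField IsDedekindDomain WeierstrassCurve DB

noncomputable section

private theorem MINK_logs {N : Type} [Field N] [NumberField N] [Algebra K N] [IsGalois K N]
    (w0 : InfinitePlace N) (x : (𝓞 N)ˣ) :
    ∑ σ : Gal(N/K), Real.log (w0 (σ ((x : 𝓞 N) : N))) = 0 := by
  obtain ⟨hb, hc⟩ := inf_places (k := K) (N := N) Function.bijective_id w0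
  have h1 : ∑ σ : Gal(N/K), Real.log (w0 (σ ((x : 𝓞 N) : N))) =
      ∑ σ : Gal(N/K), Real.log ((σ • w0) ((x : 𝓞 N) : N)) := by
    rw [← Equiv.sum_comp (Equiv.inv Gal(N/K))]
    refine Finset.sum_congr rfl fun σ _ => ?_
    rfl
  have h2 : ∑ σ : Gal(N/K), Real.log ((σ • w0) ((x : 𝓞 N) : N)) =
      ∑ w : InfinitePlace N, Real.log (w ((x : 𝓞 N) : N)) :=
    Fintype.sum_bijective _ hb _ _ fun σ => rfl
  have h3 := Units.sum_mult_mul_log x
  have h4 : ∀ w ∈ (Finset.univ : Finset (InfinitePlace N)),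
      (w.mult : ℝ) * Real.log (w ((x : 𝓞 N) : N)) = 2 * Real.log (w ((x : 𝓞 N) : N)) := by
    intro w _
    have h5 : w.mult = 2 := by
      unfold InfinitePlace.mult
      rw [if_neg (InfinitePlace.not_isReal_iff_isComplex.2 (hc w))]
    rw [h5]
    norm_num
  rw [Finset.sum_congr rfl h4, ← Finset.mul_sum] at h3
  rw [h1, h2]
  linarith

private theorem MINK_od {N : Type} [Field N] [NumberField N] (x : (𝓞 N)ˣ)
    (w : HeightOneSpectrum (𝓞 N)) : od w ((x : 𝓞 N) : N) = 0 := by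
  have hx : ((x : 𝓞 N) : N) ≠ 0 := by
    intro h
    exact x.ne_zero (RingOfIntegers.ext h)
  have hx' : (((x⁻¹ : (𝓞 N)ˣ) : 𝓞 N) : N) ≠ 0 := by
    intro h
    exact (x⁻¹).ne_zero (RingOfIntegers.ext h)
  have h1 : 0 ≤ od w ((x : 𝓞 N) : N) := (val_le_one_iff w hx).1 (w.valuation_le_one (x : 𝓞 N))
  have h2 : 0 ≤ od w (((x⁻¹ : (𝓞 N)ˣ) : 𝓞 N) : N) :=
    (val_le_one_iff w hx').1 (w.valuation_le_one ((x⁻¹ : (𝓞 N)ˣ) : 𝓞 N))
  have h3 : (((x⁻¹ : (𝓞 N)ˣ) : 𝓞 N) : N) = (((x : 𝓞 N) : N))⁻¹ := by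
    apply eq_inv_of_mul_eq_one_left
    have h4 : ((x⁻¹ : (𝓞 N)ˣ) : 𝓞 N) * (x : 𝓞 N) = 1 := Units.inv_mul x
    have h5 := congrArg (fun z : 𝓞 N => (z : N)) h4
    simp only [map_mul, map_one] at h5
    exact h5
  rw [h3, od_inv] at h2
  omega

/-- logarithm at a conjugate place -/
private def MINK_lg {N : Type} [Field N] [Algebra K N] (w0 : InfinitePlace N)
    (σ : Gal(N/K)) : Additive Nˣ →+ ℝ :=
  AddMonoidHom.mk' (fun x => Real.log (w0 (σ ((Additive.toMul x : Nˣ) : N)))) (by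
    intro x y
    have h1 : ∀ z : Nˣ, w0 (σ (z : N)) ≠ 0 := by
      intro z h
      rw [map_eq_zero, map_eq_zero] at h
      exact z.ne_zero h
    rw [toMul_add, Units.val_mul, map_mul, map_mul, Real.log_mul (h1 _) (h1 _)])

private theorem MINK_lg_apply {N : Type} [Field N] [Algebra K N] (w0 : InfinitePlace N)
    (σ : Gal(N/K)) (x : Nˣ) :
    MINK_lg w0 σ (Additive.ofMul x) = Real.log (w0 (σ (x : N))) := rfl

theorem minkowskiG {N : Type} [Field N] [NumberField N] [Algebra K N] [IsGalois K N]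
    (h2 : 2 ≤ Module.finrank K N) : ∃ u : Nˣ,
      (∀ w : HeightOneSpectrum (𝓞 N), od w (u : N) = 0) ∧
      ∀ c : Gal(N/K) → ℤ, (∃ m : ℤ, m ≠ 0 ∧ (∏ σ : Gal(N/K), (sg σ u) ^ c σ) ^ m = 1) →
        ∀ σ τ : Gal(N/K), c σ = c τ := by
  have _h := h2
  obtain ⟨w0⟩ := (inferInstance : Nonempty (InfinitePlace N))
  obtain ⟨u0, hu0⟩ := Units.dirichletUnitTheorem.exists_unit N w0
  obtain ⟨hb, hcx⟩ := inf_places (k := K) (N := N) Function.bijective_id w0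
  let u : Nˣ := Units.map (algebraMap (𝓞 N) N : 𝓞 N →* N) u0
  have hu : (u : N) = ((u0 : 𝓞 N) : N) := rfl
  refine ⟨u, fun w => MINK_od u0 w, ?_⟩
  intro c hc
  obtain ⟨m, hm, hP⟩ := hc
  set a : Gal(N/K) → ℝ := fun σ => Real.log (w0 (σ (u : N))) with ha
  have hneg : ∀ σ : Gal(N/K), σ ≠ 1 → a σ < 0 := by
    intro σ hσ
    have h1 : σ⁻¹ • w0 ≠ w0 := by
      intro h
      have h2 : (fun σ : Gal(N/K) => σ • w0) σ⁻¹ = (fun σ : Gal(N/K) => σ • w0) 1 := by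
        simp only [one_smul, h]
      have h3 := hb.1 h2
      exact hσ (inv_eq_one.1 h3)
    exact hu0 (σ⁻¹ • w0) h1
  have hsum : ∑ σ : Gal(N/K), a σ = 0 := MINK_logs w0 u0
  have hrel : ∀ ρ : Gal(N/K), ∑ σ : Gal(N/K), (c σ : ℝ) * a (ρ * σ) = 0 := by
    intro ρ
    have h1 := congrArg (fun x : Nˣ => MINK_lg w0 ρ (Additive.ofMul x)) hP
    simp only [ofMul_zpow, ofMul_one, map_zsmul, map_zero, ofMul_prod, map_sum] at h1
    rw [smul_eq_zero] at h1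
    have h2 := h1.resolve_left hm
    rw [← h2]
    refine Finset.sum_congr rfl fun σ _ => ?_
    rw [zsmul_eq_mul, MINK_lg_apply]
    rfl
  obtain ⟨σ0, hσ0⟩ := Finite.exists_max c
  have hsum2 : ∑ σ : Gal(N/K), a (σ0⁻¹ * σ) = 0 := by
    rw [← hsum]
    exact Equiv.sum_comp (Equiv.mulLeft σ0⁻¹) a
  have hT : ∑ σ : Gal(N/K), ((c σ : ℝ) - c σ0) * a (σ0⁻¹ * σ) = 0 := by
    have h1 : ∀ σ ∈ (Finset.univ : Finset Gal(N/K)), ((c σ : ℝ) - c σ0) * a (σ0⁻¹ * σ) =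
        (c σ : ℝ) * a (σ0⁻¹ * σ) - (c σ0 : ℝ) * a (σ0⁻¹ * σ) := fun σ _ => by ring
    rw [Finset.sum_congr rfl h1, Finset.sum_sub_distrib, hrel, ← Finset.mul_sum, hsum2, mul_zero,
      sub_zero]
  have hnn : ∀ σ ∈ (Finset.univ : Finset Gal(N/K)), 0 ≤ ((c σ : ℝ) - c σ0) * a (σ0⁻¹ * σ) := by
    intro σ _
    by_cases h : σ = σ0
    · rw [h, sub_self, zero_mul]
    · have h1 : a (σ0⁻¹ * σ) < 0 := hneg _ fun h3 => h (inv_mul_eq_one.1 h3).symm
      have h4 : (c σ : ℝ) ≤ c σ0 := by exact_mod_cast hσ0 σ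
      exact mul_nonneg_of_nonpos_of_nonpos (by linarith) h1.le
  have hall : ∀ σ : Gal(N/K), c σ = c σ0 := by
    intro σ
    have h1 := (Finset.sum_eq_zero_iff_of_nonneg hnn).1 hT σ (Finset.mem_univ σ)
    by_cases h : σ = σ0
    · rw [h]
    · have h3 : a (σ0⁻¹ * σ) ≠ 0 := (hneg _ fun h3 => h (inv_mul_eq_one.1 h3).symm).ne
      have h4 := (mul_eq_zero.1 h1).resolve_right h3
      have h5 : (c σ : ℝ) = c σ0 := by linarith
      exact_mod_cast h5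
  intro σ τ
  rw [hall σ, hall τ]

end

end Pool.Agent.Lib.MP_1a91b9_ntT.DG
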