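import Pool.Agent.Lib.MP_1a91b9_ntT.DG.Defs

/-!
# DG: a primitive root

JOB PG. PROOF (complete; helper30): adaptation of `exists_primgen` of DB/TrD.lean (copy its proof; copy the private lemma
`trc_norm` if needed). The `g` constructed there satisfies: `g` generates the nonzero classes modulo `ϖ`, `¬ ϖ^2 ∣ g^(q-1) - 1`, and if
`q = ℓ` then `ϖ' ∣ g` (`ℓ = ϖ ϖ'`, `ϖ'` is the other prime), so `ϖ' ∤ g^(q-1) - 1` (`q - 1 ≥ 1`). So the power of `ℓ` in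
`Algebra.norm ℤ (g^(q-1) - 1)` is: if `q = ℓ`: the absolute norm of `g^(q-1) - 1 = ϖ a` with `a` prime to `ϖ` and to `ϖ'`:
`N(a)` is prime to `ℓ` (if `ℓ ∣ N(a) = a * conj a` ... or: the ideal norm `absNorm (span {a})` is divisible by `ℓ` only if `a` is divisible by
a prime above `ℓ`), so `ℓ^2 ∤ N`. If `q = ℓ^2`: `ϖ` is associated to `ℓ`, `g^(q-1) - 1 = ϖ a`, `ϖ ∤ a`, `N = ℓ^2 N(a)`, `ℓ ∤ N(a)`, so
`ℓ^3 ∤ N`. In the proof of `exists_primgen` this is done for the sum `Σ g^i`, with `(g - 1) Σ g^i = g^(q-1) - 1`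
(`mul_geom_sum` / `geom_sum_mul`) and `N(g - 1)` is prime to `ℓ` because `g - 1` is divisible neither by `ϖ` (a generator of a cyclic group
of order `q - 1 > 1` is not `1`) nor by `ϖ'` (`ϖ' ∣ g`). So it is enough to use the `g` of that proof and this factorization:
if `ℓ q ∣ N(g^(q-1) - 1) = N(g - 1) N(Σ g^i)` and `N(g - 1)` is prime to `ℓ` then `ℓ q ∣ N(Σ g^i)`.
-/

set_option autoImplicit false

namespace Pool.Agent.Lib.MP_1a91b9_ntT.DG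

open NumberField IsDedekindDomain WeierstrassCurve DB

noncomputable section

private theorem Pg_norm (ℓ : ℕ) (z : 𝓞 K) :
    (ℓ : ℤ) ∣ Algebra.norm ℤ (1 + (ℓ : 𝓞 K) * z) - 1 := by
  classical
  rw [← ZMod.intCast_zmod_eq_zero_iff_dvd, Int.cast_sub, Int.cast_one, sub_eq_zero]
  have hb := Algebra.norm_eq_matrix_det (Module.Free.chooseBasis ℤ (𝓞 K)) (1 + (ℓ : 𝓞 K) * z)
  rw [hb]
  have h1 : (((Algebra.leftMulMatrix (Module.Free.chooseBasis ℤ (𝓞 K))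
      (1 + (ℓ : 𝓞 K) * z)).det : ℤ) : ZMod ℓ) =
      ((Int.castRingHom (ZMod ℓ)).mapMatrix (Algebra.leftMulMatrix
        (Module.Free.chooseBasis ℤ (𝓞 K)) (1 + (ℓ : 𝓞 K) * z))).det := by
    rw [← RingHom.map_det]
    rfl
  rw [h1]
  have h2 : Algebra.leftMulMatrix (Module.Free.chooseBasis ℤ (𝓞 K)) (1 + (ℓ : 𝓞 K) * z) =
      1 + (ℓ : ℤ) • Algebra.leftMulMatrix (Module.Free.chooseBasis ℤ (𝓞 K)) z := by
    rw [map_add, map_one]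
    congr 1
    have h3 : (ℓ : 𝓞 K) * z = (ℓ : ℤ) • z := by simp
    rw [h3, map_zsmul]
  rw [h2, map_add, map_one, map_zsmul]
  have h4 : (ℓ : ℤ) • (Int.castRingHom (ZMod ℓ)).mapMatrix
      (Algebra.leftMulMatrix (Module.Free.chooseBasis ℤ (𝓞 K)) z) = 0 := by
    ext i j
    simp
  rw [h4, add_zero, Matrix.det_one]

theorem exists_primgenG {ϖ : 𝓞 K} {ℓ q : ℕ} (h : PD ϖ ℓ q) :
    ∃ g : 𝓞 K, (∀ c : 𝓞 K, ¬ ϖ ∣ c → ∃ i : ℕ, ϖ ∣ c - g ^ i) ∧ ¬ ϖ ∣ g ∧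
      ¬ ((ℓ * q : ℕ) : ℤ) ∣ Algebra.norm ℤ (g ^ (q - 1) - 1) := by
  classical
  have hq5 := h.q_five
  have hϖ0 : ϖ ≠ 0 := h.prime.ne_zero
  have hI0 : Ideal.span {ϖ} ≠ ⊥ := by
    rw [Ne, Ideal.span_singleton_eq_bot]
    exact hϖ0
  have hIp : (Ideal.span {ϖ}).IsPrime := (Ideal.span_singleton_prime hϖ0).mpr h.prime
  have hIm : (Ideal.span {ϖ}).IsMaximal := hIp.isMaximal hI0
  have hfin : Finite (𝓞 K ⧸ Ideal.span {ϖ}) := Ideal.finiteQuotientOfFreeOfNeBot _ hI0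
  let _ : Field (𝓞 K ⧸ Ideal.span {ϖ}) := Ideal.Quotient.field _
  have hmk : ∀ a b : 𝓞 K, Ideal.Quotient.mk (Ideal.span {ϖ}) a = Ideal.Quotient.mk _ b ↔
      ϖ ∣ a - b := by
    intro a b
    rw [Ideal.Quotient.eq, Ideal.mem_span_singleton]
  have hmk0 : ∀ a : 𝓞 K, Ideal.Quotient.mk (Ideal.span {ϖ}) a = 0 ↔ ϖ ∣ a := by
    intro a
    rw [Ideal.Quotient.eq_zero_iff_mem, Ideal.mem_span_singleton]
  obtain ⟨u, hu⟩ := IsCyclic.exists_monoid_generator (α := (𝓞 K ⧸ Ideal.span {ϖ})ˣ)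
  obtain ⟨g0, hg0⟩ := Ideal.Quotient.mk_surjective (I := Ideal.span {ϖ})
    ((u : (𝓞 K ⧸ Ideal.span {ϖ})ˣ) : 𝓞 K ⧸ Ideal.span {ϖ})
  -- any lift of the generator
  have hgen : ∀ g : 𝓞 K, ϖ ∣ g - g0 → (∀ c : 𝓞 K, ¬ ϖ ∣ c → ∃ i : ℕ, ϖ ∣ c - g ^ i) ∧ ¬ ϖ ∣ g := by
    intro g hg
    have hgu : Ideal.Quotient.mk (Ideal.span {ϖ}) g = u := by
      rw [← hg0]
      exact (hmk g g0).mpr hg
    constructor
    · intro c hc
      have hc0 : Ideal.Quotient.mk (Ideal.span {ϖ}) c ≠ 0 := fun e => hc ((hmk0 c).mp e)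
      obtain ⟨i, hi⟩ := Submonoid.mem_powers_iff _ _ |>.mp (hu (Units.mk0 _ hc0))
      refine ⟨i, (hmk _ _).mp ?_⟩
      rw [map_pow, hgu, ← Units.val_pow_eq_pow_val, hi, Units.val_mk0]
    · intro hd
      have h1 := (hmk0 g).mpr hd
      rw [hgu] at h1
      exact u.ne_zero h1
  have hg0' := hgen g0 (by rw [sub_self]; exact dvd_zero _)
  -- the second order condition
  obtain ⟨g1, hg1, hg1'⟩ : ∃ g1 : 𝓞 K, ϖ ∣ g1 - g0 ∧ ¬ ϖ ^ 2 ∣ g1 ^ (q - 1) - 1 := by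
    by_contra hcon
    push Not at hcon
    have h1 := hcon g0 (by rw [sub_self]; exact dvd_zero _)
    have h2 := hcon (g0 + ϖ) (by rw [add_sub_cancel_left])
    obtain ⟨t, ht⟩ := Polynomial.powAddExpansion g0 ϖ (q - 1)
    have h3 : ϖ ^ 2 ∣ ((q - 1 : ℕ) : 𝓞 K) * g0 ^ (q - 1 - 1) * ϖ := by
      have h4 : ((q - 1 : ℕ) : 𝓞 K) * g0 ^ (q - 1 - 1) * ϖ =
          ((g0 + ϖ) ^ (q - 1) - 1) - (g0 ^ (q - 1) - 1) - t * ϖ ^ 2 := by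
        rw [ht]; ring
      rw [h4]
      exact dvd_sub (dvd_sub h2 h1) (Dvd.intro_left t rfl)
    have h4 : ϖ ∣ ((q - 1 : ℕ) : 𝓞 K) * g0 ^ (q - 1 - 1) := by
      rw [sq] at h3
      exact (mul_dvd_mul_iff_right hϖ0).mp h3
    rcases h.prime.dvd_or_dvd h4 with h5 | h5
    · have h6 : (ℓ : ℤ) ∣ ((q - 1 : ℕ) : ℤ) := by
        apply (h.dvd_int_iff _).mp
        exact_mod_cast h5
      have h7 : ℓ ∣ q - 1 := by exact_mod_cast h6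
      have h8 := Nat.Coprime.eq_one_of_dvd h.coprime_q.symm h7
      exact h.hl.one_lt.ne' h8
    · exact hg0'.2 (h.prime.dvd_of_dvd_pow h5)
  obtain ⟨ϖ', hϖ'⟩ := h.dvd
  have hϖϖ' : ¬ ϖ ∣ ϖ' := by
    rintro ⟨t, rfl⟩
    exact h.sq ⟨t, by rw [hϖ']; ring⟩
  have hcop : IsCoprime ϖ ϖ' := by
    obtain ⟨d, e, he⟩ := h.inv hϖϖ'
    exact ⟨-e, d, by linear_combination he⟩
  obtain ⟨a, b, hab⟩ : IsCoprime (ϖ ^ 2) ϖ' := hcop.pow_left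
  obtain ⟨g, hg⟩ : ∃ g : 𝓞 K, g = g1 * b * ϖ' := ⟨_, rfl⟩
  have hgg1 : ϖ ^ 2 ∣ g - g1 := ⟨-(g1 * a), by rw [hg]; linear_combination g1 * hab⟩
  have hgϖ' : ϖ' ∣ g := ⟨g1 * b, by rw [hg]; ring⟩
  have hgg0 : ϖ ∣ g - g0 := by
    have h1 : g - g0 = (g - g1) + (g1 - g0) := by ring
    rw [h1]
    exact dvd_add ((Dvd.intro_left (ϖ ^ 1) (by ring)).trans hgg1) hg1
  refine ⟨g, (hgen g hgg0).1, (hgen g hgg0).2, ?_⟩
  intro hdiv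
  obtain ⟨Φ, hΦ⟩ : ∃ Φ : 𝓞 K, Φ = g ^ (q - 1) - 1 := ⟨_, rfl⟩
  rw [← hΦ] at hdiv
  have hΦ2 : ¬ ϖ ^ 2 ∣ Φ := by
    intro h1
    apply hg1'
    have h2 : ϖ ^ 2 ∣ g ^ (q - 1) - 1 := by
      rw [← hΦ]
      exact h1
    have h3 : ϖ ^ 2 ∣ g ^ (q - 1) - g1 ^ (q - 1) := hgg1.trans (sub_dvd_pow_sub_pow g g1 (q - 1))
    have h4 : g1 ^ (q - 1) - 1 = (g ^ (q - 1) - 1) - (g ^ (q - 1) - g1 ^ (q - 1)) := by ring
    rw [h4]
    exact dvd_sub h2 h3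
  have hΦ3 : ϖ' ∣ Φ + 1 := by
    rw [hΦ, sub_add_cancel]
    exact hgϖ'.trans (dvd_pow_self g (by omega))
  have hΦϖ' : IsCoprime Φ ϖ' := by
    obtain ⟨t, ht⟩ := hΦ3
    exact ⟨-1, t, by linear_combination -ht⟩
  -- the part prime to `ϖ`
  have key : ∀ Ψ : 𝓞 K, Ψ ∣ Φ → ¬ ϖ ∣ Ψ → ¬ (ℓ : ℤ) ∣ Algebra.norm ℤ Ψ := by
    intro Ψ h1 h2 h3
    have h4 : IsCoprime Ψ ϖ' := hΦϖ'.of_isCoprime_of_dvd_left h1
    have h5 : IsCoprime Ψ ϖ := by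
      obtain ⟨d, e, he⟩ := h.inv h2
      exact ⟨d, -e, by linear_combination he⟩
    obtain ⟨y, z, hyz⟩ := h5.mul_right h4
    rw [← hϖ'] at hyz
    have h6 : y * Ψ = 1 + (ℓ : 𝓞 K) * (-z) := by linear_combination hyz
    have h7 := Pg_norm ℓ (-z)
    rw [← h6, map_mul] at h7
    have h8 : (ℓ : ℤ) ∣ Algebra.norm ℤ y * Algebra.norm ℤ Ψ := Dvd.dvd.mul_left h3 _
    have h9 : (ℓ : ℤ) ∣ 1 := by
      have := dvd_sub h8 h7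
      rwa [sub_sub_cancel] at this
    have h10 : ℓ ∣ 1 := by exact_mod_cast h9
    exact h.hl.one_lt.ne' (Nat.dvd_one.mp h10)
  by_cases hc : ϖ ∣ Φ
  · obtain ⟨Ψ, hΨ⟩ := hc
    have h1 : ¬ ϖ ∣ Ψ := by
      rintro ⟨t, rfl⟩
      exact hΦ2 ⟨t, by rw [hΨ]; ring⟩
    refine key Ψ ⟨ϖ, by rw [hΨ]; ring⟩ h1 ?_
    have h2 := h.norm
    rw [Ideal.absNorm_span_singleton] at h2
    have h3 : ((ℓ * q : ℕ) : ℤ) ∣ Algebra.norm ℤ ϖ * Algebra.norm ℤ Ψ := by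
      rw [← map_mul, ← hΨ]
      exact hdiv
    have h4 : ℓ * q ∣ q * (Algebra.norm ℤ Ψ).natAbs := by
      have h5 := Int.natAbs_dvd_natAbs.mpr h3
      rw [Int.natAbs_mul, h2] at h5
      exact h5
    have h5 : ℓ ∣ (Algebra.norm ℤ Ψ).natAbs := by
      rw [mul_comm ℓ q] at h4
      exact Nat.dvd_of_mul_dvd_mul_left (by omega) h4
    exact Int.natCast_dvd.mpr h5
  · refine key Φ dvd_rfl hc ?_
    refine dvd_trans ?_ hdiv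
    exact ⟨(q : ℤ), by push_cast; ring⟩

end

end Pool.Agent.Lib.MP_1a91b9_ntT.DG
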