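import Pool.Agent.Lib.MP_1a91b9_ntT.DG.Defs
import Pool.Agent.Lib.MP_1a91b9_ntT.DB.UnIso

/-!
# DG: roots of unity are even

JOB ROOT. PROOF (complete; helper30): adaptation of `root_even` of DB/UnIso.lean (copy its private lemmas `uia_*`), with the
hypothesis `hU : DS.UnrL ℓ F` in place of `hk` (the base field `k` is called `F`). Only the lemma `uia_no_root` (the case `q = ℓ`) uses `hk`.
New proof of it: let `ζ` be a primitive `ℓ`-th root of unity in `N`, `ℓ = ϖ ϖ'` as there, `ϖ'` a prime element coprime to `ϖ`. Let `w` be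
a place of `N` above the place `(ϖ')` of `K` (going up for `𝓞 K → 𝓞 N`, as there with `k = K`): `w ϖ' < 1`, `w ϖ = 1`, `w 3 = 1`, and
`w ℓ < 1`. `v = w.under (𝓞 F)`: `v ℓ < 1` (`val_map_lt`), so `od v ℓ = 1` (`hU`). `unram h.prime h.one hF.ord hF.gen w h3 hwϖ`: the
ramification index of `w` over `F` is `1`. So `od w ℓ = 1` (`od_map`), contradiction with `od w ℓ = (ℓ - 1) * od w (1 - ζ)` (`uia_od`), `ℓ ≥ 5`.
-/

set_option autoImplicit false

namespace Pool.Agent.Lib.MP_1a91b9_ntT.DG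

open NumberField IsDedekindDomain WeierstrassCurve DB

noncomputable section

private theorem ROOT_mem {F : Type} [Field F] [NumberField F] (v : HeightOneSpectrum (𝓞 F)) (x : 𝓞 F) :
    v.valuation F (x : F) < 1 ↔ x ∈ v.asIdeal := v.valuation_lt_one_iff_mem x

private theorem ROOT_one_notMem {F : Type} [Field F] [NumberField F] (v : HeightOneSpectrum (𝓞 F)) :
    (1 : 𝓞 F) ∉ v.asIdeal := fun h => v.isPrime.ne_top ((Ideal.eq_top_iff_one _).2 h)

private theorem ROOT_val_one {F : Type} [Field F] [NumberField F] (v : HeightOneSpectrum (𝓞 F)) {x : 𝓞 F}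
    (hx : x ∉ v.asIdeal) : v.valuation F (x : F) = 1 := by
  refine le_antisymm (v.valuation_le_one x) ?_
  rw [← not_lt, ROOT_mem]
  exact hx

private theorem ROOT_dvd {F : Type} [Field F] [NumberField F] [Algebra K F] (v : HeightOneSpectrum (𝓞 F))
    {x y : 𝓞 K} (h : x ∣ y) (hx : algebraMap (𝓞 K) (𝓞 F) x ∈ v.asIdeal) :
    algebraMap (𝓞 K) (𝓞 F) y ∈ v.asIdeal := by
  obtain ⟨c, rfl⟩ := h
  rw [map_mul]
  exact Ideal.mul_mem_right _ _ hx

/-- a place does not contain two coprime elements -/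
private theorem ROOT_coprime {F : Type} [Field F] [NumberField F] [Algebra K F]
    (v : HeightOneSpectrum (𝓞 F)) {a b : 𝓞 K} (hab : IsCoprime a b)
    (ha : algebraMap (𝓞 K) (𝓞 F) a ∈ v.asIdeal) (hb : algebraMap (𝓞 K) (𝓞 F) b ∈ v.asIdeal) : False := by
  obtain ⟨x, y, hxy⟩ := hab
  apply ROOT_one_notMem v
  have h1 : (1 : 𝓞 F) = algebraMap (𝓞 K) (𝓞 F) x * algebraMap (𝓞 K) (𝓞 F) a +
      algebraMap (𝓞 K) (𝓞 F) y * algebraMap (𝓞 K) (𝓞 F) b := by
    rw [← map_mul, ← map_mul, ← map_add, hxy, map_one]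
  rw [h1]
  exact Ideal.add_mem _ (Ideal.mul_mem_left _ _ ha) (Ideal.mul_mem_left _ _ hb)

private theorem ROOT_sub {F : Type} [Field F] {Γ : Type*} [LinearOrderedCommGroupWithZero Γ]
    (V : Valuation F Γ) {z : F} (hz : V z ≤ 1) (i : ℕ) : V (1 - z ^ i) ≤ V (1 - z) := by
  rw [← geom_sum_mul_neg, map_mul]
  refine mul_le_of_le_one_left' ?_
  refine V.map_sum_le fun j _ => ?_
  rw [map_pow]
  exact pow_le_one₀ zero_le hz

/-- the order of `ℓ` is a multiple of `ℓ - 1` if there is a primitive `ℓ`-th root of unity -/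
private theorem ROOT_od {F : Type} [Field F] [NumberField F] (w : HeightOneSpectrum (𝓞 F)) {ℓ : ℕ}
    (hℓ : ℓ.Prime) {ζ : F} (hζ : IsPrimitiveRoot ζ ℓ) :
    od w (ℓ : F) = ((ℓ - 1 : ℕ) : ℤ) * od w (1 - ζ) := by
  have hℓ1 : ℓ = (ℓ - 1) + 1 := by have := hℓ.one_lt; omega
  have hz1 : w.valuation F ζ ≤ 1 := by
    have h1 : w.valuation F ζ ^ ℓ = 1 := by rw [← map_pow, hζ.pow_eq_one, map_one]
    exact le_of_eq ((pow_eq_one_iff.1 h1).resolve_right hℓ.ne_zero)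
  have hprod : ∏ j ∈ Finset.range (ℓ - 1), (1 - ζ ^ (j + 1)) = (ℓ : F) := by
    have h2 := (hℓ1 ▸ hζ : IsPrimitiveRoot ζ ((ℓ - 1) + 1)).prod_one_sub_pow_eq_order
    rw [h2, ← Nat.cast_add_one, ← hℓ1]
  have hne : ∀ j ∈ Finset.range (ℓ - 1), (1 - ζ ^ (j + 1)) ≠ 0 := by
    intro j hj h0
    rw [Finset.mem_range] at hj
    have h3 : ζ ^ (j + 1) = 1 := (sub_eq_zero.1 h0).symm
    have h4 := hζ.dvd_of_pow_eq_one _ h3
    have h5 := Nat.le_of_dvd (by omega) h4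
    omega
  have hval : ∀ j ∈ Finset.range (ℓ - 1), od w (1 - ζ ^ (j + 1)) = od w (1 - ζ) := by
    intro j hj
    rw [Finset.mem_range] at hj
    have hco : (j + 1).Coprime ℓ := by
      rw [Nat.coprime_comm, hℓ.coprime_iff_not_dvd]
      intro h4
      have h5 := Nat.le_of_dvd (by omega) h4
      omega
    have hord : orderOf ζ = ℓ := hζ.eq_orderOf.symm
    obtain ⟨m, hm⟩ := exists_pow_eq_self_of_coprime (x := ζ) (n := j + 1) (by rw [hord]; exact hco)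
    have h1 : w.valuation F (1 - ζ ^ (j + 1)) ≤ w.valuation F (1 - ζ) := ROOT_sub _ hz1 _
    have h2 : w.valuation F (1 - ζ) ≤ w.valuation F (1 - ζ ^ (j + 1)) := by
      have h3 := ROOT_sub (w.valuation F) (z := ζ ^ (j + 1)) (by
        rw [map_pow]; exact pow_le_one₀ zero_le hz1) m
      rwa [hm] at h3
    unfold od
    rw [le_antisymm h1 h2]
  rw [← hprod, od_prod w _ _ hne, Finset.sum_congr rfl hval, Finset.sum_const, Finset.card_range,
    nsmul_eq_mul]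

/-- an element whose `(ℓ - 1)`-th power is `-1` -/
private theorem ROOT_neg_one {ϖ : 𝓞 K} {ℓ q : ℕ} (h : PD ϖ ℓ q) (hq : q = ℓ ^ 2) :
    ∃ c : 𝓞 K, ¬ ϖ ∣ c ∧ ϖ ∣ c ^ (ℓ - 1) - (-1) := by
  classical
  have hℓ : Fact ℓ.Prime := ⟨h.hl⟩
  set I : Ideal (𝓞 K) := Ideal.span {ϖ} with hI
  have hIp : I.IsPrime := (Ideal.span_singleton_prime h.prime.ne_zero).2 h.prime
  have hI0 : I ≠ ⊥ := by
    rw [hI, Ne, Ideal.span_singleton_eq_bot]
    exact h.prime.ne_zero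
  have hmax : I.IsMaximal := hIp.isMaximal hI0
  let _ : Field (𝓞 K ⧸ I) := Ideal.Quotient.field I
  have hfin : Finite (𝓞 K ⧸ I) := I.finiteQuotientOfFreeOfNeBot hI0
  have := Fintype.ofFinite (𝓞 K ⧸ I)
  have hcard : Fintype.card (𝓞 K ⧸ I) = q := by
    rw [← Nat.card_eq_fintype_card]
    exact h.norm
  have hl0 : ((ℓ : ℕ) : 𝓞 K ⧸ I) = 0 := by
    have h1 : Ideal.Quotient.mk I (ℓ : 𝓞 K) = 0 :=
      Ideal.Quotient.eq_zero_iff_mem.2 (Ideal.mem_span_singleton.2 h.dvd)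
    rwa [map_natCast] at h1
  have hchar : CharP (𝓞 K ⧸ I) ℓ := (CharP.charP_iff_prime_eq_zero h.hl).2 hl0
  -- an element which is not fixed by Frobenius
  have hy : ∃ y : 𝓞 K ⧸ I, y ^ ℓ ≠ y := by
    by_contra hc
    push Not at hc
    have h2 : (Finset.univ : Finset (𝓞 K ⧸ I)).card ≤
        ((Polynomial.X ^ ℓ - Polynomial.X : Polynomial (𝓞 K ⧸ I))).natDegree := by
      refine Polynomial.card_le_degree_of_subset_roots fun y _ => ?_
      rw [Polynomial.mem_roots (FiniteField.X_pow_card_sub_X_ne_zero _ h.hl.one_lt)]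
      simp [hc y]
    rw [FiniteField.X_pow_card_sub_X_natDegree_eq _ h.hl.one_lt, Finset.card_univ, hcard, hq] at h2
    have h3 := h.hl.one_lt
    nlinarith
  obtain ⟨y, hy⟩ := hy
  have hx0 : y - y ^ ℓ ≠ 0 := fun h1 => hy (sub_eq_zero.1 h1).symm
  have hx1 : (y - y ^ ℓ) ^ ℓ = -(y - y ^ ℓ) := by
    rw [sub_pow_char, ← pow_mul, ← sq, ← hq, ← hcard, FiniteField.pow_card]
    ring
  obtain ⟨c, hc⟩ := Ideal.Quotient.mk_surjective (y - y ^ ℓ)
  refine ⟨c, fun hd => ?_, ?_⟩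
  · apply hx0
    rw [← hc]
    exact Ideal.Quotient.eq_zero_iff_mem.2 (Ideal.mem_span_singleton.2 hd)
  · rw [← Ideal.mem_span_singleton, ← hI, ← Ideal.Quotient.eq, map_pow, hc, map_neg, map_one]
    have h1 : (y - y ^ ℓ) ^ (ℓ - 1) * (y - y ^ ℓ) = -1 * (y - y ^ ℓ) := by
      rw [← pow_succ, Nat.sub_add_cancel h.hl.one_lt.le, hx1]
      ring
    exact mul_right_cancel₀ hx0 h1

/-- if `q = ℓ` there is no primitive `ℓ`-th root of unity -/
private theorem ROOT_no_root {F N : Type} [Field F] [NumberField F] [Algebra K F] [Field N]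
    [NumberField N] [Algebra K N] [Algebra F N] [IsScalarTower K F N] [DecidableEq N]
    [IsGalois F N] {ϖ : 𝓞 K} {ℓ q : ℕ} (h : PD ϖ ℓ q) {P : Pt N} (hF : Full F ϖ P)
    (hU : DS.UnrL ℓ F) (hq : q = ℓ) {ζ : N} (hζ : IsPrimitiveRoot ζ ℓ) : False := by
  obtain ⟨ϖ', hϖ'⟩ := h.dvd
  have hpid : IsPrincipalIdealRing (𝓞 K) := IsCyclotomicExtension.Rat.three_pid K
  have hn : Ideal.absNorm (Ideal.span {ϖ'}) = ℓ := by
    have h1 : Ideal.absNorm (Ideal.span {ϖ}) * Ideal.absNorm (Ideal.span {ϖ'}) = ℓ ^ 2 := by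
      rw [← map_mul, Ideal.span_singleton_mul_span_singleton, ← hϖ']
      exact S4.u4_absNorm_p ℓ
    rw [h.norm, hq, sq] at h1
    exact Nat.eq_of_mul_eq_mul_left h.hl.pos h1
  have hϖ0 : ϖ' ≠ 0 := by
    intro h0
    rw [h0, mul_zero] at hϖ'
    have : (ℓ : 𝓞 K) ≠ 0 := Nat.cast_ne_zero.2 h.hl.ne_zero
    exact this hϖ'
  have hpr : Prime ϖ' := by
    rw [← Ideal.span_singleton_prime hϖ0]
    refine Ideal.isPrime_of_irreducible_absNorm ?_
    rw [hn]
    exact h.hl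
  have hnd : ¬ ϖ ∣ ϖ' := by
    rintro ⟨c, hc⟩
    apply h.sq
    refine ⟨c, ?_⟩
    rw [hϖ', hc]
    ring
  have hco : IsCoprime ϖ ϖ' := h.prime.irreducible.coprime_iff_not_dvd.2 hnd
  -- the place of `N`
  have hsp : (Ideal.span {ϖ'}).IsPrime := (Ideal.span_singleton_prime hϖ0).2 hpr
  have hb0 : Ideal.span {ϖ'} ≠ ⊥ := by
    rw [Ne, Ideal.span_singleton_eq_bot]
    exact hϖ0
  have hsm : (Ideal.span {ϖ'}).IsMaximal := hsp.isMaximal hb0
  obtain ⟨Q, hQm, hQ⟩ := Ideal.exists_ideal_over_maximal_of_isIntegral (S := 𝓞 N)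
    (Ideal.span {ϖ'}) (by
    rw [(RingHom.injective_iff_ker_eq_bot _).1 (FaithfulSMul.algebraMap_injective (𝓞 K) (𝓞 N))]
    exact bot_le)
  have hQ0 : Q ≠ ⊥ := by
    intro h0
    rw [h0, ← RingHom.ker_eq_comap_bot,
      (RingHom.injective_iff_ker_eq_bot _).1 (FaithfulSMul.algebraMap_injective (𝓞 K) (𝓞 N))] at hQ
    exact hb0 hQ.symm
  let w : HeightOneSpectrum (𝓞 N) := ⟨Q, hQm.isPrime, hQ0⟩
  have hwϖ' : algebraMap (𝓞 K) (𝓞 N) ϖ' ∈ w.asIdeal := by
    have h1 : ϖ' ∈ Q.comap (algebraMap (𝓞 K) (𝓞 N)) := by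
      rw [hQ]
      exact Ideal.mem_span_singleton_self _
    exact h1
  have hwϖ : w.valuation N (algebraMap K N (ϖ : K)) = 1 :=
    ROOT_val_one w (x := algebraMap (𝓞 K) (𝓞 N) ϖ) fun h1 => ROOT_coprime w hco h1 hwϖ'
  have h3 : w.valuation N (3 : N) = 1 := by
    have h4 : IsCoprime (3 : 𝓞 K) (ℓ : 𝓞 K) := by
      have h5 : IsCoprime ((3 : ℕ) : ℤ) (ℓ : ℤ) := by
        rw [Nat.isCoprime_iff_coprime, Nat.coprime_primes Nat.prime_three h.hl]
        have := h.five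
        omega
      have h6 := h5.map (Int.castRingHom (𝓞 K))
      simpa using h6
    have h7 : algebraMap (𝓞 K) (𝓞 N) 3 ∉ w.asIdeal := fun h1 =>
      ROOT_coprime w h4 h1 (ROOT_dvd w ⟨ϖ, by rw [hϖ']; ring⟩ hwϖ')
    have h8 := ROOT_val_one w h7
    rw [map_ofNat] at h8
    have h9 : ((3 : 𝓞 N) : N) = 3 := map_ofNat (algebraMap (𝓞 N) N) 3
    rwa [h9] at h8
  have hram : w.asIdeal.ramificationIdx (𝓞 F) = 1 :=
    unram h.prime h.one hF.ord hF.gen w h3 hwϖ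
  have hmemℓ : algebraMap (𝓞 K) (𝓞 N) (ℓ : 𝓞 K) ∈ w.asIdeal :=
    ROOT_dvd w ⟨ϖ, by rw [hϖ']; ring⟩ hwϖ'
  have hvl : w.valuation N (algebraMap F N (ℓ : F)) < 1 := by
    have h1 := (ROOT_mem w _).2 hmemℓ
    have h2 : ((algebraMap (𝓞 K) (𝓞 N) (ℓ : 𝓞 K) : 𝓞 N) : N) = algebraMap F N (ℓ : F) := by
      rw [map_natCast, map_natCast]
      exact map_natCast (algebraMap (𝓞 N) N) ℓ
    rwa [h2] at h1
  have hodv : od (w.under (𝓞 F)) (ℓ : F) = 1 := hU _ ((val_map_lt w _).1 hvl)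
  have hodl : od w (ℓ : N) = 1 := by
    have h1 := od_map w (ℓ : F)
    rw [hram, hodv, map_natCast, Nat.cast_one, one_mul] at h1
    exact h1
  have hk1 := ROOT_od w h.hl hζ
  rw [hodl] at hk1
  have h5 : (((ℓ - 1 : ℕ) : ℤ)) ∣ 1 := ⟨_, hk1⟩
  have h6 := Int.le_of_dvd one_pos h5
  have h7 := h.five
  omega

theorem root_evenG {F N : Type} [Field F] [NumberField F] [Algebra K F] [Field N] [NumberField N]
    [Algebra K N] [Algebra F N] [IsScalarTower K F N] [DecidableEq N] [IsGalois F N]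
    {ϖ : 𝓞 K} {ℓ q : ℕ} (h : PD ϖ ℓ q) {P : Pt N} (hF : Full F ϖ P) (hU : DS.UnrL ℓ F)
    {ζ : Nˣ} {m : ℕ} (hm : m ≠ 0) (hζ : ζ ^ m = 1) {σ : Gal(N/F)}
    (hσ : ga σ P = sm N (-1) P) : ∃ z : Nˣ, sg σ ζ = ζ * z ^ ℓ := by
  have hn0 : 0 < orderOf ζ :=
    orderOf_pos_iff.2 (isOfFinOrder_iff_pow_eq_one.2 ⟨m, Nat.pos_of_ne_zero hm, hζ⟩)
  by_cases hln : ℓ ∣ orderOf ζ
  · -- the interesting case
    have hprim : IsPrimitiveRoot ζ (orderOf ζ) := IsPrimitiveRoot.orderOf ζ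
    rcases h.alt with hq | hq
    · exfalso
      obtain ⟨a, ha⟩ := hln
      have h1 : IsPrimitiveRoot (ζ ^ a) ℓ := hprim.pow hn0 (by rw [ha]; ring)
      exact ROOT_no_root h hF hU hq (IsPrimitiveRoot.coe_units_iff.2 h1)
    · obtain ⟨c, hc0, hc1⟩ := ROOT_neg_one h hq
      obtain ⟨ρ, hρ⟩ := hF.all c hc0
      -- powers of `ρ`
      have hpow : ∀ j : ℕ, ga (ρ ^ j) P = sm N (c ^ j) P := by
        intro j
        induction j with
        | zero =>
          rw [pow_zero, pow_zero, ga_one, map_one]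
          rfl
        | succ j ih =>
          rw [pow_succ', ga_mul, ih, ga_sm, hρ, pow_succ, map_mul]
          rfl
      have h2 : ga (ρ ^ (ℓ - 1)) P = ga σ P := by
        rw [hpow, hσ]
        exact (hF.ord.sm_eq_iff _ _).2 hc1
      have h3 : σ = ρ ^ (ℓ - 1) := by
        have h4 : σ⁻¹ * ρ ^ (ℓ - 1) = 1 := by
          apply hF.gen
          rw [ga_mul, h2, ← ga_mul, inv_mul_cancel, ga_one]
        rw [inv_mul_eq_one] at h4
        exact h4
      -- the action on `ζ`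
      have hne0 : NeZero (orderOf ζ) := ⟨hn0.ne'⟩
      have hprimN : IsPrimitiveRoot (ζ : N) (orderOf ζ) := IsPrimitiveRoot.coe_units_iff.2 hprim
      have hρζ : IsPrimitiveRoot (ρ (ζ : N)) (orderOf ζ) := hprimN.map_of_injective ρ.injective
      obtain ⟨i, -, hi⟩ := hprimN.eq_pow_of_pow_eq_one hρζ.pow_eq_one
      have hico : i.Coprime (orderOf ζ) := by
        rw [← hi] at hρζ
        exact (hprimN.pow_iff_coprime hn0 i).1 hρζ
      have hil : i.Coprime ℓ := Nat.Coprime.coprime_dvd_right hln hico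
      have hsg : sg ρ ζ = ζ ^ i := by
        apply Units.ext
        rw [sg_coe, Units.val_pow_eq_pow_val]
        exact hi.symm
      have hsgp : ∀ j : ℕ, sg (ρ ^ j) ζ = ζ ^ (i ^ j) := by
        intro j
        induction j with
        | zero =>
          rw [pow_zero, pow_zero, pow_one]
          apply Units.ext
          rfl
        | succ j ih =>
          rw [pow_succ', sg_sg, ih, sg_pow, hsg, ← pow_mul, pow_succ']
      have hi0 : 0 < i := by
        rcases Nat.eq_zero_or_pos i with h0 | h0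
        · rw [h0, Nat.coprime_zero_left] at hil
          exact absurd hil h.hl.one_lt.ne'
        · exact h0
      have hmod : ℓ ∣ i ^ (ℓ - 1) - 1 := by
        have h5 := Int.ModEq.pow_card_sub_one_eq_one h.hl (n := (i : ℤ)) (Nat.isCoprime_iff_coprime.2 hil)
        have h6 : ((1 : ℕ) : ℤ) ≡ ((i ^ (ℓ - 1) : ℕ) : ℤ) [ZMOD (ℓ : ℤ)] := by
          push_cast
          exact h5.symm
        exact (Nat.modEq_iff_dvd' (Nat.one_le_pow _ _ hi0)).1 ((Int.natCast_modEq_iff).1 h6)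
      obtain ⟨j, hj⟩ := hmod
      refine ⟨ζ ^ j, ?_⟩
      have hi1 : 1 ≤ i ^ (ℓ - 1) := Nat.one_le_pow _ _ hi0
      have h7 : i ^ (ℓ - 1) = 1 + j * ℓ := by
        rw [mul_comm j ℓ, ← hj]
        omega
      rw [h3, hsgp, h7, pow_add, pow_one, pow_mul]
  · -- `ζ` is an `ℓ`-th power
    obtain ⟨a, ha⟩ := exists_pow_eq_self_of_coprime (x := ζ) (n := ℓ)
      ((h.hl.coprime_iff_not_dvd).2 hln)
    refine ⟨sg σ (ζ ^ a) * (ζ ^ a)⁻¹, ?_⟩
    have h1 : (ζ ^ a) ^ ℓ = ζ := by rw [← pow_mul, mul_comm, pow_mul, ha]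
    rw [mul_pow, ← sg_pow, inv_pow, h1, mul_comm, mul_assoc, inv_mul_cancel, mul_one]

end

end Pool.Agent.Lib.MP_1a91b9_ntT.DG
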