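import Pool.Agent.Lib.MP_1a91b9_ntT.DG.NoH
import Pool.Agent.Lib.MP_1a91b9_ntT.DG.IsoU
import Pool.Agent.Lib.MP_1a91b9_ntT.DG.Comp
import Pool.Agent.Lib.MP_1a91b9_ntT.DG.Nd
import Pool.Agent.Lib.MP_1a91b9_ntT.DB.VT

/-!
# DG: the vanishing theorem over `F`

JOB VT. PROOF (complete; helper30).

`vt_core`: as `base_V` in DB/Base.lean. `T, iv, n` from `exists_trD`, `g` from `exists_primgen` (`cl` needs it); `Fintype (U μ)`. `cl hG.pd hG.full hg hg0 hy.od hy.iso`
(DB/Cl.lean, `k := F`): the second alternative gives `f` with `f v ≠ 0`, `PrincZero f`, `IsoPl F ℓ P f`; `f` vanishes above `3` by `hDT` and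
`IsoPl.fix`; `TopG.no_hG` contradicts. So `y = ε s^ℓ` with a unit `ε`, `Iso F ℓ P ε` (as in `base_V`), `iso_unitG`: `c`, `x`, `z` with
`algebraMap N L x = XX c`, `ε = x z^ℓ`; `y = x (z s)^ℓ`. Let `W` be a place of `L` with `W ϖ < 1`, `w = W.under (𝓞 N)`, `w ϖ < 1`. `hy.loc w` gives
`b, e ∈ N` with `w (y b^ℓ) = 1`, `w (y b^ℓ - e^ℓ) ≤ exp (-2)`. Map to `L`: `W (algebraMap a) = (w a)^e`-type relation: by `od_map`,
`od W (algebraMap a) = e * od w a` with `e ≥ 1` (`ramIdx_pos`), so `W (y b^ℓ) = 1` and `W (y b^ℓ - e^ℓ) ≤ exp (-2)` in `L` (if the element is `0`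
trivial; `val_eq`). As in `base_V`: with `r = z s b`: `W (XX c - (e/r)^ℓ) ≤ exp (-2)`, so `XX_pow` (`hG.odP W`) gives `W (Σ_u c u lamQ (smU J u)) < 1`. This holds
for all `W` with `W ϖ < 1`, so `hnd` gives `ϖ ∣ c u` for all `u`, `XX c = 1` (`XX_zero`), `x = 1`, `y = (z s)^ℓ`.
`vtG`: unfold `VT`: `N`, `P`, `hF : Full F ϖ P`. `exists_top` gives `L`; `nd_of_dL`; `vt_core`, with `hDT N P hF`.
-/

set_option autoImplicit false

namespace Pool.Agent.Lib.MP_1a91b9_ntT.DG

open NumberField IsDedekindDomain WeierstrassCurve DB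

noncomputable section

section
variable {μ ϖ : 𝓞 K} {ℓ q : ℕ} {F N L : Type} [Field F] [NumberField F] [Algebra K F]
  [Field N] [NumberField N] [Algebra K N] [Algebra F N] [IsScalarTower K F N] [IsGalois F N]
  [DecidableEq N] [Field L] [NumberField L] [Algebra K L] [Algebra F L] [Algebra N L]
  [IsScalarTower K F L] [IsScalarTower K N L] [IsScalarTower F N L] [DecidableEq L]
  {P : Pt N} {J : Pt L} (hG : TopG μ ϖ ℓ q F N L P J)
include hG

theorem TopG.vt_core (hU : DS.UnrL ℓ F) (hnd : ND N μ ϖ J)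
    (hDT : ∀ v : HeightOneSpectrum (𝓞 N), v.valuation N (3 : N) < 1 →
      ∃ σ : Gal(N/F), σ ≠ 1 ∧ gpl σ v = v) {y : Nˣ} (hy : VV F ϖ ℓ P y) :
    ∃ z : Nˣ, y = z ^ ℓ := by
  have hfin : Finite (U μ) :=
    Nat.finite_of_card_ne_zero fun h0 => hG.cu (by rw [h0]; exact dvd_zero _)
  letI : Fintype (U μ) := Fintype.ofFinite _
  have h := hG.pd
  have hF := hG.full
  have hP1 : Ord ϖ (up L P) := (Ord.map _).2 hF.ord
  obtain ⟨T, iv, n, hT⟩ := exists_trD h
  obtain ⟨g, hg, hg0, -⟩ := exists_primgen h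
  rcases cl h hF hg hg0 hy.od hy.iso with ⟨ε, s, hε, hys⟩ | ⟨f, ⟨v, hv⟩, hf, hiso⟩
  · have hisoε : Iso F ℓ P ε := by
      have e1 : ε = y * (s ^ ℓ)⁻¹ := by rw [hys, mul_inv_cancel_right]
      rw [e1]
      exact Iso.mul h hF hy.iso (Iso.inv h hF (Iso.pow_ell h hF s))
    obtain ⟨c, x, z, hBI, hx, hcz⟩ := hG.iso_unitG hT hU hnd hε hisoε
    have hy1 : (y : N) = (x : N) * ((z : N) * s) ^ ℓ := by
      rw [hys, hcz]
      push_cast
      ring
    have hc : ∀ u, ϖ ∣ c u := by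
      refine hnd c hBI fun W hW => ?_
      rw [finsum_eq_sum_of_fintype]
      have hwϖ : (W.under (𝓞 N)).valuation N (algebraMap K N (ϖ : K)) < 1 := by
        rw [← val_map_lt W, ← IsScalarTower.algebraMap_apply K N L]
        exact hW
      obtain ⟨b, e, hb1, hb2⟩ := hy.loc _ hwϖ
      have hb1' : W.valuation L (algebraMap N L ((y : N) * b ^ ℓ)) = 1 := (val_map_eq W _).2 hb1
      have hb2' : W.valuation L (algebraMap N L ((y : N) * b ^ ℓ - e ^ ℓ)) ≤
          WithZero.exp (-2 : ℤ) := by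
        by_cases h0 : (y : N) * b ^ ℓ - e ^ ℓ = 0
        · rw [h0, map_zero, map_zero]
          exact zero_le'
        · have h1 : 2 ≤ od (W.under (𝓞 N)) ((y : N) * b ^ ℓ - e ^ ℓ) := by
            rw [val_eq _ h0, WithZero.exp_le_exp] at hb2
            linarith
          have hne : algebraMap N L ((y : N) * b ^ ℓ - e ^ ℓ) ≠ 0 :=
            (map_ne_zero (algebraMap N L)).2 h0
          rw [val_eq W hne, od_map, WithZero.exp_le_exp]
          have h2 : 0 < W.asIdeal.ramificationIdx (𝓞 N) := ramIdx_pos W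
          have h3 : (1 : ℤ) ≤ (W.asIdeal.ramificationIdx (𝓞 N) : ℤ) := by exact_mod_cast h2
          nlinarith
      have hxc : W.valuation L (XX T iv n (up L P) J c) = 1 :=
        XX_val h hT hP1 hG.cop hG.copw hG.ord (W.valuation L) c
      set r : L := algebraMap N L ((z : N) * s * b) with hr
      have hyr : algebraMap N L ((y : N) * b ^ ℓ) = XX T iv n (up L P) J c * r ^ ℓ := by
        rw [hy1, hr, ← hx, ← map_pow, ← map_mul]
        congr 1
        ring
      have hwr : W.valuation L (r ^ ℓ) = 1 := by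
        rw [hyr, map_mul, hxc, one_mul] at hb1'
        exact hb1'
      have hr0 : r ^ ℓ ≠ 0 := by
        intro h0
        rw [h0, map_zero] at hwr
        exact zero_ne_one hwr
      have hz : W.valuation L (XX T iv n (up L P) J c - (algebraMap N L e / r) ^ ℓ) ≤
          WithZero.exp (-2 : ℤ) := by
        have e1 : XX T iv n (up L P) J c - (algebraMap N L e / r) ^ ℓ =
            algebraMap N L ((y : N) * b ^ ℓ - e ^ ℓ) / r ^ ℓ := by
          rw [map_sub, hyr, div_pow, map_pow]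
          field_simp
        rw [e1, map_div₀, hwr, div_one]
        exact hb2'
      exact XX_pow h hT hP1 hG.cop hG.copw hG.ord W hW (hG.odP W hW) hz
    have hx1 : (x : N) = 1 := by
      apply (algebraMap N L).injective
      rw [hx, map_one]
      exact XX_zero h hT hP1 hG.cop hG.copw hG.ord hc
    refine ⟨z * s, ?_⟩
    apply Units.ext
    rw [hy1, hx1, one_mul]
    push_cast
    rfl
  · have hf3 : ∀ w : HeightOneSpectrum (𝓞 N), w.valuation N (3 : N) < 1 → f w = 0 := by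
      intro w hw
      obtain ⟨σ, hσ1, hσ⟩ := hDT w hw
      exact IsoPl.fix h hF hiso hσ hσ1
    exact absurd (hG.no_hG hnd hf hiso hf3 v) hv

end

theorem vtG {μ ϖ : 𝓞 K} {ℓ q : ℕ} {F L' : Type} [Field F] [NumberField F] [Algebra K F]
    [Field L'] [NumberField L'] [Algebra K L'] [Algebra F L'] [IsScalarTower K F L']
    [DecidableEq L'] {J' : Pt L'} (hAB : AB μ F L' J') (h : PD ϖ ℓ q) (hμϖ : ¬ ϖ ∣ μ)
    (hcu : ¬ ℓ ∣ Nat.card (U μ)) (hU : DS.UnrL ℓ F) (hDT : DT ϖ F)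
    (hd : ∀ v : HeightOneSpectrum (𝓞 F), v.valuation F (algebraMap K F (ϖ : K)) < 1 →
      v.valuation F (dL F L' J') = 1) : VT ϖ ℓ F := by
  intro N _ _ _ _ _ _ _ P hF y hy
  obtain ⟨L, iF, iN, iK, iFL, iNL, iLL, t1, t2, t3, t4, t5, iD, hG⟩ :=
    exists_top hAB h hμϖ hcu N hF
  exact hG.vt_core hU (nd_of_dL hAB hG hd) (hDT N P hF) hy

end

end Pool.Agent.Lib.MP_1a91b9_ntT.DG
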