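import Pool.Agent.Lib.MP_1a91b9_ntT.DB.Base
import Pool.Agent.Lib.MP_1a91b9_ntT.DS.Defs

/-!
# Theorem G (general abelian base field): definitions

`K = ℚ(√-3)`, `E : y² + y = x³`. The base field `F` is contained in `L' = K(J)`, `J` a torsion point of
exact annihilator `μ` (`AB`). For `PD ϖ ℓ q` and `N/F` with the point `P` (`Full F ϖ P`) the field `L` is
the compositum of `N` and `L'` (`TopG`); `Gal(L/K)` is `(𝓞 K/μ)^× × (𝓞 K/ϖ)^×`.
-/

set_option autoImplicit false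

namespace Pool.Agent.Lib.MP_1a91b9_ntT.DG

open NumberField IsDedekindDomain WeierstrassCurve DB

noncomputable section

/-- the residue classes prime to `μ` -/
abbrev U (μ : 𝓞 K) : Type := (𝓞 K ⧸ Ideal.span {μ})ˣ

/-- a representative of a residue class -/
def rp {μ : 𝓞 K} (u : U μ) : 𝓞 K := Quotient.out (u : 𝓞 K ⧸ Ideal.span {μ})

theorem mk_rp {μ : 𝓞 K} (u : U μ) :
    Ideal.Quotient.mk (Ideal.span {μ}) (rp u) = (u : 𝓞 K ⧸ Ideal.span {μ}) := Quotient.out_eq _

theorem mk_eq {μ a b : 𝓞 K} :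
    Ideal.Quotient.mk (Ideal.span {μ}) a = Ideal.Quotient.mk (Ideal.span {μ}) b ↔ μ ∣ a - b := by
  rw [Ideal.Quotient.eq, Ideal.mem_span_singleton]

theorem mk_unit {μ c : 𝓞 K} : IsUnit (Ideal.Quotient.mk (Ideal.span {μ}) c) ↔ IsCoprime c μ := by
  constructor
  · rintro ⟨v, hv⟩
    obtain ⟨d, hd⟩ := Ideal.Quotient.mk_surjective (v⁻¹ : U μ).1
    have h1 : Ideal.Quotient.mk (Ideal.span {μ}) (c * d) = Ideal.Quotient.mk (Ideal.span {μ}) 1 := by
      rw [map_mul, hd, ← hv, map_one]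
      exact v.mul_inv
    rw [mk_eq] at h1
    obtain ⟨e, he⟩ := h1
    exact ⟨d, -e, by linear_combination he⟩
  · rintro ⟨a, b, hab⟩
    have h1 : Ideal.Quotient.mk (Ideal.span {μ}) (c * a) = 1 := by
      rw [← map_one (Ideal.Quotient.mk (Ideal.span {μ})), mk_eq]
      exact ⟨-b, by linear_combination hab⟩
    rw [map_mul] at h1
    exact IsUnit.of_mul_eq_one _ h1

theorem rp_cop {μ : 𝓞 K} (u : U μ) : IsCoprime (rp u) μ := by
  rw [← mk_unit, mk_rp]
  exact u.isUnit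

theorem rp_inj {μ : 𝓞 K} {u v : U μ} (h : μ ∣ rp u - rp v) : u = v := by
  rw [← mk_eq, mk_rp, mk_rp] at h
  exact Units.ext h

theorem rp_mul {μ : 𝓞 K} (u v : U μ) : μ ∣ rp (u * v) - rp u * rp v := by
  rw [← mk_eq, mk_rp, map_mul, mk_rp, mk_rp]
  rfl

theorem rp_one {μ : 𝓞 K} : μ ∣ rp (1 : U μ) - 1 := by
  rw [← mk_eq, mk_rp, map_one]
  rfl

theorem rp_ex {μ c : 𝓞 K} (hc : IsCoprime c μ) : ∃ u : U μ, μ ∣ c - rp u := by
  obtain ⟨v, hv⟩ := mk_unit.2 hc
  refine ⟨v, ?_⟩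
  rw [← mk_eq, mk_rp]
  exact hv.symm

/-- the action of a residue class on a point killed by `μ` -/
def smU {F : Type*} [Field F] [Algebra K F] [DecidableEq F] {μ : 𝓞 K} (J : Pt F) (u : U μ) : Pt F :=
  sm F (rp u) J

section
variable {F : Type*} [Field F] [Algebra K F] [DecidableEq F] {μ : 𝓞 K} {J : Pt F} (hJ : Ord μ J)

theorem sm_sm (a b : 𝓞 K) (Q : Pt F) : sm F a (sm F b Q) = sm F (a * b) Q := by
  rw [map_mul]
  rfl

include hJ

theorem smU_of {c : 𝓞 K} {u : U μ} (hc : μ ∣ c - rp u) : sm F c J = smU J u :=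
  (hJ.sm_eq_iff c (rp u)).2 hc

theorem smU_one : smU J (1 : U μ) = J := by
  rw [← smU_of hJ (c := 1) (by
    have h1 := rp_one (μ := μ)
    rwa [← dvd_neg, neg_sub] at h1), map_one]
  rfl

theorem smU_mul (g u : U μ) : sm F (rp g) (smU J u) = smU J (g * u) := by
  unfold smU
  rw [sm_sm, hJ.sm_eq_iff, ← dvd_neg, neg_sub]
  exact rp_mul g u

theorem smU_kill (u : U μ) : sm F μ (smU J u) = 0 := by
  unfold smU
  rw [sm_sm]
  exact (hJ _).2 (dvd_mul_right _ _)

theorem smU_inj {u v : U μ} (h : smU J u = smU J v) : u = v :=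
  rp_inj ((hJ.sm_eq_iff _ _).1 h)

end

/-- the elliptic unit of index `c` at the torsion point `Q` -/
def xQ {N : Type} [Field N] [NumberField N] [Algebra K N] [DecidableEq N]
    (T : Finset (𝓞 K)) (iv : 𝓞 K → 𝓞 K) (n : 𝓞 K → ℤ) (P Q : Pt N) (c : 𝓞 K) : N :=
  ∏ a ∈ T, yc (ptS N + Q + sm N a P) ^ n (c * iv a)

/-- the elliptic unit attached to a function on the residue classes -/
def XX {N : Type} [Field N] [NumberField N] [Algebra K N] [DecidableEq N] {μ : 𝓞 K}
    [Fintype (U μ)] (T : Finset (𝓞 K)) (iv : 𝓞 K → 𝓞 K) (n : 𝓞 K → ℤ) (P J : Pt N)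
    (c : U μ → 𝓞 K) : N := ∏ u : U μ, xQ T iv n P (smU J u) (c u)

/-- the logarithmic derivative of the ordinate at `S + Q` -/
def lamQ {N : Type} [Field N] [NumberField N] [Algebra K N] [DecidableEq N] (Q : Pt N) : N :=
  3 * xc (ptS N + Q) ^ 2 / yc (ptS N + Q)

/-- the base field: `F` is contained in `L = K(J)`, `J` of exact annihilator `μ` prime to `3` -/
structure AB (μ : 𝓞 K) (F L : Type) [Field F] [NumberField F] [Algebra K F] [Field L]
    [NumberField L] [Algebra K L] [Algebra F L] [IsScalarTower K F L] [DecidableEq L]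
    (J : Pt L) : Prop where
  gal : IsGalois K L
  ne : μ ≠ 0
  ord : Ord μ J
  cop : IsCoprime μ 3
  gen : ∀ σ : Gal(L/K), ga σ J = J → σ = 1
  three : ¬ 3 ∣ Module.finrank K F

/-- the field `L = N(J)`, `N = F(P)` -/
structure TopG (μ ϖ : 𝓞 K) (ℓ q : ℕ) (F N L : Type) [Field F] [NumberField F] [Algebra K F]
    [Field N] [NumberField N] [Algebra K N] [Algebra F N] [IsScalarTower K F N] [IsGalois F N]
    [DecidableEq N] [Field L] [NumberField L] [Algebra K L] [Algebra F L] [Algebra N L]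
    [IsScalarTower K F L] [IsScalarTower K N L] [IsScalarTower F N L] [DecidableEq L]
    (P : Pt N) (J : Pt L) : Prop where
  pd : PD ϖ ℓ q
  gal : IsGalois K L
  full : Full F ϖ P
  ne : μ ≠ 0
  ord : Ord μ J
  cop : IsCoprime μ 3
  copw : ¬ ϖ ∣ μ
  cu : ¬ ℓ ∣ Nat.card (U μ)
  gen : ∀ σ : Gal(L/K), ga σ J = J → ga σ (up L P) = up L P → σ = 1
  surj : ∀ c : 𝓞 K, IsCoprime c μ → ¬ ϖ ∣ c →
    ∃ σ : Gal(L/K), ga σ J = sm L c J ∧ ga σ (up L P) = sm L c (up L P)
  fixF : ∀ σ : Gal(L/K), ga σ J = J → ∀ x : F, σ (algebraMap F L x) = algebraMap F L x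
  odP : ∀ W : HeightOneSpectrum (𝓞 L), W.valuation L (algebraMap K L (ϖ : K)) < 1 →
    od W (tc (up L P)) = 1

section
variable {L : Type} [Field L] [NumberField L] [Algebra K L] [DecidableEq L]

/-- the classes of the automorphisms over `N` -/
def inB (N : Type) [Field N] [NumberField N] [Algebra K N] [Algebra N L] [IsScalarTower K N L]
    {μ : 𝓞 K} (J : Pt L) (b : U μ) : Prop := ∃ σ : Gal(L/N), ga σ J = smU J b

/-- functions modulo `ϖ` invariant under `Gal(L/N)` -/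
def BI (N : Type) [Field N] [NumberField N] [Algebra K N] [Algebra N L] [IsScalarTower K N L]
    {μ : 𝓞 K} (ϖ : 𝓞 K) (J : Pt L) (c : U μ → 𝓞 K) : Prop :=
  ∀ b u : U μ, inB N J b → ϖ ∣ c (u * b) - c u

/-- non-degeneracy at `ϖ`: the condition on the values `lamQ (u J)` -/
def ND (N : Type) [Field N] [NumberField N] [Algebra K N] [Algebra N L] [IsScalarTower K N L]
    (μ ϖ : 𝓞 K) (J : Pt L) : Prop :=
  ∀ c : U μ → 𝓞 K, BI N ϖ J c → (∀ W : HeightOneSpectrum (𝓞 L),
    W.valuation L (algebraMap K L (ϖ : K)) < 1 →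
      W.valuation L (∑ᶠ u : U μ, algebraMap K L (c u : K) * lamQ (smU J u)) < 1) →
    ∀ u, ϖ ∣ c u

end

/-- the determinant of the traces of `lamQ J` (an element of the base field) -/
def dL (F L : Type) [Field F] [NumberField F] [Algebra K F] [Field L]
    [NumberField L] [Algebra K L] [Algebra F L] [IsScalarTower K F L] [DecidableEq L]
    (J : Pt L) : F :=
  haveI : DecidableEq Gal(F/K) := Classical.decEq _
  Matrix.det (Matrix.of fun g h : Gal(F/K) => (g * h) (Algebra.trace F L (lamQ J)))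

/-- the function on the places of `L` attached to a function on the places of `N` -/
def f2 {N L : Type} [Field N] [NumberField N] [Field L] [NumberField L] [Algebra N L] {ℓ : ℕ}
    (f : HeightOneSpectrum (𝓞 N) → ZMod ℓ) (W : HeightOneSpectrum (𝓞 L)) : ZMod ℓ :=
  (W.asIdeal.inertiaDeg (𝓞 N) : ZMod ℓ) * f (W.under (𝓞 N))

/-- convolution of functions on the residue classes -/
def conv {μ : 𝓞 K} [Fintype (U μ)] (α η : U μ → 𝓞 K) (w : U μ) : 𝓞 K :=
  ∑ g : U μ, α (g⁻¹ * w) * η g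

end

end Pool.Agent.Lib.MP_1a91b9_ntT.DG
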