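import Pool.Agent.Lib.MP_1a91b9_ntT.DG.DUnit
import Pool.Agent.Lib.MP_1a91b9_ntT.DG.Vt
import Pool.Agent.Lib.MP_1a91b9_ntT.TG.Ba

/-!
# Theorem G, Parts 1 to 7: the base field
-/

set_option autoImplicit false

namespace Pool.Agent.Lib.MP_1a91b9_ntT.DG

open NumberField IsDedekindDomain WeierstrassCurve DB S3

noncomputable section

theorem cop_of_nAb {μ : 𝓞 K} {ℓ : ℕ} (hℓ : ℓ.Prime) (hμ : ¬ ℓ ∣ TG.nAb μ) :
    IsCoprime (ℓ : 𝓞 K) μ := by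
  have h1 : IsCoprime (ℓ : ℤ) (TG.nAb μ : ℤ) := by
    rw [Nat.isCoprime_iff_coprime]
    exact (Nat.Prime.coprime_iff_not_dvd hℓ).2 hμ
  have h2 := h1.map (Int.castRingHom (𝓞 K))
  rw [map_natCast, map_natCast] at h2
  exact IsCoprime.of_isCoprime_of_dvd_right h2 (TG.dvd_nAb μ)

/-- the Selmer groups of the base field -/
theorem vt_all {μ : 𝓞 K} {ℓ : ℕ} (hℓ : ℓ.Prime) (h5 : 5 ≤ ℓ) {F L : Type} [Field F]
    [NumberField F] [Algebra K F] [Field L] [NumberField L] [Algebra K L] [Algebra F L]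
    [IsScalarTower K F L] [DecidableEq L] {J : Pt L} (h : AB μ F L J)
    (hcu : ¬ ℓ ∣ Nat.card (U μ)) (hμ : ¬ ℓ ∣ TG.nAb μ) (hna : TG.NaG ℓ μ F)
    (hU : MP_1a91b9_ntG.UnitProp 3 ℓ Om F) (ϖ : 𝓞 K) (q : ℕ) (hp : PD ϖ ℓ q) : VT ϖ ℓ F := by
  classical
  have hco := cop_of_nAb hℓ hμ
  have hunr := unrF h hℓ h5 hco
  have hn : ¬ ϖ ∣ μ := by
    intro hd
    obtain ⟨a, b, hab⟩ := hco
    refine hp.prime.not_isUnit (isUnit_of_dvd_one ?_)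
    rw [← hab]
    exact dvd_add (Dvd.dvd.mul_left hp.dvd a) (Dvd.dvd.mul_left hd b)
  have hdt : DT ϖ F := TG.dt_base hp F (TG.noc_ab h)
  refine vtG h hp hn hcu hunr hdt fun v hv => h.dL_unit hℓ h5 hμ hna hU v ?_
  obtain ⟨c, hc⟩ := hp.dvd
  have e : (ℓ : F) = algebraMap K F (ϖ : K) * algebraMap K F (c : K) := by
    rw [← map_mul]
    have e1 : ((ϖ * c : 𝓞 K) : K) = (ϖ : K) * (c : K) := map_mul _ _ _
    rw [← e1, ← hc]
    have e2 : (((ℓ : ℕ) : 𝓞 K) : K) = (ℓ : K) := map_natCast _ _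
    rw [e2, map_natCast]
  rw [e, map_mul]
  exact mul_lt_one_of_lt_of_le hv (v_alg_le (v.valuation F) c)

/-- **The theorem on the base field.** -/
theorem baseThm : TG.BaseThm := by
  intro μ ℓ hℓ h5 F L _ _ _ _ _ _ _ _ _ J h hcu hμ hna hU
  exact TG.baseG_of_vt h hℓ h5 hμ hU fun ϖ q hp => vt_all hℓ h5 h hcu hμ hna hU ϖ q hp

end

end Pool.Agent.Lib.MP_1a91b9_ntT.DG
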