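import Pool.Agent.Lib.MP_1a91b9_ntT.DG.Defs

/-!
# DG: characteristic polynomial of a translation

JOB CNA. PROOF (complete; helper30). `Lt τ` is the translation `c ↦ (σ ↦ c (τ⁻¹ σ))` on the functions on the finite group `G`.

`charpoly_Lt`: let `Z = Subgroup.zpowers τ` (order `n`). Choose representatives of the right cosets `Z ρ`: a bijection
`e : ZMod n × ι ≃ G`, `e (j, i) = τ^j ρ_i`, `ι` of cardinality `n0` (`n ≠ 0`). In the basis `Pi.single (e (j,i)) 1` the matrix of `Lt τ` is block
diagonal (`Lt τ (Pi.single σ 1) = Pi.single (τ σ) 1`), each block is the matrix of the cyclic permutation `j ↦ j + 1` of `ZMod n`.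
The characteristic polynomial of a block is `X^n - 1` (for example: let `s` be the shift of `ZMod n → ℤ` and `δ = Pi.single 0 1`;
`charpoly s` and `X^n - 1` are monic of degree `n` and both kill `s` (Cayley-Hamilton; `s^n = 1`), so the difference `p`, of degree `< n`,
kills `δ`; `δ, s δ, .., s^(n-1) δ` are independent, so `p = 0`; see the proof of `charpoly_eq` in DB/UnAlg.lean), and the characteristic
polynomial of a block diagonal matrix is the product (`Matrix.det_blockDiagonal`, `Matrix.charmatrix`, `LinearMap.charpoly_toMatrix`,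
`Matrix.charpoly_reindex`; or `Matrix.BlockTriangular.charpoly`, or `Matrix.charpoly` of `Matrix.blockDiagonal`).
`det_Lt`: `det_quad` (DB/UnAlg.lean) for `Lt τ`, `aeval g ((X^n - 1)^n0) = (g^n - 1)^n0`, `map_pow`.
-/

set_option autoImplicit false

namespace Pool.Agent.Lib.MP_1a91b9_ntT.DG

open NumberField IsDedekindDomain WeierstrassCurve DB

noncomputable section

section
variable {G : Type*} [Group G] [Fintype G]

/-- translation of functions on a group -/
def Lt (τ : G) : Module.End ℤ (G → ℤ) := LinearMap.funLeft ℤ ℤ (fun σ => τ⁻¹ * σ)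

private theorem cna_apply (τ : G) (c : G → ℤ) (σ : G) : Lt τ c σ = c (τ⁻¹ * σ) := rfl

private theorem cna_pow (τ : G) (j : ℕ) (c : G → ℤ) (σ : G) : (Lt τ ^ j) c σ = c ((τ ^ j)⁻¹ * σ) := by
  induction j generalizing c with
  | zero => simp
  | succ j ih =>
    rw [pow_succ, Module.End.mul_apply, ih, cna_apply, ← mul_assoc, ← mul_inv_rev, ← pow_succ]

open Polynomial in
private theorem cna_cyc (τ : G) {n : ℕ} (hτ : orderOf τ = n) (hn : n = Fintype.card G) :
    LinearMap.charpoly (Lt τ) = (X : ℤ[X]) ^ n - 1 := by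
  classical
  have hpos : 0 < n := by
    rw [hn]
    exact Fintype.card_pos
  set q : ℤ[X] := LinearMap.charpoly (Lt τ) - (X ^ n - 1) with hq
  have hmon := LinearMap.charpoly_monic (Lt τ)
  have hdeg : (LinearMap.charpoly (Lt τ)).natDegree = n := by
    rw [LinearMap.charpoly_natDegree, Module.finrank_fintype_fun_eq_card, hn]
  have hmon2 : ((X : ℤ[X]) ^ n - 1).Monic := monic_X_pow_sub_C 1 hpos.ne'
  have hdeg2 : ((X : ℤ[X]) ^ n - 1).natDegree = n := natDegree_X_pow_sub_C (n := n) (r := (1 : ℤ))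
  have hcn : q.coeff n = 0 := by
    have h1 := hmon.coeff_natDegree
    have h2 := hmon2.coeff_natDegree
    rw [hdeg] at h1
    rw [hdeg2] at h2
    rw [hq, coeff_sub, h1, h2, sub_self]
  have hbig : ∀ i, n < i → q.coeff i = 0 := by
    intro i hi
    rw [hq, coeff_sub, coeff_eq_zero_of_natDegree_lt (by omega),
      coeff_eq_zero_of_natDegree_lt (p := (X : ℤ[X]) ^ n - 1) (by omega), sub_zero]
  have hnd : q.natDegree < n + 1 := by
    refine Nat.lt_succ_of_le ((natDegree_le_iff_coeff_eq_zero).2 fun i hi => hbig i hi)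
  have hsn : Lt τ ^ n = 1 := by
    refine LinearMap.ext fun c => funext fun σ => ?_
    rw [cna_pow, ← hτ, pow_orderOf_eq_one, inv_one, one_mul]
    rfl
  have hae : aeval (Lt τ) q = 0 := by
    rw [hq, map_sub, LinearMap.aeval_self_charpoly, map_sub, map_pow, aeval_X, map_one, hsn,
      sub_self, sub_zero]
  rw [aeval_eq_sum_range' hnd, Finset.sum_range_succ, hcn, zero_smul, add_zero] at hae
  have hz : ∀ i, i < n → q.coeff i = 0 := by
    intro i hi
    have h := congrArg (fun f : Module.End ℤ (G → ℤ) => f (Pi.single 1 1) (τ ^ i)) hae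
    simp only [LinearMap.sum_apply, LinearMap.smul_apply, LinearMap.zero_apply, Pi.zero_apply,
      Finset.sum_apply, Pi.smul_apply, cna_pow, smul_eq_mul] at h
    rw [Finset.sum_eq_single i] at h
    · rw [inv_mul_cancel, Pi.single_eq_same, mul_one] at h
      exact h
    · intro j hj hji
      have hj' : j < n := Finset.mem_range.1 hj
      rw [Pi.single_eq_of_ne, mul_zero]
      intro h2
      apply hji
      rw [inv_mul_eq_one] at h2
      exact pow_injOn_Iio_orderOf (by rw [hτ]; exact hj') (by rw [hτ]; exact hi) h2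
    · intro h2
      exact absurd (Finset.mem_range.2 hi) h2
  have hq0 : q = 0 := by
    ext i
    rw [coeff_zero]
    rcases lt_trichotomy i n with h | h | h
    · exact hz i h
    · rw [h, hcn]
    · exact hbig i h
  exact sub_eq_zero.1 (hq ▸ hq0)

open Polynomial in
private theorem cna_block {m o : Type*} [Fintype m] [DecidableEq m] [Fintype o] [DecidableEq o]
    (N : Matrix m m ℤ) : (Matrix.blockDiagonal (fun _ : o => N)).charpoly =
      N.charpoly ^ Fintype.card o := by
  have h : (Matrix.blockDiagonal (fun _ : o => N)).charmatrix =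
      Matrix.blockDiagonal (fun _ : o => N.charmatrix) := by
    ext1 ⟨i, k⟩ ⟨j, k'⟩
    rw [Matrix.charmatrix_apply, Matrix.blockDiagonal_apply, Matrix.blockDiagonal_apply,
      Matrix.charmatrix_apply]
    by_cases hk : k = k'
    · subst hk
      by_cases hi : i = j
      · subst hi
        simp
      · simp [Matrix.diagonal_apply_ne, hi]
    · simp [Matrix.diagonal_apply_ne, hk]
  unfold Matrix.charpoly
  rw [h, Matrix.det_blockDiagonal, Finset.prod_const, Finset.card_univ]

open Polynomial in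
theorem charpoly_Lt (τ : G) {n n0 : ℕ} (hτ : orderOf τ = n) (hn : n0 * n = Fintype.card G) :
    LinearMap.charpoly (Lt τ) = ((X : ℤ[X]) ^ n - 1) ^ n0 := by
  classical
  set H : Subgroup G := Subgroup.zpowers τ with hH
  have hcH : Fintype.card H = n := by
    rw [← hτ, ← Nat.card_eq_fintype_card, Nat.card_zpowers]
  have hτH : τ ∈ H := Subgroup.mem_zpowers τ
  have hord : orderOf (⟨τ, hτH⟩ : H) = n := by rw [← hτ, Subgroup.orderOf_mk]
  -- the bijection
  let f : H × (G ⧸ H) → G := fun x => (x.1 : G) * (Quotient.out x.2)⁻¹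
  have hf : Function.Bijective f := by
    constructor
    · rintro ⟨h, q⟩ ⟨h', q'⟩ hx
      have hx' : (h : G) * (Quotient.out q)⁻¹ = (h' : G) * (Quotient.out q')⁻¹ := hx
      have hqq : q = q' := by
        have h1 : Quotient.out q * (h : G)⁻¹ = Quotient.out q' * (h' : G)⁻¹ := by
          have h2 := congrArg (fun z : G => z⁻¹) hx'
          simpa [mul_inv_rev] using h2
        have h2 : ((Quotient.out q * (h : G)⁻¹ : G) : G ⧸ H) = ((Quotient.out q : G) : G ⧸ H) :=
          QuotientGroup.mk_mul_of_mem _ (H.inv_mem h.2)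
        have h3 : ((Quotient.out q' * (h' : G)⁻¹ : G) : G ⧸ H) = ((Quotient.out q' : G) : G ⧸ H) :=
          QuotientGroup.mk_mul_of_mem _ (H.inv_mem h'.2)
        rw [h1, h3, QuotientGroup.out_eq', QuotientGroup.out_eq'] at h2
        exact h2.symm
      subst hqq
      have h4 : (h : G) = (h' : G) := mul_right_cancel hx'
      rw [Subtype.ext h4]
    · intro σ
      have h1 : (((σ⁻¹ : G) : G ⧸ H)).out⁻¹ * σ⁻¹ ∈ H := by
        rw [← QuotientGroup.eq, QuotientGroup.out_eq']
      have h2 : σ * Quotient.out ((σ⁻¹ : G) : G ⧸ H) ∈ H := by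
        have h3 := H.inv_mem h1
        rwa [mul_inv_rev, inv_inv, inv_inv] at h3
      refine ⟨(⟨σ * Quotient.out ((σ⁻¹ : G) : G ⧸ H), h2⟩, ((σ⁻¹ : G) : G ⧸ H)), ?_⟩
      show σ * Quotient.out ((σ⁻¹ : G) : G ⧸ H) * (Quotient.out ((σ⁻¹ : G) : G ⧸ H))⁻¹ = σ
      rw [mul_inv_cancel_right]
  let e : H × (G ⧸ H) ≃ G := Equiv.ofBijective f hf
  have he : ∀ x, e x = (x.1 : G) * (Quotient.out x.2)⁻¹ := fun x => rfl
  have hcard : Fintype.card (G ⧸ H) = n0 := by
    have h1 := Fintype.card_congr e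
    rw [Fintype.card_prod, hcH, ← hn] at h1
    have hpos : 0 < n := by
      rw [← hcH]
      exact Fintype.card_pos
    exact Nat.eq_of_mul_eq_mul_left hpos (h1.trans (mul_comm _ _))
  have hM : Matrix.reindex e.symm e.symm (LinearMap.toMatrix' (Lt τ)) =
      Matrix.blockDiagonal (fun _ : G ⧸ H => LinearMap.toMatrix' (Lt (⟨τ, hτH⟩ : H))) := by
    ext1 ⟨h, q⟩ ⟨h', q'⟩
    rw [Matrix.reindex_apply, Matrix.submatrix_apply, Matrix.blockDiagonal_apply,
      LinearMap.toMatrix'_apply, LinearMap.toMatrix'_apply, cna_apply, cna_apply, Equiv.symm_symm]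
    have hiff : τ⁻¹ * e (h, q) = e (h', q') ↔ q = q' ∧ (⟨τ, hτH⟩ : H)⁻¹ * h = h' := by
      have h1 : τ⁻¹ * e (h, q) = e ((⟨τ, hτH⟩ : H)⁻¹ * h, q) := by
        rw [he, he, ← mul_assoc]
        rfl
      rw [h1, e.apply_eq_iff_eq, Prod.mk.injEq, and_comm]
    by_cases hq : q = q'
    · rw [if_pos hq]
      by_cases hh : (⟨τ, hτH⟩ : H)⁻¹ * h = h'
      · rw [hh, hiff.2 ⟨hq, hh⟩, Pi.single_eq_same, Pi.single_eq_same]
      · rw [Pi.single_eq_of_ne hh, Pi.single_eq_of_ne fun h2 => hh (hiff.1 h2).2]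
    · rw [if_neg hq, Pi.single_eq_of_ne fun h2 => hq (hiff.1 h2).1]
  have h1 : (LinearMap.toMatrix' (Lt τ)).charpoly = LinearMap.charpoly (Lt τ) := by
    rw [← LinearMap.toMatrix_eq_toMatrix', LinearMap.charpoly_toMatrix]
  have h2 : (LinearMap.toMatrix' (Lt (⟨τ, hτH⟩ : H))).charpoly =
      LinearMap.charpoly (Lt (⟨τ, hτH⟩ : H)) := by
    rw [← LinearMap.toMatrix_eq_toMatrix', LinearMap.charpoly_toMatrix]
  rw [← h1, ← Matrix.charpoly_reindex e.symm, hM, cna_block, h2, hcard,
    cna_cyc (⟨τ, hτH⟩ : H) hord hcH.symm]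

theorem det_Lt (τ : G) {n n0 : ℕ} (hτ : orderOf τ = n) (hn : n0 * n = Fintype.card G)
    (g : 𝓞 K) : LinearMap.det ((Lt τ) ^ 2 - Algebra.trace ℤ (𝓞 K) g • Lt τ +
      Algebra.norm ℤ g • (1 : Module.End ℤ (G → ℤ))) = Algebra.norm ℤ (g ^ n - 1) ^ n0 := by
  rw [det_quad (Lt τ) g, charpoly_Lt τ hτ hn, ← map_pow]
  congr 1
  rw [map_pow, map_sub, map_pow, Polynomial.aeval_X, map_one]

end

end

end Pool.Agent.Lib.MP_1a91b9_ntT.DG
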