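import Pool.Agent.Lib.MP_1a91b9_ntT.DG.Defs

/-!
# DG: duality for the trace form `n`

JOB DUAL. PROOF (complete; helper30). Here `[x] = ((n x : ℤ) : ZMod ℓ)`; `TrD` is in DB/TrD.lean.

`n_add`: `TrD.add` and `ZMod.intCast_zmod_eq_zero_iff_dvd` (or `ZMod.intCast_eq_intCast_iff_dvd_sub`).
`n_int`: `[m * x] = m [x]` for an integer `m`: additivity (the map `x ↦ [x]` is an additive homomorphism
`𝓞 K →+ ZMod ℓ`, `AddMonoidHom.mk'`, `map_zsmul`). `n_sum`: additivity. `n_dvd`: `TrD.zero`.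
`n_orth`: `[y d]` with `Σ_{d ∈ T} n(x iv d) d + x = ϖ e` (`TrD.orth`): multiply by `y` and apply `[.]`:
`Σ_d [n(x iv d) (y d)] + [x y] = [ϖ e y] = 0` and `[n(x iv d) (y d)] = n(x iv d) [y d]` (`n_int`).
`n_nondeg`: by `TrD.orth` for `c = x`: `ϖ ∣ Σ_{a ∈ T} n(x iv a) a + x`. By hypothesis `ℓ ∣ n(x iv a)` for all `a`
(`y = iv a`), so `ϖ ∣ n(x iv a)` (`h.dvd`), so `ϖ ∣ x`.
`dualU`: for `v : U μ` the map `A_v : 𝓞 K →+ ZMod ℓ`, `A_v x = A (Pi.single v x)` (classical decidable equality on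
`U μ`; `Pi.single` is additive) kills the multiples of `ϖ`; `TrD.dual` gives `α v` with `A_v x = [α v * x]`. And
`c = Σ_v Pi.single v (c v)` (`Finset.univ_sum_single`), `map_sum`.
-/

set_option autoImplicit false

namespace Pool.Agent.Lib.MP_1a91b9_ntT.DG

open NumberField IsDedekindDomain WeierstrassCurve DB

section
variable {ϖ : 𝓞 K} {ℓ q : ℕ} (h : PD ϖ ℓ q) {T : Finset (𝓞 K)} {iv : 𝓞 K → 𝓞 K} {n : 𝓞 K → ℤ}
  (hT : TrD ϖ ℓ T iv n)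
include h hT

theorem n_add (x y : 𝓞 K) :
    ((n (x + y) : ℤ) : ZMod ℓ) = ((n x : ℤ) : ZMod ℓ) + ((n y : ℤ) : ZMod ℓ) := by
  have h1 := (CharP.intCast_eq_zero_iff (ZMod ℓ) ℓ (n (x + y) - n x - n y)).2 (hT.add x y)
  push_cast at h1
  linear_combination h1

theorem n_int (m : ℤ) (x : 𝓞 K) :
    ((n ((m : 𝓞 K) * x) : ℤ) : ZMod ℓ) = (m : ZMod ℓ) * ((n x : ℤ) : ZMod ℓ) := by
  have h1 := map_zsmul (AddMonoidHom.mk' (fun x : 𝓞 K => ((n x : ℤ) : ZMod ℓ))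
    (fun x y => n_add h hT x y)) m x
  rw [zsmul_eq_mul, zsmul_eq_mul] at h1
  exact h1

theorem n_sum {ι : Type*} (s : Finset ι) (f : ι → 𝓞 K) :
    ((n (∑ i ∈ s, f i) : ℤ) : ZMod ℓ) = ∑ i ∈ s, ((n (f i) : ℤ) : ZMod ℓ) := by
  exact map_sum (AddMonoidHom.mk' (fun x : 𝓞 K => ((n x : ℤ) : ZMod ℓ))
    (fun x y => n_add h hT x y)) f s

theorem n_dvd {x y : 𝓞 K} (hxy : ϖ ∣ x - y) : ((n x : ℤ) : ZMod ℓ) = ((n y : ℤ) : ZMod ℓ) := by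
  rw [hT.cong x y hxy]

theorem n_orth (x y : 𝓞 K) : ∑ d ∈ T, ((n (x * iv d) : ℤ) : ZMod ℓ) * ((n (y * d) : ℤ) : ZMod ℓ) =
    -((n (x * y) : ℤ) : ZMod ℓ) := by
  have h1 : ϖ ∣ ∑ a ∈ T, ((n (x * iv a) : ℤ) : 𝓞 K) * (y * a) + x * y := by
    have h2 : ∑ a ∈ T, ((n (x * iv a) : ℤ) : 𝓞 K) * (y * a) + x * y =
        (∑ a ∈ T, ((n (x * iv a) : ℤ) : 𝓞 K) * a + x) * y := by
      rw [add_mul, Finset.sum_mul]
      congr 1
      exact Finset.sum_congr rfl fun a _ => by ring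
    rw [h2]
    exact (hT.orth x).mul_right y
  have h3 : ((n (∑ a ∈ T, ((n (x * iv a) : ℤ) : 𝓞 K) * (y * a) + x * y) : ℤ) : ZMod ℓ) = 0 := by
    rw [TrD.zero h hT h1, Int.cast_zero]
  rw [n_add h hT, n_sum h hT] at h3
  rw [Finset.sum_congr rfl fun a _ => n_int h hT (n (x * iv a)) (y * a)] at h3
  linear_combination h3

theorem n_nondeg {x : 𝓞 K} (hx : ∀ y : 𝓞 K, ((n (x * y) : ℤ) : ZMod ℓ) = 0) : ϖ ∣ x := by
  have h1 : ϖ ∣ ∑ a ∈ T, ((n (x * iv a) : ℤ) : 𝓞 K) * a := by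
    refine Finset.dvd_sum fun a _ => ?_
    refine Dvd.dvd.mul_right ?_ a
    rw [h.dvd_int_iff]
    exact (CharP.intCast_eq_zero_iff (ZMod ℓ) ℓ _).1 (hx (iv a))
  exact (dvd_add_right h1).1 (hT.orth x)

theorem dualU {μ : 𝓞 K} [Fintype (U μ)] (A : (U μ → 𝓞 K) →+ ZMod ℓ)
    (hA : ∀ c : U μ → 𝓞 K, (∀ u, ϖ ∣ c u) → A c = 0) :
    ∃ α : U μ → 𝓞 K, ∀ c : U μ → 𝓞 K, A c = ∑ v : U μ, ((n (α v * c v) : ℤ) : ZMod ℓ) := by
  classical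
  have h1 : ∀ v : U μ, ∃ a : 𝓞 K, ∀ x : 𝓞 K,
      (A.comp (AddMonoidHom.single (fun _ : U μ => 𝓞 K) v)) x = ((n (a * x) : ℤ) : ZMod ℓ) := by
    intro v
    refine hT.dual _ fun x hx => ?_
    refine hA _ fun u => ?_
    by_cases huv : u = v
    · subst huv
      show ϖ ∣ (Pi.single u x : U μ → 𝓞 K) u
      rw [Pi.single_eq_same]
      exact hx
    · show ϖ ∣ (Pi.single v x : U μ → 𝓞 K) u
      rw [Pi.single_eq_of_ne huv]
      exact dvd_zero ϖ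
  choose α hα using h1
  refine ⟨α, fun c => ?_⟩
  have h2 : A c = A (∑ v : U μ, Pi.single v (c v)) := by
    rw [Finset.univ_sum_single]
  rw [h2, map_sum]
  exact Finset.sum_congr rfl fun v _ => hα v (c v)

end

end Pool.Agent.Lib.MP_1a91b9_ntT.DG
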