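import Pool.Agent.Lib.MP_1a91b9_ntT.DG.Defs

/-!
# DG: the Galois group of `L/K`

JOB GRP. PROOF (complete; helper30). `up L P` has annihilator `ϖ` (`Ord.map`, `up` is `pm`).

`copM`: `ϖ` is prime in a principal ideal domain (`IsCyclotomicExtension.Rat.three_pid K`) and does not divide `μ`:
`h.prime.irreducible.coprime_iff_not_dvd`.
`act`: `gal_sm` (DB/Ram.lean; `k := K`) for `J` (annihilator `μ ≠ 0`) gives `c` prime to `μ` with `ga σ J = sm c J`; `rp_ex`,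
`smU_of`. `gal_sm` for `up L P`: `d` prime to `ϖ`, so `ϖ ∤ d` (`ϖ` is not a unit).
`surj2`: by the Chinese remainder theorem (`x μ + y ϖ = 1` from `copM`: `c = rp u * y * ϖ + d * x * μ`) choose `c` with
`μ ∣ c - rp u`, `ϖ ∣ c - d`. `c` is prime to `μ` (`IsCoprime.of_..`: `c = rp u + μ e`, `IsCoprime.add_mul_left_left`
etc., `rp_cop`) and `ϖ ∤ c`. Apply `hG.surj`, then `smU_of` and `Ord.sm_eq_iff`.
`ext'`: `ga (τ⁻¹ * σ)` fixes `J` and `up L P` (`ga_mul`, `ga_one`, `inv_mul_cancel`), `hG.gen`, `inv_mul_eq_one`.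
`comm'`: `σ`, `τ` act on `J` by `rp u`, `rp u'` and on `up L P` by `d`, `d'` (`act`); `ga (σ τ) J = sm (rp u') (sm (rp u) J)`
(`ga_mul`, `ga_sm`) `= ga (τ σ) J` because `𝓞 K` is commutative (`sm_sm`, `mul_comm`); `ext'`.
`equiv'`: `σ ↦ (u, the element of T congruent to d)` (`act`, `IsRes.ex`), injective by `ext'`, surjective by `surj2`
(`IsRes.nz`, `IsRes.uniq`, `smU_inj`); `Equiv.ofBijective`.
-/

set_option autoImplicit false

namespace Pool.Agent.Lib.MP_1a91b9_ntT.DG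

open NumberField IsDedekindDomain WeierstrassCurve DB

noncomputable section

section
variable {μ ϖ : 𝓞 K} {ℓ q : ℕ} {F N L : Type} [Field F] [NumberField F] [Algebra K F]
  [Field N] [NumberField N] [Algebra K N] [Algebra F N] [IsScalarTower K F N] [IsGalois F N]
  [DecidableEq N] [Field L] [NumberField L] [Algebra K L] [Algebra F L] [Algebra N L]
  [IsScalarTower K F L] [IsScalarTower K N L] [IsScalarTower F N L] [DecidableEq L]
  {P : Pt N} {J : Pt L} (hG : TopG μ ϖ ℓ q F N L P J)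
include hG

theorem TopG.copM : IsCoprime μ ϖ := by
  have hpid : IsPrincipalIdealRing (𝓞 K) := IsCyclotomicExtension.Rat.three_pid K
  exact ((hG.pd.prime.irreducible.coprime_iff_not_dvd).2 hG.copw).symm

theorem TopG.ordP : Ord ϖ (up L P) := by
  exact (Ord.map (IsScalarTower.toAlgHom K N L)).2 hG.full.ord

theorem TopG.act (σ : Gal(L/K)) : ∃ (u : U μ) (d : 𝓞 K), ¬ ϖ ∣ d ∧ ga σ J = smU J u ∧
    ga σ (up L P) = sm L d (up L P) := by
  obtain ⟨c, hc, hcJ⟩ := gal_sm hG.ne hG.ord σ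
  obtain ⟨u, hu⟩ := rp_ex hc
  obtain ⟨d, hd, hdP⟩ := gal_sm hG.pd.prime.ne_zero hG.ordP σ
  refine ⟨u, d, ?_, hcJ.trans (smU_of hG.ord hu), hdP⟩
  intro hdd
  exact hG.pd.prime.not_isUnit (hd.isUnit_of_dvd' hdd dvd_rfl)

theorem TopG.surj2 (u : U μ) {d : 𝓞 K} (hd : ¬ ϖ ∣ d) : ∃ σ : Gal(L/K), ga σ J = smU J u ∧
    ga σ (up L P) = sm L d (up L P) := by
  obtain ⟨x, y, hxy⟩ := hG.copM
  obtain ⟨c, hc⟩ : ∃ c, c = rp u * (y * ϖ) + d * (x * μ) := ⟨_, rfl⟩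
  have h1 : μ ∣ c - rp u := ⟨x * (d - rp u), by rw [hc]; linear_combination rp u * hxy⟩
  have h2 : ϖ ∣ c - d := ⟨y * (rp u - d), by rw [hc]; linear_combination d * hxy⟩
  have h3 : IsCoprime c μ := by
    obtain ⟨e, he⟩ := h1
    have h4 : c = rp u + μ * e := by linear_combination he
    rw [h4]
    exact (rp_cop u).add_mul_left_left e
  have h5 : ¬ ϖ ∣ c := by
    intro h6
    apply hd
    have h7 : d = c - (c - d) := by ring
    rw [h7]
    exact dvd_sub h6 h2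
  obtain ⟨σ, hσ1, hσ2⟩ := hG.surj c h3 h5
  exact ⟨σ, hσ1.trans (smU_of hG.ord h1), hσ2.trans ((hG.ordP.sm_eq_iff c d).2 h2)⟩

theorem TopG.ext' {σ τ : Gal(L/K)} (h1 : ga σ J = ga τ J)
    (h2 : ga σ (up L P) = ga τ (up L P)) : σ = τ := by
  have h3 : τ⁻¹ * σ = 1 := by
    refine hG.gen _ ?_ ?_
    · rw [ga_mul, h1, ← ga_mul, inv_mul_cancel, ga_one]
    · rw [ga_mul, h2, ← ga_mul, inv_mul_cancel, ga_one]
  exact (inv_mul_eq_one.1 h3).symm

theorem TopG.comm' (σ τ : Gal(L/K)) : σ * τ = τ * σ := by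
  obtain ⟨u, d, -, h1, h2⟩ := hG.act σ
  obtain ⟨u', d', -, h3, h4⟩ := hG.act τ
  unfold smU at h1 h3
  refine hG.ext' ?_ ?_
  · rw [ga_mul, ga_mul, h1, h3, ga_sm, ga_sm, h1, h3, sm_sm, sm_sm, mul_comm]
  · rw [ga_mul, ga_mul, h2, h4, ga_sm, ga_sm, h2, h4, sm_sm, sm_sm, mul_comm]

theorem TopG.equiv' {T : Finset (𝓞 K)} (hT : IsRes ϖ T) : ∃ e : Gal(L/K) ≃ U μ × T,
    ∀ σ : Gal(L/K), ga σ J = smU J (e σ).1 ∧
      ga σ (up L P) = sm L ((e σ).2 : 𝓞 K) (up L P) := by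
  have key : ∀ σ : Gal(L/K), ∃ p : U μ × T, ga σ J = smU J p.1 ∧
      ga σ (up L P) = sm L (p.2 : 𝓞 K) (up L P) := by
    intro σ
    obtain ⟨u, d, hd, h1, h2⟩ := hG.act σ
    obtain ⟨a, ha, hda⟩ := hT.ex d hd
    exact ⟨(u, ⟨a, ha⟩), h1, h2.trans ((hG.ordP.sm_eq_iff d a).2 hda)⟩
  choose f hf using key
  have hbij : Function.Bijective f := by
    constructor
    · intro σ τ hστ
      refine hG.ext' ?_ ?_
      · rw [(hf σ).1, (hf τ).1, hστ]
      · rw [(hf σ).2, (hf τ).2, hστ]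
    · rintro ⟨u, a, ha⟩
      obtain ⟨σ, h1, h2⟩ := hG.surj2 u (hT.nz a ha)
      refine ⟨σ, Prod.ext ?_ (Subtype.ext ?_)⟩
      · exact smU_inj hG.ord ((hf σ).1.symm.trans h1)
      · refine hT.uniq _ (f σ).2.2 _ ha ?_
        exact (hG.ordP.sm_eq_iff _ _).1 ((hf σ).2.symm.trans h2)
  exact ⟨Equiv.ofBijective f hbij, fun σ => hf σ⟩

end

end

end Pool.Agent.Lib.MP_1a91b9_ntT.DG
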