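import Pool.Agent.Lib.MP_1a91b9_ntT.DG.Defs

/-!
# DG: valuation rings of `ℂ` above a place

JOB VALW. PROOF (complete; helper30). Let `A : Subring ℂ` be the image under `φ` of the valuation ring `{x : F | v x ≤ 1}` and `I` the ideal of `A` which is the
image of `{x | v x < 1}`: a proper ideal (`1 ∉ I`, `φ` injective). `Ideal.image_subset_nonunits_valuationSubring` gives `W : ValuationSubring ℂ` with `A ≤ W` and
the elements of `I` non-units of `W`. If `v x ≤ 1` then `φ x ∈ W`, so `W.valuation (φ x) ≤ 1`; if `v x < 1` then `W.valuation (φ x) < 1`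
(`ValuationSubring.mem_nonunits_iff..`, `ValuationSubring.valuation_lt_one_iff`).
-/

set_option autoImplicit false

namespace Pool.Agent.Lib.MP_1a91b9_ntT.DG

open NumberField IsDedekindDomain WeierstrassCurve DB

noncomputable section

theorem exists_W {F : Type} [Field F] [NumberField F] (φ : F →+* ℂ)
    (v : HeightOneSpectrum (𝓞 F)) : ∃ W : ValuationSubring ℂ, (∀ x : F, v.valuation F x ≤ 1 →
      W.valuation (φ x) ≤ 1) ∧ ∀ x : F, v.valuation F x < 1 → W.valuation (φ x) < 1 := by
  let V := v.valuation F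
  let A : Subring ℂ := V.integer.map φ
  let I : Ideal A :=
    { carrier := {a | ∃ x : F, V x < 1 ∧ φ x = a}
      zero_mem' := ⟨0, by rw [map_zero]; exact zero_lt_one, by rw [map_zero]; rfl⟩
      add_mem' := by
        rintro a b ⟨x, hx, hxa⟩ ⟨y, hy, hyb⟩
        exact ⟨x + y, V.map_add_lt hx hy, by rw [map_add, hxa, hyb]; rfl⟩
      smul_mem' := by
        rintro ⟨c, z, hz, rfl⟩ b ⟨y, hy, hyb⟩
        refine ⟨z * y, ?_, ?_⟩
        · rw [map_mul]
          exact lt_of_le_of_lt (mul_le_mul_left (a := V y) (show V z ≤ 1 from hz))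
            (by rwa [one_mul])
        · rw [map_mul, hyb]
          rfl }
  have hI : I ≠ ⊤ := by
    intro h
    have h1 : (1 : A) ∈ I := by rw [h]; exact Submodule.mem_top
    obtain ⟨x, hx, hx1⟩ := h1
    have h2 : x = 1 := φ.injective (by rw [hx1, map_one]; rfl)
    rw [h2, map_one] at hx
    exact lt_irrefl _ hx
  obtain ⟨W, hW1, hW2⟩ := Ideal.image_subset_nonunits_valuationSubring I hI
  refine ⟨W, fun x hx => ?_, fun x hx => ?_⟩
  · rw [ValuationSubring.valuation_le_one_iff]
    exact hW1 ⟨x, hx, rfl⟩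
  · rw [← ValuationSubring.mem_nonunits_iff]
    exact hW2 ⟨⟨φ x, x, le_of_lt hx, rfl⟩, ⟨x, hx, rfl⟩, rfl⟩

end

end Pool.Agent.Lib.MP_1a91b9_ntT.DG
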