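import Pool.Agent.Lib.MP_1a91b9_ntT.DG.ZB

/-!
# DG (7.2, 7.3): the values `lamQ (u J)` in terms of `E1`
-/

set_option autoImplicit false

namespace Pool.Agent.Lib.MP_1a91b9_ntT.DG

open NumberField IsDedekindDomain WeierstrassCurve DB S3

noncomputable section

theorem zc_ne {a : 𝓞 K} (ha : a ≠ 0) : embK (a : K) ≠ 0 := by
  rw [map_ne_zero]
  intro h
  exact ha (RingOfIntegers.ext h)

theorem zc_inj {a b : 𝓞 K} (h : embK (a : K) = embK (b : K)) : a = b :=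
  RingOfIntegers.ext (embK.toRingHom.injective h)

theorem zc_mul (a b : 𝓞 K) : embK ((a * b : 𝓞 K) : K) = embK (a : K) * embK (b : K) := by
  have e : ((a * b : 𝓞 K) : K) = (a : K) * (b : K) := rfl
  rw [e, map_mul]

theorem zc_add (a b : 𝓞 K) : embK ((a + b : 𝓞 K) : K) = embK (a : K) + embK (b : K) := by
  have e : ((a + b : 𝓞 K) : K) = (a : K) + (b : K) := rfl
  rw [e, map_add]

theorem zc_one : embK ((1 : 𝓞 K) : K) = 1 := by
  have e : ((1 : 𝓞 K) : K) = 1 := rfl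
  rw [e, map_one]

theorem zc_neg (a : 𝓞 K) : embK ((-a : 𝓞 K) : K) = -embK (a : K) := by
  have e : ((-a : 𝓞 K) : K) = -(a : K) := rfl
  rw [e, map_neg]

theorem zc_three : embK ((3 : 𝓞 K) : K) = 3 := by
  have e : ((3 : 𝓞 K) : K) = 3 := by
    rw [RingOfIntegers.coe_eq_algebraMap, map_ofNat]
  rw [e, map_ofNat]

theorem zc_zt : embK ((om_spec.toInteger : 𝓞 K) : K) = zt := embK_om

/-- `E1` and the units. -/
theorem zc_unit (u : (𝓞 K)ˣ) (z : ℂ) :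
    embK ((u : 𝓞 K) : K) * E1 (embK ((u : 𝓞 K) : K) * z) = E1 z := by
  have h1 : ∀ u v : (𝓞 K)ˣ, (∀ z, embK ((u : 𝓞 K) : K) * E1 (embK ((u : 𝓞 K) : K) * z) = E1 z) →
      (∀ z, embK ((v : 𝓞 K) : K) * E1 (embK ((v : 𝓞 K) : K) * z) = E1 z) →
      ∀ z, embK (((u * v : (𝓞 K)ˣ) : 𝓞 K) : K) * E1 (embK (((u * v : (𝓞 K)ˣ) : 𝓞 K) : K) * z) =
        E1 z := by
    intro u v hu hv z
    rw [Units.val_mul, zc_mul]
    have h := hu (embK ((v : 𝓞 K) : K) * z)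
    rw [← mul_assoc] at h
    rw [← hv z, ← h]
    ring
  have hone : ∀ z, embK (((1 : (𝓞 K)ˣ) : 𝓞 K) : K) * E1 (embK (((1 : (𝓞 K)ˣ) : 𝓞 K) : K) * z) =
      E1 z := by
    intro z
    rw [Units.val_one, zc_one, one_mul, one_mul]
  have hneg : ∀ z, embK (((-1 : (𝓞 K)ˣ) : 𝓞 K) : K) * E1 (embK (((-1 : (𝓞 K)ˣ) : 𝓞 K) : K) * z) =
      E1 z := by
    intro z
    rw [Units.val_neg, Units.val_one, zc_neg, zc_one, neg_one_mul z, S3.E1_neg]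
    ring
  obtain ⟨w, hw⟩ : ∃ w : (𝓞 K)ˣ,
      w = (IsPrimitiveRoot.isUnit (om_spec.toInteger_isPrimitiveRoot) (by decide)).unit := ⟨_, rfl⟩
  have hw' : ((w : (𝓞 K)ˣ) : 𝓞 K) = om_spec.toInteger := by
    rw [hw]
    rfl
  have hom : ∀ z, embK ((w : 𝓞 K) : K) * E1 (embK ((w : 𝓞 K) : K) * z) = E1 z := by
    intro z
    rw [hw', zc_zt, S3.E1_zt]
    linear_combination E1 z * zt_cube
  have hm := IsCyclotomicExtension.Rat.Three.Units.mem om_spec u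
  rw [← hw] at hm
  simp only [List.mem_cons, List.not_mem_nil, or_false] at hm
  have hww := h1 w w hom hom
  rcases hm with h | h | h | h | h | h
  · rw [h]; exact hone z
  · rw [h]; exact hneg z
  · rw [h]; exact hom z
  · rw [h, ← neg_one_mul]; exact h1 _ _ hneg hom z
  · rw [h, pow_two]; exact hww z
  · rw [h, pow_two, ← neg_one_mul]; exact h1 _ _ hneg hww z

theorem zc_three_unit : ¬ IsUnit (3 : 𝓞 K) := by
  intro h
  have h1 : (3 : 𝓞 K) ∣ (-1) - 1 := h.dvd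
  have h2 := kf_unit (-1) isUnit_one.neg h1
  have h3 : (2 : 𝓞 K) = 0 := by linear_combination -h2
  norm_num at h3

theorem zc_not_dvd {a : 𝓞 K} (h : IsCoprime a 3) : ¬ (3 : 𝓞 K) ∣ a := fun hd =>
  zc_three_unit (h.isUnit_of_dvd' hd dvd_rfl)

theorem zc_unit_cong {a : 𝓞 K} (ha : IsCoprime a 3) : ∃ u : (𝓞 K)ˣ, (3 : 𝓞 K) ∣ a - u := by
  obtain ⟨b, hb, hs⟩ := S4.exists_gen (Ideal.span {a}) ((Ideal.isCoprime_span_singleton_iff _ _).2 ha)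
  obtain ⟨u, hu⟩ := Ideal.span_singleton_eq_span_singleton.1 hs
  refine ⟨u, ?_⟩
  rw [← hu]
  have e : b * (u : 𝓞 K) - u = (b - 1) * u := by ring
  rw [e]
  exact Dvd.dvd.mul_right hb _

/-- change of the representative -/
theorem zc_val {μ : 𝓞 K} (hμ0 : μ ≠ 0) (hμ : IsCoprime μ 3) (v : (𝓞 K)ˣ) {N y : 𝓞 K}
    (h3 : (3 : 𝓞 K) ∣ N - v * y) (h : μ ∣ N - v * y) :
    embK ((v : 𝓞 K) : K) * E1 (embK (N : K) / embK ((3 * μ : 𝓞 K) : K)) =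
      E1 (embK (y : K) / embK ((3 * μ : 𝓞 K) : K)) := by
  obtain ⟨e, he⟩ := hμ.symm.mul_dvd h3 h
  have h30 : (3 : 𝓞 K) * μ ≠ 0 := mul_ne_zero Rg.three_ne hμ0
  have h4 : embK (N : K) / embK ((3 * μ : 𝓞 K) : K) =
      embK ((v : 𝓞 K) : K) * (embK (y : K) / embK ((3 * μ : 𝓞 K) : K)) + embK (e : K) := by
    have h5 : N = v * y + 3 * μ * e := by linear_combination he
    rw [div_eq_iff (zc_ne h30)]
    have h6 : embK ((v : 𝓞 K) : K) * (embK (y : K) / embK ((3 * μ : 𝓞 K) : K)) *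
        embK ((3 * μ : 𝓞 K) : K) = embK ((v : 𝓞 K) : K) * embK (y : K) := by
      rw [mul_assoc, div_mul_cancel₀ _ (zc_ne h30)]
    rw [add_mul, h6, h5, zc_add, zc_mul, zc_mul (3 * μ) e]
    ring
  rw [h4, E1_period, zc_unit]

theorem zc_cop_of {μ t : 𝓞 K} (hμ0 : μ ≠ 0) (h : ∀ a, μ ∣ a * t → μ ∣ a) : IsCoprime t μ := by
  have hpid : IsPrincipalIdealRing (𝓞 K) := IsCyclotomicExtension.Rat.three_pid K
  obtain ⟨g, hg⟩ := (IsPrincipalIdealRing.principal (Ideal.span {t, μ})).principal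
  have hg' : Ideal.span {t, μ} = Ideal.span {g} := hg
  have ht : t ∈ Ideal.span {g} := by
    rw [← hg']
    exact Ideal.subset_span (by simp)
  have hm : μ ∈ Ideal.span {g} := by
    rw [← hg']
    exact Ideal.subset_span (by simp)
  obtain ⟨t', ht'⟩ := Ideal.mem_span_singleton.1 ht
  obtain ⟨m', hm'⟩ := Ideal.mem_span_singleton.1 hm
  have hm0 : m' ≠ 0 := fun h0 => hμ0 (by rw [hm', h0, mul_zero])
  obtain ⟨e, he⟩ := h m' ⟨t', by rw [ht', hm']; ring⟩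
  have hge : g * e = 1 := by
    apply mul_left_cancel₀ hm0
    rw [mul_one]
    nth_rewrite 2 [he]
    rw [hm']
    ring
  have hmem : g ∈ Ideal.span {t, μ} := by
    rw [hg']
    exact Ideal.mem_span_singleton_self g
  obtain ⟨a, b, hab⟩ := Ideal.mem_span_pair.1 hmem
  exact ⟨a * e, b * e, by linear_combination e * hab + hge⟩

/-- The data at the point of order three. -/
theorem zc_S [DecidableEq ℂ] (un : ℂ →+ Pt ℂ) (hsurj : Function.Surjective un)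
    (h0 : ∀ z, un z = 0 ↔ z ∈ PP.lattice)
    (hc : ∀ z, z ∉ PP.lattice → xc (un z) = X z ∧ yc (un z) = (Y z - 1) / 2)
    (hzt : ∀ z, un (zt * z) = omH ℂ (un z)) :
    ∃ (s : 𝓞 K) (ζ : (𝓞 K)ˣ), un (embK (s : K) / 3) = ptS ℂ ∧ IsCoprime s 3 ∧ ζ ^ 3 = 1 ∧ ζ ≠ 1 ∧
      (1 - embK ((ζ : 𝓞 K) : K)) * (embK (s : K) / 3) ∉ PP.lattice ∧
      Y ((1 - embK ((ζ : 𝓞 K) : K)) * (embK (s : K) / 3)) = 1 := by
  obtain ⟨z, hz⟩ := hsurj (ptS ℂ)
  have h3 : 3 * z ∈ PP.lattice := by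
    rw [← h0]
    have e : 3 * z = (3 : ℕ) • z := by simp
    rw [e, map_nsmul, hz, three_S]
  obtain ⟨s, hs⟩ := S3.mem_PP_iff.1 h3
  have hsz : embK (s : K) / 3 = z := by
    rw [hs]
    ring
  have hquad := omH_quad (ptS ℂ)
  have h3S : ptS ℂ + ptS ℂ + ptS ℂ = 0 := by
    have := three_S (F := ℂ)
    rwa [succ_nsmul, two_nsmul] at this
  have h3S' : omH ℂ (ptS ℂ) + omH ℂ (ptS ℂ) + omH ℂ (ptS ℂ) = 0 := by
    rw [← map_add, ← map_add, h3S, map_zero]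
  have hw1 : un ((1 - zt) * z) = ptS ℂ - omH ℂ (ptS ℂ) := by
    have e : (1 - zt) * z = z - zt * z := by ring
    rw [e, map_sub, hzt, hz]
  have hw2 : un ((1 - zt ^ 2) * z) = ptS ℂ - omH ℂ (omH ℂ (ptS ℂ)) := by
    have e : (1 - zt ^ 2) * z = z - zt * (zt * z) := by ring
    rw [e, map_sub, hzt, hzt, hz]
  have hn1 : (1 - zt) * z ∉ PP.lattice := by
    rw [← h0, hw1, sub_eq_zero]
    exact fun h => (omH_S (F := ℂ)).1 h.symm
  have hn2 : (1 - zt ^ 2) * z ∉ PP.lattice := by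
    rw [← h0, hw2, sub_eq_zero]
    exact fun h => (omH_S (F := ℂ)).2 h.symm
  have hfix : omH ℂ (un ((1 - zt) * z)) = un ((1 - zt) * z) := by
    rw [hw1, map_sub]
    have h4 : omH ℂ (omH ℂ (ptS ℂ)) = -(omH ℂ (ptS ℂ)) - ptS ℂ := by
      rw [← sub_eq_zero]
      rw [← hquad]
      abel
    rw [h4, ← sub_eq_zero]
    have h5 : omH ℂ (ptS ℂ) - (-(omH ℂ (ptS ℂ)) - ptS ℂ) - (ptS ℂ - omH ℂ (ptS ℂ)) =
        omH ℂ (ptS ℂ) + omH ℂ (ptS ℂ) + omH ℂ (ptS ℂ) := by abel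
    rw [h5, h3S']
  have hX : X ((1 - zt) * z) = 0 := by
    have h5 := congrArg xc hfix
    rw [xc_omH, (hc _ hn1).1] at h5
    have h6 : (omF ℂ - 1) * X ((1 - zt) * z) = 0 := by linear_combination h5
    exact (mul_eq_zero.1 h6).resolve_left (sub_ne_zero.2 (omF_ne_one ℂ))
  have hY2 : (Y ((1 - zt) * z) - 1) * (Y ((1 - zt) * z) + 1) = 0 := by
    have h5 := Y_sq hn1
    rw [hX] at h5
    linear_combination h5
  have hcop : IsCoprime s 3 := by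
    obtain ⟨p, q, hpq⟩ := kf_repr s
    have hp3 : ¬ (3 : ℤ) ∣ p + q := by
      rintro ⟨k, hk⟩
      apply hn1
      rw [S3.mem_PP_iff]
      refine ⟨((k : ℤ) : 𝓞 K) + ((q - k : ℤ) : 𝓞 K) * MP_1a91b9_ntT.omO, ?_⟩
      rw [kf_emb, ← hsz, hpq, kf_emb]
      have hq : zt ^ 2 + zt + 1 = 0 := zt_quad
      have hk' : (p : ℂ) = 3 * k - q := by
        have : p = 3 * k - q := by linarith
        rw [this]
        push_cast
        ring
      rw [hk']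
      push_cast
      field_simp
      linear_combination (q : ℂ) * hq
    obtain ⟨m, hm⟩ : ∃ m : ℤ, p ^ 2 - p * q + q ^ 2 = 3 * m + 1 := by
      have h5 : (p + q) % 3 = 1 ∨ (p + q) % 3 = 2 := by omega
      obtain ⟨r, hr⟩ : ∃ r : ℤ, p + q = 3 * r + 1 ∨ p + q = 3 * r + 2 := by
        rcases h5 with h5 | h5
        · exact ⟨(p + q) / 3, Or.inl (by omega)⟩
        · exact ⟨(p + q) / 3, Or.inr (by omega)⟩
      rcases hr with hr | hr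
      · have hp : p = 3 * r + 1 - q := by linarith
        exact ⟨3 * r ^ 2 + 2 * r - q * p, by rw [hp]; ring⟩
      · have hp : p = 3 * r + 2 - q := by linarith
        exact ⟨3 * r ^ 2 + 4 * r + 1 - q * p, by rw [hp]; ring⟩
    refine ⟨((p - q : ℤ) : 𝓞 K) - (q : 𝓞 K) * MP_1a91b9_ntT.omO, -(m : 𝓞 K), ?_⟩
    have h6 := kf_conj p q
    have h7 : ((p ^ 2 - p * q + q ^ 2 : ℤ) : 𝓞 K) = 3 * (m : 𝓞 K) + 1 := by
      rw [hm]
      push_cast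
      ring
    rw [h7] at h6
    rw [hpq]
    linear_combination h6
  obtain ⟨w, hw⟩ : ∃ w : (𝓞 K)ˣ,
      w = (IsPrimitiveRoot.isUnit (om_spec.toInteger_isPrimitiveRoot) (by decide)).unit := ⟨_, rfl⟩
  have hw' : ((w : (𝓞 K)ˣ) : 𝓞 K) = om_spec.toInteger := by
    rw [hw]
    rfl
  have hwz : embK ((w : 𝓞 K) : K) = zt := by rw [hw', zc_zt]
  have hw3 : w ^ 3 = 1 := by
    apply Units.ext
    rw [Units.val_pow_eq_pow_val, hw', Units.val_one]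
    exact om_spec.toInteger_cube_eq_one
  have hwne : w ≠ 1 := by
    intro h
    rw [h, Units.val_one, zc_one] at hwz
    exact zt_ne_one hwz.symm
  rcases mul_eq_zero.1 hY2 with h5 | h5
  · refine ⟨s, w, by rw [hsz, hz], hcop, hw3, hwne, ?_, ?_⟩
    · rw [hwz, hsz]
      exact hn1
    · rw [hwz, hsz]
      linear_combination h5
  · have hw2z : embK (((w ^ 2 : (𝓞 K)ˣ) : 𝓞 K) : K) = zt ^ 2 := by
      rw [Units.val_pow_eq_pow_val, pow_two, zc_mul, hwz]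
      ring
    refine ⟨s, w ^ 2, by rw [hsz, hz], hcop, ?_, ?_, ?_, ?_⟩
    · rw [← pow_mul, mul_comm, pow_mul, hw3, one_pow]
    · intro h
      apply hwne
      have h6 : w ^ 3 = w := by rw [pow_succ, h, one_mul]
      rw [← h6, hw3]
    · rw [hw2z, hsz]
      exact hn2
    · rw [hw2z, hsz]
      have h6 : (1 - zt ^ 2) * z + (1 - zt) * z ∈ PP.lattice := by
        rw [← h0, map_add, hw1, hw2]
        have h7 : ptS ℂ - omH ℂ (omH ℂ (ptS ℂ)) + (ptS ℂ - omH ℂ (ptS ℂ)) =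
            (ptS ℂ + ptS ℂ + ptS ℂ) - (omH ℂ (omH ℂ (ptS ℂ)) + omH ℂ (ptS ℂ) + ptS ℂ) := by abel
        rw [h7, h3S, hquad, sub_zero]
      have h8 := zb_Y_add h6 (-((1 - zt) * z))
      have e : -((1 - zt) * z) + ((1 - zt ^ 2) * z + (1 - zt) * z) = (1 - zt ^ 2) * z := by ring
      rw [e, zb_Y_neg] at h8
      rw [h8]
      linear_combination -h5

theorem lam_val {μ : 𝓞 K} (hμ0 : μ ≠ 0) (hμ : IsCoprime μ 3) {L : Type} [Field L] [NumberField L]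
    [Algebra K L] [DecidableEq L] (φ : L →ₐ[K] ℂ) {J : Pt L} (hJ : Ord μ J) :
    ∃ (ζ ε : (𝓞 K)ˣ) (u0 : U μ), ζ ^ 3 = 1 ∧ ζ ≠ 1 ∧ ∀ (u : U μ) (x x' : 𝓞 K),
      (3 : 𝓞 K) ∣ x - 1 → μ ∣ x - rp (u * u0) → (3 : 𝓞 K) ∣ x' - 1 →
      μ ∣ x' - ζ * rp (u * u0) →
      Om * φ (lamQ (smU J u)) = 3 * embK ((ε : 𝓞 K) : K) *
        (embK ((ζ : 𝓞 K) : K) * E1 (embK (x' : K) / embK ((3 * μ : 𝓞 K) : K)) -
          E1 (embK (x : K) / embK ((3 * μ : 𝓞 K) : K))) := by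
  classical
  obtain ⟨un, hsurj, h0, hc, hzt, hsm⟩ := exists_uni
  obtain ⟨s, ζ', hs, hs3, hζ3, hζ1, hs0, hY0⟩ := zc_S un hsurj h0 hc hzt
  have hμC := zc_ne hμ0
  -- the point `J`
  obtain ⟨zJ, hzJ⟩ := hsurj (pm φ J)
  have hJm : embK (μ : K) * zJ ∈ PP.lattice := by
    rw [← h0, hsm, hzJ, ← pm_sm, (hJ μ).2 dvd_rfl, map_zero]
  obtain ⟨t, ht⟩ := S3.mem_PP_iff.1 hJm
  have hzt' : embK (t : K) / embK (μ : K) = zJ := by
    rw [ht]
    field_simp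
  have htcop : IsCoprime t μ := by
    refine zc_cop_of hμ0 fun a ha => ?_
    rw [← hJ a]
    apply pm_inj φ
    rw [pm_sm, map_zero, ← hzJ, ← hsm, h0, S3.mem_PP_iff]
    obtain ⟨e, he⟩ := ha
    refine ⟨e, ?_⟩
    rw [← hzt', eq_comm, mul_div_assoc', div_eq_iff hμC, ← zc_mul, ← zc_mul, he, mul_comm]
  -- the unit
  obtain ⟨η, hη⟩ := zc_unit_cong (hs3.mul_left hμ)
  have hηi : ((η : (𝓞 K)ˣ) : 𝓞 K) * ((η⁻¹ : (𝓞 K)ˣ) : 𝓞 K) = 1 := η.mul_inv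
  have hζi : ((ζ' : (𝓞 K)ˣ) : 𝓞 K) * ((ζ'⁻¹ : (𝓞 K)ˣ) : 𝓞 K) = 1 := ζ'.mul_inv
  have hcop0 : IsCoprime (3 * t * ((η⁻¹ : (𝓞 K)ˣ) : 𝓞 K)) μ := by
    refine IsCoprime.mul_left (IsCoprime.mul_left hμ.symm htcop) ?_
    exact ⟨η, 0, by rw [hηi]; ring⟩
  obtain ⟨u0, hu0⟩ := rp_ex hcop0
  refine ⟨ζ'⁻¹, η⁻¹, u0, by rw [inv_pow, hζ3, inv_one], fun h => hζ1 (inv_eq_one.1 h), ?_⟩
  intro u x x' hx3 hxμ hx3' hxμ'
  obtain ⟨r, hr⟩ : ∃ r : 𝓞 K, r = rp u := ⟨_, rfl⟩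
  have hrr : μ ∣ rp (u * u0) - r * (3 * t * ((η⁻¹ : (𝓞 K)ˣ) : 𝓞 K)) := by
    have h1 := rp_mul u u0
    rw [← hr] at h1
    have e : rp (u * u0) - r * (3 * t * ((η⁻¹ : (𝓞 K)ˣ) : 𝓞 K)) =
        (rp (u * u0) - r * rp u0) - r * (3 * t * ((η⁻¹ : (𝓞 K)ˣ) : 𝓞 K) - rp u0) := by ring
    rw [e]
    exact dvd_sub h1 (Dvd.dvd.mul_left hu0 r)
  obtain ⟨z, hz⟩ : ∃ z : ℂ, z = embK (s : K) / 3 + embK (r : K) * (embK (t : K) / embK (μ : K)) :=
    ⟨_, rfl⟩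
  have hunz : un z = pm φ (ptS L + smU J u) := by
    rw [hz, map_add, hs, hzt', hsm, hzJ, map_add, pm_S, smU, pm_sm, hr]
  have h3C : embK ((3 * μ : 𝓞 K) : K) = 3 * embK (μ : K) := by rw [zc_mul, zc_three]
  have hzq : z = embK ((s * μ + 3 * r * t : 𝓞 K) : K) / embK ((3 * μ : 𝓞 K) : K) := by
    rw [hz, h3C, zc_add, zc_mul, zc_mul, zc_mul, zc_three]
    field_simp
  have hzq' : z - (1 - embK ((ζ' : 𝓞 K) : K)) * (embK (s : K) / 3) =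
      embK ((ζ' * (s * μ) + 3 * r * t : 𝓞 K) : K) / embK ((3 * μ : 𝓞 K) : K) := by
    rw [hz, h3C, zc_add, zc_mul, zc_mul, zc_mul, zc_mul, zc_three]
    field_simp
    ring
  have hnot : ∀ A : 𝓞 K, IsCoprime A 3 →
      embK ((A + 3 * r * t : 𝓞 K) : K) / embK ((3 * μ : 𝓞 K) : K) ∉ PP.lattice := by
    intro A hA h
    obtain ⟨e, he⟩ := S3.mem_PP_iff.1 h
    rw [eq_div_iff (zc_ne (mul_ne_zero Rg.three_ne hμ0)), ← zc_mul] at he
    have h1 := zc_inj he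
    apply zc_not_dvd hA
    exact ⟨e * μ - r * t, by linear_combination -h1⟩
  have hz1 : z ∉ PP.lattice := by
    rw [hzq]
    exact hnot _ (hs3.mul_left hμ)
  have hz2 : z - (1 - embK ((ζ' : 𝓞 K) : K)) * (embK (s : K) / 3) ∉ PP.lattice := by
    rw [hzq']
    refine hnot _ (IsCoprime.mul_left ?_ (hs3.mul_left hμ))
    exact ⟨((ζ'⁻¹ : (𝓞 K)ˣ) : 𝓞 K), 0, by linear_combination hζi⟩
  have hlam := lam_E1 hs0 hY0 hz1 hz2
  have hφ : φ (lamQ (smU J u)) = 3 * X z ^ 2 / ((Y z - 1) / 2) := by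
    have h1 := (hc z hz1).1
    have h2 := (hc z hz1).2
    rw [hunz, xc_pm] at h1
    rw [hunz, yc_pm] at h2
    rw [lamQ, map_div₀, map_mul, map_pow, h1, h2, map_ofNat]
  rw [hφ, hlam]
  -- the values of `E1`
  have hv1 := zc_val hμ0 hμ η (N := s * μ + 3 * r * t) (y := x) (by
      have e : s * μ + 3 * r * t - η * x = (s * μ - η) - η * (x - 1) + 3 * (r * t) := by ring
      rw [e]
      exact dvd_add (dvd_sub hη (Dvd.dvd.mul_left hx3 _)) (dvd_mul_right _ _)) (by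
      have e : s * μ + 3 * r * t - η * x = μ * s - η * (x - rp (u * u0)) -
          η * (rp (u * u0) - r * (3 * t * ((η⁻¹ : (𝓞 K)ˣ) : 𝓞 K))) := by
        linear_combination (-(3 * r * t)) * hηi
      rw [e]
      exact dvd_sub (dvd_sub (dvd_mul_right _ _) (Dvd.dvd.mul_left hxμ _)) (Dvd.dvd.mul_left hrr _))
  have hv2 := zc_val hμ0 hμ (ζ' * η) (N := ζ' * (s * μ) + 3 * r * t) (y := x') (by
      have e : ζ' * (s * μ) + 3 * r * t - ((ζ' * η : (𝓞 K)ˣ) : 𝓞 K) * x' =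
          ζ' * (s * μ - η) - ζ' * η * (x' - 1) + 3 * (r * t) := by
        rw [Units.val_mul]
        ring
      rw [e]
      exact dvd_add (dvd_sub (Dvd.dvd.mul_left hη _) (Dvd.dvd.mul_left hx3' _))
        (dvd_mul_right _ _)) (by
      have e : ζ' * (s * μ) + 3 * r * t - ((ζ' * η : (𝓞 K)ˣ) : 𝓞 K) * x' =
          μ * (ζ' * s) - ζ' * η * (x' - ((ζ'⁻¹ : (𝓞 K)ˣ) : 𝓞 K) * rp (u * u0)) -
          η * (rp (u * u0) - r * (3 * t * ((η⁻¹ : (𝓞 K)ˣ) : 𝓞 K))) := by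
        rw [Units.val_mul]
        linear_combination (-(3 * r * t)) * hηi + (-(η * rp (u * u0) : 𝓞 K)) * hζi
      rw [e]
      exact dvd_sub (dvd_sub (dvd_mul_right _ _) (Dvd.dvd.mul_left hxμ' _))
        (Dvd.dvd.mul_left hrr _))
  rw [← hzq] at hv1
  rw [← hzq'] at hv2
  rw [← hv1, ← hv2]
  have hηC : embK ((η : 𝓞 K) : K) * embK (((η⁻¹ : (𝓞 K)ˣ) : 𝓞 K) : K) = 1 := by
    rw [← zc_mul, hηi, zc_one]
  have hζC : embK ((ζ' : 𝓞 K) : K) * embK (((ζ'⁻¹ : (𝓞 K)ˣ) : 𝓞 K) : K) = 1 := by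
    rw [← zc_mul, hζi, zc_one]
  rw [Units.val_mul, zc_mul]
  generalize E1 (z - (1 - embK ((ζ' : 𝓞 K) : K)) * (embK (s : K) / 3)) = A
  generalize E1 z = B
  generalize embK ((η : 𝓞 K) : K) = a at *
  generalize embK (((η⁻¹ : (𝓞 K)ˣ) : 𝓞 K) : K) = a' at *
  generalize embK ((ζ' : 𝓞 K) : K) = b at *
  generalize embK (((ζ'⁻¹ : (𝓞 K)ˣ) : 𝓞 K) : K) = b' at *
  linear_combination (-3 * A * b * b' + 3 * B) * hηC - 3 * A * hζC

end

end Pool.Agent.Lib.MP_1a91b9_ntT.DG
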