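import Pool.Agent.Lib.MP_1a91b9_ntT.DG.DetL
import Pool.Agent.Lib.MP_1a91b9_ntT.DG.ZC
import Pool.Agent.Lib.MP_1a91b9_ntT.DG.ValW
import Pool.Agent.Lib.MP_1a91b9_ntT.TG.Unr

/-!
# DG (7.4): `dL` is a unit above `ℓ`

JOB DUNIT. PROOF (complete; helper30). `Fintype (U μ)` (finite, `μ ≠ 0`), classical decidability. `φ : L' →ₐ[K] ℂ` (`exists_emb L'`).
`res` from `AB.exists_res`. `xr u`: `3 ∣ xr u - 1`, `μ ∣ xr u - rp u` (Chinese remainder theorem, `IsCoprime μ 3`). `3 μ ∤ xr u` (`3` is not a unit). `exists_Z` (DG/ZA.lean)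
for `c = 3 μ`, `x = xr u`: `A u`, `A u 1 = (embK (3 μ))⁻¹ E1 (embK (xr u)/embK (3 μ))`. `lam_val` (DG/ZC.lean): `ζ`, `e` (its `ε`), `u0`. `zu : U μ` = the class of `ζ`:
`μ ∣ ζ - rp zu`. Then for all `u` (`x = xr (u u0)`, `x' = xr (zu u u0)`; `rp_mul`):
`Om φ(lamQ (smU J' u)) = 3 e (ζ 3μ A (zu u u0) 1 - 3 μ A (u u0) 1)` (with `embK`).
Sum over `{u | res u = g}` (`AB.trace_res`): `Om φ(algebraMap (g t)) = 9 e μ (ζ Σ_{res u = g} A (zu u u0) 1 - Σ_{res u = g} A (u u0) 1)`, `t = Algebra.trace F L' (lamQ J')`.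
`res zu = 1`: `zu^3 = 1` (`ζ^3 = 1`, `rp_inj`), so the order of `res zu` divides `3` and `card Gal(F/K) = finrank K F`, which is prime to `3` (`hAB.three`). Substituting
`u ↦ zu u u0`, resp. `u ↦ u u0`: both sums are `Σ_{res u = g * res u0} A u 1`. So with `κ = 9 e μ (ζ - 1)` (`embK`):
`Om φ(algebraMap (g t)) = κ Σ_{u : res u = g res u0} A u 1`. Therefore (matrices indexed by `Gal(F/K)`, `n0 = finrank K F = card`):
`Om^n0 φ(algebraMap (dL F L' J')) = det (Om φ((g h) t)) = κ^n0 det (y (g h (res u0)))`, `y g = Σ_{res u = g} A u 1` (`RingHom.map_det`, `Matrix.det_smul`), and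
`det (y (g (h res u0)))` is `± det (y (g h))` (permutation `h ↦ h res u0` of the columns; `Matrix.det_permute'`; commutativity). By `AB.det_val` with `L` from `hU`
(`psbC_three` in Rg/Three.lean: `psbC 3 F = psibC F`) it is `± L 1 Π_{v ∈ B} (1 - psibC F v (absNorm v)^(-1))`, `B` the finite set of the places which contain
`3 μ` (`algebraMap (3 μ) ≠ 0`: finitely many).
Let `W` be a valuation ring with `(ℓ : ℂ)⁻¹ ∉ W`. `W (embK κ') = 1` for every `κ' ∈ 𝓞 K` which divides a natural number prime to `ℓ` (`MP_1a91b9_ntG.val_coprime`,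
`val_integral`): `9`, `μ` (divides `nAb μ`, `TG.dvd_nAb`, prime to `ℓ` by `hμℓ`), `ζ - 1` (divides `3`: `ζ^2 + ζ + 1 = 0`), `e` (a unit). For `v ∈ B`: if `3 ∈ v` the
factor is `1` (`S4.psibC_three`); otherwise `μ ∈ v`, so `nAb μ ∈ v`, `ℓ ∉ v` (coprime to `nAb μ`), `hna` gives `IsCoprime (psi F v - 1) ℓ`, and `val_euler`
(MP_1a91b9_ntG/Vals.lean, `f = 3`; `psbC 3 F = psibC F`, `ps 3 F = psi F`, `up 3 F = 3`, as in Rg/Three.lean, TG/Unr.lean) says that the factor has value `1`. `hU`: `W (L 1 / Om^n0) = 1`.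
So `W (φ (algebraMap (dL F L' J'))) = 1` for all these `W`.
`dL_unit`: let `v` be a place of `F` with `v ℓ < 1`; `exists_W` for `φ ∘ algebraMap F L'`: `W`, `W ℓ < 1`, so `(ℓ : ℂ)⁻¹ ∉ W`. If `v (dL) < 1` then `W (φ dL) < 1`,
contradiction; if `v (dL) > 1` then `v (dL⁻¹) < 1`, so `W (φ dL)⁻¹ < 1`, contradiction (`dL ≠ 0`).
-/

set_option autoImplicit false

namespace Pool.Agent.Lib.MP_1a91b9_ntT.DG

open NumberField IsDedekindDomain WeierstrassCurve DB S3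

noncomputable section

private theorem DUnit_finU {μ : 𝓞 K} (h : μ ≠ 0) : Finite (U μ) := by
  have hI : Ideal.span {μ} ≠ ⊥ := by
    rw [Ne, Ideal.span_singleton_eq_bot]
    exact h
  have hfin : Finite (𝓞 K ⧸ Ideal.span {μ}) := Ideal.finiteQuotientOfFreeOfNeBot _ hI
  infer_instance

private theorem DUnit_xr {μ : 𝓞 K} (hc : IsCoprime μ 3) (u : U μ) :
    ∃ x : 𝓞 K, (3 : 𝓞 K) ∣ x - 1 ∧ μ ∣ x - rp u := by
  obtain ⟨a, b, hab⟩ := hc
  refine ⟨a * μ + rp u * (b * 3), ⟨b * (rp u - 1), ?_⟩, ⟨a * (1 - rp u), ?_⟩⟩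
  · linear_combination hab
  · linear_combination rp u * hab

private theorem DUnit_valO (W : ValuationSubring ℂ) (x : 𝓞 K) :
    W.valuation (embK (x : K)) ≤ 1 := by
  refine S4.val_integral W ?_
  have h : IsIntegral ℤ (x : K) := RingOfIntegers.isIntegral_coe _
  exact h.map embK.toRingHom.toIntAlgHom

private theorem DUnit_val_dvd {ℓ : ℕ} (W : ValuationSubring ℂ) (hW : (ℓ : ℂ)⁻¹ ∉ W) {x : 𝓞 K}
    {n : ℕ} (hn : n.Coprime ℓ) (hx : x ∣ (n : 𝓞 K)) : W.valuation (embK (x : K)) = 1 := by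
  obtain ⟨y, hy⟩ := hx
  refine S4.val_eq_one_of_mul W (DUnit_valO W x) (DUnit_valO W y) ?_
  have h1 := congrArg (fun z : 𝓞 K => embK (z : K)) hy
  simp only [map_mul, map_natCast] at h1
  rw [← h1]
  exact MP_1a91b9_ntG.val_coprime W hW n hn

private theorem DUnit_det {G : Type*} [Group G] [Fintype G] [DecidableEq G] (y : G → ℂ) (κ : ℂ)
    (h0 : G) : ∃ s : ℂ, (s = 1 ∨ s = -1) ∧
      Matrix.det (Matrix.of fun g h : G => κ * y (g * h * h0)) =
        κ ^ Fintype.card G * (s * Matrix.det (Matrix.of fun g h : G => y (g * h))) := by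
  refine ⟨(((Equiv.Perm.sign (Equiv.mulRight h0) : ℤˣ) : ℤ) : ℂ), ?_, ?_⟩
  · rcases Int.units_eq_one_or (Equiv.Perm.sign (Equiv.mulRight h0)) with h | h
    · left
      rw [h]
      simp
    · right
      rw [h]
      simp
  · have h1 : (Matrix.of fun g h : G => κ * y (g * h * h0)) =
        κ • ((Matrix.of fun g h : G => y (g * h)).submatrix id (Equiv.mulRight h0)) := by
      ext g h
      simp [mul_assoc]
    rw [h1, Matrix.det_smul, Matrix.det_permute']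

private theorem DUnit_subst {U G : Type*} [CommGroup U] [Fintype U] [Group G] [DecidableEq G]
    (res : U →* G) (f : U → ℂ) (w0 : U) (g : G) :
    (∑ u : U, if res u = g then f (w0 * u) else 0) =
      ∑ u : U, if res u = g * res w0 then f u else 0 := by
  refine Fintype.sum_equiv (Equiv.mulLeft w0) _ _ fun u => ?_
  have h : res (Equiv.mulLeft w0 u) = g * res w0 ↔ res u = g := by
    change res (w0 * u) = g * res w0 ↔ res u = g
    rw [mul_comm w0 u, map_mul, mul_left_inj]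
  by_cases hc : res u = g
  · rw [if_pos hc, if_pos (h.2 hc)]
    rfl
  · rw [if_neg hc, if_neg (fun h1 => hc (h.1 h1))]

private theorem DUnit_three {G : Type*} [Group G] [Finite G] (h3 : ¬ 3 ∣ Nat.card G) {x : G}
    (hx : x ^ 3 = 1) : x = 1 := by
  have h1 : orderOf x ∣ 3 := orderOf_dvd_of_pow_eq_one hx
  have h2 : orderOf x ∣ Nat.card G := orderOf_dvd_natCard x
  rcases (Nat.dvd_prime Nat.prime_three).1 h1 with h | h
  · exact orderOf_eq_one_iff.1 h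
  · rw [h] at h2
    exact absurd h2 h3

private theorem DUnit_pm (W : ValuationSubring ℂ) {s : ℂ} (hs : s = 1 ∨ s = -1) :
    W.valuation s = 1 := by
  rcases hs with rfl | rfl
  · exact map_one _
  · rw [Valuation.map_neg, map_one]

section
variable {μ : 𝓞 K} {F L' : Type} [Field F] [NumberField F] [Algebra K F] [Field L']
  [NumberField L'] [Algebra K L'] [Algebra F L'] [IsScalarTower K F L'] [DecidableEq L']
  {J' : Pt L'} (hAB : AB μ F L' J')
include hAB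

/-- the key formula: the matrix of the conjugates of the trace of `lamQ J'` -/
private theorem DUnit_key [Fintype (U μ)] [DecidableEq Gal(F/K)] {res : U μ →* Gal(F/K)}
    (hres : ∀ (σ : Gal(L'/K)) (u : U μ), ga σ J' = smU J' u →
      ∀ x : F, algebraMap F L' (res u x) = σ (algebraMap F L' x)) (φ : L' →ₐ[K] ℂ)
    {xr : U μ → 𝓞 K} (hx : ∀ u, (3 : 𝓞 K) ∣ xr u - 1 ∧ μ ∣ xr u - rp u) {a : U μ → ℂ}
    (ha : ∀ u, a u = (embK ((3 * μ : 𝓞 K) : K))⁻¹ *
      E1 (embK (xr u : K) / embK ((3 * μ : 𝓞 K) : K))) :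
    ∃ (ζ ε : (𝓞 K)ˣ) (g0 : Gal(F/K)), ζ ^ 3 = 1 ∧ ζ ≠ 1 ∧ ∀ g : Gal(F/K),
      Om * φ (algebraMap F L' (g (Algebra.trace F L' (lamQ J')))) =
        (3 * embK ((ε : 𝓞 K) : K) * embK ((3 * μ : 𝓞 K) : K) * (embK ((ζ : 𝓞 K) : K) - 1)) *
          ∑ u : U μ, if res u = g * g0 then a u else 0 := by
  have hg : IsGalois K F := hAB.galF
  have hm0 : (3 * μ : 𝓞 K) ≠ 0 := mul_ne_zero Rg.three_ne hAB.ne
  have hm1 : embK ((3 * μ : 𝓞 K) : K) ≠ 0 := by
    exact (map_ne_zero embK).2 (RingOfIntegers.coe_ne_zero_iff.2 hm0)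
  obtain ⟨ζ, ε, u0, hζ3, hζ1, hval⟩ := lam_val hAB.ne hAB.cop φ hAB.ord
  have hcζ : IsCoprime (ζ : 𝓞 K) μ :=
    ⟨((ζ⁻¹ : (𝓞 K)ˣ) : 𝓞 K), 0, by rw [zero_mul, add_zero, Units.inv_mul]⟩
  obtain ⟨zu, hzu⟩ := rp_ex hcζ
  have hz1 : (zu : 𝓞 K ⧸ Ideal.span {μ}) = Ideal.Quotient.mk (Ideal.span {μ}) (ζ : 𝓞 K) := by
    rw [← mk_rp, mk_eq, ← dvd_neg, neg_sub]
    exact hzu
  have hz3 : zu ^ 3 = 1 := by
    apply Units.ext
    rw [Units.val_pow_eq_pow_val, hz1, ← map_pow, ← Units.val_pow_eq_pow_val, hζ3, Units.val_one,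
      Units.val_one, map_one]
  have hr1 : res zu = 1 := by
    refine DUnit_three ?_ (by rw [← map_pow, hz3, map_one])
    rw [IsGalois.card_aut_eq_finrank]
    exact hAB.three
  refine ⟨ζ, ε, res u0, hζ3, hζ1, fun g => ?_⟩
  have h1 : ∀ u : U μ, Om * φ (lamQ (smU J' u)) = 3 * embK ((ε : 𝓞 K) : K) *
      (embK ((ζ : 𝓞 K) : K) * (embK ((3 * μ : 𝓞 K) : K) * a (zu * u0 * u)) -
        embK ((3 * μ : 𝓞 K) : K) * a (u0 * u)) := by
    intro u
    have e1 : zu * u0 * u = zu * (u * u0) := by rw [mul_assoc, mul_comm u0 u]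
    have e2 : u0 * u = u * u0 := mul_comm _ _
    have h2 : μ ∣ xr (zu * (u * u0)) - ζ * rp (u * u0) := by
      have e : xr (zu * (u * u0)) - ζ * rp (u * u0) = (xr (zu * (u * u0)) - rp (zu * (u * u0))) +
          (rp (zu * (u * u0)) - rp zu * rp (u * u0)) - ((ζ : 𝓞 K) - rp zu) * rp (u * u0) := by
        ring
      rw [e]
      exact dvd_sub (dvd_add (hx _).2 (rp_mul _ _)) (hzu.mul_right _)
    rw [hval u (xr (u * u0)) (xr (zu * (u * u0))) (hx _).1 (hx _).2 (hx _).1 h2, e1, e2, ha, ha,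
      mul_inv_cancel_left₀ hm1, mul_inv_cancel_left₀ hm1]
  rw [hAB.trace_res hres g, map_sum, Finset.mul_sum]
  have h3 : ∀ u : U μ, Om * φ (haveI := Classical.dec (res u = g)
      if res u = g then lamQ (smU J' u) else 0) =
      (3 * embK ((ε : 𝓞 K) : K) * embK ((3 * μ : 𝓞 K) : K)) *
        (embK ((ζ : 𝓞 K) : K) * (if res u = g then a (zu * u0 * u) else 0) -
          if res u = g then a (u0 * u) else 0) := by
    intro u
    by_cases hc : res u = g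
    · rw [if_pos hc, if_pos hc, if_pos hc, h1 u]
      ring
    · rw [if_neg hc, if_neg hc, if_neg hc, map_zero]
      ring
  rw [Finset.sum_congr rfl fun u _ => h3 u, ← Finset.mul_sum, Finset.sum_sub_distrib,
    ← Finset.mul_sum, DUnit_subst res a (zu * u0) g, DUnit_subst res a u0 g, map_mul, hr1, one_mul]
  ring

/-- the value at all the places of `ℂ` above `ℓ` -/
private theorem DUnit_val {ℓ : ℕ} (hℓ : ℓ.Prime) (h5 : 5 ≤ ℓ) (hμℓ : ¬ ℓ ∣ TG.nAb μ)
    (hna : TG.NaG ℓ μ F) (hU : MP_1a91b9_ntG.UnitProp 3 ℓ Om F) (φ : L' →ₐ[K] ℂ)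
    (W : ValuationSubring ℂ) (hW : (ℓ : ℂ)⁻¹ ∉ W) :
    W.valuation (φ (algebraMap F L' (dL F L' J'))) = 1 := by
  have hfact : Fact ℓ.Prime := ⟨hℓ⟩
  have hg : IsGalois K F := hAB.galF
  have hfU : Finite (U μ) := DUnit_finU hAB.ne
  have hftU : Fintype (U μ) := Fintype.ofFinite (U μ)
  let hdec : DecidableEq Gal(F/K) := Classical.decEq _
  obtain ⟨res, -, hres⟩ := hAB.exists_res
  choose xr hx using DUnit_xr hAB.cop
  have hnot : ∀ u, ¬ (3 * μ) ∣ xr u := by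
    intro u h
    have h1 : (3 : 𝓞 K) ∣ xr u := (dvd_mul_right _ _).trans h
    have h2 : (3 : 𝓞 K) ∣ 1 := by
      have e : (1 : 𝓞 K) = xr u - (xr u - 1) := by ring
      rw [e]
      exact dvd_sub h1 (hx u).1
    exact S4.three_not_unit (isUnit_of_dvd_one h2)
  have hm0 : (3 * μ : 𝓞 K) ≠ 0 := mul_ne_zero Rg.three_ne hAB.ne
  choose A hA hA1 hA2 using fun u => exists_Z hm0 (hnot u) (dvd_mul_right 3 μ)
  obtain ⟨ζ, ε, g0, hζ3, hζ1, hkey⟩ := DUnit_key hAB hres φ hx (a := fun u => A u 1) hA2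
  obtain ⟨L, hL, hL1, hLW⟩ := hU
  have hBfin : {v : HeightOneSpectrum (𝓞 F) |
      Ideal.span {algebraMap (𝓞 K) (𝓞 F) (3 * μ)} ≤ v.asIdeal}.Finite := by
    refine (Ideal.finite_factors (I := Ideal.span {algebraMap (𝓞 K) (𝓞 F) (3 * μ)}) ?_).subset
      fun v hv => ?_
    · rw [Ne, Ideal.zero_eq_bot, Ideal.span_singleton_eq_bot,
        map_eq_zero_iff _ (FaithfulSMul.algebraMap_injective (𝓞 K) (𝓞 F))]
      exact hm0
    · exact Ideal.dvd_iff_le.mpr hv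
  obtain ⟨B, hBdef⟩ : ∃ B, B = hBfin.toFinset := ⟨_, rfl⟩
  have hB : ∀ v, v ∈ B ↔ algebraMap (𝓞 K) (𝓞 F) (3 * μ) ∈ v.asIdeal := fun v => by
    rw [hBdef, Set.Finite.mem_toFinset]
    exact Ideal.span_singleton_le_iff_mem _
  obtain ⟨ε', hε', hdet⟩ := hAB.det_val hres hx hA hA1 hL (fun s hs => hL1 s hs) B hB
  obtain ⟨κ, hκ⟩ : ∃ κ : ℂ, κ = 3 * embK ((ε : 𝓞 K) : K) * embK ((3 * μ : 𝓞 K) : K) *
    (embK ((ζ : 𝓞 K) : K) - 1) := ⟨_, rfl⟩
  rw [← hκ] at hkey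
  obtain ⟨s, hs, hdet2⟩ := DUnit_det (G := Gal(F/K))
    (fun g => ∑ u : U μ, if res u = g then A u 1 else 0) κ g0
  have hcard : Fintype.card Gal(F/K) = Module.finrank K F := by
    rw [← Nat.card_eq_fintype_card, IsGalois.card_aut_eq_finrank]
  have hmain : Om ^ Module.finrank K F * φ (algebraMap F L' (dL F L' J')) =
      κ ^ Module.finrank K F * (s * (ε' * (L 1 * ∏ v ∈ B,
        (1 - S4.psibC F v.asIdeal * (Ideal.absNorm v.asIdeal : ℂ) ^ (-1 : ℂ))))) := by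
    rw [← hdet, ← hcard, ← hdet2]
    have e1 : φ (algebraMap F L' (dL F L' J')) =
        Matrix.det (((φ : L' →+* ℂ).comp (algebraMap F L')).mapMatrix
          (Matrix.of fun g h : Gal(F/K) => (g * h) (Algebra.trace F L' (lamQ J')))) := by
      rw [← RingHom.map_det]
      rfl
    rw [e1, ← Matrix.det_smul]
    refine congrArg Matrix.det ?_
    ext g h
    exact hkey (g * h)
  have hOm : Om ^ Module.finrank K F ≠ 0 := by
    intro h
    have h1 := hLW W hW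
    rw [h, div_zero, map_zero] at h1
    exact zero_ne_one h1
  have hdiv : φ (algebraMap F L' (dL F L' J')) = κ ^ Module.finrank K F * s * ε' *
      (L 1 / Om ^ Module.finrank K F) * ∏ v ∈ B,
        (1 - S4.psibC F v.asIdeal * (Ideal.absNorm v.asIdeal : ℂ) ^ (-1 : ℂ)) := by
    rw [← mul_right_inj' hOm, hmain]
    field_simp
  have hcop3 : Nat.Coprime 3 ℓ := by
    rw [Nat.coprime_primes Nat.prime_three hℓ]
    omega
  have hcopμ : Nat.Coprime (TG.nAb μ) ℓ := by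
    rw [Nat.coprime_comm, Nat.Prime.coprime_iff_not_dvd hℓ]
    exact hμℓ
  have w3 : W.valuation (3 : ℂ) = 1 := by
    have h := MP_1a91b9_ntG.val_coprime W hW 3 hcop3
    rwa [Nat.cast_ofNat] at h
  have wε : W.valuation (embK ((ε : 𝓞 K) : K)) = 1 :=
    DUnit_val_dvd W hW (Nat.coprime_one_left ℓ)
      ⟨((ε⁻¹ : (𝓞 K)ˣ) : 𝓞 K), by rw [Nat.cast_one, Units.mul_inv]⟩
  have wm : W.valuation (embK ((3 * μ : 𝓞 K) : K)) = 1 := by
    refine DUnit_val_dvd W hW (Nat.Coprime.mul_left hcop3 hcopμ) ?_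
    rw [Nat.cast_mul, Nat.cast_ofNat]
    exact mul_dvd_mul_left _ (TG.dvd_nAb μ)
  have wζ : W.valuation (embK ((ζ : 𝓞 K) : K) - 1) = 1 := by
    have h1 : ((ζ : 𝓞 K)) ^ 3 = 1 := by
      rw [← Units.val_pow_eq_pow_val, hζ3, Units.val_one]
    have h2 : ((ζ : 𝓞 K)) - 1 ≠ 0 := by
      intro h
      apply hζ1
      apply Units.ext
      rw [Units.val_one]
      exact sub_eq_zero.1 h
    have h3 : ((ζ : 𝓞 K)) ^ 2 + ζ + 1 = 0 := by
      refine (mul_eq_zero.1 (?_ : ((ζ : 𝓞 K) - 1) * ((ζ : 𝓞 K) ^ 2 + ζ + 1) = 0)).resolve_left h2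
      linear_combination h1
    have h4 := DUnit_val_dvd W hW hcop3 (x := (ζ : 𝓞 K) - 1)
      ⟨-((ζ : 𝓞 K) + 2), by rw [Nat.cast_ofNat]; linear_combination h3⟩
    simp only [map_sub, map_one] at h4
    exact h4
  have wκ : W.valuation κ = 1 := by
    rw [hκ, map_mul, map_mul, map_mul, w3, wε, wm, wζ]
    simp only [mul_one]
  have wB : W.valuation (∏ v ∈ B,
      (1 - S4.psibC F v.asIdeal * (Ideal.absNorm v.asIdeal : ℂ) ^ (-1 : ℂ))) = 1 := by
    rw [map_prod]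
    refine Finset.prod_eq_one fun v hv => ?_
    by_cases h3v : (3 : 𝓞 F) ∈ v.asIdeal
    · rw [S4.psibC_three v h3v, zero_mul, sub_zero, map_one]
    · have h1 : algebraMap (𝓞 K) (𝓞 F) μ ∈ v.asIdeal := by
        have h2 := (hB v).1 hv
        rw [map_mul, map_ofNat] at h2
        exact (v.isPrime.mem_or_mem h2).resolve_left h3v
      have h2 : ((TG.nAb μ : ℕ) : 𝓞 F) ∈ v.asIdeal := by
        obtain ⟨c, hc⟩ := TG.dvd_nAb μ
        have h3 := congrArg (algebraMap (𝓞 K) (𝓞 F)) hc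
        rw [map_natCast, map_mul] at h3
        rw [h3]
        exact Ideal.mul_mem_right _ _ h1
      have h3 : ((ℓ : ℕ) : 𝓞 F) ∉ v.asIdeal := by
        intro h4
        obtain ⟨a, b, hab⟩ := Nat.isCoprime_iff_coprime.mpr hcopμ
        apply v.isPrime.ne_top
        rw [Ideal.eq_top_iff_one]
        have h5 := congrArg (fun z : ℤ => (z : 𝓞 F)) hab
        simp only [Int.cast_add, Int.cast_mul, Int.cast_natCast, Int.cast_one] at h5
        rw [← h5]
        exact Ideal.add_mem _ (Ideal.mul_mem_left _ _ h2) (Ideal.mul_mem_left _ _ h4)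
      have h4 : MP_1a91b9_ntG.up (3 : 𝓞 K) F ∉ v.asIdeal := by
        rw [MP_1a91b9_ntG.up, map_ofNat]
        exact h3v
      exact MP_1a91b9_ntG.val_euler (f := (3 : 𝓞 K)) W hW v h4 h3 (hna v h2 h3v)
  rw [hdiv, map_mul, map_mul, map_mul, map_mul, map_pow, wκ, one_pow, DUnit_pm W hs,
    DUnit_pm W hε', hLW W hW, wB]
  simp only [mul_one]

theorem AB.dL_unit {ℓ : ℕ} (hℓ : ℓ.Prime) (h5 : 5 ≤ ℓ) (hμℓ : ¬ ℓ ∣ TG.nAb μ)
    (hna : TG.NaG ℓ μ F) (hU : MP_1a91b9_ntG.UnitProp 3 ℓ Om F) (v : HeightOneSpectrum (𝓞 F))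
    (hv : v.valuation F (ℓ : F) < 1) : v.valuation F (dL F L' J') = 1 := by
  obtain ⟨φ⟩ := exists_emb L'
  obtain ⟨W, hW1, hW2⟩ := exists_W ((φ : L' →+* ℂ).comp (algebraMap F L')) v
  have hWℓ : (ℓ : ℂ)⁻¹ ∉ W := by
    intro h
    have h1 := hW2 _ hv
    rw [map_natCast] at h1
    have h2 := (W.valuation_le_one_iff _).2 h
    rw [map_inv₀] at h2
    have h3 : W.valuation (ℓ : ℂ) ≠ 0 := by
      rw [Valuation.ne_zero_iff]
      exact Nat.cast_ne_zero.2 hℓ.ne_zero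
    exact absurd h1 (not_lt.2 ((inv_le_one₀ (zero_lt_iff.2 h3)).1 h2))
  have hval := DUnit_val hAB hℓ h5 hμℓ hna hU φ W hWℓ
  rcases lt_trichotomy (v.valuation F (dL F L' J')) 1 with h | h | h
  · exact absurd hval (hW2 _ h).ne
  · exact h
  · have h0 : dL F L' J' ≠ 0 := by
      intro h1
      rw [h1, map_zero] at h
      exact absurd h (not_lt.2 zero_le)
    have h1 : v.valuation F (dL F L' J')⁻¹ < 1 := by
      rw [map_inv₀]
      exact inv_lt_one_of_one_lt₀ h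
    have h2 := hW2 _ h1
    rw [map_inv₀, map_inv₀] at h2
    have h3 : W.valuation ((φ : L' →+* ℂ).comp (algebraMap F L') (dL F L' J')) = 1 := hval
    rw [h3, inv_one] at h2
    exact absurd h2 (lt_irrefl _)

end

end

end Pool.Agent.Lib.MP_1a91b9_ntT.DG
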