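import Pool.Agent.Lib.MP_1a91b9_ntT.DG.LSum
import Pool.Agent.Lib.MP_1a91b9_ntT.DG.Chars

/-!
# DG (7.4): the determinant of the residual L-values

JOB DETL. PROOF (complete; helper30). `χ`, `ε` from `exists_chars` for `G = Gal(F/K)` (`AB.commF`). Let `x s g = Σ_{u : res u = g} A u s`. For `2 < s.re`:
`A u s = ZS (3 μ) (xr u) s`, so `Σ_g χ i g * x s g = Σ_u χ i (res u) * ZS (3 μ) (xr u) s` (`Finset.sum_comm`, `Finset.sum_ite_eq`) `= Lf (..) s` (`Lf_sum`), and
`det (x s (g h)) = ε Π_i Lf (..) = ε L s Π_{v ∈ B} (..)` (`AB.Lf_prod`). Both sides are entire functions of `s` (`Differentiable`: a determinant is a polynomial in the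
entries, `Matrix.det_apply`, finite sums and products; `(absNorm v : ℂ)^(-s)` is entire because `absNorm v ≠ 0`), so they are equal at `s = 1` (`S4.entire_eq`, see
its use in TG/Ual.lean: two entire functions equal for `2 < s.re` are equal).
-/

set_option autoImplicit false

namespace Pool.Agent.Lib.MP_1a91b9_ntT.DG

open NumberField IsDedekindDomain WeierstrassCurve DB

noncomputable section

section
variable {μ : 𝓞 K} {F L' : Type} [Field F] [NumberField F] [Algebra K F] [Field L']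
  [NumberField L'] [Algebra K L'] [Algebra F L'] [IsScalarTower K F L'] [DecidableEq L']
  {J' : Pt L'} (hAB : AB μ F L' J')
include hAB

theorem AB.det_val [Fintype (U μ)] [DecidableEq Gal(F/K)] {res : U μ →* Gal(F/K)}
    (hres : ∀ (σ : Gal(L'/K)) (u : U μ), ga σ J' = smU J' u →
      ∀ x : F, algebraMap F L' (res u x) = σ (algebraMap F L' x)) {xr : U μ → 𝓞 K}
    (hx : ∀ u, (3 : 𝓞 K) ∣ xr u - 1 ∧ μ ∣ xr u - rp u) {A : U μ → ℂ → ℂ}
    (hA : ∀ u, Differentiable ℂ (A u)) (hA1 : ∀ u (s : ℂ), 2 < s.re → A u s = ZS (3 * μ) (xr u) s)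
    {L : ℂ → ℂ} (hL : Differentiable ℂ L) (hL1 : ∀ s : ℂ, 2 < s.re → L s = S4.Lf (S4.psibC F) s)
    (B : Finset (HeightOneSpectrum (𝓞 F)))
    (hB : ∀ v, v ∈ B ↔ algebraMap (𝓞 K) (𝓞 F) (3 * μ) ∈ v.asIdeal) :
    ∃ ε : ℂ, (ε = 1 ∨ ε = -1) ∧
      Matrix.det (Matrix.of fun g h : Gal(F/K) =>
        ∑ u : U μ, if res u = g * h then A u 1 else 0) =
      ε * (L 1 * ∏ v ∈ B,
        (1 - S4.psibC F v.asIdeal * (Ideal.absNorm v.asIdeal : ℂ) ^ (-1 : ℂ))) := by
  obtain ⟨ι, iι, χ, hχ1, ⟨ε, hε, hdet⟩, hχ⟩ := exists_chars (G := Gal(F/K)) hAB.commF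
  refine ⟨ε, hε, ?_⟩
  have hsum : ∀ (s : ℂ) (i : ι), ∑ g : Gal(F/K), χ i g * (∑ u : U μ, if res u = g then A u s else 0) =
      ∑ u : U μ, χ i (res u) * A u s := by
    intro s i
    simp only [Finset.mul_sum, mul_ite, mul_zero]
    rw [Finset.sum_comm]
    refine Finset.sum_congr rfl fun u _ => ?_
    rw [Finset.sum_ite_eq Finset.univ (res u) (fun g => χ i g * A u s),
      if_pos (Finset.mem_univ _)]
  have key : (fun s : ℂ => ε * ∏ i, ∑ u : U μ, χ i (res u) * A u s) =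
      fun s : ℂ => ε * (L s * ∏ v ∈ B,
        (1 - S4.psibC F v.asIdeal * (Ideal.absNorm v.asIdeal : ℂ) ^ (-s))) := by
    refine S4.entire_eq ?_ ?_ fun s hs => ?_
    · refine Differentiable.const_mul ?_ ε
      refine Differentiable.fun_finsetProd fun i _ => ?_
      refine Differentiable.fun_sum fun u _ => ?_
      exact (hA u).const_mul _
    · exact (hL.mul (S4.differentiable_euler B _)).const_mul ε
    · congr 1
      rw [hL1 s hs, ← hAB.Lf_prod hres hχ1 hχ B hB hs]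
      refine Finset.prod_congr rfl fun i _ => ?_
      rw [Lf_sum hAB.ne hAB.cop res (χ i) (hχ1 i) hx hs]
      exact Finset.sum_congr rfl fun u _ => by rw [hA1 u s hs]
  have h1 := hdet (fun g => ∑ u : U μ, if res u = g then A u 1 else 0)
  have h2 := congrFun key 1
  beta_reduce at h1 h2
  rw [h1, ← h2]
  congr 1
  exact Finset.prod_congr rfl fun i _ => hsum 1 i

end

end

end Pool.Agent.Lib.MP_1a91b9_ntT.DG
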