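import Pool.Agent.Lib.MP_1a91b9_ntT.DG.XXa
import Pool.Agent.Lib.MP_1a91b9_ntT.DG.Dual
import Pool.Agent.Lib.MP_1a91b9_ntT.DB.ThA

/-!
# DG: discrete logarithm of the units `XX`

JOB DLG. PROOF (complete; helper30): copy `dlog` of DB/ThA.lean (copy its private lemmas `tac_*`) with `XX` in place of `xi` in
the field `L` (here called `N`; `XX_val`, `XX_zero`, `XX_add`), to get an additive map `A : (U μ → 𝓞 K) →+ ZMod ℓ` with `A c = 0` if `ϖ ∣ c u`
for all `u` and `(a : ZMod ℓ) = A c` for `lam (XX c - b^a) < 1`; then `dualU` gives `α`. Second part: `A c = 0`: let `a` with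
`lam (XX c - b^a) < 1`, `ℓ ∣ a`, `a = ℓ m`, `z = b^m` (as in `dlog` for `c = 1`).
-/

set_option autoImplicit false

namespace Pool.Agent.Lib.MP_1a91b9_ntT.DG

open NumberField IsDedekindDomain WeierstrassCurve DB Pool.Agent.Lib.MP_1a91b9_nt

noncomputable section

section
variable {N : Type} [Field N] [NumberField N] {lam : HeightOneSpectrum (𝓞 N)}

private theorem DLG_mem (x : 𝓞 N) (y : N) (e : algebraMap (𝓞 N) N x = y) :
    lam.valuation N y < 1 ↔ x ∈ lam.asIdeal := by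
  rw [← e]
  exact HeightOneSpectrum.valuation_lt_one_iff_mem (K := N) lam x

private theorem DLG_int (hp : (nrm lam).Prime) (m : ℤ) :
    lam.valuation N (m : N) < 1 ↔ (nrm lam : ℤ) ∣ m := by
  have h0 : ∀ m : ℤ, lam.valuation N (m : N) < 1 ↔ ((m : ℤ) : 𝓞 N) ∈ lam.asIdeal := by
    intro m
    exact DLG_mem _ _ (map_intCast (algebraMap (𝓞 N) N) m)
  have hpm : ((nrm lam : ℤ) : 𝓞 N) ∈ lam.asIdeal := by
    rw [nrm_eq]
    have := Ideal.absNorm_mem lam.asIdeal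
    rwa [← Int.cast_natCast (R := 𝓞 N)] at this
  rw [h0]
  constructor
  · intro h
    by_contra hnd
    have hc : IsCoprime (nrm lam : ℤ) m :=
      (Nat.prime_iff_prime_int.1 hp).coprime_iff_not_dvd.2 hnd
    obtain ⟨u, v, huv⟩ := hc
    apply lam.isPrime.ne_top
    rw [Ideal.eq_top_iff_one]
    have h1 : ((u * nrm lam + v * m : ℤ) : 𝓞 N) ∈ lam.asIdeal := by
      rw [Int.cast_add, Int.cast_mul, Int.cast_mul]
      exact Ideal.add_mem _ (Ideal.mul_mem_left _ _ hpm) (Ideal.mul_mem_left _ _ h)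
    rw [huv, Int.cast_one] at h1
    exact h1
  · rintro ⟨c, rfl⟩
    rw [Int.cast_mul]
    exact Ideal.mul_mem_right _ _ hpm

private theorem DLG_int_le (m : ℤ) : lam.valuation N (m : N) ≤ 1 := by
  rw [← map_intCast (algebraMap (𝓞 N) N) m]
  exact HeightOneSpectrum.valuation_le_one (K := N) lam ((m : ℤ) : 𝓞 N)

private theorem DLG_near (hp : (nrm lam).Prime) {x : N} (hx : lam.valuation N x ≤ 1) :
    ∃ m : ℤ, lam.valuation N (x - m) < 1 := by
  obtain ⟨y, hy⟩ := exists_val_lt_of_int lam hx 1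
  have hprime := lam.isPrime
  have : Fact (nrm lam).Prime := ⟨hp⟩
  have hcard : Nat.card (𝓞 N ⧸ lam.asIdeal) = nrm lam := by
    rw [nrm_eq]
    rfl
  have h1 : (1 : 𝓞 N ⧸ lam.asIdeal) ≠ 0 := one_ne_zero
  have h2 := mem_zmultiples_of_prime_card hcard (g := (1 : 𝓞 N ⧸ lam.asIdeal))
    (g' := Ideal.Quotient.mk lam.asIdeal y) h1
  obtain ⟨m, hm⟩ := AddSubgroup.mem_zmultiples_iff.1 h2
  refine ⟨m, ?_⟩
  have h3 : y - ((m : ℤ) : 𝓞 N) ∈ lam.asIdeal := by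
    rw [← Ideal.Quotient.eq_zero_iff_mem, map_sub, map_intCast, ← hm, zsmul_eq_mul, mul_one,
      sub_self]
  have e : algebraMap (𝓞 N) N (y - ((m : ℤ) : 𝓞 N)) = (y : N) - (m : N) := by
    rw [← map_intCast (algebraMap (𝓞 N) N) m]
    exact map_sub (algebraMap (𝓞 N) N) y _
  rw [← DLG_mem _ _ e] at h3
  have h4 : x - m = (x - (y : N)) + ((y : N) - m) := by ring
  rw [h4]
  refine (Valuation.map_add _ _ _).trans_lt (max_lt (lt_of_le_of_lt hy ?_) h3)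
  rw [← WithZero.exp_zero, WithZero.exp_lt_exp]
  norm_num

variable {b : ℤ} (hp : (nrm lam).Prime) (hb0 : ¬ (nrm lam : ℤ) ∣ b)

include hp hb0 in
private theorem DLG_b : lam.valuation N (b : N) = 1 :=
  le_antisymm (DLG_int_le b) (not_lt.1 fun h => hb0 ((DLG_int hp b).1 h))

include hp hb0 in
private theorem DLG_bz (a : ℤ) : lam.valuation N ((b : N) ^ a) = 1 := by
  rw [map_zpow₀, DLG_b hp hb0, one_zpow]

include hp in
private theorem DLG_log (hb : ∀ x : ℤ, ¬ (nrm lam : ℤ) ∣ x → ∃ i : ℕ, (nrm lam : ℤ) ∣ x - b ^ i)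
    {x : N} (hx : lam.valuation N x = 1) : ∃ a : ℤ, lam.valuation N (x - (b : N) ^ a) < 1 := by
  obtain ⟨m, hm⟩ := DLG_near hp hx.le
  have h1 : ¬ (nrm lam : ℤ) ∣ m := by
    rw [← DLG_int hp]
    intro h
    have h2 : lam.valuation N x < 1 := by
      have h3 : x = (x - m) + m := by ring
      rw [h3]
      exact (Valuation.map_add _ _ _).trans_lt (max_lt hm h)
    exact absurd hx h2.ne
  obtain ⟨i, hi⟩ := hb m h1
  refine ⟨i, ?_⟩
  rw [← DLG_int hp] at hi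
  push_cast at hi
  have h4 : x - (b : N) ^ ((i : ℕ) : ℤ) = (x - m) + (m - (b : N) ^ i) := by
    rw [zpow_natCast]
    ring
  rw [h4]
  exact (Valuation.map_add _ _ _).trans_lt (max_lt hm hi)

include hp hb0 in
private theorem DLG_uniq {ℓ : ℕ} (hl : ℓ ∣ nrm lam - 1)
    (hb1 : ∀ i : ℕ, (nrm lam : ℤ) ∣ b ^ i - 1 → nrm lam - 1 ∣ i)
    {x : N} {a a' : ℤ} (h1 : lam.valuation N (x - (b : N) ^ a) < 1)
    (h2 : lam.valuation N (x - (b : N) ^ a') < 1) : (a : ZMod ℓ) = a' := by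
  have hbN : (b : N) ≠ 0 := by
    intro h
    have := DLG_b (N := N) hp hb0
    rw [h, map_zero] at this
    exact zero_ne_one this
  have key : ∀ a a' : ℤ, a' ≤ a → lam.valuation N ((b : N) ^ a - (b : N) ^ a') < 1 →
      (a : ZMod ℓ) = a' := by
    intro a a' hle h
    obtain ⟨n, hn⟩ := Int.eq_ofNat_of_zero_le (sub_nonneg.2 hle)
    have ha : a = a' + n := by omega
    have h3 : (b : N) ^ a - (b : N) ^ a' = (b : N) ^ a' * ((b : N) ^ n - 1) := by
      rw [ha, zpow_add₀ hbN, zpow_natCast]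
      ring
    rw [h3, map_mul, DLG_bz hp hb0, one_mul] at h
    have h4 : (nrm lam : ℤ) ∣ b ^ n - 1 := by
      rw [← DLG_int (N := N) hp]
      push_cast
      exact h
    have h5 : ℓ ∣ n := hl.trans (hb1 n h4)
    rw [ha, Int.cast_add, Int.cast_natCast, (ZMod.natCast_eq_zero_iff n ℓ).2 h5, add_zero]
  have h3 : lam.valuation N ((b : N) ^ a - (b : N) ^ a') < 1 := by
    have h4 : (b : N) ^ a - (b : N) ^ a' = (x - (b : N) ^ a') - (x - (b : N) ^ a) := by ring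
    rw [h4]
    exact (Valuation.map_sub _ _ _).trans_lt (max_lt h2 h1)
  rcases le_total a' a with h | h
  · exact key a a' h h3
  · refine (key a' a h ?_).symm
    rw [← Valuation.map_neg, neg_sub]
    exact h3

include hp hb0 in
private theorem DLG_mul {x y : N} {a c : ℤ} (hx : lam.valuation N x = 1)
    (h1 : lam.valuation N (x - (b : N) ^ a) < 1) (h2 : lam.valuation N (y - (b : N) ^ c) < 1) :
    lam.valuation N (x * y - (b : N) ^ (a + c)) < 1 := by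
  have hbN : (b : N) ≠ 0 := by
    intro h
    have := DLG_b (N := N) hp hb0
    rw [h, map_zero] at this
    exact zero_ne_one this
  have h3 : x * y - (b : N) ^ (a + c) =
      x * (y - (b : N) ^ c) + (x - (b : N) ^ a) * (b : N) ^ c := by
    rw [zpow_add₀ hbN]
    ring
  rw [h3]
  refine (Valuation.map_add _ _ _).trans_lt (max_lt ?_ ?_)
  · rw [map_mul, hx, one_mul]
    exact h2
  · rw [map_mul, DLG_bz hp hb0, mul_one]
    exact h1

include hp hb0 in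
private theorem DLG_pow {x : N} {a : ℤ} (hx : lam.valuation N x = 1)
    (h1 : lam.valuation N (x - (b : N) ^ a) < 1) (n : ℕ) :
    lam.valuation N (x ^ n - (b : N) ^ (n * a)) < 1 := by
  induction n with
  | zero => simp
  | succ n ih =>
    rw [pow_succ, Nat.cast_succ, add_mul, one_mul]
    exact DLG_mul hp hb0 (by rw [map_pow, hx, one_pow]) ih h1

end

section
variable {N : Type} [Field N] [NumberField N] [Algebra K N] [DecidableEq N]
  {ϖ : 𝓞 K} {ℓ q : ℕ} (h : PD ϖ ℓ q) {T : Finset (𝓞 K)} {iv : 𝓞 K → 𝓞 K} {n : 𝓞 K → ℤ}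
  (hT : TrD ϖ ℓ T iv n) {P : Pt N} (hP : Ord ϖ P) {μ : 𝓞 K} [Fintype (U μ)]
  (hμ : IsCoprime μ 3) (hμϖ : ¬ ϖ ∣ μ) {J : Pt N} (hJ : Ord μ J)
  {lam : HeightOneSpectrum (𝓞 N)} (hp : (nrm lam).Prime) (hl : ℓ ∣ nrm lam - 1)
  {b : ℤ} (hb : ∀ x : ℤ, ¬ (nrm lam : ℤ) ∣ x → ∃ i : ℕ, (nrm lam : ℤ) ∣ x - b ^ i)
  (hb0 : ¬ (nrm lam : ℤ) ∣ b) (hb1 : ∀ i : ℕ, (nrm lam : ℤ) ∣ b ^ i - 1 → nrm lam - 1 ∣ i)
include h hT hP hμ hμϖ hJ hp hl hb hb0 hb1

theorem dlogG : ∃ α : U μ → 𝓞 K,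
    (∀ (c : U μ → 𝓞 K) (a : ℤ), lam.valuation N (XX T iv n P J c - (b : N) ^ a) < 1 →
      (a : ZMod ℓ) = ∑ v : U μ, ((n (α v * c v) : ℤ) : ZMod ℓ)) ∧
    ∀ c : U μ → 𝓞 K, ∑ v : U μ, ((n (α v * c v) : ℤ) : ZMod ℓ) = 0 →
      ∃ z : N, lam.valuation N (XX T iv n P J c - z ^ ℓ) < 1 := by
  classical
  have hx : ∀ c, lam.valuation N (XX T iv n P J c) = 1 := fun c => XX_val h hT hP hμ hμϖ hJ _ c
  choose a ha using fun c : U μ → 𝓞 K => DLG_log hp hb (hx c)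
  have huniq : ∀ (c : U μ → 𝓞 K) (e : ℤ), lam.valuation N (XX T iv n P J c - (b : N) ^ e) < 1 →
      (e : ZMod ℓ) = (a c : ZMod ℓ) := fun c e he => DLG_uniq hp hb0 hl hb1 he (ha c)
  have hzero : ∀ x : U μ → 𝓞 K, (∀ u, ϖ ∣ x u) → (a x : ZMod ℓ) = 0 := by
    intro x hx0
    have h1 := huniq x 0 (by
      rw [XX_zero h hT hP hμ hμϖ hJ hx0, zpow_zero, sub_self, map_zero]; exact zero_lt_one)
    rw [← h1, Int.cast_zero]
  have hadd : ∀ c d : U μ → 𝓞 K, (a (c + d) : ZMod ℓ) = (a c : ZMod ℓ) + (a d : ZMod ℓ) := by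
    intro c d
    obtain ⟨z, hz0, hz, hcd⟩ := XX_add h hT hP hμ hμϖ hJ c d
    have hz1 : lam.valuation N z = 1 := (val_eq_one_iff lam hz0).2 (hz lam)
    obtain ⟨e, he⟩ := DLG_log hp hb hz1
    have h1 := DLG_mul hp hb0 (hx c) (ha c) (ha d)
    have h2 := DLG_pow hp hb0 hz1 he ℓ
    have h3 := DLG_mul hp hb0 (by rw [map_mul, hx c, hx d, one_mul]) h1 h2
    rw [← hcd] at h3
    rw [← huniq (c + d) _ h3, Int.cast_add, Int.cast_add, Int.cast_mul, Int.cast_natCast,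
      ZMod.natCast_self, zero_mul, add_zero]
  obtain ⟨α, hα⟩ := dualU h hT (AddMonoidHom.mk' (fun c => (a c : ZMod ℓ)) hadd) hzero
  have hα' : ∀ c : U μ → 𝓞 K,
      (a c : ZMod ℓ) = ∑ v : U μ, ((n (α v * c v) : ℤ) : ZMod ℓ) := hα
  refine ⟨α, fun c e he => ?_, fun c hc => ?_⟩
  · rw [← hα']
    exact huniq c e he
  · rw [← hα'] at hc
    have hne : NeZero ℓ := ⟨h.hl.ne_zero⟩
    rw [ZMod.intCast_zmod_eq_zero_iff_dvd] at hc
    obtain ⟨m, hm⟩ := hc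
    refine ⟨(b : N) ^ m, ?_⟩
    rw [← zpow_natCast, ← zpow_mul, mul_comm, ← hm]
    exact ha c

end

end

end Pool.Agent.Lib.MP_1a91b9_ntT.DG
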