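import Pool.Agent.Lib.MP_1a91b9_ntT.DG.Res

/-!
# DG: the function `f2` on the places of `L`

JOB F2. PROOF (complete; helper30).

`f2_princ`: let `x : L`, `x ≠ 0`. `Σ_W od W x * f2 W = Σ_v (Σ_{W over v} od W x * inertiaDeg W) f v` (`finsum_eq_sum_of_support_subset`
over the finite set of places `W` with `od W x ≠ 0` (`od_finite`), `Finset.sum_fiberwise_of_maps_to`). For `v` fixed:
`Σ_{W over v} od W x * inertiaDeg W = od v (Algebra.norm N x)`: by `od_norm`, for `W0` over `v`: `e * od v (norm x) =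
Σ_{σ ∈ Gal(L/N)} od (gpl σ W0) x`, and the orbit map `σ ↦ gpl σ W0` is onto the places over `v` (`gpl_trans`) with all fibres of
cardinality `e f` (the stabilizer; `Ideal.card_stabilizer_eq` as in the private lemma `tad_ef` of DB/ThA.lean, or:
fibres are cosets of the stabilizer, `Σ_{W over v} e f = [L:N]`, `Ideal.sum_ramification_inertia`; all the `e` and all the `f` over
`v` are equal, `Ideal.ramificationIdxIn_eq_ramificationIdx`, `Ideal.inertiaDegIn_eq_inertiaDeg`). So `e * od v (norm x) = e f Σ_{W over v} od W x`,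
cancel `e > 0` (`ramIdx_pos`). Hence the sum is `Σ_v od v (norm x) * f v = 0` (`PrincZero`; the support is finite).
`f2_ne`: the inertia degree divides `finrank N L` (Galois; see the private lemma `dnc_deg` of DB/Dens.lean), which is prime to
`ℓ`, so it is not `0` in `ZMod ℓ` (a field).
`f2_three`: `W 3 < 1` implies `(W.under) 3 < 1` (`val_map_lt`).
`f2_gal`: `σ` maps `N` into itself by `τ`. (a) `(gpl σ W).under (𝓞 N) = gpl τ (W.under (𝓞 N))`: for `x ∈ 𝓞 N`: `x` is in the first iff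
`(gpl σ W).valuation (x) < 1` iff `W.valuation (σ⁻¹ x) < 1` (`gpl_val`), `σ⁻¹ x = algebraMap (τ⁻¹ x)`, iff
`(W.under).valuation (τ⁻¹ x) < 1` (`val_map_lt`) iff `(gpl τ (W.under)).valuation x < 1`; `HeightOneSpectrum.ext`, `Ideal.ext`
(`HeightOneSpectrum.valuation_lt_one_iff_mem`). (b) `inertiaDeg (gpl σ W) = inertiaDeg W`: the ring isomorphism `σ` of `𝓞 L` maps `W` to
`gpl σ W`, `τ` maps `W.under` to its image; the residue fields have the same cardinality: `nrm (gpl σ W) = nrm W` and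
`nrm (gpl τ w) = nrm w` (`nrm` is the cardinality of the residue ring; `Ideal.quotientEquiv` for the ring automorphism), and
`nrm W = nrm (W.under) ^ inertiaDeg` (private lemma `dnc_nrm` of DB/Dens.lean), `Nat.pow_right_injective`.
Here `k1`, `k2` are any subfields (we use `k1 = K`, `k2 = F`).
-/

set_option autoImplicit false

namespace Pool.Agent.Lib.MP_1a91b9_ntT.DG

open NumberField IsDedekindDomain WeierstrassCurve DB

noncomputable section

open Pool.Agent.Lib.MP_1a91b9_nt (nrm nrm_eq)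

private theorem f2a_nrm {N M : Type} [Field N] [NumberField N] [Field M] [NumberField M]
    [Algebra N M] (w : HeightOneSpectrum (𝓞 M)) :
    nrm w = nrm (w.under (𝓞 N)) ^ w.asIdeal.inertiaDeg (𝓞 N) := by
  have i2 : w.asIdeal.LiesOver (w.under (𝓞 N)).asIdeal := ⟨rfl⟩
  rw [nrm_eq, nrm_eq, Ideal.absNorm_pow_inertiaDeg (w.under (𝓞 N)).asIdeal w.asIdeal]

private theorem f2a_two_le {M : Type} [Field M] [NumberField M] (w : HeightOneSpectrum (𝓞 M)) :
    2 ≤ nrm w := by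
  have hfin : Finite (𝓞 M ⧸ w.asIdeal) := w.asIdeal.finiteQuotientOfFreeOfNeBot w.ne_bot
  have hnt : Nontrivial (𝓞 M ⧸ w.asIdeal) := Ideal.Quotient.nontrivial_iff.2 w.isPrime.ne_top
  have h1 : Nat.card (𝓞 M ⧸ w.asIdeal) = nrm w := (nrm_eq w).symm
  have h2 : 1 < Nat.card (𝓞 M ⧸ w.asIdeal) := Finite.one_lt_card
  omega

private theorem f2a_nrm_gpl {k M : Type} [Field k] [NumberField k] [Field M] [NumberField M]
    [Algebra k M] (σ : Gal(M/k)) (W : HeightOneSpectrum (𝓞 M)) : nrm (gpl σ W) = nrm W := by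
  have h1 : W.asIdeal = (gpl σ W).asIdeal.map
      (MulSemiringAction.toRingEquiv Gal(M/k) (𝓞 M) σ⁻¹ : 𝓞 M →+* 𝓞 M) :=
    (Ideal.map_comap_of_surjective _
      (MulSemiringAction.toRingEquiv Gal(M/k) (𝓞 M) σ⁻¹).surjective W.asIdeal).symm
  have e := Ideal.quotientEquiv (gpl σ W).asIdeal W.asIdeal
    (MulSemiringAction.toRingEquiv Gal(M/k) (𝓞 M) σ⁻¹) h1
  have h2 : Nat.card (𝓞 M ⧸ (gpl σ W).asIdeal) = nrm (gpl σ W) := (nrm_eq _).symm
  have h3 : Nat.card (𝓞 M ⧸ W.asIdeal) = nrm W := (nrm_eq _).symm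
  rw [← h2, ← h3]
  exact Nat.card_congr e.toEquiv

private theorem f2a_under {N L k1 k2 : Type} [Field N] [NumberField N] [Field L] [NumberField L]
    [Algebra N L] [Field k1] [NumberField k1] [Algebra k1 L] [Field k2]
    [NumberField k2] [Algebra k2 N] {σ : Gal(L/k1)} {τ : Gal(N/k2)}
    (hστ : ∀ x : N, algebraMap N L (τ x) = σ (algebraMap N L x)) (W : HeightOneSpectrum (𝓞 L)) :
    (gpl σ W).under (𝓞 N) = gpl τ (W.under (𝓞 N)) := by
  apply HeightOneSpectrum.ext
  ext x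
  change σ⁻¹ • algebraMap (𝓞 N) (𝓞 L) x ∈ W.asIdeal ↔
    algebraMap (𝓞 N) (𝓞 L) (τ⁻¹ • x) ∈ W.asIdeal
  have h1 : σ⁻¹ • algebraMap (𝓞 N) (𝓞 L) x = algebraMap (𝓞 N) (𝓞 L) (τ⁻¹ • x) := by
    apply RingOfIntegers.ext
    change σ⁻¹ (algebraMap N L (x : N)) = algebraMap N L (τ⁻¹ (x : N))
    have h2 := hστ (τ⁻¹ (x : N))
    have h3 : τ (τ⁻¹ (x : N)) = (x : N) := AlgEquiv.apply_symm_apply τ (x : N)
    rw [h3] at h2
    rw [h2]
    exact AlgEquiv.symm_apply_apply σ _
  rw [h1]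

private theorem f2a_inert {N L k1 k2 : Type} [Field N] [NumberField N] [Field L] [NumberField L]
    [Algebra N L] [Field k1] [NumberField k1] [Algebra k1 L] [Field k2]
    [NumberField k2] [Algebra k2 N] {σ : Gal(L/k1)} {τ : Gal(N/k2)}
    (hστ : ∀ x : N, algebraMap N L (τ x) = σ (algebraMap N L x)) (W : HeightOneSpectrum (𝓞 L)) :
    (gpl σ W).asIdeal.inertiaDeg (𝓞 N) = W.asIdeal.inertiaDeg (𝓞 N) := by
  have h3 := f2a_nrm (N := N) (gpl σ W)
  have h4 := f2a_nrm (N := N) W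
  rw [f2a_nrm_gpl, f2a_under hστ, f2a_nrm_gpl, h4] at h3
  exact (Nat.pow_right_injective (f2a_two_le (W.under (𝓞 N))) h3).symm

private theorem f2a_deg {N M : Type} [Field N] [NumberField N] [Field M] [NumberField M]
    [Algebra N M] [IsGalois N M] (w : HeightOneSpectrum (𝓞 M)) :
    w.asIdeal.inertiaDeg (𝓞 N) ∣ Module.finrank N M := by
  set v := w.under (𝓞 N) with hv
  have hvp : v.asIdeal.IsPrime := v.isPrime
  have hvm : v.asIdeal.IsMaximal := v.isMaximal
  have hfund := Ideal.ncard_primesOver_mul_ramificationIdxIn_mul_inertiaDegIn v.asIdeal (𝓞 M)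
    Gal(M/N)
  rw [IsGalois.card_aut_eq_finrank] at hfund
  have i1 : w.asIdeal.IsPrime := w.isPrime
  have i2 : w.asIdeal.LiesOver v.asIdeal := ⟨rfl⟩
  rw [Ideal.inertiaDegIn_eq_inertiaDeg v.asIdeal w.asIdeal Gal(M/N)] at hfund
  rw [← hfund]
  exact Dvd.intro_left _ (by rw [← mul_assoc])

private theorem f2a_over {N L : Type} [Field N] [NumberField N] [Field L] [NumberField L]
    [Algebra N L] (v : HeightOneSpectrum (𝓞 N)) :
    ∃ W : HeightOneSpectrum (𝓞 L), W.under (𝓞 N) = v := by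
  obtain ⟨P, hPm, hP⟩ := Ideal.exists_maximal_ideal_liesOver_of_isIntegral (S := 𝓞 L) v.asIdeal
  refine ⟨⟨P, hPm.isPrime, ?_⟩, ?_⟩
  · intro hb
    apply v.ne_bot
    rw [hP.over, hb]
    exact Ideal.comap_bot_of_injective _ (FaithfulSMul.algebraMap_injective (𝓞 N) (𝓞 L))
  · apply HeightOneSpectrum.ext
    exact hP.over.symm

open scoped Pointwise in
private theorem f2a_stab {k N : Type} [Field k] [NumberField k] [Field N] [NumberField N]
    [Algebra k N] [IsGalois k N] (v : HeightOneSpectrum (𝓞 N)) :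
    Nat.card {σ : Gal(N/k) // gpl σ v = v} =
      v.asIdeal.ramificationIdx (𝓞 k) * v.asIdeal.inertiaDeg (𝓞 k) := by
  have i1 : v.asIdeal.IsPrime := v.isPrime
  have i2 : (v.under (𝓞 k)).asIdeal.IsPrime := (v.under (𝓞 k)).isPrime
  have i3 : (v.under (𝓞 k)).asIdeal.IsMaximal := (v.under (𝓞 k)).isMaximal
  have i4 : v.asIdeal.LiesOver (v.under (𝓞 k)).asIdeal := ⟨rfl⟩
  have i5 : Finite (v.under (𝓞 k)).asIdeal.ResidueField := by
    have j1 : Finite (𝓞 k ⧸ (v.under (𝓞 k)).asIdeal) :=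
      Ideal.finiteQuotientOfFreeOfNeBot _ (v.under (𝓞 k)).ne_bot
    exact Finite.of_surjective _
      (Ideal.bijective_algebraMap_quotient_residueField (v.under (𝓞 k)).asIdeal).2
  have h1 := Ideal.card_stabilizer_eq (G := Gal(N/k)) (v.under (𝓞 k)).asIdeal v.asIdeal
  rw [Ideal.ramificationIdxIn_eq_ramificationIdx _ v.asIdeal Gal(N/k),
    Ideal.inertiaDegIn_eq_inertiaDeg _ v.asIdeal Gal(N/k)] at h1
  rw [← h1]
  refine Nat.card_congr (Equiv.subtypeEquivRight fun σ => ?_)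
  rw [MulAction.mem_stabilizer_iff]
  have h2 : σ • v.asIdeal = (gpl σ v).asIdeal := by
    rw [Ideal.pointwise_smul_eq_comap]
    rfl
  rw [h2]
  exact ⟨fun h => congrArg HeightOneSpectrum.asIdeal h, fun h => HeightOneSpectrum.ext h⟩

open Classical in
private theorem f2a_sum {N L : Type} [Field N] [NumberField N] [Field L] [NumberField L]
    [Algebra N L] [IsGalois N L] (W : HeightOneSpectrum (𝓞 L)) (x : L) :
    ∑ σ : Gal(L/N), od (gpl σ W) x =
      ((W.asIdeal.ramificationIdx (𝓞 N) * W.asIdeal.inertiaDeg (𝓞 N) : ℕ) : ℤ) *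
        ∑ V ∈ Finset.univ.image (fun σ : Gal(L/N) => gpl σ W), od V x := by
  rw [← Finset.sum_fiberwise_of_maps_to (t := Finset.univ.image (fun σ : Gal(L/N) => gpl σ W))
    (g := fun σ : Gal(L/N) => gpl σ W) (fun σ _ => Finset.mem_image_of_mem _ (Finset.mem_univ σ)),
    Finset.mul_sum]
  refine Finset.sum_congr rfl fun V hV => ?_
  obtain ⟨τ, -, rfl⟩ := Finset.mem_image.1 hV
  have h1 : ∑ σ ∈ Finset.univ.filter (fun σ : Gal(L/N) => gpl σ W = gpl τ W), od (gpl σ W) x =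
      ∑ _σ ∈ Finset.univ.filter (fun σ : Gal(L/N) => gpl σ W = gpl τ W), od (gpl τ W) x :=
    Finset.sum_congr rfl fun σ hσ => by rw [(Finset.mem_filter.1 hσ).2]
  refine h1.trans ?_
  rw [Finset.sum_const, nsmul_eq_mul]
  have h2 : (Finset.univ.filter (fun σ : Gal(L/N) => gpl σ W = gpl τ W)).card =
      (Finset.univ.filter (fun σ : Gal(L/N) => gpl σ W = W)).card := by
    refine Finset.card_bij (fun σ _ => τ⁻¹ * σ) ?_ ?_ ?_
    · intro σ hσ
      have h3 := (Finset.mem_filter.1 hσ).2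
      refine Finset.mem_filter.2 ⟨Finset.mem_univ _, ?_⟩
      rw [gpl_mul, h3, ← gpl_mul, inv_mul_cancel, gpl_one]
    · intro σ _ σ' _ h3
      exact mul_left_cancel h3
    · intro σ hσ
      have h3 := (Finset.mem_filter.1 hσ).2
      refine ⟨τ * σ, Finset.mem_filter.2 ⟨Finset.mem_univ _, ?_⟩, inv_mul_cancel_left _ _⟩
      rw [gpl_mul, h3]
  have h3 : (Finset.univ.filter (fun σ : Gal(L/N) => gpl σ W = W)).card =
      W.asIdeal.ramificationIdx (𝓞 N) * W.asIdeal.inertiaDeg (𝓞 N) := by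
    rw [← f2a_stab W, Nat.card_eq_fintype_card, Fintype.card_subtype]
  rw [h2, h3]

section
variable {N L : Type} [Field N] [NumberField N] [Field L] [NumberField L] [Algebra N L] {ℓ : ℕ}
  {f : HeightOneSpectrum (𝓞 N) → ZMod ℓ}

theorem f2_princ [IsGalois N L] (hf : PrincZero f) : PrincZero (f2 (L := L) f) := by
  classical
  intro x hx
  have hNx : Algebra.norm N x ≠ 0 := Algebra.norm_ne_zero_iff.2 hx
  obtain ⟨A, hA⟩ : ∃ A : Finset (HeightOneSpectrum (𝓞 L)), ∀ W, W ∈ A ↔ od W x ≠ 0 :=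
    ⟨(od_finite hx).toFinset, fun W => by
      rw [Set.Finite.mem_toFinset]
      rfl⟩
  have hclaim : ∀ v : HeightOneSpectrum (𝓞 N),
      ∑ W ∈ A.filter (fun W => W.under (𝓞 N) = v), od W x • f2 f W =
        od v (Algebra.norm N x) • f v := by
    intro v
    obtain ⟨W0, hW0⟩ := f2a_over (L := L) v
    obtain ⟨O, hO⟩ : ∃ O : Finset (HeightOneSpectrum (𝓞 L)),
        O = Finset.univ.image (fun σ : Gal(L/N) => gpl σ W0) := ⟨_, rfl⟩
    have hOv : ∀ V ∈ O, V.under (𝓞 N) = v ∧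
        V.asIdeal.inertiaDeg (𝓞 N) = W0.asIdeal.inertiaDeg (𝓞 N) := by
      intro V hV
      rw [hO] at hV
      obtain ⟨σ, -, rfl⟩ := Finset.mem_image.1 hV
      refine ⟨(gpl_under σ W0).trans hW0, ?_⟩
      refine f2a_inert (σ := σ) (τ := (1 : Gal(N/N))) (fun y => ?_) W0
      exact (AlgEquiv.commutes σ y).symm
    have h1 : ∑ W ∈ A.filter (fun W => W.under (𝓞 N) = v), od W x • f2 f W =
        ∑ V ∈ O, od V x • f2 f V := by
      refine Finset.sum_subset ?_ ?_
      · intro W hW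
        rw [Finset.mem_filter] at hW
        obtain ⟨σ, hσ⟩ := gpl_trans (k := N) W0 W (hW0.trans hW.2.symm)
        rw [hO]
        exact Finset.mem_image.2 ⟨σ, Finset.mem_univ _, hσ⟩
      · intro V hV hV2
        have h2 : V ∉ A := fun h2 => hV2 (Finset.mem_filter.2 ⟨h2, (hOv V hV).1⟩)
        have h3 : od V x = 0 := by
          by_contra h3
          exact h2 ((hA V).2 h3)
        rw [h3, zero_smul]
    have h2 : ∑ V ∈ O, od V x • f2 f V =
        (∑ V ∈ O, od V x) • ((W0.asIdeal.inertiaDeg (𝓞 N) : ZMod ℓ) * f v) := by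
      rw [Finset.sum_smul]
      refine Finset.sum_congr rfl fun V hV => ?_
      obtain ⟨h3, h4⟩ := hOv V hV
      unfold f2
      rw [h3, h4]
    have h3 := od_norm (k := N) v x hx W0 hW0
    rw [f2a_sum, ← hO] at h3
    have he : (0 : ℤ) < (W0.asIdeal.ramificationIdx (𝓞 N) : ℤ) := by
      exact_mod_cast ramIdx_pos (k := N) W0
    have h4 : od v (Algebra.norm N x) = (W0.asIdeal.inertiaDeg (𝓞 N) : ℤ) * ∑ V ∈ O, od V x := by
      refine mul_left_cancel₀ he.ne' ?_
      rw [h3]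
      push_cast
      ring
    rw [h1, h2, h4]
    rw [zsmul_eq_mul, zsmul_eq_mul]
    push_cast
    ring
  have hsup : Function.support (fun W : HeightOneSpectrum (𝓞 L) => od W x • f2 f W) ⊆ (A : Set _) := by
    intro W hW
    rw [Finset.mem_coe, hA]
    intro h0
    apply hW
    show od W x • f2 f W = 0
    rw [h0, zero_smul]
  rw [finsum_eq_sum_of_support_subset _ hsup]
  obtain ⟨B, hB⟩ : ∃ B : Finset (HeightOneSpectrum (𝓞 N)),
      B = A.image (fun W => W.under (𝓞 N)) := ⟨_, rfl⟩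
  have hfib : ∑ W ∈ A, od W x • f2 f W =
      ∑ v ∈ B, ∑ W ∈ A.filter (fun W => W.under (𝓞 N) = v), od W x • f2 f W := by
    refine (Finset.sum_fiberwise_of_maps_to (g := fun W : HeightOneSpectrum (𝓞 L) => W.under (𝓞 N))
      (fun W hW => ?_) _).symm
    rw [hB]
    exact Finset.mem_image_of_mem _ hW
  rw [hfib, Finset.sum_congr rfl fun v _ => hclaim v]
  have hsup2 : Function.support (fun v : HeightOneSpectrum (𝓞 N) =>
      od v (Algebra.norm N x) • f v) ⊆ (B : Set _) := by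
    intro v hv
    have h1 : od v (Algebra.norm N x) • f v ≠ 0 := hv
    rw [← hclaim v] at h1
    obtain ⟨W, hW, -⟩ := Finset.exists_ne_zero_of_sum_ne_zero h1
    rw [Finset.mem_filter] at hW
    rw [Finset.mem_coe, hB]
    exact Finset.mem_image.2 ⟨W, hW.1, hW.2⟩
  rw [← finsum_eq_sum_of_support_subset _ hsup2]
  exact hf (Algebra.norm N x) hNx

theorem f2_ne [IsGalois N L] (hℓ : ℓ.Prime) (hc : (Module.finrank N L).Coprime ℓ)
    {W : HeightOneSpectrum (𝓞 L)} (hW : f (W.under (𝓞 N)) ≠ 0) : f2 f W ≠ 0 := by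
  have : Fact ℓ.Prime := ⟨hℓ⟩
  unfold f2
  refine mul_ne_zero ?_ hW
  intro h0
  rw [ZMod.natCast_eq_zero_iff] at h0
  have h1 : ℓ ∣ Module.finrank N L := h0.trans (f2a_deg W)
  have h2 := Nat.eq_one_of_dvd_coprimes hc h1 dvd_rfl
  exact hℓ.one_lt.ne' h2

theorem f2_three (hf : ∀ v : HeightOneSpectrum (𝓞 N), v.valuation N (3 : N) < 1 → f v = 0)
    {W : HeightOneSpectrum (𝓞 L)} (hW : W.valuation L (3 : L) < 1) : f2 f W = 0 := by
  unfold f2
  have h1 : W.valuation L (algebraMap N L (3 : N)) < 1 := by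
    rw [map_ofNat]
    exact hW
  rw [hf _ ((val_map_lt W (3 : N)).1 h1), mul_zero]

theorem f2_gal {k1 k2 : Type} [Field k1] [NumberField k1] [Algebra k1 L] [Field k2]
    [NumberField k2] [Algebra k2 N] {σ : Gal(L/k1)} {τ : Gal(N/k2)}
    (hστ : ∀ x : N, algebraMap N L (τ x) = σ (algebraMap N L x)) (W : HeightOneSpectrum (𝓞 L)) :
    f2 f (gpl σ W) = (W.asIdeal.inertiaDeg (𝓞 N) : ZMod ℓ) * f (gpl τ (W.under (𝓞 N))) := by
  unfold f2
  rw [f2a_under hστ, f2a_inert hστ]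

end

end

end Pool.Agent.Lib.MP_1a91b9_ntT.DG
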