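import Pool.Agent.Lib.MP_1a91b9_ntT.DG.Dec
import Pool.Agent.Lib.MP_1a91b9_ntT.S4.LComp

/-!
# DG (7.4): the L-series of the characters

JOB LCHI. PROOF (complete; helper30). `IsCoprime (span {a}) (span {3 μ})` etc. For an ideal `I` of `𝓞 K` prime to `3 μ` the generator `psiK I` is prime to `μ`; its
class `u` (`rp_ex`; unique by `rp_inj`) is used in `XI`. `XI` is completely multiplicative (`psiK_mul`, `rp_mul`; if `I J` is prime to `3 μ` then both are),
`XI 1 = 1`, `‖XI‖ ≤ 1`.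
`Lf_prod`: Euler products (`hasProd_Lf`, S4/LProd.lean, `r = 1/2`) for the functions `fI i I = conj (embK (psiK I)) * XI (χ i) I` on the ideals of `𝓞 K`
(`‖conj (embK (psiK I))‖ ≤ (absNorm I)^(1/2)`: `psi K I = psiK I` (`Ideal.relNorm` for `K/K` is the identity), `norm_psiC_le`, or directly), and for the
function `psibC F I * indC m I`, `m = span {3 μ}` in `𝓞 F` (`S4.indC_mul`, `S4.norm_psibC_mul_le`), whose product is regrouped over the places of `K` by `S4.hasProd_over`.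
Compare the factors at `v`: if `3 ∈ v` or `μ ∈ v` all factors are `1` (`XI = 0`, `indC = 0`; for `P` above `v`: `span {3 μ} ≤ P`, not coprime). Otherwise, with
`β = psiK v`, `q = absNorm v`, `τ = res u`, `f = orderOf τ`, `y = conj (embK β) q^(-s)`: `Π_i (1 - χ i τ y)⁻¹ = ((1 - y^f)^(n/f))⁻¹` (`hχ`), and by `AB.dec` the
product over `P` above `v` of `(1 - conj (embK β)^f (q^f)^(-s))⁻¹` is `((1 - y^f)⁻¹)^(card Over)`, `card Over = n/f`. (`(q^f : ℂ)^(-s) = (q^(-s))^f`,
`Complex.natCast_cpow..`, see `Complex.natCast_mul_natCast_cpow`.) `HasProd` of a finite product of `HasProd`s: `hasProd_prod`/`HasProd.mul` and induction;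
uniqueness of the limit. Finally `S4.Lf_indC` for `m = span {3 μ}` (`hB`).
-/

set_option autoImplicit false

namespace Pool.Agent.Lib.MP_1a91b9_ntT.DG

open NumberField IsDedekindDomain WeierstrassCurve DB

noncomputable section

/-- the character of the ideals prime to `3 μ` attached to `χ` -/
def XI {μ : 𝓞 K} {G : Type} [Group G] (res : U μ →* G) (χ : G →* ℂ) (I : Ideal (𝓞 K)) : ℂ :=
  haveI := Classical.dec (IsCoprime I (Ideal.span {3 * μ}) ∧ ∃ u : U μ, μ ∣ S4.psiK I - rp u)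
  if h : IsCoprime I (Ideal.span {3 * μ}) ∧ ∃ u : U μ, μ ∣ S4.psiK I - rp u then
    χ (res h.2.choose) else 0

section
variable {μ : 𝓞 K} {G : Type} [Group G] (res : U μ →* G) (χ : G →* ℂ)

private theorem lch_of {I : Ideal (𝓞 K)} (hI : IsCoprime I (Ideal.span {3 * μ})) {u : U μ}
    (hu : μ ∣ S4.psiK I - rp u) : XI res χ I = χ (res u) := by
  have h : IsCoprime I (Ideal.span {3 * μ}) ∧ ∃ u : U μ, μ ∣ S4.psiK I - rp u := ⟨hI, u, hu⟩
  unfold XI
  rw [dif_pos h]
  have h1 : h.2.choose = u := by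
    apply rp_inj
    have h2 := dvd_sub hu h.2.choose_spec
    rwa [sub_sub_sub_cancel_left] at h2
  rw [h1]

private theorem lch_not {I : Ideal (𝓞 K)} (hI : ¬ IsCoprime I (Ideal.span {3 * μ})) :
    XI res χ I = 0 := by
  unfold XI
  rw [dif_neg (fun h => hI h.1)]

omit [Group G] in
private theorem lch_ex {I : Ideal (𝓞 K)} (hI : IsCoprime I (Ideal.span {3 * μ})) :
    ∃ u : U μ, μ ∣ S4.psiK I - rp u := by
  apply rp_ex
  rw [← Ideal.span_singleton_mul_span_singleton] at hI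
  have h1 := (S4.psiK_of_coprime I hI.of_mul_right_left).2
  have h2 := hI.of_mul_right_right
  rw [← h1] at h2
  exact (Ideal.isCoprime_span_singleton_iff _ _).1 h2

private theorem lch_mul (I J : Ideal (𝓞 K)) :
    XI res χ (I * J) = XI res χ I * XI res χ J := by
  by_cases hI : IsCoprime I (Ideal.span {3 * μ})
  · by_cases hJ : IsCoprime J (Ideal.span {3 * μ})
    · obtain ⟨u, hu⟩ := lch_ex hI
      obtain ⟨w, hw⟩ := lch_ex hJ
      have h1 : μ ∣ S4.psiK (I * J) - rp (u * w) := by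
        have e : S4.psiK (I * J) - rp (u * w) = (S4.psiK I - rp u) * S4.psiK J +
            rp u * (S4.psiK J - rp w) - (rp (u * w) - rp u * rp w) := by
          rw [S4.psiK_mul]
          ring
        rw [e]
        exact dvd_sub (dvd_add (hu.mul_right _) (hw.mul_left _)) (rp_mul u w)
      rw [lch_of res χ hI hu, lch_of res χ hJ hw, lch_of res χ (hI.mul_left hJ) h1, map_mul, map_mul]
    · rw [lch_not res χ hJ, mul_zero, lch_not]
      exact fun h => hJ h.of_mul_left_right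
  · rw [lch_not res χ hI, zero_mul, lch_not]
    exact fun h => hI h.of_mul_left_left

private theorem lch_one : XI res χ 1 = 1 := by
  have h1 : μ ∣ S4.psiK 1 - rp (1 : U μ) := by
    have h2 := rp_one (μ := μ)
    rwa [← dvd_neg, neg_sub, ← S4.psiK_one] at h2
  rw [lch_of res χ isCoprime_one_left h1, map_one, map_one]

private theorem lch_norm (h : ∀ g, ‖χ g‖ = 1) (I : Ideal (𝓞 K)) : ‖XI res χ I‖ ≤ 1 := by
  by_cases hI : IsCoprime I (Ideal.span {3 * μ})
  · obtain ⟨u, hu⟩ := lch_ex hI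
    rw [lch_of res χ hI hu, h]
  · rw [lch_not res χ hI, norm_zero]
    exact zero_le_one

end

private theorem lch_abs (z : 𝓞 K) :
    (Ideal.absNorm (Ideal.span {z}) : ℝ) = ‖embK (z : K)‖ ^ 2 := by
  rw [← S4.norm_K, Ideal.absNorm_span_singleton]
  have h : ((Algebra.norm ℤ z : ℤ) : ℚ) = Algebra.norm ℚ (z : K) := Algebra.coe_norm_int z
  rw [← h, Nat.cast_natAbs]
  push_cast
  rfl

private theorem lch_le (I : Ideal (𝓞 K)) :
    ‖embK (S4.psiK I : K)‖ ≤ (Ideal.absNorm I : ℝ) ^ (1 / 2 : ℝ) := by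
  by_cases hI : IsCoprime I (Ideal.span {3})
  · have h1 := lch_abs (S4.psiK I)
    rw [(S4.psiK_of_coprime I hI).2] at h1
    rw [h1, ← Real.sqrt_eq_rpow, Real.sqrt_sq (norm_nonneg _)]
  · rw [S4.psiK_of_not_coprime I hI]
    have e : embK (((0 : 𝓞 K)) : K) = 0 := by
      have e1 : (((0 : 𝓞 K)) : K) = 0 := map_zero (algebraMap (𝓞 K) K)
      rw [e1, map_zero]
    rw [e, norm_zero]
    positivity

private theorem lch_cpow (q n : ℕ) (s : ℂ) : ((q ^ n : ℕ) : ℂ) ^ s = ((q : ℂ) ^ s) ^ n := by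
  induction n with
  | zero => rw [pow_zero, pow_zero, Nat.cast_one, Complex.one_cpow]
  | succ n ih => rw [pow_succ, Nat.cast_mul, Complex.natCast_mul_natCast_cpow, ih, pow_succ]

private theorem lch_embpow (β : 𝓞 K) (n : ℕ) :
    (starRingEnd ℂ) (embK (((β ^ n : 𝓞 K)) : K)) = ((starRingEnd ℂ) (embK (β : K))) ^ n := by
  have e : (((β ^ n : 𝓞 K)) : K) = (β : K) ^ n := map_pow (algebraMap (𝓞 K) K) β n
  rw [e, map_pow, map_pow]

section
variable {μ : 𝓞 K} {F L' : Type} [Field F] [NumberField F] [Algebra K F] [Field L']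
  [NumberField L'] [Algebra K L'] [Algebra F L'] [IsScalarTower K F L'] [DecidableEq L']
  {J' : Pt L'} (hAB : AB μ F L' J')
include hAB

theorem AB.Lf_prod {res : U μ →* Gal(F/K)}
    (hres : ∀ (σ : Gal(L'/K)) (u : U μ), ga σ J' = smU J' u →
      ∀ x : F, algebraMap F L' (res u x) = σ (algebraMap F L' x))
    {ι : Type} [Fintype ι] {χ : ι → (Gal(F/K) →* ℂ)} (hχ1 : ∀ i g, ‖χ i g‖ = 1)
    (hχ : ∀ (g : Gal(F/K)) (y : ℂ), ∏ i, (1 - χ i g * y) =
      (1 - y ^ orderOf g) ^ (Fintype.card Gal(F/K) / orderOf g))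
    (B : Finset (HeightOneSpectrum (𝓞 F)))
    (hB : ∀ v, v ∈ B ↔ algebraMap (𝓞 K) (𝓞 F) (3 * μ) ∈ v.asIdeal) {s : ℂ} (hs : 2 < s.re) :
    ∏ i, S4.Lf (fun I : Ideal (𝓞 K) =>
        (starRingEnd ℂ) (embK (S4.psiK I : K)) * XI res (χ i) I) s =
      S4.Lf (S4.psibC F) s *
        ∏ v ∈ B, (1 - S4.psibC F v.asIdeal * (Ideal.absNorm v.asIdeal : ℂ) ^ (-s)) := by
  classical
  obtain ⟨m, hm⟩ : ∃ m : Ideal (𝓞 F), m = Ideal.span {algebraMap (𝓞 K) (𝓞 F) (3 * μ)} := ⟨_, rfl⟩
  have hBm : ∀ w, w ∈ B ↔ m ≤ w.asIdeal := by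
    intro w
    rw [hB, hm, Ideal.span_singleton_le_iff_mem]
  rw [← S4.Lf_indC m B hBm s hs]
  -- the two Euler products
  have hmulf : ∀ (i : ι) (I J : Ideal (𝓞 K)),
      (starRingEnd ℂ) (embK (S4.psiK (I * J) : K)) * XI res (χ i) (I * J) =
        ((starRingEnd ℂ) (embK (S4.psiK I : K)) * XI res (χ i) I) *
          ((starRingEnd ℂ) (embK (S4.psiK J : K)) * XI res (χ i) J) := by
    intro i I J
    have e : (S4.psiK (I * J) : K) = (S4.psiK I : K) * (S4.psiK J : K) := by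
      rw [S4.psiK_mul]
      exact map_mul (algebraMap (𝓞 K) K) _ _
    rw [lch_mul, e, map_mul, map_mul]
    ring
  have honef : ∀ i : ι, (starRingEnd ℂ) (embK (S4.psiK 1 : K)) * XI res (χ i) 1 = 1 := by
    intro i
    have e : (S4.psiK 1 : K) = 1 := by
      rw [S4.psiK_one]
      exact map_one (algebraMap (𝓞 K) K)
    rw [e, lch_one, map_one, map_one, one_mul]
  have hnormf : ∀ (i : ι) (I : Ideal (𝓞 K)),
      ‖(starRingEnd ℂ) (embK (S4.psiK I : K)) * XI res (χ i) I‖ ≤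
        (Ideal.absNorm I : ℝ) ^ (1 / 2 : ℝ) := by
    intro i I
    rw [norm_mul, RCLike.norm_conj]
    calc ‖embK (S4.psiK I : K)‖ * ‖XI res (χ i) I‖
        ≤ (Ideal.absNorm I : ℝ) ^ (1 / 2 : ℝ) * 1 :=
          mul_le_mul (lch_le I) (lch_norm res (χ i) (hχ1 i) I) (norm_nonneg _) (by positivity)
      _ = _ := mul_one _
  have h1 : HasProd (fun w : HeightOneSpectrum (𝓞 K) => ∏ i : ι,
      (1 - (starRingEnd ℂ) (embK (S4.psiK w.asIdeal : K)) * XI res (χ i) w.asIdeal *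
        (Ideal.absNorm w.asIdeal : ℂ) ^ (-s))⁻¹)
      (∏ i : ι, S4.Lf (fun I : Ideal (𝓞 K) =>
        (starRingEnd ℂ) (embK (S4.psiK I : K)) * XI res (χ i) I) s) :=
    hasProd_prod fun i _ => (S4.hasProd_Lf (fun I : Ideal (𝓞 K) =>
      (starRingEnd ℂ) (embK (S4.psiK I : K)) * XI res (χ i) I) (honef i) (hmulf i) (1 / 2)
      (by norm_num) (hnormf i) s (by linarith)).2
  have h2 := (S4.hasProd_Lf (F := F) (fun I => S4.psibC F I * S4.indC m I)
    (by rw [S4.psibC_one, S4.indC_one, mul_one])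
    (fun I J => by rw [S4.psibC_mul, S4.indC_mul]; ring) (1 / 2) (by norm_num)
    (fun I => S4.norm_psibC_mul_le _ I (S4.norm_indC_le m I)) s (by linarith)).2
  have h3 := S4.hasProd_over (F := K) (F' := F) _ _ h2
  refine h1.unique ?_
  have hfun : (fun w : HeightOneSpectrum (𝓞 K) => ∏ i : ι,
      (1 - (starRingEnd ℂ) (embK (S4.psiK w.asIdeal : K)) * XI res (χ i) w.asIdeal *
        (Ideal.absNorm w.asIdeal : ℂ) ^ (-s))⁻¹) =
      (fun v : HeightOneSpectrum (𝓞 K) => ∏ w : S4.Over F v,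
        (1 - (fun I => S4.psibC F I * S4.indC m I) w.1.asIdeal *
          (Ideal.absNorm w.1.asIdeal : ℂ) ^ (-s))⁻¹) := by
    funext v
    have hmem : ∀ P : S4.Over F v, (m ≤ P.1.asIdeal ↔ 3 * μ ∈ v.asIdeal) := by
      intro P
      have e : 3 * μ ∈ v.asIdeal ↔ 3 * μ ∈ P.1.asIdeal.under (𝓞 K) := by rw [P.2]
      rw [hm, Ideal.span_singleton_le_iff_mem, e]
      exact Iff.rfl
    by_cases hv : 3 * μ ∈ v.asIdeal
    · have h4 : ¬ IsCoprime v.asIdeal (Ideal.span {3 * μ}) := by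
        rw [← S4.le_iff_not_coprime, Ideal.span_singleton_le_iff_mem]
        exact hv
      have e1 : ∀ i : ι, (1 - (starRingEnd ℂ) (embK (S4.psiK v.asIdeal : K)) *
          XI res (χ i) v.asIdeal * (Ideal.absNorm v.asIdeal : ℂ) ^ (-s))⁻¹ = 1 := by
        intro i
        rw [lch_not res (χ i) h4, mul_zero, zero_mul, sub_zero, inv_one]
      have e2 : ∀ P : S4.Over F v, (1 - (fun I => S4.psibC F I * S4.indC m I) P.1.asIdeal *
          (Ideal.absNorm P.1.asIdeal : ℂ) ^ (-s))⁻¹ = 1 := by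
        intro P
        have h5 := (S4.le_iff_not_coprime m P.1).1 ((hmem P).2 hv)
        show (1 - S4.psibC F P.1.asIdeal * S4.indC m P.1.asIdeal *
          (Ideal.absNorm P.1.asIdeal : ℂ) ^ (-s))⁻¹ = 1
        rw [S4.indC_of_not h5, mul_zero, zero_mul, sub_zero, inv_one]
      rw [Finset.prod_congr rfl fun i _ => e1 i, Finset.prod_congr rfl fun P _ => e2 P,
        Finset.prod_const_one, Finset.prod_const_one]
    · have h4 : IsCoprime v.asIdeal (Ideal.span {3 * μ}) := by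
        by_contra h5
        rw [← S4.le_iff_not_coprime, Ideal.span_singleton_le_iff_mem] at h5
        exact hv h5
      have hv3 : (3 : 𝓞 K) ∉ v.asIdeal := fun h => hv (v.asIdeal.mul_mem_right _ h)
      have hvμ : μ ∉ v.asIdeal := fun h => hv (v.asIdeal.mul_mem_left _ h)
      obtain ⟨u, hu⟩ := lch_ex h4
      obtain ⟨hd1, hd2⟩ := hAB.dec hres v hv3 hvμ hu
      obtain ⟨y, hy⟩ : ∃ y : ℂ, y = (starRingEnd ℂ) (embK (S4.psiK v.asIdeal : K)) *
          (Ideal.absNorm v.asIdeal : ℂ) ^ (-s) := ⟨_, rfl⟩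
      have e1 : ∀ i : ι, (1 - (starRingEnd ℂ) (embK (S4.psiK v.asIdeal : K)) *
          XI res (χ i) v.asIdeal * (Ideal.absNorm v.asIdeal : ℂ) ^ (-s))⁻¹ =
          (1 - χ i (res u) * y)⁻¹ := by
        intro i
        rw [lch_of res (χ i) h4 hu, hy]
        congr 2
        ring
      have e2 : ∀ P : S4.Over F v, (1 - (fun I => S4.psibC F I * S4.indC m I) P.1.asIdeal *
          (Ideal.absNorm P.1.asIdeal : ℂ) ^ (-s))⁻¹ = (1 - y ^ orderOf (res u))⁻¹ := by
        intro P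
        have h5 : IsCoprime P.1.asIdeal m := by
          by_contra h6
          exact hv ((hmem P).1 ((S4.le_iff_not_coprime m P.1).2 h6))
        show (1 - S4.psibC F P.1.asIdeal * S4.indC m P.1.asIdeal *
          (Ideal.absNorm P.1.asIdeal : ℂ) ^ (-s))⁻¹ = (1 - y ^ orderOf (res u))⁻¹
        rw [S4.indC_of h5, mul_one, S4.psibC, S4.psiC, (hd1 P).1, (hd1 P).2, lch_embpow,
          lch_cpow, ← mul_pow, hy]
      have hpos : 0 < orderOf (res u) := orderOf_pos _
      have hcard : Fintype.card (S4.Over F v) = Fintype.card Gal(F/K) / orderOf (res u) := by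
        rw [← hd2, Nat.mul_div_cancel _ hpos]
      rw [Finset.prod_congr rfl fun i _ => e1 i, Finset.prod_congr rfl fun P _ => e2 P,
        Finset.prod_inv_distrib, hχ, Finset.prod_const, Finset.card_univ, hcard, inv_pow]
  rw [hfun]
  exact h3

end

end

end Pool.Agent.Lib.MP_1a91b9_ntT.DG
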