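import Pool.Agent.Lib.MP_1a91b9_ntT.DG.LChi
import Pool.Agent.Lib.MP_1a91b9_ntT.DG.ZA

/-!
# DG (7.4): the L-series of a character as a sum over the residue classes

JOB LSUM. PROOF (complete; helper30). The ideals `I` of `𝓞 K` prime to `3 μ` correspond to the `a ∈ 𝓞 K` with `3 ∣ a - 1` and `IsCoprime a μ` by `I = span {a}`,
`a = psiK I` (`psiK_span`, `psiK_of_coprime`, `psiK_unique`). For other ideals `XI = 0`. `absNorm (span {a}) = ‖embK a‖^2` (S6/Bs1 `bs1_card` or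
`Ideal.absNorm_span_singleton`), so `(absNorm I : ℂ)^(-s) = (‖embK a‖ : ℂ)^(-2 s)` (`‖embK a‖ > 0`; real power with complex exponent). Hence
`Lf .. = Σ_{a : 3 ∣ a - 1, a prime to μ} conj a * |a|^(-2 s) * χ (res (class of a))`: absolutely convergent (`hasProd_Lf` gives summability over the ideals, or
`summable_Z`); split the sum according to the class `u` of `a` modulo `μ`: the elements `a` with `3 ∣ a - 1` and `μ ∣ a - rp u` are exactly those with
`3 μ ∣ a - xr u` (`IsCoprime μ 3`). So it is `Σ_u χ (res u) ZS (3 μ) (xr u) s` (finite sum of `tsum`s, `Summable.tsum_finsetSum` / `tsum_sum`).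
-/

set_option autoImplicit false

namespace Pool.Agent.Lib.MP_1a91b9_ntT.DG

open NumberField IsDedekindDomain WeierstrassCurve DB

noncomputable section

/-- the summand of `ZS` -/
private def LSum_T (c x : 𝓞 K) (s : ℂ) (a : 𝓞 K) : ℂ :=
  haveI := Classical.dec (c ∣ a - x)
  if c ∣ a - x then (starRingEnd ℂ) (embK (a : K)) * ((‖embK (a : K)‖ : ℝ) : ℂ) ^ (-2 * s) else 0

private theorem LSum_T_pos {c x a : 𝓞 K} (s : ℂ) (h : c ∣ a - x) :
    LSum_T c x s a = (starRingEnd ℂ) (embK (a : K)) * ((‖embK (a : K)‖ : ℝ) : ℂ) ^ (-2 * s) := by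
  unfold LSum_T
  exact if_pos h

private theorem LSum_T_neg {c x a : 𝓞 K} (s : ℂ) (h : ¬ c ∣ a - x) : LSum_T c x s a = 0 := by
  unfold LSum_T
  exact if_neg h

private theorem LSum_cpow {x : ℝ} (hx : 0 ≤ x) (s : ℂ) : (((x ^ 2 : ℝ)) : ℂ) ^ (-s) = (x : ℂ) ^ (-2 * s) := by
  have h1 : (((x ^ 2 : ℝ)) : ℂ) = (x : ℂ) * (x : ℂ) := by
    push_cast
    ring
  rw [h1, Complex.mul_cpow_ofReal_nonneg hx hx, ← pow_two]
  have h2 : (-2 * s : ℂ) = ((2 : ℕ) : ℂ) * (-s) := by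
    push_cast
    ring
  rw [h2, Complex.cpow_nat_mul]

private theorem LSum_norm (a : 𝓞 K) (s : ℂ) :
    (Ideal.absNorm (Ideal.span {a}) : ℂ) ^ (-s) = ((‖embK (a : K)‖ : ℝ) : ℂ) ^ (-2 * s) := by
  have h1 : (Ideal.absNorm (Ideal.span {a}) : ℝ) = ‖embK (a : K)‖ ^ 2 := by
    rw [← bs1_card, Ideal.absNorm_apply, Submodule.cardQuot_apply]
  rw [← LSum_cpow (norm_nonneg _) s, ← h1]
  rw [Complex.ofReal_natCast]

private theorem LSum_key {μ : 𝓞 K} (hμ : IsCoprime μ 3) [Fintype (U μ)] {G : Type} [Group G]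
    (res : U μ →* G) (χ : G →* ℂ) {xr : U μ → 𝓞 K}
    (hx : ∀ u, (3 : 𝓞 K) ∣ xr u - 1 ∧ μ ∣ xr u - rp u) (s : ℂ) {a : 𝓞 K} (h3 : (3 : 𝓞 K) ∣ a - 1)
    (ha : IsCoprime a μ) :
    (starRingEnd ℂ) (embK (S4.psiK (Ideal.span {a}) : K)) * XI res χ (Ideal.span {a}) *
        (Ideal.absNorm (Ideal.span {a}) : ℂ) ^ (-s) =
      ∑ u : U μ, χ (res u) * LSum_T (3 * μ) (xr u) s a := by
  have hψ := S4.psiK_span a h3
  have hc3 : IsCoprime a 3 := by
    obtain ⟨e, he⟩ := h3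
    exact ⟨1, -e, by linear_combination he⟩
  have hcond : IsCoprime (Ideal.span {a}) (Ideal.span {3 * μ}) ∧
      ∃ u : U μ, μ ∣ S4.psiK (Ideal.span {a}) - rp u := by
    refine ⟨(Ideal.isCoprime_span_singleton_iff _ _).mpr (hc3.mul_right ha), ?_⟩
    rw [hψ]
    exact rp_ex ha
  obtain ⟨u0, hu0', hXI⟩ : ∃ u0 : U μ, μ ∣ S4.psiK (Ideal.span {a}) - rp u0 ∧
      XI res χ (Ideal.span {a}) = χ (res u0) := by
    refine ⟨hcond.2.choose, hcond.2.choose_spec, ?_⟩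
    unfold XI
    exact dif_pos hcond
  have hu0 : μ ∣ a - rp u0 := by
    rwa [hψ] at hu0'
  have hdvd : 3 * μ ∣ a - xr u0 := by
    refine IsCoprime.mul_dvd hμ.symm ?_ ?_
    · have e : a - xr u0 = (a - 1) - (xr u0 - 1) := by ring
      rw [e]
      exact dvd_sub h3 (hx _).1
    · have e : a - xr u0 = (a - rp u0) - (xr u0 - rp u0) := by ring
      rw [e]
      exact dvd_sub hu0 (hx _).2
  rw [Finset.sum_eq_single u0]
  · rw [hXI, LSum_T_pos s hdvd, LSum_norm, hψ]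
    ring
  · intro u _ hu
    rw [LSum_T_neg s, mul_zero]
    intro hd
    apply hu
    have h1 : μ ∣ a - xr u := (Dvd.intro_left 3 rfl).trans hd
    have h2 : μ ∣ rp u - rp u0 := by
      have e : rp u - rp u0 = (a - rp u0) - ((a - xr u) + (xr u - rp u)) := by ring
      rw [e]
      exact dvd_sub hu0 (dvd_add h1 (hx u).2)
    exact rp_inj h2
  · intro h
    exact absurd (Finset.mem_univ _) h


theorem Lf_sum {μ : 𝓞 K} (hμ0 : μ ≠ 0) (hμ : IsCoprime μ 3) [Fintype (U μ)] {G : Type} [Group G]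
    (res : U μ →* G) (χ : G →* ℂ) (hχ1 : ∀ g, ‖χ g‖ = 1) {xr : U μ → 𝓞 K}
    (hx : ∀ u, (3 : 𝓞 K) ∣ xr u - 1 ∧ μ ∣ xr u - rp u) {s : ℂ} (hs : 2 < s.re) :
    S4.Lf (fun I : Ideal (𝓞 K) => (starRingEnd ℂ) (embK (S4.psiK I : K)) * XI res χ I) s =
      ∑ u : U μ, χ (res u) * ZS (3 * μ) (xr u) s := by
  have hR : ∑ u : U μ, χ (res u) * ZS (3 * μ) (xr u) s =
      ∑' a : 𝓞 K, ∑ u : U μ, χ (res u) * LSum_T (3 * μ) (xr u) s a := by
    have h1 : ∀ u ∈ (Finset.univ : Finset (U μ)), Summable fun a : 𝓞 K => χ (res u) * LSum_T (3 * μ) (xr u) s a :=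
      fun u _ => (summable_Z (3 * μ) (xr u) hs).mul_left _
    rw [Summable.tsum_finsetSum h1]
    refine Finset.sum_congr rfl (fun u _ => ?_)
    rw [tsum_mul_left]
    rfl
  rw [hR]
  have hsup : ∀ a : 𝓞 K, (∑ u : U μ, χ (res u) * LSum_T (3 * μ) (xr u) s a) ≠ 0 →
      (3 : 𝓞 K) ∣ a - 1 ∧ IsCoprime a μ := by
    intro a ha
    obtain ⟨u, _, hu⟩ := Finset.exists_ne_zero_of_sum_ne_zero ha
    have hd : 3 * μ ∣ a - xr u := by
      by_contra hd
      apply hu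
      rw [LSum_T_neg s hd, mul_zero]
    have h3 : (3 : 𝓞 K) ∣ a - xr u := (Dvd.intro μ rfl).trans hd
    have h4 : μ ∣ a - xr u := (Dvd.intro_left 3 rfl).trans hd
    constructor
    · have e : a - 1 = (a - xr u) + (xr u - 1) := by ring
      rw [e]
      exact dvd_add h3 (hx u).1
    · have h5 : μ ∣ a - rp u := by
        have e : a - rp u = (a - xr u) + (xr u - rp u) := by ring
        rw [e]
        exact dvd_add h4 (hx u).2
      obtain ⟨c, hc⟩ := h5
      obtain ⟨p, q, hpq⟩ := rp_cop u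
      exact ⟨p, q - p * c, by linear_combination p * hc + hpq⟩
  unfold S4.Lf
  refine tsum_eq_tsum_of_ne_zero_bij
    (fun a : Function.support (fun a : 𝓞 K => ∑ u : U μ, χ (res u) * LSum_T (3 * μ) (xr u) s a) =>
      Ideal.span {(a : 𝓞 K)}) ?_ ?_ ?_
  · intro a b hab
    obtain ⟨h1, _⟩ := hsup a.1 a.2
    obtain ⟨h2, _⟩ := hsup b.1 b.2
    exact Subtype.ext (S4.psiK_unique a.1 b.1 h1 h2 hab)
  · intro I hI
    have hXI : XI res χ I ≠ 0 := by
      intro h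
      apply hI
      show (starRingEnd ℂ) (embK (S4.psiK I : K)) * XI res χ I * (Ideal.absNorm I : ℂ) ^ (-s) = 0
      rw [h, mul_zero, zero_mul]
    have hcond : IsCoprime I (Ideal.span {3 * μ}) ∧ ∃ u : U μ, μ ∣ S4.psiK I - rp u := by
      by_contra hcond
      apply hXI
      unfold XI
      exact dif_neg hcond
    have hc3 : IsCoprime I (Ideal.span {3}) := by
      have h := hcond.1
      rw [← Ideal.span_singleton_mul_span_singleton] at h
      exact IsCoprime.of_mul_right_left h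
    obtain ⟨h3, hsp⟩ := S4.psiK_of_coprime I hc3
    have hcop : IsCoprime (S4.psiK I) μ := by
      obtain ⟨u, c, hc⟩ := hcond.2
      obtain ⟨p, q, hpq⟩ := rp_cop u
      exact ⟨p, q - p * c, by linear_combination p * hc + hpq⟩
    have hk := LSum_key hμ res χ hx s h3 hcop
    rw [hsp] at hk
    refine ⟨⟨S4.psiK I, ?_⟩, hsp⟩
    show (∑ u : U μ, χ (res u) * LSum_T (3 * μ) (xr u) s (S4.psiK I)) ≠ 0
    rw [← hk]
    exact hI
  · intro a
    obtain ⟨h1, h2⟩ := hsup a.1 a.2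
    exact LSum_key hμ res χ hx s h1 h2

end

end Pool.Agent.Lib.MP_1a91b9_ntT.DG
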