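import Pool.Agent.Lib.MP_1a91b9_ntT.DG.Grc

/-!
# DG: the units `XX c` in `N`

JOB XISO. PROOF (complete; helper30). `ordP : Ord ϖ (up L P)` and `XX_*` are applied in `L` to the points `up L P`, `J`
(`hG.pd`, `hT`, `hG.cop`, `hG.copw`, `hG.ord`).

`desc_pow`: `not_pow_up` (DB/Dens.lean) with `TopG.copN`.
`ne_pow`: let `XX c = z ^ ℓ`. For every place `W` of `L` above `ϖ`: `XX_pow` with `hG.odP W`, `hz : W (XX c - z^ℓ) = W 0 = 0`.
So the sum `Σ_u (c u) lamQ (smU J u)` has value `< 1` at all these places (`finsum_eq_sum_of_fintype`), and `hnd` gives the claim.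
`XN_iso`: for `d : 𝓞 K` the function `u ↦ c u * d` is `BI`; let `x_d : N` be the element with `algebraMap N L (x_d) = XX (c d)`
(`XX_desc`), a unit of `N` (not zero: `XX_ne_zero`). `A d = el ℓ (x_d)` is additive: `XX (c (d + d')) = XX (c d) XX (c d') z^ℓ` in `L`
(`XX_add`), so `x_{d+d'} / (x_d x_{d'})` is an `ℓ`-th power in `L`, so in `N` (`desc_pow`); `el_mul`, `el_eq`. (`map_zero`: from
additivity, `AddMonoidHom.mk'`.) Let `σ : Gal(N/F)`, `ga σ P = sm d P`; `ϖ ∤ d` (`Full.c_ne`). There is `σ' : Gal(L/K)` which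
extends `σ`: `IsGalois F L` (`IsGalois.tower_top_of_isGalois K F L`), `σ` lifts to `Gal(L/F)` (`AlgEquiv.liftNormal` or
`AlgEquiv.restrictNormalHom_surjective`), restrict the scalars to `K`. `ga σ' (up L P) = up L (ga σ P) = sm d (up L P)`
(coordinates; `pm_sm`), `ga σ' J = smU J b` (`act`), `inB N J b` by `inB_of_fix` (`σ'` fixes `F`). `XX_ga`:
`σ' (XX c) = XX (fun u => c (b⁻¹ u) * d) = XX (fun u => c u * d)` (`XX_cong`, `BI`). Hence `σ x = x_d` in `N`
(`(algebraMap N L).injective`), `el ℓ (sg σ x) = A d`.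
-/

set_option autoImplicit false

namespace Pool.Agent.Lib.MP_1a91b9_ntT.DG

open NumberField IsDedekindDomain WeierstrassCurve DB

noncomputable section

section
variable {μ ϖ : 𝓞 K} {ℓ q : ℕ} {F N L : Type} [Field F] [NumberField F] [Algebra K F]
  [Field N] [NumberField N] [Algebra K N] [Algebra F N] [IsScalarTower K F N] [IsGalois F N]
  [DecidableEq N] [Field L] [NumberField L] [Algebra K L] [Algebra F L] [Algebra N L]
  [IsScalarTower K F L] [IsScalarTower K N L] [IsScalarTower F N L] [DecidableEq L]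
  {P : Pt N} {J : Pt L} (hG : TopG μ ϖ ℓ q F N L P J)
include hG

theorem TopG.desc_pow {y : N} (hy0 : y ≠ 0) (hy : ∃ z : L, algebraMap N L y = z ^ ℓ) :
    ∃ z : N, y = z ^ ℓ := by
  by_contra h
  exact not_pow_up hG.copN hy0 h hy

variable [Fintype (U μ)] {T : Finset (𝓞 K)} {iv : 𝓞 K → 𝓞 K} {n : 𝓞 K → ℤ}
  (hT : TrD ϖ ℓ T iv n)
include hT

theorem TopG.ne_pow (hnd : ND N μ ϖ J) {c : U μ → 𝓞 K} (hc : BI N ϖ J c)
    (hz : ∃ z : L, XX T iv n (up L P) J c = z ^ ℓ) (u : U μ) : ϖ ∣ c u := by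
  obtain ⟨z, hz⟩ := hz
  refine hnd c hc (fun W hW => ?_) u
  rw [finsum_eq_sum_of_fintype]
  refine XX_pow hG.pd hT hG.ordP hG.cop hG.copw hG.ord W hW (hG.odP W hW) (z := z) ?_
  rw [hz, sub_self, map_zero]
  exact zero_le'

theorem TopG.XN_iso {c : U μ → 𝓞 K} (hc : BI N ϖ J c) {x : Nˣ}
    (hx : algebraMap N L (x : N) = XX T iv n (up L P) J c) : Iso F ℓ P x := by
  have hBI : ∀ d : 𝓞 K, BI N ϖ J (fun u => c u * d) := by
    intro d b u hb
    have h1 := hc b u hb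
    show ϖ ∣ c (u * b) * d - c u * d
    rw [← sub_mul]
    exact dvd_mul_of_dvd_left h1 d
  have hex : ∀ d : 𝓞 K, ∃ y : N, algebraMap N L y = XX T iv n (up L P) J (fun u => c u * d) :=
    fun d => hG.XX_desc hT (hBI d)
  choose X hX using hex
  have hX0 : ∀ d : 𝓞 K, X d ≠ 0 := by
    intro d h0
    have h1 := hX d
    rw [h0, map_zero] at h1
    exact XX_ne_zero hG.pd hT hG.ordP hG.cop hG.copw hG.ord (fun u => c u * d) h1.symm
  have hadd : ∀ d d' : 𝓞 K, el ℓ (Units.mk0 (X (d + d')) (hX0 _)) =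
      el ℓ (Units.mk0 (X d) (hX0 _)) + el ℓ (Units.mk0 (X d') (hX0 _)) := by
    intro d d'
    obtain ⟨z, hz0, _, hz⟩ := XX_add hG.pd hT hG.ordP hG.cop hG.copw hG.ord (fun u => c u * d) (fun u => c u * d')
    have h1 : (fun u => c u * (d + d')) = fun u => c u * d + c u * d' := by
      funext u
      ring
    have h2 := hX (d + d')
    rw [h1, hz, ← hX d, ← hX d', ← map_mul] at h2
    have h3 : algebraMap N L (X (d + d') / (X d * X d')) = z ^ ℓ := by
      rw [map_div₀, h2, mul_div_assoc, mul_comm, div_mul_cancel₀]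
      rw [Ne, map_eq_zero]
      exact mul_ne_zero (hX0 _) (hX0 _)
    obtain ⟨w, hw⟩ := hG.desc_pow (div_ne_zero (hX0 _) (mul_ne_zero (hX0 _) (hX0 _))) ⟨z, h3⟩
    have hw0 : w ≠ 0 := by
      rintro rfl
      rw [zero_pow hG.pd.hl.ne_zero] at hw
      exact div_ne_zero (hX0 _) (mul_ne_zero (hX0 _) (hX0 _)) hw
    rw [← el_mul, el_eq]
    refine ⟨Units.mk0 w hw0, Units.ext ?_⟩
    show X (d + d') = X d * X d' * w ^ ℓ
    rw [← hw, mul_div_cancel₀ _ (mul_ne_zero (hX0 _) (hX0 _))]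
  refine ⟨AddMonoidHom.mk' (fun d => el ℓ (Units.mk0 (X d) (hX0 d))) hadd, fun σ d hσ => ?_⟩
  show el ℓ (sg σ x) = el ℓ (Units.mk0 (X d) (hX0 d))
  have hd : ¬ ϖ ∣ d := Full.c_ne hG.pd hG.full hσ
  have hg : IsGalois K L := hG.gal
  have hg2 : IsGalois F L := IsGalois.tower_top_of_isGalois K F L
  let σ₁ : L ≃ₐ[F] L := AlgEquiv.liftNormal σ L
  let σ' : Gal(L/K) := AlgEquiv.restrictScalars K σ₁
  have hF : ∀ y : F, σ' (algebraMap F L y) = algebraMap F L y := fun y => σ₁.commutes y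
  have hN : ∀ y : N, σ' (algebraMap N L y) = algebraMap N L (σ y) := fun y =>
    AlgEquiv.liftNormal_commutes σ L y
  obtain ⟨τ, h1, h2⟩ := hG.restr hF
  have h3 : τ = σ := by
    ext y
    refine (algebraMap N L).injective ?_
    rw [h1, hN]
  rw [h3, hσ] at h2
  have h4 : ga σ' (up L P) = sm L d (up L P) := by
    rw [← h2]
    exact pm_sm _ d P
  obtain ⟨b, _, _, h5, _⟩ := hG.act σ'
  have hb : inB N J b := hG.inB_of_fix h5 hF
  have h6 := XX_ga hG.pd hT hG.ordP hG.cop hG.copw hG.ord hd h5 h4 c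
  have h7 : XX T iv n (up L P) J (fun u => c (b⁻¹ * u) * d) = XX T iv n (up L P) J (fun u => c u * d) := by
    refine XX_cong hG.pd hT hG.ordP hG.cop hG.copw hG.ord fun u => ?_
    have h8 := hc b (b⁻¹ * u) hb
    rw [mul_comm b⁻¹ u, inv_mul_cancel_right] at h8
    rw [← sub_mul, mul_comm b⁻¹ u, ← neg_sub, neg_mul, dvd_neg]
    exact dvd_mul_of_dvd_left h8 d
  rw [h7, ← hx, ← hX d, hN] at h6
  refine congrArg (el ℓ) (Units.ext ?_)
  rw [sg_coe]
  exact (algebraMap N L).injective h6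

end

end

end Pool.Agent.Lib.MP_1a91b9_ntT.DG
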