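import Pool.Agent.Lib.MP_1a91b9_ntT.DG.Conv
import Pool.Agent.Lib.MP_1a91b9_ntT.DG.ThG
import Pool.Agent.Lib.MP_1a91b9_ntT.DG.Dlg
import Pool.Agent.Lib.MP_1a91b9_ntT.DG.Eta
import Pool.Agent.Lib.MP_1a91b9_ntT.DG.XIso
import Pool.Agent.Lib.MP_1a91b9_ntT.DG.Alg

/-!
# DG: there is no isotypic function

JOB NOH. PROOF (complete; helper30). The analogue of `no_h` in DB/Base.lean. `[x] = ((n x : ℤ) : ZMod ℓ)`.

Suppose `f v ≠ 0`. `L/N` is Galois (`IsGalois.tower_top_of_isGalois K N L`, `hG.gal`). Let `W1` be a place of `L` over `v`: `f2 f W1 ≠ 0`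
(`f2_ne`, `TopG.copN`). `exists_trD`: `T, iv, n`. `etaG` for every place `W` (`choose`): `η W : U μ → 𝓞 K`. `η1 = η W1`: `f2 f W1 = f2 f (gpl 1 W1) =
[η1 1 * 1] ≠ 0` (`gpl_one`, `ga_one`, `smU_one`), so `¬ ϖ ∣ η1 1` (`n_dvd`, `TrD.zero`). `exists_r` (`hG.cu`): `t`, `r`.
`r` is invariant: `ϖ ∣ r (w * b) - r w` for `inB N J b`: `conv t η1 (w * b) = Σ_g t (g⁻¹ * (w * b)) * η1 g`, substitute `g = g' * b`
(`Equiv.mulRight b`; `(g' b)⁻¹ (w b) = g'⁻¹ w`, commutative group): `= Σ_{g'} t (g'⁻¹ * w) * η1 (g' * b)`, congruent to `conv t η1 w` by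
`BI` of `η1`. Let `cr u = r u⁻¹`: `BI N ϖ J cr`: `cr (u * b) = r (u⁻¹ b⁻¹)` and `r ((u⁻¹ b⁻¹) b) = r u⁻¹`.
`ξ = XX T iv n (up L P) J cr` is not an `ℓ`-th power: otherwise `ϖ ∣ cr u` for all `u` (`TopG.ne_pow`), so `ϖ ∣ r w` for all `w` and
`ϖ ∣ conv η1 r 1`, so `[conv η1 r 1] = 0`, contradiction.
The function `fr W = Σ_g (if ϖ ∣ r g⁻¹ then 0 else f2 f (gpl (s g) W))`, where `s g : Gal(L/K)` has the classes `(g, r g⁻¹)` if
`ϖ ∤ r g⁻¹` (`surj2`; `s g = 1` otherwise). It is `PrincZero`: a finite sum of functions `W ↦ f2 f (gpl σ W)`, each of which is `PrincZero`: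
`Σ_W od W x • h (gpl σ W) = Σ_{W'} od W' (σ x) • h W'` (`finsum_comp_equiv` for the bijection `gpl σ`, inverse `gpl σ⁻¹`, `gpl_mul`, `gpl_one`;
`gpl_od`); the sum of two `PrincZero` functions is `PrincZero` (`finsum_add_distrib`, finite supports by `od_finite`). `f2_princ`.
`fr W = [conv (η W) r 1]` for all `W`: `conv (η W) r 1 = Σ_g η W (g⁻¹ * 1) * r g`, reindex by `g ↦ g⁻¹` (`Equiv.inv`), `n_sum`; for
`ϖ ∤ r g⁻¹`: `f2 f (gpl (s g) W) = [η W g * r g⁻¹]`; for `ϖ ∣ r g⁻¹` the term is `0`. So `fr W1 ≠ 0`.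
`fr W = 0` if `W 3 < 1`: `(gpl σ W) 3 < 1` (`gpl_val σ W 3`, `σ 3 = 3`), `f2_three`.
`exists_place` (DB/Dens.lean) over `L` with `h = fr`, `ξ` (`XX_ne_zero`, `XX_val`), `S = {W | W 3 < 1} ∪ {W | W μ < 1}` (finite: `od_finite`,
`val_lt_one_iff`, `three_ne`, `μ ≠ 0`): `lam` with `fr lam ≠ 0`, `nrm lam` prime, `ℓ ∣ nrm lam - 1`, `ξ` not an `ℓ`-th power modulo `lam`.
`lam 3 = 1`, `lam μ = 1` (values of integers are `≤ 1`). `exists_prim`: `b`. `dlogG`: `α`. `conv_zero` for `f := f2 f`, `η := η lam`,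
`hth := thaineG ..` (`f2_princ`, `f2_three`): `ϖ ∣ conv α (η lam) w` for all `w`. By the last property of `r`: either `ϖ ∣ conv α r w` for
all `w`: then `Σ_v [α v * cr v] = [conv α r 1] = 0` (reindex `v = g⁻¹`, `n_sum`), so `ξ` is an `ℓ`-th power modulo `lam` (`dlogG`), contradiction;
or `ϖ ∣ conv (η lam) r w` for all `w`: `fr lam = [conv (η lam) r 1] = 0`, contradiction.
-/

set_option autoImplicit false

namespace Pool.Agent.Lib.MP_1a91b9_ntT.DG

open NumberField IsDedekindDomain WeierstrassCurve DB Pool.Agent.Lib.MP_1a91b9_nt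

noncomputable section

section
variable {L : Type} [Field L] [NumberField L]

/-- finite sums of functions orthogonal to the principal divisors -/
private theorem noh_sum {ℓ : ℕ} {ι : Type*} (s : Finset ι)
    {h : ι → HeightOneSpectrum (𝓞 L) → ZMod ℓ} (hh : ∀ i ∈ s, PrincZero (h i)) :
    PrincZero (fun W => ∑ i ∈ s, h i W) := by
  intro x hx
  simp only [Finset.smul_sum]
  rw [finsum_sum_comm s (fun W i => od W x • h i W) fun i _ => ?_]
  · exact Finset.sum_eq_zero fun i hi => hh i hi x hx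
  · refine (od_finite hx).subset ?_
    intro W hW h0
    apply hW
    change od W x • h i W = 0
    rw [h0, zero_smul]

/-- transport by an automorphism -/
private theorem noh_gpl {k : Type} [Field k] [NumberField k] [Algebra k L] {ℓ : ℕ}
    {h : HeightOneSpectrum (𝓞 L) → ZMod ℓ} (hh : PrincZero h) (σ : Gal(L/k)) :
    PrincZero (fun W => h (gpl σ W)) := by
  intro x hx
  let e : HeightOneSpectrum (𝓞 L) ≃ HeightOneSpectrum (𝓞 L) :=
    { toFun := gpl σ
      invFun := gpl σ⁻¹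
      left_inv := fun W => by rw [← gpl_mul, inv_mul_cancel, gpl_one]
      right_inv := fun W => by rw [← gpl_mul, mul_inv_cancel, gpl_one] }
  have hσx : σ x ≠ 0 := by
    intro h0
    exact hx ((map_eq_zero σ).1 h0)
  have h1 := finsum_comp_equiv e (f := fun W : HeightOneSpectrum (𝓞 L) => od W (σ x) • h W)
  rw [hh (σ x) hσx] at h1
  rw [← h1]
  refine finsum_congr fun W => ?_
  change od W x • h (gpl σ W) = od (gpl σ W) (σ x) • h (gpl σ W)
  rw [gpl_od]

private theorem noh_zero {ℓ : ℕ} :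
    PrincZero (fun _ : HeightOneSpectrum (𝓞 L) => (0 : ZMod ℓ)) := by
  intro x _
  simp only [smul_zero]
  exact finsum_zero

/-- integers of value at most one -/
private theorem noh_le [Algebra K L] (W : HeightOneSpectrum (𝓞 L)) (x : 𝓞 K) :
    W.valuation L (algebraMap K L (x : K)) ≤ 1 := by
  have h1 : algebraMap K L (x : K) = algebraMap (𝓞 L) L (algebraMap (𝓞 K) (𝓞 L) x) := rfl
  rw [h1]
  exact W.valuation_le_one _

end

section
variable {μ : 𝓞 K} [Fintype (U μ)]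

private theorem noh_conv_one (α r : U μ → 𝓞 K) : conv α r 1 = ∑ v : U μ, α v * r v⁻¹ := by
  unfold conv
  rw [← Equiv.sum_comp (Equiv.inv (U μ))]
  refine Finset.sum_congr rfl fun g _ => ?_
  rw [Equiv.inv_apply, inv_inv, mul_one]

private theorem noh_conv_dvd {ϖ : 𝓞 K} {α r : U μ → 𝓞 K} (hr : ∀ w, ϖ ∣ r w) (w : U μ) :
    ϖ ∣ conv α r w :=
  Finset.dvd_sum fun g _ => Dvd.dvd.mul_left (hr g) _

/-- invariance of the convolution -/
private theorem noh_conv_inv {ϖ : 𝓞 K} {t η : U μ → 𝓞 K} {b : U μ}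
    (hη : ∀ g, ϖ ∣ η (g * b) - η g) (w : U μ) : ϖ ∣ conv t η (w * b) - conv t η w := by
  have h1 : conv t η (w * b) = ∑ g : U μ, t (g⁻¹ * w) * η (g * b) := by
    unfold conv
    rw [← Equiv.sum_comp (Equiv.mulRight b)]
    refine Finset.sum_congr rfl fun g _ => ?_
    rw [Equiv.coe_mulRight]
    congr 2
    rw [mul_inv_rev, mul_comm b⁻¹, mul_assoc, mul_comm w b, inv_mul_cancel_left]
  rw [h1]
  unfold conv
  rw [← Finset.sum_sub_distrib]
  refine Finset.dvd_sum fun g _ => ?_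
  rw [← mul_sub]
  exact Dvd.dvd.mul_left (hη g) _

end

section
variable {μ ϖ : 𝓞 K} {ℓ q : ℕ} {F N L : Type} [Field F] [NumberField F] [Algebra K F]
  [Field N] [NumberField N] [Algebra K N] [Algebra F N] [IsScalarTower K F N] [IsGalois F N]
  [DecidableEq N] [Field L] [NumberField L] [Algebra K L] [Algebra F L] [Algebra N L]
  [IsScalarTower K F L] [IsScalarTower K N L] [IsScalarTower F N L] [DecidableEq L]
  {P : Pt N} {J : Pt L} (hG : TopG μ ϖ ℓ q F N L P J)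
include hG

theorem TopG.no_hG (hnd : ND N μ ϖ J) {f : HeightOneSpectrum (𝓞 N) → ZMod ℓ}
    (hf : PrincZero f) (hiso : IsoPl F ℓ P f)
    (hf3 : ∀ v : HeightOneSpectrum (𝓞 N), v.valuation N (3 : N) < 1 → f v = 0)
    (v : HeightOneSpectrum (𝓞 N)) : f v = 0 := by
  classical
  by_contra hv0
  have h := hG.pd
  have hKL : IsGalois K L := hG.gal
  have hNL : IsGalois N L := IsGalois.tower_top_of_isGalois K N L
  have hfin : Finite (𝓞 K ⧸ Ideal.span {μ}) := Ring.HasFiniteQuotients.finiteQuotient (by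
    rw [Ne, Ideal.span_singleton_eq_bot]
    exact hG.ne)
  let _ : Fintype (U μ) := Fintype.ofFinite _
  obtain ⟨T, iv, n, hT⟩ := exists_trD h
  obtain ⟨W1, hW1⟩ := CF.exists_over (N := L) v
  have hf2 : PrincZero (f2 (L := L) f) := f2_princ hf
  have hf23 : ∀ W : HeightOneSpectrum (𝓞 L), W.valuation L (3 : L) < 1 → f2 f W = 0 :=
    fun W hW => f2_three hf3 hW
  have hW1f : f2 f W1 ≠ 0 := f2_ne h.hl hG.copN (by rw [hW1]; exact hv0)
  choose η hηB hη using fun W : HeightOneSpectrum (𝓞 L) => hG.etaG hT hiso W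
  have hn0 : ∀ x : 𝓞 K, ϖ ∣ x → ((n x : ℤ) : ZMod ℓ) = 0 := by
    intro x hx
    rw [TrD.zero h hT hx, Int.cast_zero]
  have hη1 : ¬ ϖ ∣ η W1 1 := by
    intro h0
    apply hW1f
    have h1 := hη W1 (1 : Gal(L/K)) 1 1 (by rw [ga_one, smU_one hG.ord])
      (by rw [ga_one, map_one]; rfl)
    rw [gpl_one] at h1
    rw [h1]
    exact hn0 _ (Dvd.dvd.mul_right h0 _)
  obtain ⟨t, r, hr1, hr2, hr3⟩ := exists_r h hT hG.cu ⟨1, hη1⟩
  -- invariance of `r`
  have hrB : ∀ b w : U μ, inB N J b → ϖ ∣ r (w * b) - r w := by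
    intro b w hb
    have h1 := noh_conv_inv (t := t) (fun g => hηB W1 b g hb) w
    have h2 := hr1 (w * b)
    have h3 := hr1 w
    have h4 : r (w * b) - r w = (r (w * b) - conv t (η W1) (w * b)) - (r w - conv t (η W1) w) +
        (conv t (η W1) (w * b) - conv t (η W1) w) := by ring
    rw [h4]
    exact dvd_add (dvd_sub h2 h3) h1
  have hcB : BI N ϖ J (fun u : U μ => r u⁻¹) := by
    intro b u hb
    have h1 := hrB b (u * b)⁻¹ hb
    have h2 : (u * b)⁻¹ * b = u⁻¹ := by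
      rw [mul_inv_rev, mul_comm b⁻¹, inv_mul_cancel_right]
    rw [h2] at h1
    change ϖ ∣ r (u * b)⁻¹ - r u⁻¹
    rw [← dvd_neg, neg_sub]
    exact h1
  have hord : Ord ϖ (up L P) := hG.ordP
  have hξ0 : XX T iv n (up L P) J (fun u : U μ => r u⁻¹) ≠ 0 :=
    XX_ne_zero h hT hord hG.cop hG.copw hG.ord _
  have hξu : ∀ w : HeightOneSpectrum (𝓞 L),
      w.valuation L (XX T iv n (up L P) J (fun u : U μ => r u⁻¹)) = 1 := fun w =>
    XX_val h hT hord hG.cop hG.copw hG.ord (w.valuation L) _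
  have hξ : ¬ ∃ z : L, XX T iv n (up L P) J (fun u : U μ => r u⁻¹) = z ^ ℓ := by
    intro hz
    have h1 := hG.ne_pow hT hnd hcB hz
    apply hr2
    refine hn0 _ (noh_conv_dvd (fun w => ?_) 1)
    have h2 := h1 w⁻¹
    rwa [inv_inv] at h2
  -- the function `fr`
  have hs : ∀ g : U μ, ∃ σ : Gal(L/K), ¬ ϖ ∣ r g⁻¹ → ga σ J = smU J g ∧
      ga σ (up L P) = sm L (r g⁻¹) (up L P) := by
    intro g
    by_cases hg : ϖ ∣ r g⁻¹
    · exact ⟨1, fun h0 => absurd hg h0⟩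
    · obtain ⟨σ, hσ⟩ := hG.surj2 g hg
      exact ⟨σ, fun _ => hσ⟩
  choose s hs using hs
  let fr : HeightOneSpectrum (𝓞 L) → ZMod ℓ := fun W =>
    ∑ g : U μ, (if ϖ ∣ r g⁻¹ then 0 else f2 f (gpl (s g) W))
  have hfrP : PrincZero fr := by
    refine noh_sum Finset.univ (h := fun (g : U μ) W =>
      if ϖ ∣ r g⁻¹ then 0 else f2 f (gpl (s g) W)) fun g _ => ?_
    by_cases hg : ϖ ∣ r g⁻¹
    · simp only [if_pos hg]
      exact noh_zero
    · simp only [if_neg hg]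
      exact noh_gpl hf2 (s g)
  have hfr : ∀ W : HeightOneSpectrum (𝓞 L), fr W = ((n (conv (η W) r 1) : ℤ) : ZMod ℓ) := by
    intro W
    rw [noh_conv_one, n_sum h hT]
    refine Finset.sum_congr rfl fun g _ => ?_
    by_cases hg : ϖ ∣ r g⁻¹
    · rw [if_pos hg, hn0 _ (Dvd.dvd.mul_left hg _)]
    · rw [if_neg hg]
      obtain ⟨h1, h2⟩ := hs g hg
      exact hη W (s g) g (r g⁻¹) h1 h2
  have hfr1 : fr W1 ≠ 0 := by
    rw [hfr]
    exact hr2
  have h30 : (3 : L) ≠ 0 := three_ne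
  have hμ0 : algebraMap K L (μ : K) ≠ 0 := by
    intro h0
    apply hG.ne
    have h1 : (μ : K) = 0 := (map_eq_zero (algebraMap K L)).1 h0
    exact RingOfIntegers.ext h1
  have hS : ({W : HeightOneSpectrum (𝓞 L) | W.valuation L (3 : L) < 1} ∪
      {W : HeightOneSpectrum (𝓞 L) | W.valuation L (algebraMap K L (μ : K)) < 1}).Finite := by
    refine Set.Finite.union ((od_finite h30).subset ?_) ((od_finite hμ0).subset ?_)
    · intro W hW
      exact ((val_lt_one_iff W h30).1 hW).ne'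
    · intro W hW
      exact ((val_lt_one_iff W hμ0).1 hW).ne'
  obtain ⟨lam, hlS, hp, hl, hflam, hlz⟩ := exists_place h.hl
    (by have := h.five; omega) hfrP ⟨W1, hfr1⟩ hξ0 hξu hξ hS
  have hl3 : lam.valuation L (3 : L) = 1 := by
    refine le_antisymm ?_ (not_lt.1 fun h0 => hlS (Or.inl h0))
    have h1 : lam.valuation L (algebraMap (𝓞 L) L 3) ≤ 1 := lam.valuation_le_one (K := L) (3 : 𝓞 L)
    have e3 : algebraMap (𝓞 L) L 3 = 3 := map_ofNat _ 3
    rw [e3] at h1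
    exact h1
  have hlμ : lam.valuation L (algebraMap K L (μ : K)) = 1 :=
    le_antisymm (noh_le lam μ) (not_lt.1 fun h0 => hlS (Or.inr h0))
  obtain ⟨b, hb, hb0, hb1⟩ := exists_prim hp
  obtain ⟨α, hα1, hα2⟩ := dlogG h hT hord hG.cop hG.copw hG.ord hp hl hb hb0 hb1
  have hconv : ∀ w, ϖ ∣ conv α (η lam) w :=
    hG.conv_zero hT (f := f2 f) hα1 (hη lam)
      (fun c => hG.thaineG hp hl hl3 hlμ hT hb hb0 hb1 hf2 hf23 c)
  rcases hr3 α (η lam) hconv with h0 | h0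
  · apply hlz
    refine hα2 _ ?_
    have h1 := n_sum h hT Finset.univ (fun v : U μ => α v * r v⁻¹)
    rw [← h1, ← noh_conv_one]
    exact hn0 _ (h0 1)
  · apply hflam
    rw [hfr]
    exact hn0 _ (h0 1)

end

end

end Pool.Agent.Lib.MP_1a91b9_ntT.DG
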