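import Pool.Agent.Lib.MP_1a91b9_ntT.DG.XQa

/-!
# DG: the units `XX` (algebraic properties)

JOB XXA. PROOF (complete; helper30). All statements are products over `u : U μ` of the statements of XQa.lean with
`Q = smU J u` (`hQ := smU_kill hJ u`): `map_prod`, `Finset.prod_eq_one`, `Finset.prod_ne_zero_iff`,
`Finset.prod_congr`, `Finset.prod_inv_distrib`, `Finset.prod_mul_distrib`, `Finset.prod_pow`. `XX_add`: the `z` of
`xQ_add` for each `u` (`choose`), product; `od_prod`.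
`XX_ga`: `σ (XX c) = Π_u xQ (ga σ (smU J u)) (c u * d)` by `xQ_ga`, and `ga σ (smU J u) = sm (rp u) (ga σ J)`
(`ga_sm`) `= sm (rp u) (smU J g) = smU J (u * g)` (`smU_mul`) `= smU J (g * u)` (`mul_comm`, `U μ` is commutative);
reindex the product by the bijection `u ↦ g * u` (`Equiv.mulLeft g`, `Fintype.prod_equiv` or
`Equiv.prod_comp`): the factor of index `v = g * u` is `xQ (smU J v) (c (g⁻¹ * v) * d)`.
-/

set_option autoImplicit false

namespace Pool.Agent.Lib.MP_1a91b9_ntT.DG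

open NumberField IsDedekindDomain WeierstrassCurve DB

noncomputable section

section
variable {N : Type} [Field N] [NumberField N] [Algebra K N] [DecidableEq N]
  {ϖ : 𝓞 K} {ℓ q : ℕ} (h : PD ϖ ℓ q) {T : Finset (𝓞 K)} {iv : 𝓞 K → 𝓞 K} {n : 𝓞 K → ℤ}
  (hT : TrD ϖ ℓ T iv n) {P : Pt N} (hP : Ord ϖ P) {μ : 𝓞 K} [Fintype (U μ)]
  (hμ : IsCoprime μ 3) (hμϖ : ¬ ϖ ∣ μ) {J : Pt N} (hJ : Ord μ J)
include h hT hP hμ hμϖ hJ

theorem XX_val {Γ : Type*} [LinearOrderedCommGroupWithZero Γ] (v : Valuation N Γ)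
    (c : U μ → 𝓞 K) : v (XX T iv n P J c) = 1 := by
  unfold XX
  rw [map_prod]
  exact Finset.prod_eq_one fun u _ => xQ_val h hT hP hμ hμϖ (smU_kill hJ u) v (c u)

theorem XX_ne_zero (c : U μ → 𝓞 K) : XX T iv n P J c ≠ 0 := by
  unfold XX
  exact Finset.prod_ne_zero_iff.2 fun u _ => xQ_ne_zero h hT hP hμ hμϖ (smU_kill hJ u) (c u)

theorem XX_zero {c : U μ → 𝓞 K} (hc : ∀ u, ϖ ∣ c u) : XX T iv n P J c = 1 := by
  unfold XX
  exact Finset.prod_eq_one fun u _ => xQ_zero h hT hP hμ hμϖ (smU_kill hJ u) (hc u)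

theorem XX_cong {c d : U μ → 𝓞 K} (hc : ∀ u, ϖ ∣ c u - d u) :
    XX T iv n P J c = XX T iv n P J d := by
  unfold XX
  exact Finset.prod_congr rfl fun u _ => xQ_cong h hT hP hμ hμϖ (smU_kill hJ u) (hc u)

theorem XX_neg (c : U μ → 𝓞 K) : XX T iv n P J (fun u => -c u) = (XX T iv n P J c)⁻¹ := by
  unfold XX
  rw [← Finset.prod_inv_distrib]
  exact Finset.prod_congr rfl fun u _ => xQ_neg h hT hP hμ hμϖ (smU_kill hJ u) (c u)

theorem XX_add (c d : U μ → 𝓞 K) : ∃ z : N, z ≠ 0 ∧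
    (∀ w : HeightOneSpectrum (𝓞 N), od w z = 0) ∧
    XX T iv n P J (fun u => c u + d u) = XX T iv n P J c * XX T iv n P J d * z ^ ℓ := by
  choose z hz1 hz2 hz3 using fun u : U μ =>
    xQ_add h hT hP hμ hμϖ (smU_kill hJ u) (c u) (d u)
  refine ⟨∏ u, z u, Finset.prod_ne_zero_iff.2 fun u _ => hz1 u, fun w => ?_, ?_⟩
  · rw [od_prod w _ _ fun u _ => hz1 u]
    exact Finset.sum_eq_zero fun u _ => hz2 u w
  · unfold XX
    rw [← Finset.prod_mul_distrib, ← Finset.prod_pow, ← Finset.prod_mul_distrib]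
    exact Finset.prod_congr rfl fun u _ => hz3 u

theorem XX_ga {k : Type} [Field k] [Algebra K k] [Algebra k N] [IsScalarTower K k N]
    {σ : Gal(N/k)} {g : U μ} {d : 𝓞 K} (hd : ¬ ϖ ∣ d) (hσJ : ga σ J = smU J g)
    (hσ : ga σ P = sm N d P) (c : U μ → 𝓞 K) :
    σ (XX T iv n P J c) = XX T iv n P J (fun u => c (g⁻¹ * u) * d) := by
  have h1 : ∀ u : U μ, ga σ (smU J u) = smU J (g * u) := by
    intro u
    show ga σ (sm N (rp u) J) = _
    rw [ga_sm, hσJ, smU_mul hJ, mul_comm]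
  unfold XX
  rw [map_prod]
  refine Fintype.prod_equiv (Equiv.mulLeft g) _ _ fun u => ?_
  rw [xQ_ga h hT hP hμ hμϖ (smU_kill hJ u) hd hσ (c u), h1]
  show xQ T iv n P (smU J (g * u)) (c u * d) = xQ T iv n P (smU J (g * u)) (c (g⁻¹ * (g * u)) * d)
  rw [inv_mul_cancel_left]

end

end

end Pool.Agent.Lib.MP_1a91b9_ntT.DG
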