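import Pool.Agent.Lib.MP_1a91b9_ntT.DG.XXa

/-!
# DG: the units of the larger field

JOB YYG. PROOF (complete; helper30): adaptation of DB/YY.lean (all its lemmas `yya_*`, `yyb_fix` are public). `N`, `L` as there
(`L = N(R)`, `Ord β R`, `Deg1 β p`); `J : Pt N` of annihilator `μ` with `sm N β J = J`.

`yyG_pt`: `X = up L (smU J u) + sm L a (up L P) + R` is killed by `m q p` (`m` of `exists_nat`, `pm_sm`, `yya_q`, `p_smul`), prime to `3`,
and `X ≠ 0`: otherwise apply `sm (μ ϖ)` (`μ` kills the first, `ϖ` the second term): `sm (μ ϖ) R = 0`, so `β ∣ μ ϖ`, so `β ∣ μ`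
(`β` prime, `hβϖ`). But `sm β J = J` gives `μ ∣ β - 1` (`Ord.sm_eq_iff` with `sm 1 J = J`), so `β ∣ μ ∣ β - 1` and `β ∣ 1`,
contradiction. `yyG_val`: `y_unit`.
`yyG_cong`: as `yy_cong`: `S + up (smU J u) + sm a (up P)` is not in the kernel (`not_ker_mix`: `up (smU J u) + sm a (up P)` is killed by `m q`
and is not `0` for `ϖ ∤ a` because `μ ϖ`-torsion: apply `sm μ`: `sm (μ a) (up P) = 0` implies `ϖ ∣ μ a`), `R` is in the kernel, `add_ker`;
`yya_prod` twice (over `u : U μ` and over `a ∈ T`).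
`norm_ycG`: as `norm_yc`, with `P1 = ptS L + up L (smU J u) + sm L a (up L P)`, `sm β P1 = P1` (`sm β (smU J u) = smU J u` because
`sm (rp u) (sm β J)`, commutativity). Note that the right side does not depend on `u`, `a`.
`yyG_norm`: as `yy_norm`: the norm of the factor of index `u` is `CC^(Σ_a n(c u * iv a)) = 1` (`TrD.sum_zero`).
-/

set_option autoImplicit false

namespace Pool.Agent.Lib.MP_1a91b9_ntT.DG

open NumberField IsDedekindDomain WeierstrassCurve DB

noncomputable section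

section
variable {N L : Type} [Field N] [NumberField N] [Algebra K N] [DecidableEq N] [Field L]
  [NumberField L] [Algebra K L] [DecidableEq L] [Algebra N L] [IsScalarTower K N L]

/-- the unit of the larger field -/
def yyG {μ : 𝓞 K} [Fintype (U μ)] (T : Finset (𝓞 K)) (iv : 𝓞 K → 𝓞 K) (n : 𝓞 K → ℤ)
    (P J : Pt N) (R : Pt L) (c : U μ → 𝓞 K) : L :=
  ∏ u : U μ, ∏ a ∈ T, yc (ptS L + up L (smU J u) + sm L a (up L P) + R) ^ n (c u * iv a)

omit [NumberField N] [NumberField L] in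
/-- the main point is a nonzero point of order prime to `3` -/
private theorem YYG_pt {ϖ : 𝓞 K} {ℓ q : ℕ} (h : PD ϖ ℓ q) {P : Pt N} (hP : Ord ϖ P) {μ : 𝓞 K}
    (hμ : IsCoprime μ 3) {J : Pt N} (hJ : Ord μ J) {β : 𝓞 K} {p : ℕ}
    (hβ : Deg1 β p) (hβϖ : ¬ β ∣ ϖ) {R : Pt L} (hR : Ord β R) (hJβ : sm N β J = J)
    (u : U μ) (a : 𝓞 K) : ∃ k : ℕ, k.Coprime 3 ∧
      k • (up L (smU J u) + sm L a (up L P) + R) = 0 ∧
      up L (smU J u) + sm L a (up L P) + R ≠ 0 := by
  have hPL : Ord ϖ (up L P) := yya_up hP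
  obtain ⟨m, hm3, hm⟩ := exists_nat hμ
  have hU : ∀ c : 𝓞 K, μ ∣ c → sm L c (up L (smU J u)) = 0 := by
    intro c hc
    obtain ⟨e, rfl⟩ := hc
    unfold up
    rw [← pm_sm, mul_comm μ e, ← yya_sm, smU_kill hJ u, map_zero, map_zero]
  have hmU : m • up L (smU J u) = 0 := by
    rw [← sm_nat]
    exact hU _ hm
  have hqA : q • sm L a (up L P) = 0 := yya_q h hPL a
  have hpR : p • R = 0 := p_smul hβ ((hR β).2 dvd_rfl)
  refine ⟨m * (q * p), ?_, ?_, ?_⟩
  · refine Nat.Coprime.mul_left hm3 (Nat.Coprime.mul_left (yya_q3 h) ?_)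
    have h1 := hβ.mod_three
    have h2 : ¬ 3 ∣ p := by omega
    exact ((Nat.Prime.coprime_iff_not_dvd Nat.prime_three).2 h2).symm
  · have e1 : (m * (q * p)) • up L (smU J u) = 0 := by
      rw [mul_comm m, mul_smul, hmU, smul_zero]
    have e2 : (m * (q * p)) • sm L a (up L P) = 0 := by
      have : m * (q * p) = m * p * q := by ring
      rw [this, mul_smul, hqA, smul_zero]
    have e3 : (m * (q * p)) • R = 0 := by
      have : m * (q * p) = m * q * p := by ring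
      rw [this, mul_smul, hpR, smul_zero]
    rw [smul_add, smul_add, e1, e2, e3, add_zero, add_zero]
  · intro e
    have e1 := congrArg (sm L (μ * ϖ)) e
    rw [map_add, map_add, map_zero, hU _ (dvd_mul_right μ ϖ), yya_sm, mul_comm μ ϖ, mul_assoc,
      (hPL _).2 (dvd_mul_right ϖ (μ * a)), zero_add, zero_add] at e1
    have h1 : β ∣ ϖ * μ := (hR _).1 e1
    have h2 : β ∣ μ := (hβ.isPrime.dvd_or_dvd h1).resolve_left hβϖ
    have h3 : μ ∣ β - 1 := by
      rw [← hJ.sm_eq_iff, hJβ, map_one]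
      rfl
    have h4 : β ∣ β - 1 := h2.trans h3
    have h5 : β ∣ 1 := by
      have := dvd_sub (dvd_refl β) h4
      rwa [sub_sub_cancel] at this
    exact hβ.isPrime.not_isUnit (isUnit_of_dvd_one h5)

omit [NumberField N] [NumberField L] in
/-- the point without the third summand -/
private theorem YYG_pt0 {ϖ : 𝓞 K} {ℓ q : ℕ} (h : PD ϖ ℓ q) {P : Pt N} (hP : Ord ϖ P) {μ : 𝓞 K}
    (hμ : IsCoprime μ 3) (hμϖ : ¬ ϖ ∣ μ) {J : Pt N} (hJ : Ord μ J)
    (u : U μ) {a : 𝓞 K} (ha : ¬ ϖ ∣ a) : ∃ k : ℕ, k.Coprime 3 ∧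
      k • (up L (smU J u) + sm L a (up L P)) = 0 ∧
      up L (smU J u) + sm L a (up L P) ≠ 0 := by
  have hPL : Ord ϖ (up L P) := yya_up hP
  obtain ⟨m, hm3, hm⟩ := exists_nat hμ
  have hU : ∀ c : 𝓞 K, μ ∣ c → sm L c (up L (smU J u)) = 0 := by
    intro c hc
    obtain ⟨e, rfl⟩ := hc
    unfold up
    rw [← pm_sm, mul_comm μ e, ← yya_sm, smU_kill hJ u, map_zero, map_zero]
  have hmU : m • up L (smU J u) = 0 := by
    rw [← sm_nat]
    exact hU _ hm
  have hqA : q • sm L a (up L P) = 0 := yya_q h hPL a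
  refine ⟨m * q, Nat.Coprime.mul_left hm3 (yya_q3 h), ?_, ?_⟩
  · have e1 : (m * q) • up L (smU J u) = 0 := by
      rw [mul_comm m, mul_smul, hmU, smul_zero]
    have e2 : (m * q) • sm L a (up L P) = 0 := by
      rw [mul_smul, hqA, smul_zero]
    rw [smul_add, e1, e2, add_zero]
  · intro e
    have e1 := congrArg (sm L μ) e
    rw [map_add, map_zero, hU _ dvd_rfl, zero_add, yya_sm] at e1
    have h1 : ϖ ∣ μ * a := (hPL _).1 e1
    rcases h.prime.dvd_or_dvd h1 with h2 | h2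
    · exact hμϖ h2
    · exact ha h2

omit [NumberField N] [NumberField L] in
private theorem YYG_assoc (A B C : Pt L) : ptS L + A + B + C = ptS L + (A + B + C) := by
  rw [add_assoc (ptS L), add_assoc (ptS L)]

omit [NumberField N] [NumberField L] in
private theorem YYG_assoc0 (A B : Pt L) : ptS L + A + B = ptS L + (A + B) := add_assoc _ _ _

variable {ϖ : 𝓞 K} {ℓ q : ℕ} (h : PD ϖ ℓ q) {T : Finset (𝓞 K)} {iv : 𝓞 K → 𝓞 K} {n : 𝓞 K → ℤ}
  (hT : TrD ϖ ℓ T iv n) {P : Pt N} (hP : Ord ϖ P) {μ : 𝓞 K} [Fintype (U μ)]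
  (hμ : IsCoprime μ 3) (hμϖ : ¬ ϖ ∣ μ) {J : Pt N} (hJ : Ord μ J) {β : 𝓞 K} {p : ℕ}
  (hβ : Deg1 β p) (hβϖ : ¬ β ∣ ϖ) {R : Pt L} (hR : Ord β R) (hJβ : sm N β J = J)
include h hT hP hμ hμϖ hJ hβ hβϖ hR hJβ

theorem yyG_val {Γ : Type*} [LinearOrderedCommGroupWithZero Γ] (v : Valuation L Γ)
    (c : U μ → 𝓞 K) : v (yyG T iv n P J R c) = 1 := by
  unfold yyG
  rw [map_prod]
  refine Finset.prod_eq_one fun u _ => ?_
  rw [map_prod]
  refine Finset.prod_eq_one fun a _ => yya_val_zpow v ?_ _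
  obtain ⟨k, h3, h1, h2⟩ := YYG_pt h hP hμ hJ hβ hβϖ hR hJβ u a
  rw [YYG_assoc]
  exact y_unit v h3 h1 h2

theorem yyG_cong {Γ : Type*} [LinearOrderedCommGroupWithZero Γ] (v : Valuation L Γ)
    (hv : v (algebraMap K L (β : K)) < 1) (c : U μ → 𝓞 K) :
    v (yyG T iv n P J R c - algebraMap N L (XX T iv n P J c)) < 1 := by
  have hk : Ker v R := ker_of_val v hβ.isPrime hβ.one hR hv
  have hx : algebraMap N L (XX T iv n P J c) =
      ∏ u : U μ, ∏ a ∈ T, yc (ptS L + up L (smU J u) + sm L a (up L P)) ^ n (c u * iv a) := by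
    unfold XX
    rw [map_prod]
    refine Finset.prod_congr rfl fun u _ => ?_
    unfold xQ
    rw [map_prod]
    refine Finset.prod_congr rfl fun a _ => ?_
    rw [map_zpow₀]
    congr 1
    have h1 := yc_pm (IsScalarTower.toAlgHom K N L) (ptS N + smU J u + sm N a P)
    rw [map_add, map_add, pm_S, pm_sm] at h1
    exact h1.symm
  rw [hx]
  unfold yyG
  have hA : ∀ (u : U μ) (a : 𝓞 K),
      v (yc (ptS L + up L (smU J u) + sm L a (up L P) + R)) = 1 := fun u a => by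
    obtain ⟨k, h3, h1, h2⟩ := YYG_pt h hP hμ hJ hβ hβϖ hR hJβ u a
    rw [YYG_assoc]
    exact y_unit v h3 h1 h2
  have hB : ∀ (u : U μ), ∀ a ∈ T,
      v (yc (ptS L + up L (smU J u) + sm L a (up L P))) = 1 := fun u a ha => by
    obtain ⟨k, h3, h1, h2⟩ := YYG_pt0 (L := L) h hP hμ hμϖ hJ u (hT.res.nz a ha)
    rw [YYG_assoc0]
    exact y_unit v h3 h1 h2
  have hAu : ∀ u : U μ, v (∏ a ∈ T,
      yc (ptS L + up L (smU J u) + sm L a (up L P) + R) ^ n (c u * iv a)) = 1 := fun u => by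
    rw [map_prod]
    exact Finset.prod_eq_one fun a _ => yya_val_zpow v (hA u a) _
  have hBu : ∀ u : U μ, v (∏ a ∈ T,
      yc (ptS L + up L (smU J u) + sm L a (up L P)) ^ n (c u * iv a)) = 1 := fun u => by
    rw [map_prod]
    exact Finset.prod_eq_one fun a ha => yya_val_zpow v (hB u a ha) _
  refine yya_prod v Finset.univ _ _ (fun u _ => hAu u) (fun u _ => hBu u) fun u _ => ?_
  refine yya_prod v T _ _ (fun a _ => yya_val_zpow v (hA u a) _)
    (fun a ha => yya_val_zpow v (hB u a ha) _) fun a ha =>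
      yya_zpow v (hA u a) (hB u a ha) ?_ _
  obtain ⟨k, h3, h1, h2⟩ := YYG_pt0 (L := L) h hP hμ hμϖ hJ u (hT.res.nz a ha)
  have h4 := not_ker_mix v h3 three_S S_ne_zero h1 h2
  rw [← YYG_assoc0] at h4
  exact lt_of_le_of_lt (add_ker v h4 hk).2.2 (ker_tc_lt v hk)

variable [IsGalois N L] (hPβ : sm N β P = P) (hgen : ∀ σ : Gal(L/N), ga σ R = R → σ = 1)
  (hall : ∀ c : 𝓞 K, ¬ β ∣ c → ∃ σ : Gal(L/N), ga σ R = sm L c R)
include hPβ hgen hall

theorem norm_ycG (u : U μ) {a : 𝓞 K} (ha : ¬ ϖ ∣ a) :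
    algebraMap N L (Algebra.norm N (yc (ptS L + up L (smU J u) + sm L a (up L P) + R))) =
      ∏ j ∈ Finset.Ico 1 p, yc (ptS L + j • R) := by
  have hβ0 : β ≠ 0 := hβ.isPrime.ne_zero
  have hRβ : sm L β R = 0 := (hR β).2 dvd_rfl
  have hR0 : R ≠ 0 := by
    intro e
    refine hβ.isPrime.not_isUnit (isUnit_of_dvd_one ((hR 1).1 ?_))
    rw [e, map_zero]
  have hPL : sm L β (up L P) = up L P := by
    unfold up
    rw [← pm_sm, hPβ]
  have hJL : sm L β (up L (smU J u)) = up L (smU J u) := by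
    unfold up
    rw [← pm_sm]
    unfold smU
    rw [yya_sm, mul_comm β (rp u), ← yya_sm, hJβ]
  obtain ⟨k, h3, h1, h2⟩ := YYG_pt0 (L := L) h hP hμ hμϖ hJ u ha
  have hy1 : (1 : Valuation L (WithZero (Multiplicative ℤ)))
      (yc (ptS L + up L (smU J u) + sm L a (up L P))) = 1 := by
    rw [YYG_assoc0]
    exact y_unit _ h3 h1 h2
  have hy : yc (ptS L + up L (smU J u) + sm L a (up L P)) ≠ 0 := by
    intro e
    rw [e, map_zero] at hy1
    exact zero_ne_one hy1
  set P1 := ptS L + up L (smU J u) + sm L a (up L P) with hP1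
  have hsm : sm L β P1 = P1 := by
    rw [hP1, map_add, map_add, sm_S β hβ.one, hJL, yya_sm, mul_comm β a, ← yya_sm, hPL]
  have hP10 : P1 ≠ 0 := by
    intro e
    rw [e] at hy
    exact hy yc_zero
  obtain ⟨f⟩ := exists_emb L
  have hd := dist_deg1 f hβ hRβ hR0 (P := P1) (by rw [hsm]; exact hP10) (by rw [hsm]; exact hy)
  rw [hsm] at hd
  have hd1 := mul_left_cancel₀ hy hd
  rw [hd1, Algebra.norm_eq_prod_automorphisms]
  have hex : ∀ σ : Gal(L/N), ∃ j : ℕ, j ∈ Finset.Ico 1 p ∧ ga σ R = j • R := by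
    intro σ
    obtain ⟨c, hc, hc1⟩ := gal_sm hβ0 hR σ
    obtain ⟨k, hk, hk1⟩ := hβ.exists_int c
    refine ⟨k, Finset.mem_Ico.2 ⟨?_, hk⟩, ?_⟩
    · rcases Nat.eq_zero_or_pos k with e | e
      · exfalso
        rw [e, Nat.cast_zero, sub_zero] at hk1
        exact hβ.isPrime.not_isUnit (hc.isUnit_of_dvd' hk1 dvd_rfl)
      · exact e
    · rw [hc1, sm_eq_int hRβ (k := (k : ℤ)) (by rw [Int.cast_natCast]; exact hk1), natCast_zsmul]
  have hinj : ∀ i ∈ Finset.Ico 1 p, ∀ j ∈ Finset.Ico 1 p, i • R = j • R → i = j := by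
    intro i hi j hj hij
    rw [Finset.mem_Ico] at hi hj
    have h3 : ((i : ℤ) - j) • R = 0 := by
      rw [sub_smul, natCast_zsmul, natCast_zsmul, hij, sub_self]
    have h4 := (smul_zero_iff hβ hRβ hR0 _).1 h3
    have h5 : ((i : ℤ) - j) = 0 := Int.eq_zero_of_abs_lt_dvd h4 (by rw [abs_lt]; omega)
    omega
  choose j hj1 hj2 using hex
  refine Finset.prod_bij (fun σ _ => j σ) (fun σ _ => hj1 σ) ?_ ?_ ?_
  · intro σ _ τ _ e
    have e1 : ga σ R = ga τ R := by
      rw [hj2, hj2, e]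
    have e2 : ga (τ⁻¹ * σ) R = R := by
      rw [ga_mul, e1, ← ga_mul, inv_mul_cancel, ga_one]
    have e3 := hgen _ e2
    exact (inv_mul_eq_one.1 e3).symm
  · intro i hi
    have h3 : ¬ β ∣ ((i : ℕ) : 𝓞 K) := by
      intro hd
      rw [← Int.cast_natCast, hβ.dvd_int_iff] at hd
      rw [Finset.mem_Ico] at hi
      have := Int.le_of_dvd (by omega) hd
      omega
    obtain ⟨σ, hσ⟩ := hall _ h3
    refine ⟨σ, Finset.mem_univ _, hinj _ (hj1 σ) _ hi ?_⟩
    rw [← hj2, hσ, sm_nat]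
  · intro σ _
    rw [← yc_ga]
    have h3 : ga σ (P1 + R) = P1 + j σ • R := by
      rw [map_add, hj2, hP1, map_add, map_add, ga_S, ga_sm, yyb_fix, yyb_fix]
    rw [← h3]

theorem yyG_norm (c : U μ → 𝓞 K) : Algebra.norm N (yyG T iv n P J R c) = 1 := by
  have hβ0 : β ≠ 0 := hβ.isPrime.ne_zero
  have hRβ : sm L β R = 0 := (hR β).2 dvd_rfl
  have hR0 : R ≠ 0 := by
    intro e
    refine hβ.isPrime.not_isUnit (isUnit_of_dvd_one ((hR 1).1 ?_))
    rw [e, map_zero]
  apply (algebraMap N L).injective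
  rw [map_one, Algebra.norm_eq_prod_automorphisms]
  set CC := ∏ j ∈ Finset.Ico 1 p, yc (ptS L + j • R) with hCC
  have hC0 : CC ≠ 0 := by
    rw [hCC, Finset.prod_ne_zero_iff]
    intro i hi e
    have hi1 := Finset.mem_Ico.1 hi
    have h3 : i • R ≠ 0 := by
      intro e1
      have e2 : (i : ℤ) • R = 0 := by
        rw [natCast_zsmul]
        exact e1
      rw [smul_zero_iff hβ hRβ hR0] at e2
      have := Int.le_of_dvd (by omega) e2
      omega
    have h4 : p • (i • R) = 0 := by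
      rw [← mul_smul, mul_comm, mul_smul, p_smul hβ hRβ, smul_zero]
    have h5 : p.Coprime 3 := by
      have h1 := hβ.mod_three
      have h2 : ¬ 3 ∣ p := by omega
      exact ((Nat.Prime.coprime_iff_not_dvd Nat.prime_three).2 h2).symm
    have h6 : (1 : Valuation L (WithZero (Multiplicative ℤ))) (yc (ptS L + i • R)) = 1 :=
      y_unit _ h5 h4 h3
    rw [e, map_zero] at h6
    exact zero_ne_one h6
  have h1 : ∏ σ : Gal(L/N), σ (yyG T iv n P J R c) =
      ∏ u : U μ, ∏ a ∈ T, CC ^ n (c u * iv a) := by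
    unfold yyG
    have h2 : ∀ σ : Gal(L/N), σ (∏ u : U μ, ∏ a ∈ T,
        yc (ptS L + up L (smU J u) + sm L a (up L P) + R) ^ n (c u * iv a)) =
        ∏ u : U μ, ∏ a ∈ T,
          σ (yc (ptS L + up L (smU J u) + sm L a (up L P) + R)) ^ n (c u * iv a) := fun σ => by
      rw [map_prod]
      refine Finset.prod_congr rfl fun u _ => ?_
      rw [map_prod]
      exact Finset.prod_congr rfl fun a _ => map_zpow₀ σ _ _
    rw [Finset.prod_congr rfl fun σ _ => h2 σ, Finset.prod_comm]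
    refine Finset.prod_congr rfl fun u _ => ?_
    rw [Finset.prod_comm]
    refine Finset.prod_congr rfl fun a ha => ?_
    rw [Finset.prod_zpow, hCC,
      ← norm_ycG h hT hP hμ hμϖ hJ hβ hβϖ hR hJβ hPβ hgen hall u (hT.res.nz a ha),
      Algebra.norm_eq_prod_automorphisms]
  rw [h1]
  have h2 : ∀ (e : 𝓞 K) (s : Finset (𝓞 K)),
      ∏ a ∈ s, CC ^ n (e * iv a) = CC ^ (∑ a ∈ s, n (e * iv a)) := by
    intro e s
    classical
    induction s using Finset.induction_on with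
    | empty => rw [Finset.prod_empty, Finset.sum_empty, zpow_zero]
    | insert i s hi ih => rw [Finset.prod_insert hi, Finset.sum_insert hi, zpow_add₀ hC0, ih]
  refine Finset.prod_eq_one fun u _ => ?_
  rw [h2, hT.sum_zero h, zpow_zero]

end

end

end Pool.Agent.Lib.MP_1a91b9_ntT.DG
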