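import Pool.Agent.Lib.MP_1a91b9_ntT.DG.ZDefs

/-!
# DG (7.1): the logarithmic derivative of the ordinate

By `sig` (S3/Inj) `E1 (z - w) - E1 z + E1 w` is the slope of the chord of `z` and `- w`. For `w = s0`, the zero of
the ordinate, `P s0 = 0` and `E1 s0 = 0` (`zt * s0 - s0` is a lattice point).
-/

set_option autoImplicit false

namespace Pool.Agent.Lib.MP_1a91b9_ntT.DG

open NumberField IsDedekindDomain WeierstrassCurve DB S3

noncomputable section

theorem zb_int {z : ℂ} (h : zt * z - z ∈ PP.lattice) : E1 z = 0 := by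
  have h1 := S3.E1_add h z
  have e : z + (zt * z - z) = zt * z := by ring
  rw [e, S3.E1_zt] at h1
  have h2 : (1 - zt ^ 2) * E1 z = 0 := by linear_combination -h1
  refine (mul_eq_zero.1 h2).resolve_left ?_
  intro h
  apply zt_ne_one
  linear_combination zt_cube + zt * h

theorem zb_P {s0 : ℂ} (h0 : s0 ∉ PP.lattice) (hY : Y s0 = 1) : PP.weierstrassP s0 = 0 := by
  have h1 := Y_sq h0
  rw [hY] at h1
  have h2 : X s0 ^ 3 = 0 := by linear_combination -h1 / 4
  have h3 : X s0 = 0 := by
    exact pow_eq_zero_iff (by norm_num) |>.1 h2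
  rw [X] at h3
  exact (div_eq_zero_iff.1 h3).resolve_right (pow_ne_zero _ Om_ne_zero)

theorem zb_Y_add {l : ℂ} (hl : l ∈ PP.lattice) (z : ℂ) : Y (z + l) = Y z := by
  rw [Y, Y, Q_add hl]

theorem zb_Y_neg (z : ℂ) : Y (-z) = -Y z := by
  rw [Y, Y, PP.derivWeierstrassP_neg, neg_div]

theorem zb_two {s0 : ℂ} (hY : Y s0 = 1) : 2 * s0 ∉ PP.lattice := by
  intro h
  have h1 := zb_Y_add h (-s0)
  have e : -s0 + 2 * s0 = s0 := by ring
  rw [e, zb_Y_neg, hY] at h1
  norm_num at h1

theorem zb_fix {s0 : ℂ} (h0 : s0 ∉ PP.lattice) (hY : Y s0 = 1) : zt * s0 - s0 ∈ PP.lattice := by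
  have hQ : PP.derivWeierstrassP s0 ≠ 0 := by
    intro h
    rw [Y, h, zero_div] at hY
    exact zero_ne_one hY
  have hP := zb_P h0 hY
  rcases P_inj (zb_two hY) hQ (fun h => h0 (zt_mul_mem.1 h))
    (by rw [P_zt, hP, mul_zero]) with h | h
  · exact h
  · exfalso
    have h1 := zb_Y_add h (-s0)
    have e : -s0 + (zt * s0 + s0) = zt * s0 := by ring
    have h2 : Y (zt * s0) = Y s0 := by rw [Y, Y, Q_zt]
    rw [e, zb_Y_neg, h2, hY] at h1
    norm_num at h1

theorem zb_chord {z w : ℂ} (hz : z ∉ PP.lattice) (hw : 2 * w ∉ PP.lattice)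
    (h1 : z - w ∉ PP.lattice) (h2 : z + w ∉ PP.lattice) :
    2 * (PP.weierstrassP z - PP.weierstrassP w) * (E1 (z - w) - E1 z + E1 w) =
      PP.derivWeierstrassP z + PP.derivWeierstrassP w := by
  have a1 := sig hw hz h1 h2
  by_cases hz2 : 2 * z ∈ PP.lattice
  · have b1 : E1 z = 0 := by
      have h := S3.E1_add hz2 (-z)
      have e : -z + 2 * z = z := by ring
      rw [e, S3.E1_neg] at h
      linear_combination h / 2
    have b2 : PP.derivWeierstrassP z = 0 := by
      have h := Q_add hz2 (-z)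
      have e : -z + 2 * z = z := by ring
      rw [e, PP.derivWeierstrassP_neg] at h
      linear_combination h / 2
    have b3 : E1 (z + w) = - E1 (z - w) := by
      have h := S3.E1_add hz2 (-(z - w))
      have e : -(z - w) + 2 * z = z + w := by ring
      rw [e, S3.E1_neg] at h
      exact h
    rw [b3] at a1
    rw [b1, b2]
    linear_combination a1
  · have hw1 := notMem_of_two_mul hw
    have h3 : w - z ∉ PP.lattice := fun h => h1 (by
      have h' := neg_mem h
      rwa [neg_sub] at h')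
    have h4 : w + z ∉ PP.lattice := by rwa [add_comm]
    have a2 := sig hz2 hw1 h3 h4
    have e1 : E1 (w - z) = - E1 (z - w) := by rw [← S3.E1_neg, neg_sub]
    rw [e1, add_comm w z] at a2
    linear_combination a1 + a2

theorem lam_E1 {s0 : ℂ} (h0 : s0 ∉ PP.lattice) (hY : Y s0 = 1) {z : ℂ} (hz : z ∉ PP.lattice)
    (hz0 : z - s0 ∉ PP.lattice) :
    Om * (3 * X z ^ 2 / ((Y z - 1) / 2)) = 3 * (E1 (z - s0) - E1 z) := by
  have hOm := Om_ne_zero
  have hfix := zb_fix h0 hY
  have hE0 : E1 s0 = 0 := zb_int hfix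
  have hP := zb_P h0 hY
  have hQ : PP.derivWeierstrassP s0 = Om ^ 3 := by
    rw [Y, div_eq_one_iff_eq (pow_ne_zero _ hOm)] at hY
    exact hY
  by_cases h2 : z + s0 ∈ PP.lattice
  · have c1 : PP.weierstrassP z = 0 := by
      have h := P_add h2 (-s0)
      have e : -s0 + (z + s0) = z := by ring
      rw [e, PP.weierstrassP_neg, hP] at h
      exact h
    have c2 : E1 z = 0 := by
      have h := S3.E1_add h2 (-s0)
      have e : -s0 + (z + s0) = z := by ring
      rw [e, S3.E1_neg, hE0, neg_zero] at h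
      exact h
    have c3 : E1 (z - s0) = 0 := by
      apply zb_int
      have e : zt * (z - s0) - (z - s0) = (zt * (z + s0) - (z + s0)) - 2 * (zt * s0 - s0) := by ring
      rw [e]
      refine sub_mem (sub_mem (zt_mul_mem.2 h2) h2) ?_
      rw [two_mul]
      exact add_mem hfix hfix
    rw [X, c1, c2, c3]
    simp
  · have a := zb_chord hz (zb_two hY) hz0 h2
    rw [hP, hQ, hE0, sub_zero, add_zero] at a
    have hY2 := Y_sq hz
    have hPz : PP.weierstrassP z ≠ 0 := by
      intro h
      have h3 : Y z ^ 2 = 1 := by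
        rw [hY2, X, h]
        simp
      have hQ0 : PP.derivWeierstrassP s0 ≠ 0 := by
        rw [hQ]
        exact pow_ne_zero _ hOm
      rcases P_inj (zb_two hY) hQ0 hz (by rw [h, hP]) with h4 | h4
      · exact hz0 h4
      · exact h2 h4
    have hXz : X z ≠ 0 := div_ne_zero hPz (pow_ne_zero _ hOm)
    have hY1 : Y z - 1 ≠ 0 := by
      intro h
      have h3 : Y z = 1 := by linear_combination h
      rw [h3] at hY2
      have h4 : X z ^ 3 = 0 := by linear_combination -hY2 / 4
      exact hXz (pow_eq_zero_iff (by norm_num) |>.1 h4)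
    have eP : PP.weierstrassP z = X z * Om ^ 2 := by
      rw [X]
      field_simp
    have eQ : PP.derivWeierstrassP z = Y z * Om ^ 3 := by
      rw [Y]
      field_simp
    rw [eP, eQ] at a
    have a' : 2 * X z * (E1 (z - s0) - E1 z) = Om * (Y z + 1) := by
      apply mul_left_cancel₀ (pow_ne_zero 2 hOm)
      linear_combination a
    apply mul_left_cancel₀ hXz
    have e : X z * (Om * (3 * X z ^ 2 / ((Y z - 1) / 2))) = Om * (6 * X z ^ 3) / (Y z - 1) := by
      field_simp
      ring
    rw [e, div_eq_iff hY1]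
    linear_combination (-(3 / 2) * (Y z - 1)) * a' - (3 / 2) * Om * hY2

end

end Pool.Agent.Lib.MP_1a91b9_ntT.DG
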